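import Mathlib

set_option autoImplicit false
set_option linter.unusedVariables false
set_option linter.unusedSectionVars false

open scoped unitInterval Topology
open ContinuousMap Topology Metric

noncomputable section

namespace BB

/-- Hurewicz fibration: homotopy lifting property for all spaces -/
def IsHurewiczFibration {E B : Type} [TopologicalSpace E] [TopologicalSpace B] (p : C(E, B)) : Prop :=
  ∀ (X : Type) [TopologicalSpace X] (H : C(X × unitInterval, B)) (h : C(X, E)),
    (∀ x, p (h x) = H (x, 0)) →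
      ∃ G : C(X × unitInterval, E), (∀ x, G (x, 0) = h x) ∧ ∀ q, p (G q) = H q

/-- absolute neighbourhood retracts (for metrizable spaces), in the form of the neighbourhood
extension property -/
def IsANR (K : Type) [TopologicalSpace K] : Prop :=
  TopologicalSpace.MetrizableSpace K ∧
    ∀ (X : Type) [TopologicalSpace X] [TopologicalSpace.MetrizableSpace X] (A : Set X),
      IsClosed A → ∀ φ : C(A, K), ∃ (U : Set X) (ψ : C(U, K)), IsOpen U ∧
        ∃ h : A ⊆ U, ∀ a : A, ψ ⟨a.1, h a.2⟩ = φ a

/-- `f` is a shape equivalence: it induces bijections of homotopy classes of maps to all ANRs -/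
def IsShapeEquivalence {X Y : Type} [TopologicalSpace X] [TopologicalSpace Y] (f : C(X, Y)) : Prop :=
  ∀ (K : Type) [TopologicalSpace K], IsANR K →
    (∀ u : C(X, K), ∃ w : C(Y, K), ContinuousMap.Homotopic (w.comp f) u) ∧
    ∀ w w' : C(Y, K), ContinuousMap.Homotopic (w.comp f) (w'.comp f) → ContinuousMap.Homotopic w w'

/-- countable power -/
structure PM (M0 : Type) : Type where
  out : ℕ → M0

theorem pm_exists (M0 : Type) [MetricSpace M0] : ∃ m : MetricSpace (PM M0),
    (∀ x y : PM M0, m.dist x y = ∑' i, min ((1 / 2 : ℝ) ^ i) (dist (x.out i) (y.out i))) ∧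
    (@Continuous (PM M0) (ℕ → M0) m.toPseudoMetricSpace.toUniformSpace.toTopologicalSpace _ PM.out) ∧
    (@Continuous (ℕ → M0) (PM M0) _ m.toPseudoMetricSpace.toUniformSpace.toTopologicalSpace PM.mk) := by
  have hinj : Function.Injective (PM.out : PM M0 → ℕ → M0) := by
    intro x y h
    cases x
    cases y
    simpa using h
  refine ⟨MetricSpace.induced PM.out hinj PiCountable.metricSpace, ?_, ?_, ?_⟩
  · intro x y
    have h : (∑' i : ℕ, min ((2 : ℝ)⁻¹ ^ Encodable.encode i) (dist (x.out i) (y.out i))) =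
        ∑' i, min ((1 / 2 : ℝ) ^ i) (dist (x.out i) (y.out i)) := by
      simp only [one_div, Encodable.encode_nat]
    exact h
  · exact continuous_induced_dom
  · exact continuous_induced_rng.2 continuous_id

instance (M0 : Type) [MetricSpace M0] : MetricSpace (PM M0) := (pm_exists M0).choose

theorem pm_dist {M0 : Type} [MetricSpace M0] (x y : PM M0) :
    dist x y = ∑' i, min ((1 / 2 : ℝ) ^ i) (dist (x.out i) (y.out i)) := (pm_exists M0).choose_spec.1 x y

/-- topologically the product -/
def pmHomeo (M0 : Type) [MetricSpace M0] : PM M0 ≃ₜ (ℕ → M0) where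
  toFun := PM.out
  invFun := PM.mk
  left_inv _ := rfl
  right_inv _ := rfl
  continuous_toFun := (pm_exists M0).choose_spec.2.1
  continuous_invFun := (pm_exists M0).choose_spec.2.2

instance (M0 : Type) [MetricSpace M0] [CompactSpace M0] : CompactSpace (PM M0) :=
  (pmHomeo M0).symm.compactSpace

theorem pm_cube (M0 : Type) [MetricSpace M0] (h : Nonempty (M0 ≃ₜ (ℕ → unitInterval))) :
    Nonempty (PM M0 ≃ₜ (ℕ → unitInterval)) := by
  obtain ⟨e⟩ := h
  have e1 : (ℕ → M0) ≃ₜ (ℕ → (ℕ → unitInterval)) := Homeomorph.piCongrRight (fun _ => e)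
  have e2 : (ℕ → (ℕ → unitInterval)) ≃ₜ (ℕ × ℕ → unitInterval) :=
    { toFun := fun f p => f p.1 p.2
      invFun := fun f a b => f (a, b)
      left_inv := fun f => rfl
      right_inv := fun f => rfl
      continuous_toFun := by fun_prop
      continuous_invFun := by fun_prop }
  have e3 : (ℕ × ℕ → unitInterval) ≃ₜ (ℕ → unitInterval) :=
    { toFun := fun f n => f (Nat.pairEquiv.symm n)
      invFun := fun f p => f (Nat.pairEquiv p)
      left_inv := fun f => by funext p; exact congrArg f (Nat.pairEquiv.symm_apply_apply p)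
      right_inv := fun f => by funext p; exact congrArg f (Nat.pairEquiv.apply_symm_apply p)
      continuous_toFun := by fun_prop
      continuous_invFun := by fun_prop }
  exact ⟨(pmHomeo M0).trans (e1.trans (e2.trans e3))⟩

/-- disjoint union with a metric -/
def SM (M0 E0 : Type) : Type := M0 ⊕ E0

instance sm_metric (M0 E0 : Type) [MetricSpace M0] [MetricSpace E0] : MetricSpace (SM M0 E0) :=
  Metric.metricSpaceSum (X := M0) (Y := E0)

def SM.l {M0 E0 : Type} (a : M0) : SM M0 E0 := Sum.inl a
def SM.r {M0 E0 : Type} (a : E0) : SM M0 E0 := Sum.inr a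

theorem SM.isom_l {M0 E0 : Type} [MetricSpace M0] [MetricSpace E0] :
    Isometry (SM.l : M0 → SM M0 E0) := Metric.isometry_inl

theorem SM.isom_r {M0 E0 : Type} [MetricSpace M0] [MetricSpace E0] :
    Isometry (SM.r : E0 → SM M0 E0) := Metric.isometry_inr

/-- the space with the inserted copy -/
structure KE (k : ℕ) (M0 E0 : Type) : Type where
  m : PM M0
  e : E0

/-- index of the remaining sequence -/
def kt (k j : ℕ) : ℕ := if j < k then j else j - 1
/-- position of the remaining sequence -/
def ks (k i : ℕ) : ℕ := if i < k then i else i + 1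

theorem ks_ne (k i : ℕ) : ks k i ≠ k := by
  unfold ks; split_ifs <;> omega

theorem kt_ks (k i : ℕ) : kt k (ks k i) = i := by
  unfold kt ks; split_ifs <;> omega

theorem ks_kt (k j : ℕ) (h : j ≠ k) : ks k (kt k j) = j := by
  unfold kt ks; split_ifs <;> omega

/-- the inserted sequence -/
def kins (k : ℕ) {M0 E0 : Type} (x : KE k M0 E0) (j : ℕ) : SM M0 E0 :=
  if j = k then SM.r x.e else SM.l (x.m.out (kt k j))

theorem kins_inj (k : ℕ) {M0 E0 : Type} :
    Function.Injective (fun x : KE k M0 E0 => (PM.mk (kins k x) : PM (SM M0 E0))) := by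
  intro x y h
  have h' : ∀ j, kins k x j = kins k y j := by
    intro j
    exact congrFun (congrArg PM.out h) j
  have he : x.e = y.e := by
    have := h' k
    unfold kins at this
    rw [if_pos rfl, if_pos rfl] at this
    exact Sum.inr.inj this
  have hm : x.m = y.m := by
    have h2 : x.m.out = y.m.out := by
      funext i
      have := h' (ks k i)
      unfold kins at this
      rw [if_neg (ks_ne k i), if_neg (ks_ne k i), kt_ks] at this
      exact Sum.inl.inj this
    cases hx : x.m
    cases hy : y.m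
    rw [hx, hy] at h2
    exact congrArg PM.mk h2
  cases x
  cases y
  simp only at he hm
  rw [he, hm]

instance ke_metric (k : ℕ) (M0 E0 : Type) [MetricSpace M0] [MetricSpace E0] :
    MetricSpace (KE k M0 E0) :=
  MetricSpace.induced (fun x : KE k M0 E0 => (PM.mk (kins k x) : PM (SM M0 E0)))
    (kins_inj k) inferInstance

theorem ke_dist {k : ℕ} {M0 E0 : Type} [MetricSpace M0] [MetricSpace E0] (x y : KE k M0 E0) :
    dist x y = ∑' j, min ((1 / 2 : ℝ) ^ j) (dist (kins k x j) (kins k y j)) :=
  pm_dist (PM.mk (kins k x)) (PM.mk (kins k y))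

/-- the underlying bijection -/
def keEquiv (k : ℕ) (M0 E0 : Type) : PM M0 × E0 ≃ KE k M0 E0 where
  toFun p := ⟨p.1, p.2⟩
  invFun x := (x.m, x.e)
  left_inv _ := rfl
  right_inv _ := rfl

theorem keEquiv_cont (k : ℕ) (M0 E0 : Type) [MetricSpace M0] [MetricSpace E0] :
    Continuous (keEquiv k M0 E0) := by
  refine continuous_induced_rng.mpr ?_
  have h1 : Continuous (fun p : PM M0 × E0 => fun j => kins k (keEquiv k M0 E0 p) j) := by
    refine continuous_pi fun j => ?_
    by_cases hj : j = k
    · have e : (fun p : PM M0 × E0 => kins k (keEquiv k M0 E0 p) j) =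
          fun p => SM.r p.2 := by
        funext p
        unfold kins
        rw [if_pos hj]
        rfl
      rw [e]
      exact SM.isom_r.continuous.comp continuous_snd
    · have e : (fun p : PM M0 × E0 => kins k (keEquiv k M0 E0 p) j) =
          fun p => SM.l ((pmHomeo M0 p.1) (kt k j)) := by
        funext p
        unfold kins
        rw [if_neg hj]
        rfl
      rw [e]
      exact SM.isom_l.continuous.comp
        ((continuous_apply _).comp ((pmHomeo M0).continuous.comp continuous_fst))
  exact (pmHomeo (SM M0 E0)).symm.continuous.comp h1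

/-- the homeomorphism -/
def keHomeo (k : ℕ) (M0 E0 : Type) [MetricSpace M0] [CompactSpace M0] [MetricSpace E0]
    [CompactSpace E0] : PM M0 × E0 ≃ₜ KE k M0 E0 :=
  Continuous.homeoOfEquivCompactToT2 (keEquiv_cont k M0 E0)

/-- insert a small copy of `E0` at position `k` -/
theorem metric_k (M0 E0 : Type) [MetricSpace M0] [CompactSpace M0] [MetricSpace E0] [CompactSpace E0]
    (k : ℕ) : ∃ (E : Type) (_ : MetricSpace E) (φ : E ≃ₜ PM M0 × E0),
      (∀ x y : E, (φ x).1 = (φ y).1 → dist x y ≤ (1 / 2) ^ k) ∧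
      ∀ F : Set E0, Nonempty (F ≃ᵢ M0) → Nonempty ({x : E | (φ x).2 ∈ F} ≃ᵢ PM M0) := by
  refine ⟨KE k M0 E0, inferInstance, (keHomeo k M0 E0).symm, ?_, ?_⟩
  · intro x y hxy
    have hm : x.m = y.m := hxy
    rw [ke_dist, tsum_eq_single k]
    · exact min_le_left _ _
    · intro j hj
      have e : kins k x j = kins k y j := by
        unfold kins
        rw [if_neg hj, if_neg hj, hm]
      rw [e, dist_self]
      exact min_eq_right (by positivity)
  · rintro F ⟨θ⟩
    have hmem : ∀ x : {x : KE k M0 E0 | (((keHomeo k M0 E0).symm x).2 : E0) ∈ F}, x.1.e ∈ F :=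
      fun x => x.2
    refine ⟨⟨⟨fun x => ⟨fun j => if j = k then θ ⟨x.1.e, hmem x⟩ else x.1.m.out (kt k j)⟩,
      fun y => ⟨⟨⟨fun i => y.out (ks k i)⟩, (θ.symm (y.out k)).1⟩, (θ.symm (y.out k)).2⟩,
      ?_, ?_⟩, ?_⟩⟩
    · intro x
      apply Subtype.ext
      have h1 : x.1 = ⟨x.1.m, x.1.e⟩ := rfl
      have h2 : (⟨fun i => (if ks k i = k then θ ⟨x.1.e, hmem x⟩ else
          x.1.m.out (kt k (ks k i)))⟩ : PM M0) = x.1.m := by
        have h3 : (fun i => (if ks k i = k then θ ⟨x.1.e, hmem x⟩ else
          x.1.m.out (kt k (ks k i)))) = x.1.m.out := by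
          funext i
          rw [if_neg (ks_ne k i), kt_ks]
        rw [h3]
      have h4 : (θ.symm (if k = k then θ ⟨x.1.e, hmem x⟩ else x.1.m.out (kt k k))).1 = x.1.e := by
        rw [if_pos rfl, IsometryEquiv.symm_apply_apply]
      change (⟨⟨fun i => (if ks k i = k then θ ⟨x.1.e, hmem x⟩ else
          x.1.m.out (kt k (ks k i)))⟩,
          (θ.symm (if k = k then θ ⟨x.1.e, hmem x⟩ else x.1.m.out (kt k k))).1⟩ :
          KE k M0 E0) = x.1
      rw [h2, h4]
    · intro y
      have h : (fun j => if j = k then θ (θ.symm (y.out k)) else y.out (ks k (kt k j))) =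
          y.out := by
        funext j
        by_cases hj : j = k
        · rw [if_pos hj, IsometryEquiv.apply_symm_apply, hj]
        · rw [if_neg hj, ks_kt k j hj]
      change (⟨fun j => if j = k then θ (θ.symm (y.out k)) else y.out (ks k (kt k j))⟩ :
        PM M0) = y
      rw [h]
    · refine Isometry.of_dist_eq fun x y => ?_
      rw [Subtype.dist_eq, ke_dist, pm_dist]
      refine tsum_congr fun j => ?_
      congr 1
      by_cases hj : j = k
      · unfold kins
        rw [if_pos hj, if_pos hj, SM.isom_r.dist_eq]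
        change dist (if j = k then _ else _) (if j = k then _ else _) = _
        rw [if_pos hj, if_pos hj, θ.isometry.dist_eq]
        rfl
      · unfold kins
        rw [if_neg hj, if_neg hj, SM.isom_l.dist_eq]
        change dist (if j = k then _ else _) (if j = k then _ else _) = _
        rw [if_neg hj, if_neg hj]

/-- the product trick -/
theorem product_trick (M0 B E0 : Type) [MetricSpace M0] [CompactSpace M0] [MetricSpace B]
    [MetricSpace E0] [CompactSpace E0]
    (hM : Nonempty (M0 ≃ₜ (ℕ → unitInterval))) (p0 : C(E0, B)) (hs : Function.Surjective p0)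
    (hp : IsHurewiczFibration p0) (hiso : ∀ b, Nonempty (p0 ⁻¹' {b} ≃ᵢ M0))
    (K : Type) [TopologicalSpace K] (hK : IsANR K) (u0 : C(E0, K))
    (hu : ∀ w : C(B, K), ¬ ContinuousMap.Homotopic (w.comp p0) u0) :
    ∀ ε > (0 : ℝ), ∃ (E : Type) (_ : MetricSpace E) (_ : CompactSpace E) (p : C(E, B)),
      IsHurewiczFibration p ∧ (∀ b, Nonempty (p ⁻¹' {b} ≃ᵢ PM M0)) ∧
      ∃ f : C(E, PM M0 × B), (∀ e, (f e).2 = p e) ∧ Function.Surjective f ∧
        (∀ x, Metric.diam (f ⁻¹' {x}) < ε) ∧ ¬ IsShapeEquivalence f := by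
  intro ε hε
  obtain ⟨k, hk⟩ := exists_pow_lt_of_lt_one hε (by norm_num : (1 / 2 : ℝ) < 1)
  obtain ⟨E, mE, φ, hφ1, hφ2⟩ := metric_k M0 E0 k
  obtain ⟨eM⟩ := hM
  let s : C(E, E0) := ⟨fun x => (φ x).2, continuous_snd.comp φ.continuous⟩
  let q : C(E, PM M0) := ⟨fun x => (φ x).1, continuous_fst.comp φ.continuous⟩
  refine ⟨E, mE, φ.symm.compactSpace, p0.comp s, ?_, ?_, ?_⟩
  · intro X _ H h hH
    obtain ⟨G0, hG0, hG0'⟩ := hp X H (s.comp h) hH
    refine ⟨⟨fun a => φ.symm (q (h a.1), G0 a), ?_⟩, ?_, ?_⟩
    · exact φ.symm.continuous.comp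
        ((q.continuous.comp (h.continuous.comp continuous_fst)).prodMk G0.continuous)
    · intro x
      show φ.symm (q (h x), G0 (x, 0)) = h x
      rw [hG0]
      exact φ.symm_apply_apply (h x)
    · intro a
      show p0 (φ (φ.symm (q (h a.1), G0 a))).2 = H a
      rw [φ.apply_symm_apply]
      exact hG0' a
  · intro b
    exact hφ2 (p0 ⁻¹' {b}) (hiso b)
  · refine ⟨⟨fun x => (q x, p0 (s x)), q.continuous.prodMk (p0.continuous.comp s.continuous)⟩,
      fun e => rfl, ?_, ?_, ?_⟩
    · rintro ⟨m, b⟩
      obtain ⟨e0, rfl⟩ := hs b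
      refine ⟨φ.symm (m, e0), ?_⟩
      show ((φ (φ.symm (m, e0))).1, p0 (φ (φ.symm (m, e0))).2) = (m, p0 e0)
      rw [φ.apply_symm_apply]
    · intro x
      refine lt_of_le_of_lt (Metric.diam_le_of_forall_dist_le (by positivity) ?_) hk
      intro a ha b hb
      apply hφ1
      have ha' : (q a, p0 (s a)) = x := ha
      have hb' : (q b, p0 (s b)) = x := hb
      have : q a = q b := by
        have h1 := congrArg Prod.fst (ha'.trans hb'.symm)
        exact h1
      exact this
    · intro hse
      obtain ⟨w, hw⟩ := (hse K hK).1 (u0.comp s)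
      have m0 : PM M0 := PM.mk (fun _ => eM.symm (fun _ => 0))
      let j : C(E0, E) := ⟨fun e => φ.symm (m0, e),
        φ.symm.continuous.comp (continuous_const.prodMk continuous_id)⟩
      let c : C(B, PM M0 × B) := ⟨fun b => (m0, b), continuous_const.prodMk continuous_id⟩
      have h1 := hw.comp (ContinuousMap.Homotopic.refl j)
      apply hu (w.comp c)
      have e1 : ((w.comp ⟨fun x => (q x, p0 (s x)),
          q.continuous.prodMk (p0.continuous.comp s.continuous)⟩).comp j) = (w.comp c).comp p0 := by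
        ext e
        show w ((φ (φ.symm (m0, e))).1, p0 (φ (φ.symm (m0, e))).2) = w (m0, p0 e)
        rw [φ.apply_symm_apply]
      have e2 : (u0.comp s).comp j = u0 := by
        ext e
        show u0 (φ (φ.symm (m0, e))).2 = u0 e
        rw [φ.apply_symm_apply]
      rw [e1, e2] at h1
      exact h1

/-- open subsets of finite dimensional spaces are ANRs -/
theorem open_anr {κ : Type} [Fintype κ] (O : Set (Matrix κ κ ℂ)) (hO : IsOpen O) : IsANR O := by
  classical
  haveI hm : TopologicalSpace.MetrizableSpace (Matrix κ κ ℂ) :=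
    inferInstanceAs (TopologicalSpace.MetrizableSpace (κ → κ → ℂ))
  refine ⟨inferInstance, ?_⟩
  intro X _ _ A hA φ
  haveI : NormalSpace X := by
    letI := TopologicalSpace.metrizableSpaceMetric X
    infer_instance
  let φ' : C(A, κ → κ → ℂ) := ⟨fun a => (φ a : Matrix κ κ ℂ), by
    have h := continuous_subtype_val.comp φ.continuous
    exact h⟩
  obtain ⟨g, hg⟩ := ContinuousMap.exists_restrict_eq hA φ'
  let U : Set X := g ⁻¹' (O : Set (κ → κ → ℂ))
  have hU : IsOpen U := IsOpen.preimage g.continuous hO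
  refine ⟨U, ⟨fun u => ⟨g u.1, u.2⟩, ?_⟩, hU, ?_, ?_⟩
  · exact Continuous.subtype_mk (g.continuous.comp continuous_subtype_val) _
  · intro a ha
    have h1 : g a = φ' ⟨a, ha⟩ := by
      rw [← hg]; rfl
    show g a ∈ O
    rw [h1]
    exact (φ ⟨a, ha⟩).2
  · intro a
    apply Subtype.ext
    have h1 : g a.1 = φ' a := by
      rw [← hg]; rfl
    exact h1

end BB
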