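import Mathlib

set_option autoImplicit false
set_option linter.unusedVariables false
set_option linter.unusedSectionVars false

open scoped unitInterval Topology
open ContinuousMap Topology Metric

noncomputable section

namespace BB

open Metric

/-- data of a twisted family of compacta `K_b` in a compact metric space `C` -/
structure FD (P B C : Type) [TopologicalSpace P] [MetricSpace B] [MetricSpace C] where
  K : Set C
  hK : IsClosed K
  hKn : K.Nonempty
  π : C(P, B)
  hπ : Function.Surjective π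
  a : P → C ≃ᵢ C
  ha : Continuous fun q : P × C => a q.1 q.2
  ha' : Continuous fun q : P × C => (a q.1).symm q.2
  inv : ∀ u u', π u = π u' → ∀ c, a u c ∈ K → a u' c ∈ K
  lift : ∀ (X : Type) [TopologicalSpace X] (H : C(X × I, B)) (h0 : C(X, P)),
    (∀ x, π (h0 x) = H (x, 0)) → ∃ H' : C(X × I, P), (∀ x, H' (x, 0) = h0 x) ∧ ∀ q, π (H' q) = H q
  uniq : ∀ (γ γ' : C(I, P)), (∀ t, π (γ t) = π (γ' t)) →
    ∀ t c, (a (γ t)).symm (a (γ 0) c) = (a (γ' t)).symm (a (γ' 0) c)

variable {P B C : Type} [TopologicalSpace P] [CompactSpace P] [MetricSpace B] [CompactSpace B]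
  [MetricSpace C] [CompactSpace C]

namespace FD

/-- the distance to the compactum in the fibre over `b` -/
def dl (D : FD P B C) (b : B) (c : C) : ℝ := infDist (D.a (Function.surjInv D.hπ b) c) D.K

theorem dl_apply (D : FD P B C) (u : P) (c : C) : D.dl (D.π u) c = infDist (D.a u c) D.K := by
  have key : ∀ v : P, infDist (D.a v c) D.K = infDist c ((D.a v) ⁻¹' D.K) := by
    intro v
    have h1 : (D.a v) '' ((D.a v) ⁻¹' D.K) = D.K :=
      Set.image_preimage_eq _ (D.a v).surjective
    conv_lhs => rw [← h1]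
    exact infDist_image (D.a v).isometry
  have hs : D.π (Function.surjInv D.hπ (D.π u)) = D.π u := Function.surjInv_eq D.hπ (D.π u)
  unfold dl
  rw [key, key]
  congr 1
  ext z
  exact ⟨fun h => D.inv _ _ hs z h, fun h => D.inv _ _ hs.symm z h⟩

theorem dl_cont (D : FD P B C) : Continuous fun q : B × C => D.dl q.1 q.2 := by
  have hc : Continuous (Prod.map D.π id : P × C → B × C) := D.π.continuous.prodMap continuous_id
  have hs : Function.Surjective (Prod.map D.π id : P × C → B × C) :=
    D.hπ.prodMap Function.surjective_id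
  have hq : IsQuotientMap (Prod.map D.π id : P × C → B × C) := hc.isClosedMap.isQuotientMap hc hs
  rw [hq.continuous_iff]
  have h : (fun q : B × C => D.dl q.1 q.2) ∘ (Prod.map D.π id : P × C → B × C) =
      fun q : P × C => infDist (D.a q.1 q.2) D.K := by
    funext q
    exact D.dl_apply q.1 q.2
  rw [h]
  exact (continuous_infDist_pt D.K).comp D.ha

theorem dl_nonneg (D : FD P B C) (b : B) (c : C) : 0 ≤ D.dl b c := infDist_nonneg

theorem dl_zero (D : FD P B C) (u : P) (c : C) : D.dl (D.π u) c = 0 ↔ D.a u c ∈ D.K := by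
  rw [dl_apply]
  exact (D.hK.mem_iff_infDist_zero D.hKn).symm

theorem dl_lip (D : FD P B C) (b : B) (c c' : C) : |D.dl b c - D.dl b c'| ≤ dist c c' := by
  have h1 : D.dl b c ≤ D.dl b c' + dist c c' := by
    have h := infDist_le_infDist_add_dist (s := D.K) (x := D.a (Function.surjInv D.hπ b) c)
      (y := D.a (Function.surjInv D.hπ b) c')
    rw [(D.a (Function.surjInv D.hπ b)).dist_eq] at h
    exact h
  have h2 : D.dl b c' ≤ D.dl b c + dist c' c := by
    have h := infDist_le_infDist_add_dist (s := D.K) (x := D.a (Function.surjInv D.hπ b) c')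
      (y := D.a (Function.surjInv D.hπ b) c)
    rw [(D.a (Function.surjInv D.hπ b)).dist_eq] at h
    exact h
  rw [dist_comm c' c] at h2
  rw [abs_le]
  constructor <;> linarith

/-- `δ` as a map to `C(C, ℝ)` -/
def dlC (D : FD P B C) : C(B, C(C, ℝ)) := ContinuousMap.curry ⟨fun q => D.dl q.1 q.2, D.dl_cont⟩

theorem dl_lip' (D : FD P B C) (b b' : B) (c c' : C) :
    |D.dl b c - D.dl b' c'| ≤ dist (D.dlC b) (D.dlC b') + dist c c' := by
  have h1 : |D.dl b c - D.dl b' c| ≤ dist (D.dlC b) (D.dlC b') := by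
    have := ContinuousMap.dist_apply_le_dist (f := D.dlC b) (g := D.dlC b') c
    rwa [Real.dist_eq] at this
  have h2 := D.dl_lip b' c c'
  calc |D.dl b c - D.dl b' c'| = |(D.dl b c - D.dl b' c) + (D.dl b' c - D.dl b' c')| := by ring_nf
    _ ≤ _ := (abs_add_le _ _).trans (add_le_add h1 h2)

/-- the total pseudo-distance -/
def dT (D : FD P B C) (x y : B × C) : ℝ :=
  dist x.1 y.1 + min (dist (D.dlC x.1) (D.dlC y.1) + dist x.2 y.2) (D.dl x.1 x.2 + D.dl y.1 y.2)

theorem dT_self (D : FD P B C) (x : B × C) : D.dT x x = 0 := by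
  simp only [dT, dist_self, add_zero, zero_add]
  exact min_eq_left (by have := D.dl_nonneg x.1 x.2; linarith)

theorem dT_comm (D : FD P B C) (x y : B × C) : D.dT x y = D.dT y x := by
  simp only [dT, dist_comm x.1, dist_comm x.2, dist_comm (D.dlC x.1), add_comm (D.dl x.1 x.2)]

theorem dT_triangle (D : FD P B C) (x y z : B × C) : D.dT x z ≤ D.dT x y + D.dT y z := by
  have h1 : dist x.1 z.1 ≤ dist x.1 y.1 + dist y.1 z.1 := dist_triangle _ _ _
  have h2 : dist x.2 z.2 ≤ dist x.2 y.2 + dist y.2 z.2 := dist_triangle _ _ _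
  have h3 : dist (D.dlC x.1) (D.dlC z.1) ≤ dist (D.dlC x.1) (D.dlC y.1) +
      dist (D.dlC y.1) (D.dlC z.1) := dist_triangle _ _ _
  have h4 := abs_le.1 (D.dl_lip' x.1 y.1 x.2 y.2)
  have h5 := abs_le.1 (D.dl_lip' y.1 z.1 y.2 z.2)
  have hx := D.dl_nonneg x.1 x.2
  have hy := D.dl_nonneg y.1 y.2
  have hz := D.dl_nonneg z.1 z.2
  have m1 := min_le_left (dist (D.dlC x.1) (D.dlC z.1) + dist x.2 z.2)
    (D.dl x.1 x.2 + D.dl z.1 z.2)
  have m2 := min_le_right (dist (D.dlC x.1) (D.dlC z.1) + dist x.2 z.2)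
    (D.dl x.1 x.2 + D.dl z.1 z.2)
  unfold dT
  rcases min_choice (dist (D.dlC x.1) (D.dlC y.1) + dist x.2 y.2)
    (D.dl x.1 x.2 + D.dl y.1 y.2) with e1 | e1 <;>
  rcases min_choice (dist (D.dlC y.1) (D.dlC z.1) + dist y.2 z.2)
    (D.dl y.1 y.2 + D.dl z.1 z.2) with e2 | e2 <;>
  rw [e1, e2] <;> linarith [h4.1, h4.2, h5.1, h5.2]

/-- the pseudo-metric space before identification -/
structure Pre (D : FD P B C) : Type where
  out : B × C

/-- identity -/
def toPre (D : FD P B C) (x : B × C) : D.Pre := ⟨x⟩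

/-- identity -/
def ofPre (D : FD P B C) (x : D.Pre) : B × C := x.out

instance (D : FD P B C) : PseudoMetricSpace D.Pre where
  dist x y := D.dT (D.ofPre x) (D.ofPre y)
  dist_self x := D.dT_self (D.ofPre x)
  dist_comm x y := D.dT_comm (D.ofPre x) (D.ofPre y)
  dist_triangle x y z := D.dT_triangle (D.ofPre x) (D.ofPre y) (D.ofPre z)

/-- the total space -/
def E (D : FD P B C) : Type := SeparationQuotient D.Pre

instance (D : FD P B C) : MetricSpace D.E := inferInstanceAs (MetricSpace (SeparationQuotient D.Pre))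

theorem toPre_cont (D : FD P B C) : Continuous D.toPre := by
  rw [continuous_iff_continuousAt]
  intro x
  unfold ContinuousAt
  rw [tendsto_iff_dist_tendsto_zero]
  have hg : Continuous (fun y : B × C => dist y.1 x.1 + (dist (D.dlC y.1) (D.dlC x.1)
      + dist y.2 x.2)) := by
    have h1 : Continuous (fun y : B × C => D.dlC y.1) := D.dlC.continuous.comp continuous_fst
    exact (continuous_fst.dist continuous_const).add
      ((h1.dist continuous_const).add (continuous_snd.dist continuous_const))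
  have hg0 : Filter.Tendsto (fun y : B × C => dist y.1 x.1 + (dist (D.dlC y.1) (D.dlC x.1)
      + dist y.2 x.2)) (𝓝 x) (𝓝 0) := by
    have := hg.tendsto x
    simpa using this
  refine squeeze_zero (fun y => dist_nonneg) (fun y => ?_) hg0
  have h2 : dist (D.toPre y) (D.toPre x) = D.dT y x := rfl
  rw [h2]
  unfold dT
  exact add_le_add le_rfl (min_le_left _ _)

/-- the quotient map -/
def Q (D : FD P B C) : C(B × C, D.E) := ⟨fun x => SeparationQuotient.mk (D.toPre x),
  SeparationQuotient.continuous_mk.comp D.toPre_cont⟩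

theorem dist_Q (D : FD P B C) (x y : B × C) : dist (D.Q x) (D.Q y) = D.dT x y := rfl

theorem Q_surj (D : FD P B C) : Function.Surjective D.Q := by
  intro e
  obtain ⟨x, rfl⟩ := SeparationQuotient.surjective_mk e
  exact ⟨x.out, rfl⟩

instance (D : FD P B C) : CompactSpace D.E := by
  have : IsCompact (Set.range D.Q) := isCompact_range D.Q.continuous
  rw [D.Q_surj.range_eq] at this
  exact isCompact_univ_iff.1 this

theorem Q_eq_iff (D : FD P B C) (x y : B × C) : D.Q x = D.Q y ↔
    x.1 = y.1 ∧ (x.2 = y.2 ∨ (D.dl x.1 x.2 = 0 ∧ D.dl y.1 y.2 = 0)) := by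
  rw [← dist_eq_zero, D.dist_Q]
  have h1 := D.dl_nonneg x.1 x.2
  have h2 := D.dl_nonneg y.1 y.2
  have h3 : 0 ≤ dist (D.dlC x.1) (D.dlC y.1) := dist_nonneg
  have h4 : 0 ≤ dist x.2 y.2 := dist_nonneg
  have h5 : 0 ≤ dist x.1 y.1 := dist_nonneg
  have h6 : 0 ≤ min (dist (D.dlC x.1) (D.dlC y.1) + dist x.2 y.2)
      (D.dl x.1 x.2 + D.dl y.1 y.2) := le_min (by linarith) (by linarith)
  unfold dT
  constructor
  · intro h
    have h7 : dist x.1 y.1 = 0 := by linarith
    have h8 : min (dist (D.dlC x.1) (D.dlC y.1) + dist x.2 y.2)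
      (D.dl x.1 x.2 + D.dl y.1 y.2) = 0 := by linarith
    refine ⟨dist_eq_zero.1 h7, ?_⟩
    rcases min_choice (dist (D.dlC x.1) (D.dlC y.1) + dist x.2 y.2)
      (D.dl x.1 x.2 + D.dl y.1 y.2) with h9 | h9
    · left
      rw [h9] at h8
      exact dist_eq_zero.1 (by linarith)
    · right
      rw [h9] at h8
      exact ⟨by linarith, by linarith⟩
  · rintro ⟨hb, hc | ⟨hx, hy⟩⟩
    · rw [hb, hc]
      simp only [dist_self, add_zero, zero_add]
      rw [hb, hc] at h1
      exact min_eq_left (by linarith)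
    · rw [hx, hy, hb]
      simp only [dist_self, add_zero, zero_add]
      exact min_eq_right h4

theorem p_aux1 (D : FD P B C) (x y : D.Pre) (h : Inseparable x y) : (D.ofPre x).1 = (D.ofPre y).1 := by
  have h0 : dist x y = 0 := Metric.inseparable_iff.1 h
  have h1 : D.dT (D.ofPre x) (D.ofPre y) = 0 := h0
  have h2 : 0 ≤ min (dist (D.dlC (D.ofPre x).1) (D.dlC (D.ofPre y).1) + dist (D.ofPre x).2 (D.ofPre y).2)
      (D.dl (D.ofPre x).1 (D.ofPre x).2 + D.dl (D.ofPre y).1 (D.ofPre y).2) := by
    refine le_min (by positivity) (add_nonneg (D.dl_nonneg _ _) (D.dl_nonneg _ _))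
  have h3 : dist (D.ofPre x).1 (D.ofPre y).1 = 0 := by
    unfold dT at h1
    have := dist_nonneg (x := (D.ofPre x).1) (y := (D.ofPre y).1)
    linarith
  exact dist_eq_zero.1 h3

theorem p_aux2 (D : FD P B C) : Continuous (fun x : D.Pre => (D.ofPre x).1) := by
  have hl : LipschitzWith 1 (fun x : D.Pre => (D.ofPre x).1) := by
    apply LipschitzWith.of_dist_le_mul
    intro x y
    have h1 : dist x y = D.dT (D.ofPre x) (D.ofPre y) := rfl
    rw [h1, NNReal.coe_one, one_mul]
    have h2 : 0 ≤ min (dist (D.dlC (D.ofPre x).1) (D.dlC (D.ofPre y).1) +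
        dist (D.ofPre x).2 (D.ofPre y).2)
        (D.dl (D.ofPre x).1 (D.ofPre x).2 + D.dl (D.ofPre y).1 (D.ofPre y).2) :=
      le_min (add_nonneg dist_nonneg dist_nonneg)
        (add_nonneg (D.dl_nonneg _ _) (D.dl_nonneg _ _))
    change dist (D.ofPre x).1 (D.ofPre y).1 ≤ dist (D.ofPre x).1 (D.ofPre y).1 + _
    exact le_add_of_nonneg_right h2
  exact hl.continuous

/-- the projection -/
def p (D : FD P B C) : C(D.E, B) where
  toFun := SeparationQuotient.lift (fun x : D.Pre => (D.ofPre x).1) D.p_aux1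
  continuous_toFun := SeparationQuotient.continuous_lift D.p_aux2

theorem p_Q (D : FD P B C) (x : B × C) : D.p (D.Q x) = x.1 := rfl

/-- the metric of the fibre -/
def dM (D : FD P B C) (x y : C) : ℝ := min (dist x y) (infDist x D.K + infDist y D.K)

theorem dM_triangle (D : FD P B C) (x y z : C) : D.dM x z ≤ D.dM x y + D.dM y z := by
  unfold dM
  have h1 : dist x z ≤ dist x y + dist y z := dist_triangle x y z
  have h2 : infDist x D.K ≤ infDist y D.K + dist x y := infDist_le_infDist_add_dist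
  have h3 : infDist z D.K ≤ infDist y D.K + dist z y := infDist_le_infDist_add_dist
  have h4 : (0 : ℝ) ≤ infDist y D.K := infDist_nonneg
  have h5 : dist z y = dist y z := dist_comm z y
  rcases min_cases (dist x y) (infDist x D.K + infDist y D.K) with ⟨h, _⟩ | ⟨h, _⟩ <;>
  rcases min_cases (dist y z) (infDist y D.K + infDist z D.K) with ⟨h', _⟩ | ⟨h', _⟩ <;>
  rw [h, h']
  · exact (min_le_left _ _).trans h1
  · refine (min_le_right _ _).trans ?_
    linarith
  · refine (min_le_right _ _).trans ?_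
    linarith
  · refine (min_le_right _ _).trans ?_
    linarith

theorem dM_self (D : FD P B C) (x : C) : D.dM x x = 0 := by
  simp only [dM, dist_self]
  exact min_eq_left (by have := infDist_nonneg (x := x) (s := D.K); linarith)

theorem dM_comm (D : FD P B C) (x y : C) : D.dM x y = D.dM y x := by
  simp only [dM, dist_comm x, add_comm (infDist x D.K)]

structure PreM (D : FD P B C) : Type where
  out : C

/-- identity -/
def toPreM (D : FD P B C) (x : C) : D.PreM := ⟨x⟩

/-- identity -/
def ofPreM (D : FD P B C) (x : D.PreM) : C := x.out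

instance (D : FD P B C) : PseudoMetricSpace D.PreM where
  dist x y := D.dM (D.ofPreM x) (D.ofPreM y)
  dist_self x := D.dM_self (D.ofPreM x)
  dist_comm x y := D.dM_comm (D.ofPreM x) (D.ofPreM y)
  dist_triangle x y z := D.dM_triangle (D.ofPreM x) (D.ofPreM y) (D.ofPreM z)

/-- the fibre -/
def M (D : FD P B C) : Type := SeparationQuotient D.PreM

instance (D : FD P B C) : MetricSpace D.M := inferInstanceAs (MetricSpace (SeparationQuotient D.PreM))

theorem toPreM_cont (D : FD P B C) : Continuous D.toPreM := by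
  have hL : LipschitzWith 1 D.toPreM := by
    refine LipschitzWith.of_dist_le_mul ?_
    intro x y
    have h1 : dist (D.toPreM x) (D.toPreM y) = min (dist x y) (infDist x D.K + infDist y D.K) := rfl
    rw [h1]
    simp only [NNReal.coe_one, one_mul]
    exact min_le_left _ _
  exact hL.continuous

/-- the quotient map to the fibre -/
def QM (D : FD P B C) : C(C, D.M) := ⟨fun x => SeparationQuotient.mk (D.toPreM x),
  SeparationQuotient.continuous_mk.comp D.toPreM_cont⟩

theorem dist_QM (D : FD P B C) (x y : C) : dist (D.QM x) (D.QM y) = D.dM x y := rfl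

theorem QM_surj (D : FD P B C) : Function.Surjective D.QM := by
  intro e
  obtain ⟨x, rfl⟩ := SeparationQuotient.surjective_mk e
  exact ⟨x.out, rfl⟩

theorem QM_eq_iff (D : FD P B C) (x y : C) : D.QM x = D.QM y ↔ x = y ∨ (x ∈ D.K ∧ y ∈ D.K) := by
  rw [← dist_eq_zero, dist_QM, dM, D.hK.mem_iff_infDist_zero D.hKn, D.hK.mem_iff_infDist_zero D.hKn,
    ← dist_eq_zero (x := x)]
  have h1 := infDist_nonneg (x := x) (s := D.K)
  have h2 := infDist_nonneg (x := y) (s := D.K)
  have h3 := dist_nonneg (x := x) (y := y)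
  constructor
  · intro h
    rcases min_choice (dist x y) (infDist x D.K + infDist y D.K) with h4 | h4
    · left; rw [← h4]; exact h
    · right
      rw [h4] at h
      exact ⟨by linarith, by linarith⟩
  · rintro (h | ⟨h, h'⟩)
    · rw [h]; exact min_eq_left (by linarith)
    · rw [h, h', add_zero]; exact min_eq_right h3

/-- the fibres are isometric to `M` -/
theorem fibre_iso (D : FD P B C) (b : B) : Nonempty (D.p ⁻¹' {b} ≃ᵢ D.M) := by
  obtain ⟨u, hu⟩ := D.hπ b
  have key : ∀ c c' : C, dist (D.QM (D.a u c)) (D.QM (D.a u c')) = dist (D.Q (b, c)) (D.Q (b, c')) := by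
    intro c c'
    rw [dist_QM, dist_Q]
    show min (dist (D.a u c) (D.a u c')) (infDist (D.a u c) D.K + infDist (D.a u c') D.K) =
      dist b b + min (dist (D.dlC b) (D.dlC b) + dist c c') (D.dl b c + D.dl b c')
    rw [dist_self, dist_self, zero_add, zero_add, (D.a u).dist_eq, ← hu, dl_apply, dl_apply]
  have hex : ∀ e : D.p ⁻¹' {b}, ∃ c : C, D.Q (b, c) = e.1 := by
    rintro ⟨e, he⟩
    obtain ⟨⟨b', c⟩, rfl⟩ := D.Q_surj e
    have h1 : D.p (D.Q (b', c)) = b := he
    rw [p_Q] at h1
    have h2 : b' = b := h1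
    subst h2
    exact ⟨c, rfl⟩
  choose r hr using hex
  have hiso : Isometry (fun e : D.p ⁻¹' {b} => D.QM (D.a u (r e))) := by
    apply Isometry.of_dist_eq
    intro e e'
    rw [key, hr, hr]
    rfl
  have hsurj : Function.Surjective (fun e : D.p ⁻¹' {b} => D.QM (D.a u (r e))) := by
    intro m
    obtain ⟨x, rfl⟩ := D.QM_surj m
    refine ⟨⟨D.Q (b, (D.a u).symm x), D.p_Q _⟩, ?_⟩
    have h1 := key (r ⟨D.Q (b, (D.a u).symm x), D.p_Q _⟩) ((D.a u).symm x)
    rw [hr, dist_self, IsometryEquiv.apply_symm_apply] at h1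
    exact dist_eq_zero.1 h1
  exact ⟨⟨Equiv.ofBijective _ ⟨hiso.injective, hsurj⟩, hiso⟩⟩

/-- the space of pairs -/
def XT (D : FD P B C) (X : Type) [TopologicalSpace X] (h0 : C(X, D.E)) : Type :=
  {z : X × (P × C) // h0 z.1 = D.Q (D.π z.2.1, z.2.2)}

instance (D : FD P B C) (X : Type) [TopologicalSpace X] (h0 : C(X, D.E)) :
    TopologicalSpace (D.XT X h0) :=
  inferInstanceAs (TopologicalSpace {z : X × (P × C) // h0 z.1 = D.Q (D.π z.2.1, z.2.2)})

theorem XT_val_cont (D : FD P B C) (X : Type) [TopologicalSpace X] (h0 : C(X, D.E)) :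
    Continuous (fun z : D.XT X h0 => z.1) := continuous_subtype_val

theorem XT_proper (D : FD P B C) (X : Type) [TopologicalSpace X] (h0 : C(X, D.E)) :
    IsProperMap (fun z : D.XT X h0 => z.1.1) := by
  have hcl : IsClosed {z : X × (P × C) | h0 z.1 = D.Q (D.π z.2.1, z.2.2)} :=
    isClosed_eq (by fun_prop) (by fun_prop)
  have h1 : IsProperMap (fun z : D.XT X h0 => z.1) :=
    (hcl.isClosedEmbedding_subtypeVal).isProperMap
  have h2 : IsProperMap (Prod.fst : X × (P × C) → X) := isProperMap_fst_of_compactSpace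
  exact h2.comp h1

theorem XT_surj (D : FD P B C) (X : Type) [TopologicalSpace X] (h0 : C(X, D.E)) :
    Function.Surjective (fun z : D.XT X h0 => z.1.1) := by
  intro x
  obtain ⟨⟨b, c⟩, hbc⟩ := D.Q_surj (h0 x)
  obtain ⟨u, hu⟩ := D.hπ b
  exact ⟨⟨(x, (u, c)), by simp only [hu, hbc]⟩, rfl⟩

/-- `p` is a Hurewicz fibration -/
theorem hlp (D : FD P B C) (X : Type) [TopologicalSpace X] (H : C(X × I, B)) (h0 : C(X, D.E))
    (hh : ∀ x, D.p (h0 x) = H (x, 0)) :
    ∃ H' : C(X × I, D.E), (∀ x, H' (x, 0) = h0 x) ∧ ∀ q, D.p (H' q) = H q := by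
  have hv := D.XT_val_cont X h0
  let prc : C(D.XT X h0, X) := ⟨fun z => z.1.1, (D.XT_proper X h0).continuous⟩
  let uc : C(D.XT X h0, P) := ⟨fun z => z.1.2.1, by fun_prop⟩
  let cc : C(D.XT X h0, C) := ⟨fun z => z.1.2.2, by fun_prop⟩
  let pp : C(D.XT X h0 × I, X × I) := ⟨fun q => (prc q.1, q.2), by fun_prop⟩
  have hz : ∀ z : D.XT X h0, h0 (prc z) = D.Q (D.π (uc z), cc z) := fun z => z.2
  have hpp : IsQuotientMap pp := by
    have h1 : IsProperMap (Prod.map (fun z : D.XT X h0 => z.1.1) (id : I → I)) :=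
      (D.XT_proper X h0).prodMap isProperMap_id
    refine h1.isClosedMap.isQuotientMap h1.continuous ?_
    exact (D.XT_surj X h0).prodMap Function.surjective_id
  obtain ⟨G, hG0, hG⟩ := D.lift (D.XT X h0) (H.comp pp) uc (by
    intro z
    have h1 := hh (prc z)
    rw [hz z, D.p_Q] at h1
    exact h1)
  let L : C(D.XT X h0 × I, D.E) := ⟨fun q => D.Q (H (pp q),
      (D.a (G q)).symm (D.a (uc q.1) (cc q.1))), by
    have e1 : Continuous fun q : D.XT X h0 × I => D.a (uc q.1) (cc q.1) :=
      D.ha.comp (((map_continuous uc).comp continuous_fst).prodMk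
        ((map_continuous cc).comp continuous_fst))
    have e2 : Continuous fun q : D.XT X h0 × I => (D.a (G q)).symm (D.a (uc q.1) (cc q.1)) :=
      D.ha'.comp ((map_continuous G).prodMk e1)
    exact (map_continuous D.Q).comp (((map_continuous H).comp (map_continuous pp)).prodMk e2)⟩
  have hL : ∀ q, L q = D.Q (H (pp q), (D.a (G q)).symm (D.a (uc q.1) (cc q.1))) := fun q => rfl
  have hfac : Function.FactorsThrough L pp := by
    rintro ⟨z, t⟩ ⟨z', t'⟩ hq
    have ht : t = t' := congrArg (fun q : X × I => q.2) hq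
    have hx : prc z = prc z' := congrArg (fun q : X × I => q.1) hq
    subst ht
    rw [hL, hL, hq]
    have hQ : D.Q (D.π (uc z), cc z) = D.Q (D.π (uc z'), cc z') := by
      rw [← hz z, ← hz z', hx]
    rw [D.Q_eq_iff] at hQ
    obtain ⟨hπ', hc⟩ := hQ
    simp only at hπ' hc
    have hpe : ∀ s : I, pp (z, s) = pp (z', s) := by
      intro s
      show (prc z, s) = (prc z', s)
      rw [hx]
    have hGG : ∀ s : I, D.π (G (z, s)) = D.π (G (z', s)) := by
      intro s
      rw [hG, hG]
      show H (pp (z, s)) = H (pp (z', s))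
      rw [hpe]
    rw [D.Q_eq_iff]
    refine ⟨rfl, ?_⟩
    simp only
    rcases hc with hc | ⟨h1, h2⟩
    · left
      have hu := D.uniq (G.comp ⟨fun s : I => (z, s), by fun_prop⟩)
        (G.comp ⟨fun s : I => (z', s), by fun_prop⟩) hGG t (cc z)
      have g0 : (G.comp ⟨fun s : I => (z, s), by fun_prop⟩ : C(I, P)) 0 = uc z := hG0 z
      have g0' : (G.comp ⟨fun s : I => (z', s), by fun_prop⟩ : C(I, P)) 0 = uc z' := hG0 z'
      rw [g0, g0'] at hu
      rw [← hc]
      exact hu
    · right
      constructor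
      · have e : H (pp (z', t)) = D.π (G (z, t)) := by
          rw [← hpe t]; exact (hG (z, t)).symm
        rw [e, D.dl_zero]
        rw [D.dl_zero] at h1
        simpa using h1
      · have e : H (pp (z', t)) = D.π (G (z', t)) := (hG (z', t)).symm
        rw [e, D.dl_zero]
        rw [D.dl_zero] at h2
        simpa using h2
  have hlift : ∀ q, hpp.lift L hfac (pp q) = L q := by
    intro q
    exact DFunLike.congr_fun (hpp.lift_comp L hfac) q
  refine ⟨hpp.lift L hfac, ?_, ?_⟩
  · intro x
    obtain ⟨z, rfl⟩ := D.XT_surj X h0 x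
    have h1 := hlift (z, 0)
    have h2 : pp (z, 0) = (z.1.1, 0) := rfl
    rw [h2] at h1
    refine h1.trans ?_
    rw [hL]
    have e : H (pp (z, 0)) = D.π (G (z, 0)) := (hG (z, 0)).symm
    rw [e, hG0]
    simp only [IsometryEquiv.symm_apply_apply]
    exact (hz z).symm
  · rintro ⟨x, t⟩
    obtain ⟨z, rfl⟩ := D.XT_surj X h0 x
    have h1 := hlift (z, t)
    have h2 : pp (z, t) = (z.1.1, t) := rfl
    rw [h2] at h1
    refine (congrArg D.p h1).trans ?_
    rw [hL, D.p_Q]
    rfl

end FD

end BB
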