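import Mathlib

set_option autoImplicit false
set_option linter.unusedVariables false
set_option linter.unusedSectionVars false

open scoped unitInterval Matrix Topology
open ContinuousMap

noncomputable section

namespace BB

/-- the loop `1 - e + z e` of an idempotent -/
def gamU {ι : Type} [Fintype ι] [DecidableEq ι] (e : Matrix ι ι ℂ) (he : e * e = e) (z : Circle) :
    (Matrix ι ι ℂ)ˣ where
  val := 1 - e + (z : ℂ) • e
  inv := 1 - e + ((z⁻¹ : Circle) : ℂ) • e
  val_inv := by
    have h1 : (z : ℂ) * ((z⁻¹ : Circle) : ℂ) = 1 := by rw [← Circle.coe_mul]; simp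
    simp only [mul_add, add_mul, sub_mul, mul_sub, one_mul, mul_one, Matrix.smul_mul,
      Matrix.mul_smul, he, smul_smul]
    rw [mul_comm] at h1
    rw [h1]
    simp
  inv_val := by
    have h1 : (z : ℂ) * ((z⁻¹ : Circle) : ℂ) = 1 := by rw [← Circle.coe_mul]; simp
    simp only [mul_add, add_mul, sub_mul, mul_sub, one_mul, mul_one, Matrix.smul_mul,
      Matrix.mul_smul, he, smul_smul]
    rw [h1]
    simp

theorem gamU_val {ι : Type} [Fintype ι] [DecidableEq ι] (e : Matrix ι ι ℂ) (he : e * e = e)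
    (z : Circle) : (gamU e he z).1 = 1 - e + (z : ℂ) • e := rfl

/-- the family of loops of an idempotent valued map -/
def gam {T : Type} [TopologicalSpace T] {ι : Type} [Fintype ι] [DecidableEq ι]
    (e : C(T, Matrix ι ι ℂ)) (he : ∀ t, e t * e t = e t) : C(T × Circle, (Matrix ι ι ℂ)ˣ) where
  toFun p := gamU (e p.1) (he p.1) p.2
  continuous_toFun := by
    rw [Units.continuous_iff]
    constructor
    · show Continuous (fun p : T × Circle => 1 - e p.1 + ((p.2 : Circle) : ℂ) • e p.1)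
      have := e.continuous
      fun_prop
    · show Continuous (fun p : T × Circle => 1 - e p.1 + ((p.2⁻¹ : Circle) : ℂ) • e p.1)
      have := e.continuous
      have h2 : Continuous (fun p : T × Circle => ((p.2⁻¹ : Circle) : ℂ)) :=
        (by fun_prop : Continuous (fun z : Circle => (z : ℂ))).comp ((continuous_inv (G := Circle)).comp continuous_snd)
      fun_prop

/-- block diagonal idempotent `e + 1 + 0` -/
def blk {ι : Type} (r s : Type) [Fintype ι] [DecidableEq ι] [DecidableEq r] (e : Matrix ι ι ℂ) :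
    Matrix (ι ⊕ (r ⊕ s)) (ι ⊕ (r ⊕ s)) ℂ :=
  Matrix.fromBlocks e 0 0 (Matrix.fromBlocks 1 0 0 0)

/-- stable similarity of idempotent valued maps -/
def StSim {T : Type} [TopologicalSpace T] {ι : Type} [Fintype ι] [DecidableEq ι]
    (e f : C(T, Matrix ι ι ℂ)) : Prop :=
  ∃ (r s : Type) (_ : Fintype r) (_ : DecidableEq r) (_ : Fintype s) (_ : DecidableEq s)
    (v : C(T, (Matrix (ι ⊕ (r ⊕ s)) (ι ⊕ (r ⊕ s)) ℂ)ˣ)),
    ∀ t, (v t).1 * blk r s (e t) = blk r s (f t) * (v t).1

/-- monomial functions -/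
def laurentMono {X : Type} [TopologicalSpace X] (p : ℤ × C(X, ℂ)) : C(X × Circle, ℂ) where
  toFun q := ((q.2 ^ p.1 : Circle) : ℂ) * p.2 q.1
  continuous_toFun := by
    have h1 : Continuous (fun q : X × Circle => ((q.2 ^ p.1 : Circle) : ℂ)) :=
      (by fun_prop : Continuous (fun z : Circle => (z : ℂ))).comp
        ((continuous_zpow (G := Circle) p.1).comp continuous_snd)
    have h2 : Continuous (fun q : X × Circle => p.2 q.1) := p.2.continuous.comp continuous_fst
    exact h1.mul h2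

theorem laurentMono_apply {X : Type} [TopologicalSpace X] (p : ℤ × C(X, ℂ)) (q : X × Circle) :
    laurentMono p q = ((q.2 ^ p.1 : Circle) : ℂ) * p.2 q.1 := rfl

/-- the span of the monomials -/
def laurentSpan (X : Type) [TopologicalSpace X] : Submodule ℂ C(X × Circle, ℂ) :=
  Submodule.span ℂ (Set.range (laurentMono (X := X)))

theorem laurentSpan_mul (X : Type) [TopologicalSpace X] (f g : C(X × Circle, ℂ))
    (hf : f ∈ laurentSpan X) (hg : g ∈ laurentSpan X) : f * g ∈ laurentSpan X := by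
  have h1 : f * g ∈ laurentSpan X * laurentSpan X := Submodule.mul_mem_mul hf hg
  unfold laurentSpan at h1
  rw [Submodule.span_mul_span] at h1
  refine Submodule.span_mono ?_ h1
  rintro _ ⟨_, ⟨p, rfl⟩, _, ⟨q, rfl⟩, rfl⟩
  refine ⟨(p.1 + q.1, p.2 * q.2), ?_⟩
  ext r
  simp only [laurentMono_apply, ContinuousMap.mul_apply, zpow_add, Circle.coe_mul]
  ring

theorem laurentSpan_one (X : Type) [TopologicalSpace X] : (1 : C(X × Circle, ℂ)) ∈ laurentSpan X := by
  apply Submodule.subset_span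
  refine ⟨(0, 1), ?_⟩
  ext r
  simp [laurentMono_apply]

theorem laurentSpan_star (X : Type) [TopologicalSpace X] (f : C(X × Circle, ℂ))
    (hf : f ∈ laurentSpan X) : star f ∈ laurentSpan X := by
  induction hf using Submodule.span_induction with
  | mem f hf =>
    obtain ⟨p, rfl⟩ := hf
    apply Submodule.subset_span
    refine ⟨(-p.1, star p.2), ?_⟩
    ext r
    rw [ContinuousMap.star_apply, laurentMono_apply, laurentMono_apply]
    have h1 : ((r.2 ^ (-p.1) : Circle) : ℂ) = (starRingEnd ℂ) ((r.2 ^ p.1 : Circle) : ℂ) := by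
      rw [zpow_neg, Circle.coe_inv_eq_conj]
    have h2 : (star p.2) r.1 = star (p.2 r.1) := rfl
    show ((r.2 ^ (-p.1) : Circle) : ℂ) * (star p.2) r.1 = _
    rw [h1, h2, star_mul']
    rfl
  | zero => rw [star_zero]; exact Submodule.zero_mem _
  | add f g _ _ hf hg => rw [star_add]; exact Submodule.add_mem _ hf hg
  | smul c f _ hf => rw [star_smul]; exact Submodule.smul_mem _ _ hf

/-- the star subalgebra -/
def laurentAlg (X : Type) [TopologicalSpace X] : StarSubalgebra ℂ C(X × Circle, ℂ) where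
  toSubalgebra := (laurentSpan X).toSubalgebra (laurentSpan_one X) (fun f g hf hg =>
    laurentSpan_mul X f g hf hg)
  star_mem' := fun {f} hf => laurentSpan_star X f hf

theorem laurent_span_form {X : Type} [TopologicalSpace X] (f : C(X × Circle, ℂ))
    (hf : f ∈ laurentSpan X) :
    ∃ N₀ : ℕ, ∀ N ≥ N₀, ∃ A : ℕ → C(X, ℂ), ∀ x z,
      ∑ j ∈ Finset.range (2 * N + 1), (((z ^ ((j : ℤ) - N) : Circle) : ℂ)) * A j x = f (x, z) := by
  induction hf using Submodule.span_induction with
  | mem f hf =>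
    obtain ⟨⟨k, a⟩, rfl⟩ := hf
    refine ⟨k.natAbs, ?_⟩
    intro N hN
    refine ⟨fun j => if (j : ℤ) = k + N then a else 0, ?_⟩
    intro x z
    have hk : 0 ≤ k + N := by omega
    rw [Finset.sum_eq_single (k + N).toNat]
    · have h1 : (((k + N).toNat : ℕ) : ℤ) = k + N := Int.toNat_of_nonneg hk
      beta_reduce
      rw [if_pos h1, h1, laurentMono_apply]
      have h2 : k + (N : ℤ) - N = k := by ring
      rw [h2]
    · intro j _ hj
      have h1 : ¬ ((j : ℤ) = k + N) := by
        intro h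
        apply hj
        rw [← h]
        simp
      beta_reduce
      rw [if_neg h1]
      simp
    · intro h
      exfalso
      apply h
      rw [Finset.mem_range]
      omega
  | zero =>
    refine ⟨0, fun N _ => ⟨fun _ => 0, ?_⟩⟩
    intro x z
    simp
  | add f g _ _ hf hg =>
    obtain ⟨N1, h1⟩ := hf
    obtain ⟨N2, h2⟩ := hg
    refine ⟨max N1 N2, ?_⟩
    intro N hN
    obtain ⟨A, hA⟩ := h1 N ((le_max_left _ _).trans hN)
    obtain ⟨B, hB⟩ := h2 N ((le_max_right _ _).trans hN)
    refine ⟨fun j => A j + B j, ?_⟩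
    intro x z
    rw [ContinuousMap.add_apply, ← hA x z, ← hB x z, ← Finset.sum_add_distrib]
    refine Finset.sum_congr rfl fun j _ => ?_
    rw [ContinuousMap.add_apply]
    ring
  | smul c f _ hf =>
    obtain ⟨N1, h1⟩ := hf
    refine ⟨N1, ?_⟩
    intro N hN
    obtain ⟨A, hA⟩ := h1 N hN
    refine ⟨fun j => c • A j, ?_⟩
    intro x z
    rw [ContinuousMap.smul_apply, ← hA x z, Finset.smul_sum]
    refine Finset.sum_congr rfl fun j _ => ?_
    rw [ContinuousMap.smul_apply]
    simp only [smul_eq_mul]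
    ring

/-- Laurent approximation -/
theorem laurent {X : Type} [TopologicalSpace X] [CompactSpace X] [T2Space X]
    (h : C(X × Circle, ℂ)) (ε : ℝ) (hε : 0 < ε) :
    ∃ N₀ : ℕ, ∀ N ≥ N₀, ∃ A : ℕ → C(X, ℂ), ∀ x z,
      ‖∑ j ∈ Finset.range (2 * N + 1), (((z ^ ((j : ℤ) - N) : Circle) : ℂ)) * A j x - h (x, z)‖ ≤ ε := by
  have hsep : (laurentAlg X).SeparatesPoints := by
    intro p q hpq
    by_cases h2 : p.2 = q.2
    · have h1 : p.1 ≠ q.1 := fun h => hpq (Prod.ext h h2)
      obtain ⟨f, hf0, hf1, -⟩ := exists_continuous_zero_one_of_isClosed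
        (isClosed_singleton (x := p.1)) (isClosed_singleton (x := q.1))
        (Set.disjoint_singleton.mpr h1)
      let a : C(X, ℂ) := ⟨fun x => (f x : ℂ), by fun_prop⟩
      refine ⟨laurentMono (0, a), ⟨laurentMono (0, a), ?_, rfl⟩, ?_⟩
      · exact Submodule.subset_span ⟨(0, a), rfl⟩
      · rw [laurentMono_apply, laurentMono_apply]
        have e1 : a p.1 = 0 := by
          show ((f p.1 : ℝ) : ℂ) = 0
          rw [hf0 (Set.mem_singleton _)]; simp
        have e2 : a q.1 = 1 := by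
          show ((f q.1 : ℝ) : ℂ) = 1
          rw [hf1 (Set.mem_singleton _)]; simp
        simp [e1, e2]
    · refine ⟨laurentMono (1, 1), ⟨laurentMono (1, 1), ?_, rfl⟩, ?_⟩
      · exact Submodule.subset_span ⟨(1, 1), rfl⟩
      · rw [laurentMono_apply, laurentMono_apply]
        simp only [zpow_one, ContinuousMap.one_apply, mul_one, ne_eq]
        intro h
        exact h2 (Circle.ext h)
  have htop := ContinuousMap.starSubalgebra_topologicalClosure_eq_top_of_separatesPoints
    (laurentAlg X) hsep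
  have hmem : h ∈ (laurentAlg X).topologicalClosure := by rw [htop]; trivial
  have hmem2 : h ∈ closure ((laurentAlg X : StarSubalgebra ℂ C(X × Circle, ℂ)) :
      Set C(X × Circle, ℂ)) := hmem
  obtain ⟨f, hf, hdist⟩ := Metric.mem_closure_iff.mp hmem2 ε hε
  obtain ⟨N₀, hN₀⟩ := laurent_span_form f hf
  refine ⟨N₀, fun N hN => ?_⟩
  obtain ⟨A, hA⟩ := hN₀ N hN
  refine ⟨A, fun x z => ?_⟩
  rw [hA x z, ← dist_eq_norm, dist_comm]
  exact (ContinuousMap.dist_apply_le_dist (x, z)).trans hdist.le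

theorem delta_13195 {ι Y : Type} [Fintype ι] [DecidableEq ι] [TopologicalSpace Y] [CompactSpace Y]
    (h : C(Y, (Matrix ι ι ℂ)ˣ)) : ∃ δ > 0, ∀ y (M : Matrix ι ι ℂ),
      (∀ a b, ‖M a b - (h y).1 a b‖ ≤ δ) → IsUnit M := by
  let D : (ι → ι → ℂ) → ℂ := fun M => Matrix.det (Matrix.of M)
  have hD : Continuous D := by
    have h1 : Continuous (fun M : ι → ι → ℂ => (Matrix.of M : Matrix ι ι ℂ)) :=
      continuous_matrix fun a b => by
        show Continuous (fun M : ι → ι → ℂ => M a b)
        fun_prop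
    exact h1.matrix_det
  let g : Y → (ι → ι → ℂ) := fun y a b => (h y).1 a b
  have hg : Continuous g := by
    have h1 : Continuous (fun y => ((h y).1 : Matrix ι ι ℂ)) := Units.continuous_val.comp h.continuous
    refine continuous_pi fun a => continuous_pi fun b => ?_
    exact h1.matrix_elem a b
  have hU : IsOpen {M : ι → ι → ℂ | D M ≠ 0} := isOpen_ne_fun hD continuous_const
  have hK : IsCompact (Set.range g) := isCompact_range hg
  have hKU : Set.range g ⊆ {M : ι → ι → ℂ | D M ≠ 0} := by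
    rintro _ ⟨y, rfl⟩
    have h1 : IsUnit ((h y).1 : Matrix ι ι ℂ) := (h y).isUnit
    rw [Matrix.isUnit_iff_isUnit_det] at h1
    exact h1.ne_zero
  obtain ⟨δ, hδ, hsub⟩ := hK.exists_cthickening_subset_open hU hKU
  refine ⟨δ, hδ, fun y M hM => ?_⟩
  have h2 : (fun a b => M a b : ι → ι → ℂ) ∈ Metric.cthickening δ (Set.range g) := by
    refine Metric.mem_cthickening_of_dist_le _ (g y) δ _ ⟨y, rfl⟩ ?_
    rw [dist_pi_le_iff hδ.le]
    intro a
    rw [dist_pi_le_iff hδ.le]
    intro b
    rw [dist_eq_norm]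
    exact hM a b
  have h3 : D (fun a b => M a b) ≠ 0 := hsub h2
  rw [Matrix.isUnit_iff_isUnit_det]
  exact isUnit_iff_ne_zero.mpr h3

/-- a homotopy of idempotent loops may be replaced by a family of polynomials -/
theorem poly_homotopy {T : Type} [TopologicalSpace T] [CompactSpace T] [T2Space T] {ι : Type}
    [Fintype ι] [DecidableEq ι] (e f : C(T, Matrix ι ι ℂ)) (he : ∀ t, e t * e t = e t)
    (hf : ∀ t, f t * f t = f t) (h : Homotopic (gam e he) (gam f hf)) :
    ∃ (N : ℕ) (A : ℕ → C(T × I, Matrix ι ι ℂ)), 1 ≤ N ∧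
      (∀ x (z : ℂ), ‖z‖ = 1 → IsUnit (∑ j ∈ Finset.range (2 * N + 1), z ^ j • A j x)) ∧
      (∀ t j, j ≤ 2 * N → A j (t, 0) = if j = N then 1 - e t else if j = N + 1 then e t else 0) ∧
      (∀ t j, j ≤ 2 * N → A j (t, 1) = if j = N then 1 - f t else if j = N + 1 then f t else 0) := by
  obtain ⟨H⟩ := h
  let g : C((T × I) × Circle, (Matrix ι ι ℂ)ˣ) :=
    ⟨fun p => H (p.1.2, (p.1.1, p.2)), by fun_prop⟩
  have hg : ∀ p, g p = H (p.1.2, (p.1.1, p.2)) := fun _ => rfl
  obtain ⟨δ, hδ, hunit⟩ := delta_13195 g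
  let c : ι → ι → C((T × I) × Circle, ℂ) := fun a b => ⟨fun p => (g p).1 a b, by
    have h1 : Continuous (fun y => ((g y).1 : Matrix ι ι ℂ)) := Units.continuous_val.comp g.continuous
    exact h1.matrix_elem a b⟩
  have hc : ∀ a b p, c a b p = (g p).1 a b := fun _ _ _ => rfl
  choose N0 hN0 using fun a b => laurent (c a b) (δ / 2) (by positivity)
  obtain ⟨N, hN1, hN⟩ : ∃ N : ℕ, 1 ≤ N ∧ ∀ a b, N0 a b ≤ N := by
    refine ⟨max 1 (Finset.univ.sup fun a => Finset.univ.sup fun b => N0 a b), le_max_left _ _, ?_⟩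
    intro a b
    refine le_trans ?_ (le_max_right _ _)
    refine le_trans ?_ (Finset.le_sup (f := fun a => Finset.univ.sup fun b => N0 a b)
      (Finset.mem_univ a))
    exact Finset.le_sup (f := fun b => N0 a b) (Finset.mem_univ b)
  choose B hB using fun a b => hN0 a b N (hN a b)
  let Bm : ℕ → T × I → Matrix ι ι ℂ := fun j x => Matrix.of fun a b => B a b j x
  have hBm : ∀ j x a b, Bm j x a b = B a b j x := fun _ _ _ _ => rfl
  have hBc : ∀ j, Continuous (Bm j) := fun j => continuous_matrix fun a b => (B a b j).continuous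
  let E : C(T, Matrix ι ι ℂ) → ℕ → T → Matrix ι ι ℂ := fun u j t =>
    if j = N then 1 - u t else if j = N + 1 then u t else 0
  have hE : ∀ u j t, E u j t = if j = N then 1 - u t else if j = N + 1 then u t else 0 :=
    fun _ _ _ => rfl
  have hEc : ∀ u j, Continuous (E u j) := by
    intro u j
    by_cases h1 : j = N
    · have : E u j = fun t => 1 - u t := funext fun t => by rw [hE, if_pos h1]
      rw [this]
      exact continuous_const.sub u.continuous
    · by_cases h2 : j = N + 1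
      · have : E u j = fun t => u t := funext fun t => by rw [hE, if_neg h1, if_pos h2]
        rw [this]
        exact u.continuous
      · have : E u j = fun t => 0 := funext fun t => by rw [hE, if_neg h1, if_neg h2]
        rw [this]
        exact continuous_const
  let A : ℕ → C(T × I, Matrix ι ι ℂ) := fun j =>
    ⟨fun x => Bm j x + ((1 - (x.2 : ℝ) : ℝ) : ℂ) • (E e j x.1 - Bm j (x.1, 0)) +
      (((x.2 : ℝ) : ℝ) : ℂ) • (E f j x.1 - Bm j (x.1, 1)), by
      have h1 := hBc j
      have h2 := hEc e j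
      have h3 := hEc f j
      have h4 : Continuous (fun x : T × I => ((1 - (x.2 : ℝ) : ℝ) : ℂ)) := by fun_prop
      have h5 : Continuous (fun x : T × I => (((x.2 : ℝ) : ℝ) : ℂ)) := by fun_prop
      have h6 : Continuous (fun x : T × I => Bm j (x.1, (0 : I))) := h1.comp (by fun_prop)
      have h7 : Continuous (fun x : T × I => Bm j (x.1, (1 : I))) := h1.comp (by fun_prop)
      exact (h1.add (h4.smul ((h2.comp continuous_fst).sub h6))).add
        (h5.smul ((h3.comp continuous_fst).sub h7))⟩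
  have hA : ∀ j (x : T × I), A j x = Bm j x + ((1 - (x.2 : ℝ) : ℝ) : ℂ) • (E e j x.1 - Bm j (x.1, 0)) +
      (((x.2 : ℝ) : ℝ) : ℂ) • (E f j x.1 - Bm j (x.1, 1)) := fun _ _ => rfl
  refine ⟨N, A, hN1, ?_, ?_, ?_⟩
  · intro x z hz
    obtain ⟨w, rfl⟩ : ∃ w : Circle, (w : ℂ) = z := ⟨⟨z, mem_sphere_zero_iff_norm.mpr hz⟩, rfl⟩
    -- the Laurent coefficients
    let l : ℕ → ℂ := fun j => ((w ^ ((j : ℤ) - N) : Circle) : ℂ)
    have hl : ∀ j, (w : ℂ) ^ j = (w : ℂ) ^ N * l j := by
      intro j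
      have h1 : w ^ j = w ^ N * w ^ ((j : ℤ) - N) := by
        rw [← zpow_natCast w N, ← zpow_add, ← zpow_natCast w j]
        congr 1
        ring
      have h2 : ((w ^ j : Circle) : ℂ) = ((w ^ N * w ^ ((j : ℤ) - N) : Circle) : ℂ) := by rw [h1]
      rw [Circle.coe_mul, Circle.coe_pow, Circle.coe_pow] at h2
      exact h2
    have hsum : ∑ j ∈ Finset.range (2 * N + 1), (w : ℂ) ^ j • A j x =
        (w : ℂ) ^ N • ∑ j ∈ Finset.range (2 * N + 1), l j • A j x := by
      rw [Finset.smul_sum]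
      refine Finset.sum_congr rfl fun j _ => ?_
      rw [hl, mul_smul]
    rw [hsum]
    have hES : ∀ u t, ∑ j ∈ Finset.range (2 * N + 1), l j • E u j t = 1 - u t + (w : ℂ) • u t := by
      intro u t
      have hlN : l N = 1 := by
        show ((w ^ ((N : ℤ) - N) : Circle) : ℂ) = 1
        simp
      have hlN1 : l (N + 1) = w := by
        show ((w ^ (((N + 1 : ℕ) : ℤ) - N) : Circle) : ℂ) = w
        have : (((N + 1 : ℕ) : ℤ) - N) = 1 := by push_cast; ring
        rw [this, zpow_one]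
      have h1 : ∀ j ∈ Finset.range (2 * N + 1), l j • E u j t =
          (if j = N then (1 - u t) else 0) + (if j = N + 1 then (w : ℂ) • u t else 0) := by
        intro j _
        rw [hE]
        by_cases h1 : j = N
        · rw [if_pos h1, if_pos h1, if_neg (by omega), h1, hlN, one_smul, add_zero]
        · by_cases h2 : j = N + 1
          · rw [if_neg h1, if_pos h2, if_neg h1, if_pos h2, h2, hlN1, zero_add]
          · rw [if_neg h1, if_neg h2, if_neg h1, if_neg h2, smul_zero, add_zero]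
      rw [Finset.sum_congr rfl h1, Finset.sum_add_distrib, Finset.sum_ite_eq', Finset.sum_ite_eq',
        if_pos (Finset.mem_range.mpr (by omega)), if_pos (Finset.mem_range.mpr (by omega))]
    have hS : IsUnit (∑ j ∈ Finset.range (2 * N + 1), l j • A j x) := by
      apply hunit (x, w)
      intro a b
      have hBx : ∀ y : T × I, ‖∑ j ∈ Finset.range (2 * N + 1), l j * B a b j y - (g (y, w)).1 a b‖ ≤ δ / 2 :=
        fun y => hB a b y w
      have hx0 := hBx (x.1, 0)
      have hx1 := hBx (x.1, 1)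
      have hx := hBx x
      have hg0 : (g ((x.1, 0), w)).1 = 1 - e x.1 + (w : ℂ) • e x.1 := by
        rw [hg]
        simp only [H.apply_zero]
        rfl
      have hg1 : (g ((x.1, 1), w)).1 = 1 - f x.1 + (w : ℂ) • f x.1 := by
        rw [hg]
        simp only [H.apply_one]
        rfl
      rw [hg0, ← hES] at hx0
      rw [hg1, ← hES] at hx1
      simp only [Matrix.sum_apply, Matrix.smul_apply, smul_eq_mul] at hx0 hx1
      have e1 : (∑ j ∈ Finset.range (2 * N + 1), l j • A j x) a b - (g (x, w)).1 a b =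
          (∑ j ∈ Finset.range (2 * N + 1), l j * B a b j x - (g (x, w)).1 a b) -
          ((1 - (x.2 : ℝ) : ℝ) : ℂ) * (∑ j ∈ Finset.range (2 * N + 1), l j * B a b j (x.1, 0) -
            ∑ j ∈ Finset.range (2 * N + 1), l j * E e j x.1 a b) -
          (((x.2 : ℝ) : ℝ) : ℂ) * (∑ j ∈ Finset.range (2 * N + 1), l j * B a b j (x.1, 1) -
            ∑ j ∈ Finset.range (2 * N + 1), l j * E f j x.1 a b) := by
        simp only [Matrix.sum_apply, Matrix.smul_apply, smul_eq_mul, hA, Matrix.add_apply,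
          Matrix.sub_apply, hBm]
        rw [← Finset.sum_sub_distrib, ← Finset.sum_sub_distrib, Finset.mul_sum, Finset.mul_sum]
        have e2 : ∀ j ∈ Finset.range (2 * N + 1),
            l j * (B a b j x + ((1 - (x.2 : ℝ) : ℝ) : ℂ) * (E e j x.1 a b - B a b j (x.1, 0)) +
            (((x.2 : ℝ) : ℝ) : ℂ) * (E f j x.1 a b - B a b j (x.1, 1))) =
            l j * B a b j x - ((1 - (x.2 : ℝ) : ℝ) : ℂ) * (l j * B a b j (x.1, 0) - l j * E e j x.1 a b) -
            (((x.2 : ℝ) : ℝ) : ℂ) * (l j * B a b j (x.1, 1) - l j * E f j x.1 a b) := by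
          intro j _
          ring
        rw [Finset.sum_congr rfl e2, Finset.sum_sub_distrib, Finset.sum_sub_distrib]
        ring
      rw [e1]
      have hs0 : 0 ≤ (x.2 : ℝ) := x.2.2.1
      have hs1 : (x.2 : ℝ) ≤ 1 := x.2.2.2
      refine (norm_sub_le _ _).trans ?_
      refine (add_le_add (norm_sub_le _ _) le_rfl).trans ?_
      rw [norm_mul, norm_mul, Complex.norm_real, Complex.norm_real, Real.norm_eq_abs,
        Real.norm_eq_abs, abs_of_nonneg hs0, abs_of_nonneg (sub_nonneg.mpr hs1)]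
      have q1 := mul_le_mul_of_nonneg_left hx0 (sub_nonneg.mpr hs1)
      have q2 := mul_le_mul_of_nonneg_left hx1 hs0
      nlinarith
    rw [Matrix.isUnit_iff_isUnit_det] at hS ⊢
    rw [Matrix.det_smul]
    apply IsUnit.mul _ hS
    apply IsUnit.pow
    apply IsUnit.pow
    exact isUnit_iff_ne_zero.mpr (Circle.coe_ne_zero w)
  · intro t j _
    rw [hA]
    simp [hE]
  · intro t j _
    rw [hA]
    simp [hE]

/-- constant term of the companion pencil -/
def cpA {ι : Type} [Fintype ι] [DecidableEq ι] (d : ℕ) (A : ℕ → Matrix ι ι ℂ) :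
    Matrix (Fin (d + 1) × ι) (Fin (d + 1) × ι) ℂ :=
  fun p q => if p.1 = 0 then A q.1 p.2 q.2 else if p = q then 1 else 0

/-- linear term of the companion pencil -/
def cpB {ι : Type} [Fintype ι] [DecidableEq ι] (d : ℕ) :
    Matrix (Fin (d + 1) × ι) (Fin (d + 1) × ι) ℂ :=
  fun p q => if (p.1 : ℕ) = q.1 + 1 ∧ p.2 = q.2 then -1 else 0

theorem cp_row_succ {ι : Type} [Fintype ι] [DecidableEq ι] (d : ℕ) (A : ℕ → Matrix ι ι ℂ) (z : ℂ)
    (v : Fin (d + 1) × ι → ℂ) (m : ℕ) (hm : m + 1 < d + 1) (i : ι) :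
    ((cpA d A + z • cpB d).mulVec v) (⟨m + 1, hm⟩, i) =
      v (⟨m + 1, hm⟩, i) - z * v (⟨m, by omega⟩, i) := by
  have h1 : ∀ q : Fin (d + 1) × ι, (cpA d A + z • cpB d : Matrix (Fin (d + 1) × ι) (Fin (d + 1) × ι) ℂ) (⟨m + 1, hm⟩, i) q * v q =
      (if (⟨m + 1, hm⟩, i) = q then v q else 0) -
        (if (⟨m, by omega⟩, i) = q then z * v q else 0) := by
    intro q
    have h2 : (cpA d A + z • cpB d : Matrix (Fin (d + 1) × ι) (Fin (d + 1) × ι) ℂ) (⟨m + 1, hm⟩, i) q =
        cpA d A (⟨m + 1, hm⟩, i) q + z * cpB d (⟨m + 1, hm⟩, i) q := rfl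
    rw [h2]
    have h3 : cpA d A (⟨m + 1, hm⟩, i) q = if (⟨m + 1, hm⟩, i) = q then 1 else 0 := by
      unfold cpA
      rw [if_neg]
      intro h
      have := congrArg Fin.val h
      simp at this
    have h4 : cpB d (⟨m + 1, hm⟩, i) q =
        if ((⟨m, by omega⟩, i) : Fin (d + 1) × ι) = q then (-1 : ℂ) else 0 := by
      unfold cpB
      have h5 : (((⟨m + 1, hm⟩, i) : Fin (d + 1) × ι).1 : ℕ) = q.1 + 1 ∧
          ((⟨m + 1, hm⟩, i) : Fin (d + 1) × ι).2 = q.2 ↔
          ((⟨m, by omega⟩, i) : Fin (d + 1) × ι) = q := by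
        rcases q with ⟨⟨l, hl⟩, j⟩
        simp only [Prod.mk.injEq, Fin.mk.injEq]
        constructor <;> rintro ⟨h1, h2⟩ <;> exact ⟨by omega, h2⟩
      simp only [h5]
    rw [h3, h4]
    split_ifs <;> ring
  show ∑ q, (cpA d A + z • cpB d : Matrix (Fin (d + 1) × ι) (Fin (d + 1) × ι) ℂ) (⟨m + 1, hm⟩, i) q * v q = _
  rw [Finset.sum_congr rfl (fun q _ => h1 q), Finset.sum_sub_distrib, Finset.sum_ite_eq,
    Finset.sum_ite_eq]
  simp

theorem cp_row_zero {ι : Type} [Fintype ι] [DecidableEq ι] (d : ℕ) (A : ℕ → Matrix ι ι ℂ) (z : ℂ)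
    (v : Fin (d + 1) × ι → ℂ) (i : ι) :
    ((cpA d A + z • cpB d).mulVec v) (0, i) = ∑ l : Fin (d + 1), ∑ j, A l i j * v (l, j) := by
  show ∑ q, (cpA d A + z • cpB d : Matrix (Fin (d + 1) × ι) (Fin (d + 1) × ι) ℂ) (0, i) q * v q = _
  rw [Fintype.sum_prod_type]
  refine Finset.sum_congr rfl (fun l _ => Finset.sum_congr rfl (fun j _ => ?_))
  have h2 : (cpA d A + z • cpB d : Matrix (Fin (d + 1) × ι) (Fin (d + 1) × ι) ℂ) (0, i) (l, j) = cpA d A (0, i) (l, j) + z * cpB d (0, i) (l, j) :=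
    rfl
  rw [h2]
  unfold cpA cpB
  simp

/-- invertibility of the companion pencil -/
theorem cp_isUnit {ι : Type} [Fintype ι] [DecidableEq ι] (d : ℕ) (A : ℕ → Matrix ι ι ℂ) (z : ℂ)
    (h : IsUnit (∑ j ∈ Finset.range (d + 1), z ^ j • A j)) :
    IsUnit (cpA d A + z • cpB d) := by
  rw [← Matrix.mulVec_injective_iff_isUnit]
  have hinj := Matrix.mulVec_injective_iff_isUnit.2 h
  have key : ∀ v : Fin (d + 1) × ι → ℂ, (cpA d A + z • cpB d).mulVec v = 0 → v = 0 := by
    intro v hv
    have hpow : ∀ (m : ℕ) (hm : m < d + 1) (i : ι), v (⟨m, hm⟩, i) = z ^ m * v (0, i) := by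
      intro m
      induction m with
      | zero =>
        intro hm i
        rw [pow_zero, one_mul]
        rfl
      | succ m ih =>
        intro hm i
        have h1 := congrFun hv (⟨m + 1, hm⟩, i)
        rw [cp_row_succ] at h1
        have h2 : v (⟨m + 1, hm⟩, i) = z * v (⟨m, by omega⟩, i) := sub_eq_zero.1 h1
        rw [h2, ih (by omega) i, pow_succ]
        ring
    have h0 : (fun j => v (0, j)) = 0 := by
      apply hinj
      rw [Matrix.mulVec_zero]
      funext i
      have h1 := congrFun hv (0, i)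
      rw [cp_row_zero] at h1
      show ∑ j, (∑ l ∈ Finset.range (d + 1), z ^ l • A l) i j * v (0, j) = 0
      have h2 : ∀ j, (∑ l ∈ Finset.range (d + 1), z ^ l • A l) i j * v (0, j) =
          ∑ l ∈ Finset.range (d + 1), A l i j * (z ^ l * v (0, j)) := by
        intro j
        rw [Matrix.sum_apply, Finset.sum_mul]
        refine Finset.sum_congr rfl (fun l _ => ?_)
        rw [Matrix.smul_apply, smul_eq_mul]
        ring
      rw [Finset.sum_congr rfl (fun j _ => h2 j), Finset.sum_comm, Finset.sum_range]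
      have h3 : ∑ l : Fin (d + 1), ∑ j, A l i j * v (l, j) =
          ∑ l : Fin (d + 1), ∑ j, A l i j * (z ^ (l : ℕ) * v (0, j)) := by
        refine Finset.sum_congr rfl (fun l _ => Finset.sum_congr rfl (fun j _ => ?_))
        have := hpow l.1 l.2 j
        rw [← this]
      rw [h3] at h1
      exact h1
    funext ⟨⟨m, hm⟩, i⟩
    rw [hpow m hm i]
    have := congrFun h0 i
    have h1 : v (0, i) = 0 := this
    rw [h1, mul_zero]
    rfl
  intro v w hvw
  have h1 : (cpA d A + z • cpB d).mulVec (v - w) = 0 := by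
    rw [Matrix.mulVec_sub]
    exact sub_eq_zero.2 hvw
  exact sub_eq_zero.1 (key _ h1)

/-- the spectral idempotent of the pencil `a + z b` (for the unit disk) -/
def spc {κ : Type} [Fintype κ] [DecidableEq κ] (a b : Matrix κ κ ℂ) : Matrix κ κ ℂ :=
  fun i j => (1 / (2 * (Real.pi : ℂ))) * ∫ θ in (0 : ℝ)..(2 * Real.pi),
    Complex.exp (θ * Complex.I) * ((a + Complex.exp (θ * Complex.I) • b)⁻¹ * b) i j

/-- Fourier coefficients on `[0, 2π]` -/
def fcs (f : ℝ → ℂ) (m : ℤ) : ℂ :=
  (1 / (2 * (Real.pi : ℂ))) * ∫ θ in (0 : ℝ)..(2 * Real.pi), Complex.exp (-(m : ℂ) * θ * Complex.I) * f θ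

theorem fcs_cont (f : ℝ → ℂ) (hf : Continuous f) (m : ℤ) :
    Continuous (fun θ : ℝ => Complex.exp (-(m : ℂ) * θ * Complex.I) * f θ) := by
  fun_prop

theorem fcs_add (f g : ℝ → ℂ) (hf : Continuous f) (hg : Continuous g) (m : ℤ) :
    fcs (fun θ => f θ + g θ) m = fcs f m + fcs g m := by
  unfold fcs
  rw [← mul_add, ← intervalIntegral.integral_add ((fcs_cont f hf m).intervalIntegrable _ _)
    ((fcs_cont g hg m).intervalIntegrable _ _)]
  congr 1
  apply intervalIntegral.integral_congr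
  intro θ _
  simp only [mul_add]

theorem fcs_mul_const (f : ℝ → ℂ) (c : ℂ) (m : ℤ) :
    fcs (fun θ => f θ * c) m = fcs f m * c := by
  unfold fcs
  rw [mul_assoc, ← intervalIntegral.integral_mul_const]
  congr 1
  apply intervalIntegral.integral_congr
  intro θ _
  simp only [mul_assoc]

theorem fcs_sum {κ : Type} [Fintype κ] (f : κ → ℝ → ℂ) (hf : ∀ k, Continuous (f k)) (m : ℤ) :
    fcs (fun θ => ∑ k, f k θ) m = ∑ k, fcs (f k) m := by
  unfold fcs
  rw [← Finset.mul_sum, ← intervalIntegral.integral_finset_sum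
    (fun k _ => (fcs_cont (f k) (hf k) m).intervalIntegrable _ _)]
  congr 1
  apply intervalIntegral.integral_congr
  intro θ _
  simp only [Finset.mul_sum]

theorem fcs_shift (f : ℝ → ℂ) (m : ℤ) :
    fcs (fun θ => Complex.exp (θ * Complex.I) * f θ) m = fcs f (m - 1) := by
  unfold fcs
  congr 1
  apply intervalIntegral.integral_congr
  intro θ _
  simp only
  rw [← mul_assoc, ← Complex.exp_add]
  congr 2
  push_cast
  ring

theorem fcs_one (m : ℤ) : fcs (fun _ => 1) m = if m = 0 then 1 else 0 := by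
  unfold fcs
  have hpi : (Real.pi : ℂ) ≠ 0 := by exact_mod_cast Real.pi_ne_zero
  split_ifs with h
  · subst h
    simp
    field_simp
  · have hm : (-(m : ℂ) * Complex.I) ≠ 0 := by
      apply mul_ne_zero
      · exact neg_ne_zero.mpr (by exact_mod_cast h)
      · exact Complex.I_ne_zero
    have e1 : (∫ θ in (0 : ℝ)..(2 * Real.pi), Complex.exp (-(m : ℂ) * θ * Complex.I) * 1)
        = ∫ θ in (0 : ℝ)..(2 * Real.pi), Complex.exp ((-(m : ℂ) * Complex.I) * θ) := by
      apply intervalIntegral.integral_congr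
      intro θ _
      simp only [mul_one]
      congr 1
      ring
    rw [e1, integral_exp_mul_complex hm]
    have e2 : Complex.exp (-(m : ℂ) * Complex.I * ((2 * Real.pi : ℝ) : ℂ)) = 1 := by
      rw [Complex.exp_eq_one_iff]
      exact ⟨-m, by push_cast; ring⟩
    rw [e2]
    simp

theorem fcs_const (c : ℂ) (m : ℤ) : fcs (fun _ => c) m = if m = 0 then c else 0 := by
  have := fcs_mul_const (fun _ => 1) c m
  simp only [one_mul] at this
  rw [this, fcs_one]
  split_ifs <;> simp

open Filter MeasureTheory in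
theorem fcs_tendsto (f : ℝ → ℂ) (u : ℕ → ℤ) (hu : Tendsto (fun n => ((u n : ℤ) : ℝ)) atTop (cocompact ℝ)) :
    Tendsto (fun n => fcs f (u n)) atTop (𝓝 0) := by
  have h1 := Real.tendsto_integral_exp_smul_cocompact (Set.indicator (Set.Ioc 0 (2 * Real.pi)) f)
  have hpi : (0 : ℝ) < 2 * Real.pi := by positivity
  have h2 : Tendsto (fun n => ((u n : ℤ) : ℝ) / (2 * Real.pi)) atTop (cocompact ℝ) := by
    have h3 : Tendsto (fun x : ℝ => x / (2 * Real.pi)) (cocompact ℝ) (cocompact ℝ) := by
      have := (Homeomorph.mulRight₀ ((2 * Real.pi)⁻¹) (by positivity)).isClosedEmbedding.tendsto_cocompact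
      simpa [div_eq_mul_inv] using this
    exact h3.comp hu
  have h4 := (h1.comp h2).const_mul (1 / (2 * (Real.pi : ℂ)))
  rw [mul_zero] at h4
  refine h4.congr (fun n => ?_)
  unfold fcs
  simp only [Function.comp]
  congr 1
  rw [intervalIntegral.integral_of_le hpi.le, ← integral_indicator measurableSet_Ioc]
  apply integral_congr_ae
  filter_upwards with v
  by_cases hv : v ∈ Set.Ioc 0 (2 * Real.pi)
  · rw [Set.indicator_of_mem hv, Set.indicator_of_mem hv]
    rw [Circle.smul_def, Real.fourierChar_apply, smul_eq_mul]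
    congr 2
    have : (Real.pi : ℂ) ≠ 0 := by exact_mod_cast Real.pi_ne_zero
    push_cast
    field_simp
  · rw [Set.indicator_of_notMem hv, Set.indicator_of_notMem hv, smul_zero]

theorem pencil_cont {κ : Type} [Fintype κ] [DecidableEq κ] (a b : Matrix κ κ ℂ)
    (h : ∀ z : ℂ, ‖z‖ = 1 → IsUnit (a + z • b)) (i j : κ) :
    Continuous (fun θ : ℝ => (a + Complex.exp (θ * Complex.I) • b)⁻¹ i j) := by
  have hc : Continuous (fun θ : ℝ => a + Complex.exp (θ * Complex.I) • b) := by fun_prop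
  have hd : ∀ θ : ℝ, (a + Complex.exp (θ * Complex.I) • b).det ≠ 0 := by
    intro θ
    have := (Matrix.isUnit_iff_isUnit_det _).mp (h _ (Complex.norm_exp_ofReal_mul_I θ))
    exact this.ne_zero
  have e : (fun θ : ℝ => (a + Complex.exp (θ * Complex.I) • b)⁻¹ i j) = fun θ : ℝ =>
      ((a + Complex.exp (θ * Complex.I) • b).det)⁻¹ * (a + Complex.exp (θ * Complex.I) • b).adjugate i j := by
    funext θ
    rw [Matrix.inv_def, Ring.inverse_eq_inv', Matrix.smul_apply, smul_eq_mul]
  rw [e]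
  refine Continuous.mul (Continuous.inv₀ (Continuous.matrix_det hc) hd) ?_
  exact (Continuous.matrix_adjugate hc).matrix_elem i j

/-- matrix of Fourier coefficients of the resolvent -/
def rcf {κ : Type} [Fintype κ] [DecidableEq κ] (a b : Matrix κ κ ℂ) (m : ℤ) : Matrix κ κ ℂ :=
  fun i j => fcs (fun θ => (a + Complex.exp (θ * Complex.I) • b)⁻¹ i j) m

theorem rcf_left {κ : Type} [Fintype κ] [DecidableEq κ] (a b : Matrix κ κ ℂ)
    (h : ∀ z : ℂ, ‖z‖ = 1 → IsUnit (a + z • b)) (m : ℤ) :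
    rcf a b m * a + rcf a b (m - 1) * b = if m = 0 then 1 else 0 := by
  obtain ⟨R, hRdef⟩ : ∃ R : κ → κ → ℝ → ℂ, R = fun i j (θ : ℝ) => (a + Complex.exp (θ * Complex.I) • b)⁻¹ i j :=
    ⟨_, rfl⟩
  have hR : ∀ i j, Continuous (R i j) := by
    intro i j; rw [hRdef]; exact pencil_cont a b h i j
  have hrc : ∀ m i j, rcf a b m i j = fcs (R i j) m := by
    intro m i j; rw [hRdef]; rfl
  have he : Continuous (fun θ : ℝ => Complex.exp (θ * Complex.I)) := by fun_prop
  have hmain : ∀ i j (θ : ℝ), (∑ k, R i k θ * a k j) + Complex.exp (θ * Complex.I) * (∑ k, R i k θ * b k j)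
      = (1 : Matrix κ κ ℂ) i j := by
    intro i j θ
    have hu := (Matrix.isUnit_iff_isUnit_det _).mp (h _ (Complex.norm_exp_ofReal_mul_I θ))
    have := Matrix.nonsing_inv_mul _ hu
    rw [← this, Matrix.mul_apply, Finset.mul_sum, ← Finset.sum_add_distrib, hRdef]
    apply Finset.sum_congr rfl
    intro k _
    simp only [Matrix.add_apply, Matrix.smul_apply, smul_eq_mul]
    ring
  clear hRdef
  ext i j
  have e1 : (rcf a b m * a) i j = fcs (fun θ => ∑ k, R i k θ * a k j) m := by
    rw [Matrix.mul_apply, fcs_sum (fun k θ => R i k θ * a k j) (fun k => (hR i k).mul continuous_const) m]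
    apply Finset.sum_congr rfl
    intro k _
    rw [hrc, fcs_mul_const]
  have e2 : (rcf a b (m - 1) * b) i j =
      fcs (fun θ => Complex.exp (θ * Complex.I) * ∑ k, R i k θ * b k j) m := by
    rw [fcs_shift, Matrix.mul_apply, fcs_sum (fun k θ => R i k θ * b k j) (fun k => (hR i k).mul continuous_const) (m - 1)]
    apply Finset.sum_congr rfl
    intro k _
    rw [hrc, fcs_mul_const]
  have hadd := fcs_add (fun θ => ∑ k, R i k θ * a k j)
    (fun θ => Complex.exp (θ * Complex.I) * ∑ k, R i k θ * b k j)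
    (continuous_finsetSum _ (fun k _ => (hR i k).mul continuous_const))
    (he.mul (continuous_finsetSum _ (fun k _ => (hR i k).mul continuous_const))) m
  rw [Matrix.add_apply, e1, e2, ← hadd]
  rw [funext (hmain i j), fcs_const]
  split_ifs <;> simp

theorem rcf_right {κ : Type} [Fintype κ] [DecidableEq κ] (a b : Matrix κ κ ℂ)
    (h : ∀ z : ℂ, ‖z‖ = 1 → IsUnit (a + z • b)) (m : ℤ) :
    a * rcf a b m + b * rcf a b (m - 1) = if m = 0 then 1 else 0 := by
  obtain ⟨R, hRdef⟩ : ∃ R : κ → κ → ℝ → ℂ, R = fun i j (θ : ℝ) => (a + Complex.exp (θ * Complex.I) • b)⁻¹ i j :=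
    ⟨_, rfl⟩
  have hR : ∀ i j, Continuous (R i j) := by
    intro i j; rw [hRdef]; exact pencil_cont a b h i j
  have hrc : ∀ m i j, rcf a b m i j = fcs (R i j) m := by
    intro m i j; rw [hRdef]; rfl
  have he : Continuous (fun θ : ℝ => Complex.exp (θ * Complex.I)) := by fun_prop
  have hmain : ∀ i j (θ : ℝ), (∑ k, R k j θ * a i k) + Complex.exp (θ * Complex.I) * (∑ k, R k j θ * b i k)
      = (1 : Matrix κ κ ℂ) i j := by
    intro i j θ
    have hu := (Matrix.isUnit_iff_isUnit_det _).mp (h _ (Complex.norm_exp_ofReal_mul_I θ))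
    have := Matrix.mul_nonsing_inv _ hu
    rw [← this, Matrix.mul_apply, Finset.mul_sum, ← Finset.sum_add_distrib, hRdef]
    apply Finset.sum_congr rfl
    intro k _
    simp only [Matrix.add_apply, Matrix.smul_apply, smul_eq_mul]
    ring
  clear hRdef
  ext i j
  have e1 : (a * rcf a b m) i j = fcs (fun θ => ∑ k, R k j θ * a i k) m := by
    rw [Matrix.mul_apply, fcs_sum (fun k θ => R k j θ * a i k) (fun k => (hR k j).mul continuous_const) m]
    apply Finset.sum_congr rfl
    intro k _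
    rw [hrc, fcs_mul_const, mul_comm]
  have e2 : (b * rcf a b (m - 1)) i j =
      fcs (fun θ => Complex.exp (θ * Complex.I) * ∑ k, R k j θ * b i k) m := by
    rw [fcs_shift, Matrix.mul_apply, fcs_sum (fun k θ => R k j θ * b i k) (fun k => (hR k j).mul continuous_const) (m - 1)]
    apply Finset.sum_congr rfl
    intro k _
    rw [hrc, fcs_mul_const, mul_comm]
  have hadd := fcs_add (fun θ => ∑ k, R k j θ * a i k)
    (fun θ => Complex.exp (θ * Complex.I) * ∑ k, R k j θ * b i k)
    (continuous_finsetSum _ (fun k _ => (hR k j).mul continuous_const))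
    (he.mul (continuous_finsetSum _ (fun k _ => (hR k j).mul continuous_const))) m
  rw [Matrix.add_apply, e1, e2, ← hadd]
  rw [funext (hmain i j), fcs_const]
  split_ifs <;> simp

theorem spc_eq_rcf {κ : Type} [Fintype κ] [DecidableEq κ] (a b : Matrix κ κ ℂ)
    (h : ∀ z : ℂ, ‖z‖ = 1 → IsUnit (a + z • b)) : spc a b = rcf a b (-1) * b := by
  have hR : ∀ i j, Continuous (fun θ : ℝ => (a + Complex.exp (θ * Complex.I) • b)⁻¹ i j) :=
    fun i j => pencil_cont a b h i j
  ext i j
  have e1 : (rcf a b (-1) * b) i j =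
      fcs (fun θ => ∑ k, (a + Complex.exp (θ * Complex.I) • b)⁻¹ i k * b k j) (-1) := by
    rw [Matrix.mul_apply, fcs_sum (fun k θ => (a + Complex.exp (θ * Complex.I) • b)⁻¹ i k * b k j)
      (fun k => (hR i k).mul continuous_const) (-1)]
    apply Finset.sum_congr rfl
    intro k _
    rw [fcs_mul_const (fun θ => (a + Complex.exp (θ * Complex.I) • b)⁻¹ i k) (b k j) (-1)]
    rfl
  rw [e1]
  unfold spc fcs
  congr 1
  apply intervalIntegral.integral_congr
  intro θ _
  simp only [Matrix.mul_apply]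
  congr 2
  push_cast
  ring

theorem spc_idem {κ : Type} [Fintype κ] [DecidableEq κ] (a b : Matrix κ κ ℂ)
    (h : ∀ z : ℂ, ‖z‖ = 1 → IsUnit (a + z • b)) : spc a b * spc a b = spc a b := by
  rw [spc_eq_rcf a b h]
  obtain ⟨r, hr⟩ : ∃ r : ℤ → Matrix κ κ ℂ, r = rcf a b := ⟨_, rfl⟩
  have hL : ∀ m, r m * a + r (m - 1) * b = if m = 0 then 1 else 0 := by
    intro m; rw [hr]; exact rcf_left a b h m
  have hRt : ∀ m, a * r m + b * r (m - 1) = if m = 0 then 1 else 0 := by
    intro m; rw [hr]; exact rcf_right a b h m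
  have hlimr : ∀ (u : ℕ → ℤ), Filter.Tendsto (fun n => ((u n : ℤ) : ℝ)) Filter.atTop (Filter.cocompact ℝ) →
      Filter.Tendsto (fun k => r (u k)) Filter.atTop (𝓝 0) := by
    intro u hu
    rw [hr]
    refine tendsto_pi_nhds.mpr fun i => tendsto_pi_nhds.mpr fun j => ?_
    exact fcs_tendsto _ u hu
  rw [← hr]
  clear hr
  have hrel : ∀ m n : ℤ, (r m * b) * (r (n - 1) * b) - (r (m - 1) * b) * (r n * b)
      = (if n = 0 then r m * b else 0) - (if m = 0 then r n * b else 0) := by
    intro m n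
    have h3 : b * r (n - 1) = (if n = 0 then 1 else 0) - a * r n := by
      rw [← hRt n]; abel
    have h4 : r m * a = (if m = 0 then 1 else 0) - r (m - 1) * b := by
      rw [← hL m]; abel
    have h5 : (r m * b) * (r (n - 1) * b) = r m * (b * r (n - 1)) * b := by
      simp only [mul_assoc]
    have h6 : r m * (b * r (n - 1)) = (if n = 0 then r m else 0) -
        (r m * a) * r n := by
      rw [h3, mul_sub, mul_assoc]
      split_ifs <;> simp
    rw [h5, h6, h4]
    split_ifs <;> simp only [sub_mul, mul_assoc, one_mul, zero_mul, zero_sub, sub_zero, neg_mul] <;> abel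
  have hstep : ∀ k : ℕ, (r (-1 - 1) * b) * (r 0 * b) = (r (-2 - (k : ℤ)) * b) * (r k * b) := by
    intro k
    induction k with
    | zero => simp
    | succ k ih =>
      rw [ih]
      have h1 := hrel (-2 - (k : ℤ)) (k + 1)
      rw [if_neg (by omega), if_neg (by omega), sub_zero] at h1
      have h2 := sub_eq_zero.mp h1
      rw [show ((k : ℤ) + 1 - 1) = k by ring] at h2
      rw [h2]
      congr 3
      push_cast; ring
  have hlim : ∀ (u : ℕ → ℤ), Filter.Tendsto (fun n => ((u n : ℤ) : ℝ)) Filter.atTop (Filter.cocompact ℝ) →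
      Filter.Tendsto (fun k => r (u k) * b) Filter.atTop (𝓝 0) := by
    intro u hu
    have h1 := hlimr u hu
    have h2 : Continuous (fun M : Matrix κ κ ℂ => M * b) := by fun_prop
    have h3 := (h2.tendsto 0).comp h1
    simpa [Function.comp_def] using h3
  have hA := hlim (fun k => (k : ℤ)) (by
    have : Filter.Tendsto (fun n : ℕ => (((n : ℤ) : ℤ) : ℝ)) Filter.atTop Filter.atTop := by
      simpa using tendsto_natCast_atTop_atTop (R := ℝ)
    exact this.mono_right atTop_le_cocompact)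
  have hB := hlim (fun k => -2 - (k : ℤ)) (by
    have h0 : Filter.Tendsto (fun n : ℕ => ((n : ℕ) : ℝ)) Filter.atTop Filter.atTop :=
      tendsto_natCast_atTop_atTop (R := ℝ)
    have : Filter.Tendsto (fun n : ℕ => (((-2 - (n : ℤ)) : ℤ) : ℝ)) Filter.atTop Filter.atBot := by
      have h1 := Filter.tendsto_atBot_add_const_left Filter.atTop (-2 : ℝ) (Filter.tendsto_neg_atTop_atBot.comp h0)
      refine h1.congr (fun n => ?_)
      simp [sub_eq_add_neg]
    exact this.mono_right atBot_le_cocompact)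
  have hprod : Filter.Tendsto (fun k : ℕ => (r (-2 - (k : ℤ)) * b) * (r k * b)) Filter.atTop (𝓝 (0 * 0)) := by
    exact Filter.Tendsto.mul hB hA
  have hzero : (r (-1 - 1) * b) * (r 0 * b) = 0 := by
    have h1 : Filter.Tendsto (fun k : ℕ => (r (-2 - (k : ℤ)) * b) * (r k * b)) Filter.atTop
        (𝓝 ((r (-1 - 1) * b) * (r 0 * b))) := by
      refine tendsto_const_nhds.congr (fun k => hstep k)
    have := tendsto_nhds_unique h1 hprod
    simpa using this
  have h0 := hrel (-1) 0
  rw [if_pos rfl, if_neg (by norm_num), sub_zero, hzero, sub_zero] at h0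
  have h1 : (0 - 1 : ℤ) = -1 := by norm_num
  rw [h1] at h0
  exact h0

theorem spc_cont {X : Type} [TopologicalSpace X] {κ : Type} [Fintype κ] [DecidableEq κ]
    (a b : C(X, Matrix κ κ ℂ)) (h : ∀ x (z : ℂ), ‖z‖ = 1 → IsUnit (a x + z • b x)) :
    Continuous (fun x => spc (a x) (b x)) := by
  have hM : Continuous (fun p : X × ℝ => a p.1 + Complex.exp (p.2 * Complex.I) • b p.1) := by
    have h1 := a.continuous
    have h2 := b.continuous
    fun_prop
  have hu : ∀ p : X × ℝ, IsUnit (a p.1 + Complex.exp (p.2 * Complex.I) • b p.1) := by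
    intro p
    exact h p.1 _ (Complex.norm_exp_ofReal_mul_I p.2)
  have hdet : ∀ p : X × ℝ, (a p.1 + Complex.exp (p.2 * Complex.I) • b p.1).det ≠ 0 := by
    intro p
    have := (Matrix.isUnit_iff_isUnit_det _).1 (hu p)
    exact this.ne_zero
  have hinv : Continuous (fun p : X × ℝ => (a p.1 + Complex.exp (p.2 * Complex.I) • b p.1)⁻¹) := by
    have h1 : (fun p : X × ℝ => (a p.1 + Complex.exp (p.2 * Complex.I) • b p.1)⁻¹) =
        fun p : X × ℝ => ((a p.1 + Complex.exp (p.2 * Complex.I) • b p.1).det)⁻¹ •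
          (a p.1 + Complex.exp (p.2 * Complex.I) • b p.1).adjugate := by
      funext p
      rw [Matrix.inv_def, Ring.inverse_eq_inv']
    rw [h1]
    exact (hM.matrix_det.inv₀ hdet).smul hM.matrix_adjugate
  have hprod : Continuous (fun p : X × ℝ =>
      (a p.1 + Complex.exp (p.2 * Complex.I) • b p.1)⁻¹ * b p.1) :=
    hinv.matrix_mul (b.continuous.comp continuous_fst)
  refine continuous_matrix fun i j => ?_
  unfold spc
  refine continuous_const.mul ?_
  apply intervalIntegral.continuous_parametric_intervalIntegral_of_continuous'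
  show Continuous (fun p : X × ℝ => Complex.exp (p.2 * Complex.I) *
    ((a p.1 + Complex.exp (p.2 * Complex.I) • b p.1)⁻¹ * b p.1) i j)
  have h3 : Continuous (fun p : X × ℝ =>
      ((a p.1 + Complex.exp (p.2 * Complex.I) • b p.1)⁻¹ * b p.1) i j) := hprod.matrix_elem i j
  have h4 : Continuous (fun p : X × ℝ => Complex.exp (p.2 * Complex.I)) := by fun_prop
  exact h4.mul h3

/-- auxiliary: the blocks of `L⁻¹ b` -/
def spc_eval_B {ι : Type} [Fintype ι] [DecidableEq ι] (e : Matrix ι ι ℂ) (N : ℕ) (z : ℂ)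
    (i c : ℕ) : Matrix ι ι ℂ :=
  if c = 2 * N then 0 else (-(z ^ ((i : ℤ) - c - 1))) •
    ((((if c + 1 ≤ i then 1 else 0) - (if c + 1 ≤ N then 1 else 0) : ℂ)) • (1 - e) +
      (((if c + 1 ≤ i then 1 else 0) - (if c + 1 ≤ N + 1 then 1 else 0) : ℂ)) • e)

/-- auxiliary: the matrix `L⁻¹ b` -/
def spc_eval_X {ι : Type} [Fintype ι] [DecidableEq ι] (e : Matrix ι ι ℂ) (N : ℕ) (z : ℂ) :
    Matrix (Fin (2 * N + 1) × ι) (Fin (2 * N + 1) × ι) ℂ :=
  Matrix.of (fun p q => spc_eval_B e N z p.1 q.1 p.2 q.2)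

theorem spc_eval_X_apply {ι : Type} [Fintype ι] [DecidableEq ι] (e : Matrix ι ι ℂ) (N : ℕ) (z : ℂ)
    (p q : Fin (2 * N + 1) × ι) : spc_eval_X e N z p q = spc_eval_B e N z p.1 q.1 p.2 q.2 := rfl

theorem spc_eval_B0 {ι : Type} [Fintype ι] [DecidableEq ι] (e : Matrix ι ι ℂ) (he : e * e = e)
    (N : ℕ) (z : ℂ) (c : ℕ) : (1 - e) * spc_eval_B e N z N c = 0 := by
  unfold spc_eval_B
  split_ifs with h1 h2 h3 <;> simp [sub_mul, mul_sub, he]

theorem spc_eval_B1 {ι : Type} [Fintype ι] [DecidableEq ι] (e : Matrix ι ι ℂ) (he : e * e = e)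
    (N : ℕ) (z : ℂ) (c : ℕ) : e * spc_eval_B e N z (N + 1) c = 0 := by
  unfold spc_eval_B
  split_ifs with h1 h2 h3 <;> simp [sub_mul, mul_sub, he, mul_add]

theorem spc_eval_rec {ι : Type} [Fintype ι] [DecidableEq ι] (e : Matrix ι ι ℂ)
    (N : ℕ) (z : ℂ) (hz : z ≠ 0) (k c : ℕ) (hc : c ≠ 2 * N) :
    spc_eval_B e N z (k + 1) c - z • spc_eval_B e N z k c = if k = c then -1 else 0 := by
  unfold spc_eval_B
  rw [if_neg hc, if_neg hc]
  have hzk : z ^ (((k + 1 : ℕ) : ℤ) - c - 1) = z * z ^ ((k : ℤ) - c - 1) := by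
    rw [← zpow_one_add₀ hz]
    congr 1
    push_cast
    ring
  rw [hzk]
  by_cases hkc : k = c
  · subst hkc
    have h1 : z ^ ((k : ℤ) - k - 1) = z⁻¹ := by
      rw [sub_self, zero_sub, zpow_neg_one]
    rw [h1, mul_inv_cancel₀ hz, if_pos rfl, if_pos (le_refl _), if_neg (by omega : ¬ (k + 1 ≤ k)),
      smul_smul]
    have h2 : z * -z⁻¹ = -1 := by rw [mul_neg, mul_inv_cancel₀ hz]
    rw [h2, neg_smul, neg_smul, one_smul, one_smul]
    ext a b
    simp only [Matrix.sub_apply, Matrix.neg_apply, Matrix.add_apply, Matrix.smul_apply, smul_eq_mul]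
    ring
  · rw [if_neg hkc]
    have h3 : (c + 1 ≤ k + 1) ↔ (c + 1 ≤ k) := by omega
    simp only [h3]
    rw [smul_smul]
    ext a b
    simp only [Matrix.sub_apply, Matrix.neg_apply, Matrix.add_apply, Matrix.smul_apply, smul_eq_mul,
      Matrix.zero_apply]
    ring

theorem spc_eval_mul {ι : Type} [Fintype ι] [DecidableEq ι] (e : Matrix ι ι ℂ) (he : e * e = e)
    (N : ℕ) (hN : 1 ≤ N) (A : ℕ → Matrix ι ι ℂ)
    (hA : ∀ j, j ≤ 2 * N → A j = if j = N then 1 - e else if j = N + 1 then e else 0)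
    (z : ℂ) (hz : z ≠ 0) :
    (cpA (2 * N) A + z • cpB (2 * N)) * spc_eval_X e N z = cpB (2 * N) := by
  ext p q
  obtain ⟨i, s⟩ := p
  obtain ⟨c, t⟩ := q
  rw [Matrix.mul_apply]
  simp_rw [spc_eval_X_apply]
  by_cases hi : i = 0
  · subst hi
    have hb : (cpB (2 * N) : Matrix (Fin (2 * N + 1) × ι) (Fin (2 * N + 1) × ι) ℂ) (0, s) (c, t) = 0 := by
      unfold cpB
      simp
    rw [hb, Fintype.sum_prod_type]
    apply Finset.sum_eq_zero
    intro j _
    have h1 : ∀ u : ι, ((cpA (2 * N) A + z • cpB (2 * N) : Matrix (Fin (2 * N + 1) × ι) (Fin (2 * N + 1) × ι) ℂ) (0, s) (j, u) *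
        spc_eval_B e N z j c u t) = A j s u * spc_eval_B e N z j c u t := by
      intro u
      congr 1
      rw [Matrix.add_apply, Matrix.smul_apply]
      unfold cpA cpB
      simp
    have h2 : (∑ u, ((cpA (2 * N) A + z • cpB (2 * N) : Matrix (Fin (2 * N + 1) × ι) (Fin (2 * N + 1) × ι) ℂ) (0, s) (j, u) *
        spc_eval_B e N z j c u t)) = (A j * spc_eval_B e N z j c) s t := by
      rw [Matrix.mul_apply]
      exact Finset.sum_congr rfl (fun u _ => h1 u)
    refine h2.trans ?_
    have hj : (j : ℕ) ≤ 2 * N := by have := j.2; omega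
    rw [hA j hj]
    split_ifs with h3 h4
    · rw [h3, spc_eval_B0 e he]
      rfl
    · rw [h4, spc_eval_B1 e he]
      rfl
    · rw [zero_mul]
      rfl
  · obtain ⟨k, hk⟩ : ∃ k : ℕ, (i : ℕ) = k + 1 := by
      refine ⟨i - 1, ?_⟩
      have : (i : ℕ) ≠ 0 := fun h => hi (Fin.ext h)
      omega
    have hk2 : k < 2 * N + 1 := by have := i.2; omega
    have h1 : ∀ r : Fin (2 * N + 1) × ι, (cpA (2 * N) A + z • cpB (2 * N) : Matrix (Fin (2 * N + 1) × ι) (Fin (2 * N + 1) × ι) ℂ) (i, s) r =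
        (if (i, s) = r then 1 else 0) + z * (if r = ((⟨k, hk2⟩ : Fin (2 * N + 1)), s) then -1 else 0) := by
      intro r
      rw [Matrix.add_apply, Matrix.smul_apply]
      unfold cpA cpB
      rw [if_neg hi, smul_eq_mul]
      congr 2
      have h5 : ((i : ℕ) = (r.1 : ℕ) + 1 ∧ s = r.2) ↔ r = ((⟨k, hk2⟩ : Fin (2 * N + 1)), s) := by
        constructor
        · rintro ⟨h3, h4⟩
          apply Prod.ext
          · apply Fin.ext
            show (r.1 : ℕ) = k
            omega
          · exact h4.symm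
        · intro h3
          rw [h3]
          exact ⟨hk, rfl⟩
      by_cases h6 : r = ((⟨k, hk2⟩ : Fin (2 * N + 1)), s)
      · rw [if_pos h6, if_pos (h5.mpr h6)]
      · rw [if_neg h6, if_neg (fun h7 => h6 (h5.mp h7))]
    simp_rw [h1, add_mul]
    rw [Finset.sum_add_distrib]
    have e1 : (∑ r : Fin (2 * N + 1) × ι, (if (i, s) = r then (1:ℂ) else 0) *
        spc_eval_B e N z r.1 c r.2 t) = spc_eval_B e N z i c s t := by
      simp
    have e2 : (∑ r : Fin (2 * N + 1) × ι, z * (if r = ((⟨k, hk2⟩ : Fin (2 * N + 1)), s) then (-1:ℂ) else 0) *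
        spc_eval_B e N z r.1 c r.2 t) = -(z * spc_eval_B e N z k c s t) := by
      rw [Finset.sum_eq_single ((⟨k, hk2⟩ : Fin (2 * N + 1)), s)]
      · rw [if_pos rfl]
        show z * (-1:ℂ) * spc_eval_B e N z k c s t = _
        ring
      · intro b _ hb
        rw [if_neg hb]
        ring
      · intro h
        exact absurd (Finset.mem_univ _) h
    rw [e1, e2, hk]
    unfold cpB
    by_cases hc : (c : ℕ) = 2 * N
    · have h8 : ¬ ((i : ℕ) = (c : ℕ) + 1 ∧ s = t) := by
        rintro ⟨h9, _⟩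
        have := i.2
        omega
      rw [if_neg h8]
      unfold spc_eval_B
      rw [if_pos hc, if_pos hc]
      simp
    · have h9 := spc_eval_rec e N z hz k c hc
      have h10 := congrArg (fun M : Matrix ι ι ℂ => M s t) h9
      simp only [Matrix.sub_apply, Matrix.smul_apply, smul_eq_mul] at h10
      have h11 : spc_eval_B e N z (k + 1) c s t + -(z * spc_eval_B e N z k c s t) =
          (if k = (c : ℕ) then (-1 : Matrix ι ι ℂ) else 0) s t := by
        rw [← h10]
        ring
      rw [h11]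
      by_cases h12 : k = (c : ℕ)
      · rw [if_pos h12]
        by_cases h13 : s = t
        · subst h13
          rw [if_pos ⟨show (i : ℕ) = (c : ℕ) + 1 by omega, rfl⟩]
          simp
        · rw [if_neg (fun h => h13 h.2)]
          simp [Matrix.one_apply_ne h13]
      · rw [if_neg h12, if_neg (fun h => h12 (by have h14 : (i : ℕ) = (c : ℕ) + 1 := h.1; omega))]
        rfl

theorem spc_eval_int (n : ℤ) :
    (∫ θ in (0 : ℝ)..(2 * Real.pi), Complex.exp (θ * Complex.I) ^ n) =
      if n = 0 then 2 * (Real.pi : ℂ) else 0 := by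
  by_cases hn : n = 0
  · subst hn
    simp
  · rw [if_neg hn]
    have h1 : ∀ θ : ℝ, Complex.exp (θ * Complex.I) ^ n = Complex.exp ((n * Complex.I) * θ) := by
      intro θ
      rw [← Complex.exp_int_mul]
      congr 1
      ring
    simp_rw [h1]
    have hnI : (n : ℂ) * Complex.I ≠ 0 := mul_ne_zero (by exact_mod_cast hn) Complex.I_ne_zero
    rw [integral_exp_mul_complex hnI]
    have h2 : Complex.exp (n * Complex.I * ((2 * Real.pi : ℝ) : ℂ)) = 1 := by
      rw [Complex.exp_eq_one_iff]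
      refine ⟨n, ?_⟩
      push_cast
      ring
    rw [h2]
    simp

/-- the spectral idempotent of the companion pencil of `z^N (1-e) + z^(N+1) e` -/
theorem spc_eval {ι : Type} [Fintype ι] [DecidableEq ι] (e : Matrix ι ι ℂ) (he : e * e = e)
    (N : ℕ) (hN : 1 ≤ N) (A : ℕ → Matrix ι ι ℂ)
    (hA : ∀ j, j ≤ 2 * N → A j = if j = N then 1 - e else if j = N + 1 then e else 0) :
    spc (cpA (2 * N) A) (cpB (2 * N)) = fun p q =>
      if p.1 = q.1 then (if (p.1 : ℕ) < N then (1 : Matrix ι ι ℂ) p.2 q.2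
        else if (p.1 : ℕ) = N then e p.2 q.2 else 0) else 0 := by
  have hX : ∀ z : ℂ, ‖z‖ = 1 → (cpA (2 * N) A + z • cpB (2 * N))⁻¹ * cpB (2 * N) =
      spc_eval_X e N z := by
    intro z hz1
    have hz : z ≠ 0 := by
      intro h
      rw [h, norm_zero] at hz1
      exact zero_ne_one hz1
    have hm := spc_eval_mul e he N hN A hA z hz
    have hunit : IsUnit (cpA (2 * N) A + z • cpB (2 * N)) := by
      apply cp_isUnit
      have hsum : (∑ j ∈ Finset.range (2 * N + 1), z ^ j • A j) = z ^ N • (1 - e) + z ^ (N + 1) • e := by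
        have h1 : ∀ j ∈ Finset.range (2 * N + 1), z ^ j • A j =
            (if j = N then z ^ N • (1 - e) else 0) + (if j = N + 1 then z ^ (N + 1) • e else 0) := by
          intro j hj
          rw [Finset.mem_range] at hj
          rw [hA j (by omega)]
          by_cases h2 : j = N
          · subst h2
            simp
          · by_cases h3 : j = N + 1
            · subst h3
              simp
            · simp [h2, h3]
        rw [Finset.sum_congr rfl h1, Finset.sum_add_distrib, Finset.sum_ite_eq', Finset.sum_ite_eq',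
          if_pos (by rw [Finset.mem_range]; omega), if_pos (by rw [Finset.mem_range]; omega)]
      rw [hsum]
      apply IsUnit.of_mul_eq_one ((z ^ N)⁻¹ • (1 - e) + (z ^ (N + 1))⁻¹ • e)
      have hzN : z ^ N ≠ 0 := pow_ne_zero _ hz
      have hzN1 : z ^ (N + 1) ≠ 0 := pow_ne_zero _ hz
      have hee : (1 - e) * (1 - e) = 1 - e := by
        simp [sub_mul, mul_sub, he]
      have he1 : (1 - e) * e = 0 := by simp [sub_mul, he]
      have he2 : e * (1 - e) = 0 := by simp [mul_sub, he]
      rw [add_mul, mul_add, mul_add]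
      simp only [Matrix.smul_mul, Matrix.mul_smul, smul_smul, hee, he1, he2, he, smul_zero, add_zero,
        zero_add]
      rw [inv_mul_cancel₀ hzN, inv_mul_cancel₀ hzN1, one_smul, one_smul]
      exact sub_add_cancel 1 e
    have hdet := (Matrix.isUnit_iff_isUnit_det _).mp hunit
    calc (cpA (2 * N) A + z • cpB (2 * N))⁻¹ * cpB (2 * N)
        = (cpA (2 * N) A + z • cpB (2 * N))⁻¹ * ((cpA (2 * N) A + z • cpB (2 * N)) *
          spc_eval_X e N z) := by rw [hm]
      _ = spc_eval_X e N z := Matrix.nonsing_inv_mul_cancel_left _ _ hdet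
  ext p q
  obtain ⟨i, s⟩ := p
  obtain ⟨c, t⟩ := q
  unfold spc
  have hnorm : ∀ θ : ℝ, ‖Complex.exp (θ * Complex.I)‖ = 1 := fun θ => Complex.norm_exp_ofReal_mul_I θ
  have hint : ∀ θ : ℝ, Complex.exp (θ * Complex.I) *
      (((cpA (2 * N) A + Complex.exp (θ * Complex.I) • cpB (2 * N))⁻¹ * cpB (2 * N) :
        Matrix (Fin (2 * N + 1) × ι) (Fin (2 * N + 1) × ι) ℂ) (i, s) (c, t)) =
      Complex.exp (θ * Complex.I) ^ ((i : ℤ) - c) * (if (c : ℕ) = 2 * N then 0 else -
    ((((if (c : ℕ) + 1 ≤ i then 1 else 0) - (if (c : ℕ) + 1 ≤ N then 1 else 0) : ℂ)) * (1 - e) s t +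
      (((if (c : ℕ) + 1 ≤ i then 1 else 0) - (if (c : ℕ) + 1 ≤ N + 1 then 1 else 0) : ℂ)) * e s t)) := by
    intro θ
    have hz : Complex.exp (θ * Complex.I) ≠ 0 := Complex.exp_ne_zero _
    rw [hX _ (hnorm θ)]
    show Complex.exp (θ * Complex.I) * spc_eval_B e N (Complex.exp (θ * Complex.I)) i c s t = _
    unfold spc_eval_B
    by_cases hc : (c : ℕ) = 2 * N
    · rw [if_pos hc, if_pos hc]
      simp
    · rw [if_neg hc, if_neg hc]
      have hzk : Complex.exp (θ * Complex.I) ^ ((i : ℤ) - c) =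
          Complex.exp (θ * Complex.I) * Complex.exp (θ * Complex.I) ^ ((i : ℤ) - c - 1) := by
        rw [← zpow_one_add₀ hz]
        congr 1
        ring
      rw [hzk]
      simp only [Matrix.smul_apply, Matrix.add_apply, smul_eq_mul]
      ring
  simp_rw [hint]
  rw [intervalIntegral.integral_mul_const, spc_eval_int]
  by_cases hic : i = c
  · subst hic
    rw [if_pos (sub_self _), if_pos rfl]
    have hpi : (2 * (Real.pi : ℂ)) ≠ 0 := by
      have := Real.pi_ne_zero
      exact mul_ne_zero two_ne_zero (by exact_mod_cast this)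
    rw [← mul_assoc, one_div, inv_mul_cancel₀ hpi, one_mul]
    by_cases hc : (i : ℕ) = 2 * N
    · rw [if_pos hc, if_neg (by omega : ¬ ((i : ℕ) < N)), if_neg (by omega : ¬ ((i : ℕ) = N))]
    · rw [if_neg hc, if_neg (by omega : ¬ ((i : ℕ) + 1 ≤ i))]
      by_cases h1 : (i : ℕ) < N
      · rw [if_pos h1, if_pos (by omega : (i : ℕ) + 1 ≤ N), if_pos (by omega : (i : ℕ) + 1 ≤ N + 1),
          Matrix.sub_apply]
        ring
      · rw [if_neg h1, if_neg (by omega : ¬ ((i : ℕ) + 1 ≤ N))]
        by_cases h2 : (i : ℕ) = N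
        · rw [if_pos h2, if_pos (by omega : (i : ℕ) + 1 ≤ N + 1)]
          ring
        · rw [if_neg h2, if_neg (by omega : ¬ ((i : ℕ) + 1 ≤ N + 1))]
          ring
  · have h3 : ¬ (((i : ℕ) : ℤ) - ((c : ℕ) : ℤ) = 0) := by
      intro h
      apply hic
      apply Fin.ext
      omega
    rw [if_neg h3, if_neg hic]
    simp

/-- intertwiner of two idempotents -/
def Wm_aux {κ : Type} [Fintype κ] [DecidableEq κ] (p q : Matrix κ κ ℂ) : Matrix κ κ ℂ :=
  q * p + (1 - q) * (1 - p)

theorem Wm_self_aux {κ : Type} [Fintype κ] [DecidableEq κ] (p : Matrix κ κ ℂ) (hp : p * p = p) :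
    Wm_aux p p = 1 := by
  unfold Wm_aux
  simp only [mul_sub, sub_mul, mul_one, one_mul, hp]
  abel

theorem Wm_inter_aux {κ : Type} [Fintype κ] [DecidableEq κ] (p q : Matrix κ κ ℂ) (hp : p * p = p)
    (hq : q * q = q) : Wm_aux p q * p = q * Wm_aux p q := by
  unfold Wm_aux
  have h1 : (1 - p) * p = 0 := by rw [sub_mul, one_mul, hp, sub_self]
  have h2 : q * (1 - q) = 0 := by rw [mul_sub, mul_one, hq, sub_self]
  rw [add_mul, mul_add, mul_assoc, hp, mul_assoc (1 - q), h1, mul_zero, add_zero, ← mul_assoc q q p,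
    hq, ← mul_assoc q (1 - q), h2, zero_mul, add_zero]

theorem exists_delta_aux {T : Type} [TopologicalSpace T] [CompactSpace T] {κ : Type} [Fintype κ]
    [DecidableEq κ] (P : C(T × I, Matrix κ κ ℂ)) (hP : ∀ x, P x * P x = P x) :
    ∃ δ > 0, ∀ (t : T) (s s' : I), dist s s' < δ → (Wm_aux (P (t, s)) (P (t, s'))).det ≠ 0 := by
  have hPc := P.continuous
  have hF : Continuous fun x : T × I × I => (Wm_aux (P (x.1, x.2.1)) (P (x.1, x.2.2))).det := by
    refine Continuous.matrix_det ?_
    unfold Wm_aux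
    fun_prop
  set K : Set (T × I × I) :=
    (fun x : T × I × I => (Wm_aux (P (x.1, x.2.1)) (P (x.1, x.2.2))).det) ⁻¹' {0} with hK
  have hKc : IsCompact K := (isClosed_singleton.preimage hF).isCompact
  rcases K.eq_empty_or_nonempty with h | h
  · refine ⟨1, one_pos, fun t s s' _ hc => ?_⟩
    have : ((t, s, s') : T × I × I) ∈ K := hc
    rw [h] at this
    exact this
  · obtain ⟨x0, hx0, hmin⟩ := hKc.exists_isMinOn h
      (f := fun x : T × I × I => dist x.2.1 x.2.2) (by fun_prop)
    refine ⟨dist x0.2.1 x0.2.2, ?_, fun t s s' hd hc => ?_⟩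
    · rcases eq_or_lt_of_le (dist_nonneg (x := x0.2.1) (y := x0.2.2)) with h1 | h1
      · exfalso
        have h2 : x0.2.1 = x0.2.2 := dist_eq_zero.1 h1.symm
        have h3 : (Wm_aux (P (x0.1, x0.2.1)) (P (x0.1, x0.2.2))).det = 0 := hx0
        rw [← h2, Wm_self_aux _ (hP _), Matrix.det_one] at h3
        exact one_ne_zero h3
      · exact h1
    · have h1 : ((t, s, s') : T × I × I) ∈ K := hc
      have h2 := hmin h1
      simp only [Set.mem_setOf_eq] at h2
      exact absurd hd (not_lt.2 h2)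

/-- unit valued map from a matrix valued map with nonvanishing determinant -/
theorem exists_unit_aux {X : Type} [TopologicalSpace X] {κ : Type} [Fintype κ] [DecidableEq κ]
    (f : X → Matrix κ κ ℂ) (hf : Continuous f) (hd : ∀ x, (f x).det ≠ 0) :
    ∃ v : C(X, (Matrix κ κ ℂ)ˣ), ∀ x, (v x).1 = f x := by
  have hu : ∀ x, IsUnit (f x).det := fun x => (hd x).isUnit
  refine ⟨⟨fun x => Matrix.nonsingInvUnit (f x) (hu x), ?_⟩, fun x => rfl⟩
  rw [Units.continuous_iff]
  constructor
  · exact hf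
  · show Continuous fun x => (f x)⁻¹
    have : (fun x => (f x)⁻¹) = fun x => ((f x).det)⁻¹ • (f x).adjugate := by
      funext x
      rw [Matrix.inv_def, Ring.inverse_eq_inv']
    rw [this]
    exact (hf.matrix_det.inv₀ hd).smul hf.matrix_adjugate

def cl_aux (a : ℝ) (ha : 0 ≤ a) (s : I) : I :=
  ⟨min (s : ℝ) a, le_min s.2.1 ha, (min_le_left _ _).trans s.2.2⟩

theorem cl_cont_aux (a : ℝ) (ha : 0 ≤ a) : Continuous (cl_aux a ha) := by
  unfold cl_aux
  exact Continuous.subtype_mk (continuous_subtype_val.min continuous_const) _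

/-- endpoints of a path of idempotents are similar -/
theorem idem_path {T : Type} [TopologicalSpace T] [CompactSpace T] {κ : Type} [Fintype κ]
    [DecidableEq κ] (P : C(T × I, Matrix κ κ ℂ)) (hP : ∀ x, P x * P x = P x) :
    ∃ v : C(T × I, (Matrix κ κ ℂ)ˣ), (∀ t, v (t, 0) = 1) ∧
      ∀ t s, (v (t, s)).1 * P (t, 0) = P (t, s) * (v (t, s)).1 := by
  obtain ⟨δ, hδ, hdet⟩ := exists_delta_aux P hP
  have hPc := P.continuous
  set η := δ / 2 with hη
  have hη0 : 0 < η := by positivity
  have key : ∀ n : ℕ, ∃ v : C(T × I, (Matrix κ κ ℂ)ˣ), (∀ t, v (t, 0) = 1) ∧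
      ∀ t s, (v (t, s)).1 * P (t, 0) =
        P (t, cl_aux (n * η) (by positivity) s) * (v (t, s)).1 := by
    intro n
    induction n with
    | zero =>
      refine ⟨ContinuousMap.const _ 1, fun _ => rfl, fun t s => ?_⟩
      have : cl_aux (((0 : ℕ) : ℝ) * η) (by positivity) s = 0 := by
        apply Subtype.ext
        simp only [cl_aux, Nat.cast_zero, zero_mul]
        exact min_eq_right s.2.1
      rw [this]
      simp
    | succ n ih =>
      obtain ⟨v, hv0, hv⟩ := ih
      have h1 : ∀ x : T × I, (Wm_aux (P (x.1, cl_aux (n * η) (by positivity) x.2))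
          (P (x.1, cl_aux (((n + 1 : ℕ) : ℝ) * η) (by positivity) x.2))).det ≠ 0 := by
        intro x
        apply hdet
        rw [Subtype.dist_eq, Real.dist_eq]
        simp only [cl_aux]
        have h2 : |min (x.2 : ℝ) (n * η) - min (x.2 : ℝ) (((n + 1 : ℕ) : ℝ) * η)| ≤ η := by
          have h3 : ((n + 1 : ℕ) : ℝ) * η = n * η + η := by push_cast; ring
          rw [h3, abs_le]
          rcases le_total (x.2 : ℝ) (n * η) with h4 | h4
          · rw [min_eq_left h4, min_eq_left (by linarith)]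
            constructor <;> linarith
          · rw [min_eq_right h4]
            rcases le_total (x.2 : ℝ) (n * η + η) with h5 | h5
            · rw [min_eq_left h5]; constructor <;> linarith
            · rw [min_eq_right h5]; constructor <;> linarith
        linarith
      obtain ⟨w, hw⟩ := exists_unit_aux (fun x : T × I =>
        Wm_aux (P (x.1, cl_aux (n * η) (by positivity) x.2))
          (P (x.1, cl_aux (((n + 1 : ℕ) : ℝ) * η) (by positivity) x.2))) (by
        have c1 := cl_cont_aux (n * η) (by positivity)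
        have c2 := cl_cont_aux (((n + 1 : ℕ) : ℝ) * η) (by positivity)
        unfold Wm_aux
        fun_prop) h1
      refine ⟨⟨fun x => w x * v x, w.continuous.mul v.continuous⟩, fun t => ?_, fun t s => ?_⟩
      · show w (t, 0) * v (t, 0) = 1
        rw [hv0, mul_one]
        apply Units.ext
        rw [hw]
        have e1 : cl_aux (n * η) (by positivity) 0 = 0 := by
          apply Subtype.ext
          simp only [cl_aux]
          exact min_eq_left (by positivity)
        have e2 : cl_aux (((n + 1 : ℕ) : ℝ) * η) (by positivity) 0 = 0 := by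
          apply Subtype.ext
          simp only [cl_aux]
          exact min_eq_left (by positivity)
        simp only [e1, e2]
        exact Wm_self_aux _ (hP _)
      · show (w (t, s) * v (t, s)).1 * P (t, 0) = _ * (w (t, s) * v (t, s)).1
        rw [Units.val_mul, mul_assoc, hv t s, ← mul_assoc, hw]
        simp only
        rw [Wm_inter_aux _ _ (hP _) (hP _), mul_assoc]
  obtain ⟨n, hn⟩ := exists_nat_gt (1 / η)
  obtain ⟨v, hv0, hv⟩ := key n
  refine ⟨v, hv0, fun t s => ?_⟩
  rw [hv t s]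
  have : cl_aux (n * η) (by positivity) s = s := by
    apply Subtype.ext
    simp only [cl_aux]
    apply min_eq_left
    have : 1 < n * η := by rwa [div_lt_iff₀ hη0] at hn
    linarith [s.2.2]
  rw [this]

/-- the reindexing map -/
def bijMap (N : ℕ) (ι : Type) :
    ι ⊕ (({j : Fin (2 * N + 1) // (j : ℕ) < N} × ι) ⊕ ({j : Fin (2 * N + 1) // N < (j : ℕ)} × ι)) →
      Fin (2 * N + 1) × ι
  | Sum.inl i => (⟨N, by omega⟩, i)
  | Sum.inr (Sum.inl (j, i)) => (j.1, i)
  | Sum.inr (Sum.inr (j, i)) => (j.1, i)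

theorem bijMap_bij (N : ℕ) (ι : Type) : Function.Bijective (bijMap N ι) := by
  constructor
  · rintro (i | ⟨⟨j, hj⟩, i⟩ | ⟨⟨j, hj⟩, i⟩) (i' | ⟨⟨j', hj'⟩, i'⟩ | ⟨⟨j', hj'⟩, i'⟩) h
    · simp only [bijMap, Prod.mk.injEq] at h
      rw [h.2]
    · simp only [bijMap, Prod.mk.injEq, Fin.ext_iff] at h
      omega
    · simp only [bijMap, Prod.mk.injEq, Fin.ext_iff] at h
      omega
    · simp only [bijMap, Prod.mk.injEq, Fin.ext_iff] at h
      omega
    · simp only [bijMap, Prod.mk.injEq] at h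
      obtain ⟨h1, h2⟩ := h
      subst h1; subst h2; rfl
    · simp only [bijMap, Prod.mk.injEq, Fin.ext_iff] at h
      omega
    · simp only [bijMap, Prod.mk.injEq, Fin.ext_iff] at h
      omega
    · simp only [bijMap, Prod.mk.injEq, Fin.ext_iff] at h
      omega
    · simp only [bijMap, Prod.mk.injEq] at h
      obtain ⟨h1, h2⟩ := h
      subst h1; subst h2; rfl
  · rintro ⟨j, i⟩
    rcases lt_trichotomy (j : ℕ) N with h | h | h
    · exact ⟨Sum.inr (Sum.inl (⟨j, h⟩, i)), rfl⟩
    · refine ⟨Sum.inl i, ?_⟩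
      have : (⟨N, by omega⟩ : Fin (2 * N + 1)) = j := Fin.ext h.symm
      show ((⟨N, by omega⟩ : Fin (2 * N + 1)), i) = (j, i)
      rw [this]
    · exact ⟨Sum.inr (Sum.inr (⟨j, h⟩, i)), rfl⟩

/-- the diagonal idempotent -/
def DDm {ι : Type} [Fintype ι] [DecidableEq ι] (N : ℕ) (e : Matrix ι ι ℂ) :
    Matrix (Fin (2 * N + 1) × ι) (Fin (2 * N + 1) × ι) ℂ :=
  fun p q =>
      if p.1 = q.1 then (if (p.1 : ℕ) < N then (1 : Matrix ι ι ℂ) p.2 q.2
        else if (p.1 : ℕ) = N then e p.2 q.2 else 0) else 0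

theorem DDm_apply {ι : Type} [Fintype ι] [DecidableEq ι] (N : ℕ) (e : Matrix ι ι ℂ)
    (j j' : Fin (2 * N + 1)) (i i' : ι) :
    DDm N e (j, i) (j', i') = if j = j' then (if (j : ℕ) < N then (1 : Matrix ι ι ℂ) i i'
        else if (j : ℕ) = N then e i i' else 0) else 0 := rfl

theorem blk_eq {ι : Type} [Fintype ι] [DecidableEq ι] (N : ℕ) (e : Matrix ι ι ℂ) :
    blk ({j : Fin (2 * N + 1) // (j : ℕ) < N} × ι) ({j : Fin (2 * N + 1) // N < (j : ℕ)} × ι) e =
      Matrix.reindexAlgEquiv ℂ ℂ (Equiv.ofBijective _ (bijMap_bij N ι)).symm (DDm N e) := by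
  ext x y
  show blk _ _ e x y = DDm N e (bijMap N ι x) (bijMap N ι y)
  rcases x with (i | ⟨⟨j, hj⟩, i⟩ | ⟨⟨j, hj⟩, i⟩) <;>
    rcases y with (i' | ⟨⟨j', hj'⟩, i'⟩ | ⟨⟨j', hj'⟩, i'⟩)
  · show e i i' = DDm N e (⟨N, by omega⟩, i) (⟨N, by omega⟩, i')
    rw [DDm_apply]; simp
  · show (0 : ℂ) = DDm N e (⟨N, by omega⟩, i) (j', i')
    rw [DDm_apply, if_neg]
    intro h
    rw [← h] at hj'
    exact absurd hj' (lt_irrefl N)
  · show (0 : ℂ) = DDm N e (⟨N, by omega⟩, i) (j', i')
    rw [DDm_apply, if_neg]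
    intro h
    rw [← h] at hj'
    exact absurd hj' (lt_irrefl N)
  · show (0 : ℂ) = DDm N e (j, i) (⟨N, by omega⟩, i')
    rw [DDm_apply, if_neg]
    intro h
    rw [h] at hj
    exact absurd hj (lt_irrefl N)
  · show (1 : Matrix ({j : Fin (2 * N + 1) // (j : ℕ) < N} × ι)
        ({j : Fin (2 * N + 1) // (j : ℕ) < N} × ι) ℂ) (⟨j, hj⟩, i) (⟨j', hj'⟩, i') =
      DDm N e (j, i) (j', i')
    rw [DDm_apply, if_pos hj]
    by_cases h : j = j'
    · subst h
      rw [if_pos rfl, Matrix.one_apply, Matrix.one_apply]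
      by_cases h2 : i = i'
      · subst h2; simp
      · rw [if_neg h2, if_neg]
        intro h3
        exact h2 (Prod.mk.inj h3).2
    · rw [if_neg h, Matrix.one_apply, if_neg]
      intro h3
      exact h (Subtype.mk.inj (Prod.mk.inj h3).1)
  · show (0 : ℂ) = DDm N e (j, i) (j', i')
    rw [DDm_apply, if_neg]
    intro h
    rw [h] at hj
    omega
  · show (0 : ℂ) = DDm N e (j, i) (⟨N, by omega⟩, i')
    rw [DDm_apply, if_neg]
    intro h
    rw [h] at hj
    exact absurd hj (lt_irrefl N)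
  · show (0 : ℂ) = DDm N e (j, i) (j', i')
    rw [DDm_apply, if_neg]
    intro h
    rw [h] at hj
    omega
  · show (0 : ℂ) = DDm N e (j, i) (j', i')
    rw [DDm_apply, if_neg (not_lt.mpr hj.le), if_neg hj.ne', ite_self]

/-- Bott injectivity, homotopy form -/
theorem bott_inj0 {T : Type} [TopologicalSpace T] [CompactSpace T] [T2Space T] {ι : Type}
    [Fintype ι] [DecidableEq ι] (e f : C(T, Matrix ι ι ℂ)) (he : ∀ t, e t * e t = e t)
    (hf : ∀ t, f t * f t = f t) (h : Homotopic (gam e he) (gam f hf)) : StSim e f := by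
  obtain ⟨N, A, hN, hA, hA0, hA1⟩ := poly_homotopy e f he hf h
  let a : C(T × I, Matrix (Fin (2 * N + 1) × ι) (Fin (2 * N + 1) × ι) ℂ) :=
    ⟨fun x => cpA (2 * N) (fun j => A j x), by
      refine continuous_matrix fun p q => ?_
      unfold cpA
      by_cases hp : p.1 = 0
      · simp only [if_pos hp]
        exact ((A q.1).continuous).matrix_elem p.2 q.2
      · simp only [if_neg hp]
        exact continuous_const⟩
  let b : C(T × I, Matrix (Fin (2 * N + 1) × ι) (Fin (2 * N + 1) × ι) ℂ) :=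
    ⟨fun _ => cpB (2 * N), continuous_const⟩
  have hU : ∀ x (z : ℂ), ‖z‖ = 1 → IsUnit (a x + z • b x) := fun x z hz =>
    cp_isUnit (2 * N) (fun j => A j x) z (hA x z hz)
  let P : C(T × I, Matrix (Fin (2 * N + 1) × ι) (Fin (2 * N + 1) × ι) ℂ) :=
    ⟨fun x => spc (a x) (b x), spc_cont a b hU⟩
  obtain ⟨v, -, hv⟩ := idem_path P (fun x => spc_idem (a x) (b x) (hU x))
  have hP0 : ∀ t, P (t, 0) = DDm N (e t) :=
    fun t => spc_eval (e t) (he t) N hN (fun j => A j (t, 0)) (hA0 t)
  have hP1 : ∀ t, P (t, 1) = DDm N (f t) :=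
    fun t => spc_eval (f t) (hf t) N hN (fun j => A j (t, 1)) (hA1 t)
  let R := Matrix.reindexAlgEquiv ℂ ℂ (Equiv.ofBijective _ (bijMap_bij N ι)).symm
  have hRc : Continuous R := by
    refine continuous_matrix fun p q => ?_
    exact continuous_id.matrix_elem _ _
  let R' : Matrix (Fin (2 * N + 1) × ι) (Fin (2 * N + 1) × ι) ℂ →*
    Matrix (ι ⊕ (({j : Fin (2 * N + 1) // (j : ℕ) < N} × ι) ⊕
      ({j : Fin (2 * N + 1) // N < (j : ℕ)} × ι))) (ι ⊕ (({j : Fin (2 * N + 1) // (j : ℕ) < N} × ι) ⊕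
      ({j : Fin (2 * N + 1) // N < (j : ℕ)} × ι))) ℂ := (R : _ →* _)
  have hRc' : Continuous R' := hRc
  refine ⟨{j : Fin (2 * N + 1) // (j : ℕ) < N} × ι, {j : Fin (2 * N + 1) // N < (j : ℕ)} × ι,
    inferInstance, inferInstance, inferInstance, inferInstance,
    ⟨fun t => Units.map R' (v (t, 1)), ?_⟩, ?_⟩
  · have h1 : Continuous (fun t : T => v (t, 1)) :=
      v.continuous.comp (continuous_id.prodMk continuous_const)
    exact (Continuous.units_map R' hRc').comp h1
  · intro t
    have h1 := blk_eq N (e t)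
    have h2 := blk_eq N (f t)
    have h3 := congrArg R (hv t 1)
    rw [map_mul, map_mul, hP0, hP1] at h3
    show R (v (t, 1)).1 * _ = _ * R (v (t, 1)).1
    rw [h1, h2]
    exact h3

end BB
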