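import Mathlib

set_option autoImplicit false
set_option linter.unusedVariables false
set_option linter.unusedSectionVars false

open scoped unitInterval Matrix Topology
open ContinuousMap

noncomputable section

namespace BB

/-- block diagonal sum of invertible matrices -/
def dsU {ι κ : Type} [Fintype ι] [DecidableEq ι] [Fintype κ] [DecidableEq κ]
    (A : (Matrix ι ι ℂ)ˣ) (B : (Matrix κ κ ℂ)ˣ) : (Matrix (ι ⊕ κ) (ι ⊕ κ) ℂ)ˣ where
  val := Matrix.fromBlocks A.1 0 0 B.1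
  inv := Matrix.fromBlocks A⁻¹.1 0 0 B⁻¹.1
  val_inv := by simp [Matrix.fromBlocks_multiply]
  inv_val := by simp [Matrix.fromBlocks_multiply]

/-- reindexing of invertible matrices -/
def riU {ι κ : Type} [Fintype ι] [DecidableEq ι] [Fintype κ] [DecidableEq κ] (e : ι ≃ κ)
    (A : (Matrix ι ι ℂ)ˣ) : (Matrix κ κ ℂ)ˣ where
  val := A.1.submatrix e.symm e.symm
  inv := A⁻¹.1.submatrix e.symm e.symm
  val_inv := by
    rw [Matrix.submatrix_mul_equiv]; simp
  inv_val := by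
    rw [Matrix.submatrix_mul_equiv]; simp

theorem dsU_cont {ι κ : Type} [Fintype ι] [DecidableEq ι] [Fintype κ] [DecidableEq κ] :
    Continuous (fun p : (Matrix ι ι ℂ)ˣ × (Matrix κ κ ℂ)ˣ => dsU p.1 p.2) := by
  rw [Units.continuous_iff]
  constructor
  · exact Continuous.matrix_fromBlocks (Units.continuous_val.comp continuous_fst) continuous_const
      continuous_const (Units.continuous_val.comp continuous_snd)
  · exact Continuous.matrix_fromBlocks (Units.continuous_val.comp (continuous_inv.comp continuous_fst))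
      continuous_const continuous_const (Units.continuous_val.comp (continuous_inv.comp continuous_snd))

theorem riU_cont {ι κ : Type} [Fintype ι] [DecidableEq ι] [Fintype κ] [DecidableEq κ] (e : ι ≃ κ) :
    Continuous (riU e : (Matrix ι ι ℂ)ˣ → (Matrix κ κ ℂ)ˣ) := by
  rw [Units.continuous_iff]
  constructor
  · exact (Units.continuous_val).matrix_submatrix _ _
  · exact (Units.continuous_val.comp continuous_inv).matrix_submatrix _ _

section
variable {T : Type} [TopologicalSpace T] {ι κ : Type} [Fintype ι] [DecidableEq ι]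
  [Fintype κ] [DecidableEq κ]

/-- block diagonal sum of maps to `GL` -/
def ds (F : C(T, (Matrix ι ι ℂ)ˣ)) (G : C(T, (Matrix κ κ ℂ)ˣ)) : C(T, (Matrix (ι ⊕ κ) (ι ⊕ κ) ℂ)ˣ) where
  toFun t := dsU (F t) (G t)
  continuous_toFun := dsU_cont.comp (F.continuous.prodMk G.continuous)

/-- reindexing of maps to `GL` -/
def ri (e : ι ≃ κ) (F : C(T, (Matrix ι ι ℂ)ˣ)) : C(T, (Matrix κ κ ℂ)ˣ) where
  toFun t := riU e (F t)
  continuous_toFun := (riU_cont e).comp F.continuous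

end

/-- representatives of classes in `K¹` -/
structure Rep (T : Type) [TopologicalSpace T] : Type 1 where
  ι : Type
  [fi : Fintype ι]
  [de : DecidableEq ι]
  F : C(T, (Matrix ι ι ℂ)ˣ)

attribute [instance] Rep.fi Rep.de

/-- stable homotopy -/
def Rel {T : Type} [TopologicalSpace T] (R S : Rep T) : Prop :=
  ∃ (τ τ' : Type) (_ : Fintype τ) (_ : DecidableEq τ) (_ : Fintype τ') (_ : DecidableEq τ')
    (e : R.ι ⊕ τ ≃ S.ι ⊕ τ'),
    Homotopic (ri e (ds R.F (1 : C(T, (Matrix τ τ ℂ)ˣ)))) (ds S.F (1 : C(T, (Matrix τ' τ' ℂ)ˣ)))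

section relaux
variable {ι κ μ τ υ : Type} [Fintype ι] [DecidableEq ι] [Fintype κ] [DecidableEq κ]
  [Fintype μ] [DecidableEq μ] [Fintype τ] [DecidableEq τ] [Fintype υ] [DecidableEq υ]

lemma relaux_riU_riU (e : ι ≃ κ) (f : κ ≃ μ) (A : (Matrix ι ι ℂ)ˣ) :
    riU f (riU e A) = riU (e.trans f) A := by
  apply Units.ext
  rfl

lemma relaux_riU_refl (A : (Matrix ι ι ℂ)ˣ) : riU (Equiv.refl ι) A = A := by
  apply Units.ext
  rfl

lemma relaux_assoc (A : (Matrix ι ι ℂ)ˣ) :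
    riU (Equiv.sumAssoc ι τ υ) (dsU (dsU A (1 : (Matrix τ τ ℂ)ˣ)) (1 : (Matrix υ υ ℂ)ˣ))
      = dsU A (1 : (Matrix (τ ⊕ υ) (τ ⊕ υ) ℂ)ˣ) := by
  apply Units.ext
  ext i j
  rcases i with i | i | i <;> rcases j with j | j | j <;>
    simp [riU, dsU, Matrix.one_apply]

lemma relaux_congr (e : ι ≃ κ) (A : (Matrix ι ι ℂ)ˣ) (B : (Matrix υ υ ℂ)ˣ) :
    riU (Equiv.sumCongr e (Equiv.refl υ)) (dsU A B) = dsU (riU e A) B := by
  apply Units.ext
  ext i j
  rcases i with i | i <;> rcases j with j | j <;> simp [riU, dsU]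

/-- exchange of the last two summands -/
def relaux_sw (ι τ υ : Type) : (ι ⊕ τ) ⊕ υ ≃ (ι ⊕ υ) ⊕ τ :=
  (Equiv.sumAssoc ι τ υ).trans
    ((Equiv.sumCongr (Equiv.refl ι) (Equiv.sumComm τ υ)).trans (Equiv.sumAssoc ι υ τ).symm)

lemma relaux_swap (A : (Matrix ι ι ℂ)ˣ) :
    riU (relaux_sw ι τ υ) (dsU (dsU A (1 : (Matrix τ τ ℂ)ˣ)) (1 : (Matrix υ υ ℂ)ˣ))
      = dsU (dsU A (1 : (Matrix υ υ ℂ)ˣ)) (1 : (Matrix τ τ ℂ)ˣ) := by
  apply Units.ext
  ext i j
  rcases i with (i | i) | i <;> rcases j with (j | j) | j <;>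
    simp [riU, dsU, Matrix.one_apply, relaux_sw]

variable {T : Type} [TopologicalSpace T]

lemma relaux_ri_ri (e : ι ≃ κ) (f : κ ≃ μ) (A : C(T, (Matrix ι ι ℂ)ˣ)) :
    ri f (ri e A) = ri (e.trans f) A := by
  ext1 t
  exact relaux_riU_riU e f (A t)

lemma relaux_ri_refl (A : C(T, (Matrix ι ι ℂ)ˣ)) : ri (Equiv.refl ι) A = A := by
  ext1 t
  exact relaux_riU_refl (A t)

lemma relaux_ri_assoc (A : C(T, (Matrix ι ι ℂ)ˣ)) :
    ri (Equiv.sumAssoc ι τ υ) (ds (ds A (1 : C(T, (Matrix τ τ ℂ)ˣ))) (1 : C(T, (Matrix υ υ ℂ)ˣ)))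
      = ds A (1 : C(T, (Matrix (τ ⊕ υ) (τ ⊕ υ) ℂ)ˣ)) := by
  ext1 t
  exact relaux_assoc (A t)

lemma relaux_ri_congr (e : ι ≃ κ) (A : C(T, (Matrix ι ι ℂ)ˣ)) (B : C(T, (Matrix υ υ ℂ)ˣ)) :
    ri (Equiv.sumCongr e (Equiv.refl υ)) (ds A B) = ds (ri e A) B := by
  ext1 t
  exact relaux_congr e (A t) (B t)

lemma relaux_ri_swap (A : C(T, (Matrix ι ι ℂ)ˣ)) :
    ri (relaux_sw ι τ υ) (ds (ds A (1 : C(T, (Matrix τ τ ℂ)ˣ))) (1 : C(T, (Matrix υ υ ℂ)ˣ)))
      = ds (ds A (1 : C(T, (Matrix υ υ ℂ)ˣ))) (1 : C(T, (Matrix τ τ ℂ)ˣ)) := by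
  ext1 t
  exact relaux_swap (A t)

lemma relaux_ri_hom (e : ι ≃ κ) {A B : C(T, (Matrix ι ι ℂ)ˣ)} (h : Homotopic A B) :
    Homotopic (ri e A) (ri e B) := by
  have hh := (Homotopic.refl (⟨riU e, riU_cont e⟩ : C((Matrix ι ι ℂ)ˣ, (Matrix κ κ ℂ)ˣ))).comp h
  exact hh

lemma relaux_ds_hom {A B : C(T, (Matrix ι ι ℂ)ˣ)} (C : C(T, (Matrix κ κ ℂ)ˣ))
    (h : Homotopic A B) : Homotopic (ds A C) (ds B C) := by
  have hh := (Homotopic.refl (⟨fun p => dsU p.1 p.2, dsU_cont⟩ :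
    C((Matrix ι ι ℂ)ˣ × (Matrix κ κ ℂ)ˣ, (Matrix (ι ⊕ κ) (ι ⊕ κ) ℂ)ˣ))).comp
      (h.prodMk (Homotopic.refl C))
  exact hh

end relaux

theorem Rel.equiv {T : Type} [TopologicalSpace T] : Equivalence (Rel (T := T)) := by
  refine ⟨?_, ?_, ?_⟩
  · intro R
    refine ⟨Empty, Empty, inferInstance, inferInstance, inferInstance, inferInstance,
      Equiv.refl _, ?_⟩
    rw [relaux_ri_refl]
  · rintro R S ⟨τ, τ', i1, i2, i3, i4, e, h⟩
    refine ⟨τ', τ, i3, i4, i1, i2, e.symm, ?_⟩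
    have h1 := relaux_ri_hom e.symm h
    rw [relaux_ri_ri, Equiv.self_trans_symm, relaux_ri_refl] at h1
    exact h1.symm
  · rintro R S U ⟨τ, τ', i1, i2, i3, i4, e, h⟩ ⟨υ, υ', j1, j2, j3, j4, f, k⟩
    refine ⟨τ ⊕ υ, υ' ⊕ τ', inferInstance, inferInstance, inferInstance, inferInstance,
      (Equiv.sumAssoc R.ι τ υ).symm.trans
        ((Equiv.sumCongr e (Equiv.refl υ)).trans ((relaux_sw S.ι τ' υ).trans
          ((Equiv.sumCongr f (Equiv.refl τ')).trans (Equiv.sumAssoc U.ι υ' τ')))), ?_⟩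
    rw [← relaux_ri_ri, ← relaux_ri_ri, ← relaux_ri_ri, ← relaux_ri_ri]
    have a1 : ri (Equiv.sumAssoc R.ι τ υ).symm (ds R.F (1 : C(T, (Matrix (τ ⊕ υ) (τ ⊕ υ) ℂ)ˣ)))
        = ds (ds R.F (1 : C(T, (Matrix τ τ ℂ)ˣ))) (1 : C(T, (Matrix υ υ ℂ)ˣ)) := by
      rw [← relaux_ri_assoc, relaux_ri_ri, Equiv.self_trans_symm, relaux_ri_refl]
    rw [a1, relaux_ri_congr]
    have b1 := relaux_ri_hom (relaux_sw S.ι τ' υ)
      (relaux_ds_hom (1 : C(T, (Matrix υ υ ℂ)ˣ)) h)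
    rw [relaux_ri_swap] at b1
    have b2 := relaux_ri_hom (Equiv.sumCongr f (Equiv.refl τ')) b1
    rw [relaux_ri_congr] at b2
    have b3 := b2.trans (relaux_ds_hom (1 : C(T, (Matrix τ' τ' ℂ)ˣ)) k)
    have b4 := relaux_ri_hom (Equiv.sumAssoc U.ι υ' τ') b3
    rw [relaux_ri_assoc] at b4
    exact b4

/-- rotation -/
def whitehead_rot (ι : Type) [Fintype ι] [DecidableEq ι] (s : ℝ) : (Matrix (ι ⊕ ι) (ι ⊕ ι) ℂ)ˣ where
  val := Matrix.fromBlocks ((Real.cos s : ℂ) • 1) (-(Real.sin s : ℂ) • 1) ((Real.sin s : ℂ) • 1)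
    ((Real.cos s : ℂ) • 1)
  inv := Matrix.fromBlocks ((Real.cos s : ℂ) • 1) ((Real.sin s : ℂ) • 1) (-(Real.sin s : ℂ) • 1)
    ((Real.cos s : ℂ) • 1)
  val_inv := by
    have h : (Real.cos s : ℂ) * Real.cos s + Real.sin s * Real.sin s = 1 := by
      have := Real.cos_sq_add_sin_sq s
      have h2 : ((Real.cos s ^ 2 + Real.sin s ^ 2 : ℝ) : ℂ) = 1 := by rw [this]; simp
      push_cast at h2 ⊢
      linear_combination h2
    have h' : (Real.sin s : ℂ) * Real.sin s + Real.cos s * Real.cos s = 1 := by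
      linear_combination h
    rw [Matrix.fromBlocks_multiply, ← Matrix.fromBlocks_one]
    congr 1
    · simp only [smul_mul_smul_comm, mul_one, ← add_smul]
      rw [show (Real.cos s : ℂ) * Real.cos s + -(Real.sin s : ℂ) * -(Real.sin s : ℂ) = 1 by
        linear_combination h, one_smul]
    · simp only [smul_mul_smul_comm, mul_one, ← add_smul]
      rw [show (Real.cos s : ℂ) * Real.sin s + -(Real.sin s : ℂ) * (Real.cos s : ℂ) = 0 by ring,
        zero_smul]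
    · simp only [smul_mul_smul_comm, mul_one, ← add_smul]
      rw [show (Real.sin s : ℂ) * Real.cos s + (Real.cos s : ℂ) * -(Real.sin s : ℂ) = 0 by ring,
        zero_smul]
    · simp only [smul_mul_smul_comm, mul_one, ← add_smul]
      rw [h', one_smul]
  inv_val := by
    have h : (Real.cos s : ℂ) * Real.cos s + Real.sin s * Real.sin s = 1 := by
      have := Real.cos_sq_add_sin_sq s
      have h2 : ((Real.cos s ^ 2 + Real.sin s ^ 2 : ℝ) : ℂ) = 1 := by rw [this]; simp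
      push_cast at h2 ⊢
      linear_combination h2
    rw [Matrix.fromBlocks_multiply, ← Matrix.fromBlocks_one]
    congr 1
    · simp only [smul_mul_smul_comm, mul_one, ← add_smul]
      rw [h, one_smul]
    · simp only [smul_mul_smul_comm, mul_one, ← add_smul]
      rw [show (Real.cos s : ℂ) * -(Real.sin s : ℂ) + (Real.sin s : ℂ) * (Real.cos s : ℂ) = 0 by ring,
        zero_smul]
    · simp only [smul_mul_smul_comm, mul_one, ← add_smul]
      rw [show -(Real.sin s : ℂ) * Real.cos s + (Real.cos s : ℂ) * (Real.sin s : ℂ) = 0 by ring,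
        zero_smul]
    · simp only [smul_mul_smul_comm, mul_one, ← add_smul]
      rw [show -(Real.sin s : ℂ) * -(Real.sin s : ℂ) + (Real.cos s : ℂ) * (Real.cos s : ℂ) = 1 by
        linear_combination h, one_smul]

theorem whitehead_rot_cont (ι : Type) [Fintype ι] [DecidableEq ι] :
    Continuous (whitehead_rot ι) := by
  have hc : Continuous (fun s : ℝ => (Real.cos s : ℂ)) := by fun_prop
  have hs : Continuous (fun s : ℝ => (Real.sin s : ℂ)) := by fun_prop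
  rw [Units.continuous_iff]
  constructor
  · exact Continuous.matrix_fromBlocks (hc.smul continuous_const) (hs.neg.smul continuous_const)
      (hs.smul continuous_const) (hc.smul continuous_const)
  · exact Continuous.matrix_fromBlocks (hc.smul continuous_const) (hs.smul continuous_const)
      (hs.neg.smul continuous_const) (hc.smul continuous_const)

theorem whitehead_rot_zero (ι : Type) [Fintype ι] [DecidableEq ι] : whitehead_rot ι 0 = 1 := by
  apply Units.ext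
  show Matrix.fromBlocks _ _ _ _ = (1 : Matrix (ι ⊕ ι) (ι ⊕ ι) ℂ)
  simp

/-- the Whitehead lemma -/
theorem whitehead {T : Type} [TopologicalSpace T] {ι : Type} [Fintype ι] [DecidableEq ι]
    (F G : C(T, (Matrix ι ι ℂ)ˣ)) :
    Homotopic (ds (F * G) (1 : C(T, (Matrix ι ι ℂ)ˣ))) (ds F G) := by
  have hrot := whitehead_rot_cont ι
  refine ⟨⟨⟨fun p => ds F 1 p.2 * whitehead_rot ι ((p.1 : ℝ) * (Real.pi / 2)) * ds G 1 p.2 *
    (whitehead_rot ι ((p.1 : ℝ) * (Real.pi / 2)))⁻¹, ?_⟩, ?_, ?_⟩⟩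
  · have h1 : Continuous (fun p : I × T => whitehead_rot ι ((p.1 : ℝ) * (Real.pi / 2))) :=
      hrot.comp ((continuous_subtype_val.comp continuous_fst).mul continuous_const)
    have h2 : Continuous (fun p : I × T => ds F (1 : C(T, (Matrix ι ι ℂ)ˣ)) p.2) :=
      (ds F 1).continuous.comp continuous_snd
    have h3 : Continuous (fun p : I × T => ds G (1 : C(T, (Matrix ι ι ℂ)ˣ)) p.2) :=
      (ds G 1).continuous.comp continuous_snd
    exact ((h2.mul h1).mul h3).mul h1.inv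
  · intro t
    have e : ((0 : I) : ℝ) * (Real.pi / 2) = 0 := by simp
    simp only [ContinuousMap.coe_mk]
    rw [e, whitehead_rot_zero, mul_one, inv_one, mul_one]
    apply Units.ext
    show Matrix.fromBlocks _ _ _ _ * Matrix.fromBlocks _ _ _ _ = Matrix.fromBlocks _ _ _ _
    rw [Matrix.fromBlocks_multiply]
    simp
  · intro t
    have e : ((1 : I) : ℝ) * (Real.pi / 2) = Real.pi / 2 := by simp
    simp only [ContinuousMap.coe_mk]
    rw [e]
    apply Units.ext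
    show Matrix.fromBlocks _ _ _ _ * Matrix.fromBlocks _ _ _ _ * Matrix.fromBlocks _ _ _ _ *
      Matrix.fromBlocks _ _ _ _ = Matrix.fromBlocks _ _ _ _
    rw [Matrix.fromBlocks_multiply, Matrix.fromBlocks_multiply, Matrix.fromBlocks_multiply]
    simp

theorem ds_homotopic {T : Type} [TopologicalSpace T] {ι κ : Type} [Fintype ι] [DecidableEq ι]
    [Fintype κ] [DecidableEq κ] {F F' : C(T, (Matrix ι ι ℂ)ˣ)} {G G' : C(T, (Matrix κ κ ℂ)ˣ)}
    (h : Homotopic F F') (h' : Homotopic G G') : Homotopic (ds F G) (ds F' G') := by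
  obtain ⟨H⟩ := h
  obtain ⟨K⟩ := h'
  exact ⟨{ toFun := fun p => dsU (H p) (K p)
           continuous_toFun := dsU_cont.comp (H.continuous.prodMk K.continuous)
           map_zero_left := fun x => by
             change dsU (H (0, x)) (K (0, x)) = dsU (F x) (G x)
             rw [H.apply_zero, K.apply_zero]
           map_one_left := fun x => by
             change dsU (H (1, x)) (K (1, x)) = dsU (F' x) (G' x)
             rw [H.apply_one, K.apply_one] }⟩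

theorem ri_homotopic {T : Type} [TopologicalSpace T] {ι κ : Type} [Fintype ι] [DecidableEq ι]
    [Fintype κ] [DecidableEq κ] (e : ι ≃ κ) {F F' : C(T, (Matrix ι ι ℂ)ˣ)}
    (h : Homotopic F F') : Homotopic (ri e F) (ri e F') := by
  obtain ⟨H⟩ := h
  refine ⟨{ toFun := fun p => riU e (H p), continuous_toFun := (riU_cont e).comp H.continuous, map_zero_left := ?_, map_one_left := ?_ }⟩
  · intro x
    show riU e (H (0, x)) = riU e (F x)
    rw [H.apply_zero]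
  · intro x
    show riU e (H (1, x)) = riU e (F' x)
    rw [H.apply_one]

theorem mul_homotopic {T : Type} [TopologicalSpace T] {ι : Type} [Fintype ι] [DecidableEq ι]
    {F F' G G' : C(T, (Matrix ι ι ℂ)ˣ)}
    (h : Homotopic F F') (h' : Homotopic G G') : Homotopic (F * G) (F' * G') := by
  obtain ⟨H⟩ := h
  obtain ⟨H'⟩ := h'
  refine ⟨⟨⟨fun p => H p * H' p, ?_⟩, ?_, ?_⟩⟩
  · exact (map_continuous H).mul (map_continuous H')
  · intro x
    change H (0, x) * H' (0, x) = F x * G x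
    rw [H.apply_zero, H'.apply_zero]
  · intro x
    change H (1, x) * H' (1, x) = F' x * G' x
    rw [H.apply_one, H'.apply_one]

/-- the unit of an invertible matrix -/
def mkU {ι : Type} [Fintype ι] [DecidableEq ι] (M : Matrix ι ι ℂ) (h : M.det ≠ 0) :
    (Matrix ι ι ℂ)ˣ where
  val := M
  inv := M.det⁻¹ • M.adjugate
  val_inv := by
    rw [Matrix.mul_smul, Matrix.mul_adjugate, smul_smul, inv_mul_cancel₀ h, one_smul]
  inv_val := by
    rw [Matrix.smul_mul, Matrix.adjugate_mul, smul_smul, inv_mul_cancel₀ h, one_smul]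

/-- every invertible complex matrix is joined to `1` -/
theorem gl_path {ι : Type} [Fintype ι] [DecidableEq ι] (A : (Matrix ι ι ℂ)ˣ) :
    ∃ γ : C(I, (Matrix ι ι ℂ)ˣ), γ 0 = A ∧ γ 1 = 1 := by
  let q : Polynomial ℂ :=
    (A.1.map Polynomial.C + (Polynomial.X : Polynomial ℂ) • ((1 - A.1).map Polynomial.C)).det
  have hq : ∀ z : ℂ, q.eval z = (A.1 + z • (1 - A.1)).det := by
    intro z
    have h1 := RingHom.map_det (Polynomial.evalRingHom z)
      (A.1.map Polynomial.C + (Polynomial.X : Polynomial ℂ) • ((1 - A.1).map Polynomial.C))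
    rw [Polynomial.coe_evalRingHom] at h1
    show Polynomial.eval z _ = _
    rw [h1]
    congr 1
    ext i j
    simp
  have h0 : q.eval 0 ≠ 0 := by
    rw [hq, zero_smul, add_zero]
    have := (Matrix.isUnit_iff_isUnit_det A.1).1 A.isUnit
    exact this.ne_zero
  have h1 : q.eval 1 ≠ 0 := by
    rw [hq, one_smul, add_sub_cancel, Matrix.det_one]
    exact one_ne_zero
  have hqne : q ≠ 0 := by
    intro h
    rw [h] at h0
    simp at h0
  have hfin : Set.Finite {z : ℂ | q.IsRoot z} := Polynomial.finite_setOf_isRoot hqne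
  have hpc : IsPathConnected ({z : ℂ | q.IsRoot z}ᶜ) :=
    hfin.countable.isPathConnected_compl_of_one_lt_rank (by
      rw [Complex.rank_real_complex]; norm_num)
  have hj := hpc.joinedIn 0 h0 1 h1
  obtain ⟨z, hz⟩ : ∃ z : Path (0 : ℂ) 1, ∀ t, z t ∈ {z : ℂ | q.IsRoot z}ᶜ :=
    ⟨hj.somePath, hj.somePath_mem⟩
  have hd : ∀ t, (A.1 + z t • (1 - A.1)).det ≠ 0 := by
    intro t
    have := hz t
    rw [← hq]
    exact this
  have hM : Continuous (fun t => A.1 + z t • (1 - A.1)) :=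
    continuous_const.add (z.continuous.smul continuous_const)
  refine ⟨⟨fun t => mkU _ (hd t), ?_⟩, ?_, ?_⟩
  · rw [Units.continuous_iff]
    refine ⟨hM, ?_⟩
    exact (hM.matrix_det.inv₀ hd).smul hM.matrix_adjugate
  · apply Units.ext
    show A.1 + z 0 • (1 - A.1) = A.1
    rw [z.source, zero_smul, add_zero]
  · apply Units.ext
    show A.1 + z 1 • (1 - A.1) = 1
    rw [z.target, one_smul, add_sub_cancel]

/-- permutations of the index set do not matter -/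
theorem ri_self_homotopic {T : Type} [TopologicalSpace T] {ι : Type} [Fintype ι] [DecidableEq ι]
    (e : ι ≃ ι) (F : C(T, (Matrix ι ι ℂ)ˣ)) : Homotopic (ri e F) F := by
  let P : (Matrix ι ι ℂ)ˣ :=
    { val := (1 : Matrix ι ι ℂ).submatrix e.symm (Equiv.refl ι)
      inv := (1 : Matrix ι ι ℂ).submatrix (Equiv.refl ι) e.symm
      val_inv := by
        rw [Matrix.submatrix_mul_equiv]; simp
      inv_val := by
        rw [Matrix.submatrix_mul_equiv]; simp }
  have hP : ∀ A : (Matrix ι ι ℂ)ˣ, P * A * P⁻¹ = riU e A := by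
    intro A
    apply Units.ext
    show (1 : Matrix ι ι ℂ).submatrix e.symm (Equiv.refl ι) * A.1 *
      (1 : Matrix ι ι ℂ).submatrix (Equiv.refl ι) e.symm = A.1.submatrix e.symm e.symm
    have h1 : A.1 = A.1.submatrix (Equiv.refl ι) (Equiv.refl ι) := by
      ext i j
      simp
    rw [show (1 : Matrix ι ι ℂ).submatrix e.symm (Equiv.refl ι) * A.1 =
      (1 : Matrix ι ι ℂ).submatrix e.symm (Equiv.refl ι) *
        A.1.submatrix (Equiv.refl ι) (Equiv.refl ι) by rw [← h1]]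
    rw [Matrix.submatrix_mul_equiv, Matrix.submatrix_mul_equiv, one_mul, mul_one]
  obtain ⟨γ, h0, h1⟩ := gl_path P
  refine ⟨{ toFun := fun p => γ p.1 * F p.2 * (γ p.1)⁻¹
            continuous_toFun := ?_
            map_zero_left := ?_
            map_one_left := ?_ }⟩
  · exact ((γ.continuous.comp continuous_fst).mul (F.continuous.comp continuous_snd)).mul
      (continuous_inv.comp (γ.continuous.comp continuous_fst))
  · intro t
    show γ 0 * F t * (γ 0)⁻¹ = riU e (F t)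
    rw [h0, hP]
  · intro t
    show γ 1 * F t * (γ 1)⁻¹ = F t
    rw [h1, one_mul, inv_one, mul_one]

/-- `K¹` of a space -/
def K1 (T : Type) [TopologicalSpace T] : Type 1 := Quotient (Setoid.mk Rel (Rel.equiv (T := T)))

namespace K1
variable {T : Type} [TopologicalSpace T]

def mk {ι : Type} [Fintype ι] [DecidableEq ι] (F : C(T, (Matrix ι ι ℂ)ˣ)) : K1 T :=
  Quotient.mk (Setoid.mk Rel (Rel.equiv (T := T))) ⟨ι, F⟩

theorem ri_shuffle {ι κ τ ρ : Type} [Fintype ι] [DecidableEq ι] [Fintype κ] [DecidableEq κ]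
    [Fintype τ] [DecidableEq τ] [Fintype ρ] [DecidableEq ρ]
    (F : C(T, (Matrix ι ι ℂ)ˣ)) (G : C(T, (Matrix κ κ ℂ)ˣ)) :
    ri (Equiv.sumSumSumComm ι κ τ ρ) (ds (ds F G) (1 : C(T, (Matrix (τ ⊕ ρ) (τ ⊕ ρ) ℂ)ˣ))) =
      ds (ds F (1 : C(T, (Matrix τ τ ℂ)ˣ))) (ds G (1 : C(T, (Matrix ρ ρ ℂ)ˣ))) := by
  refine ContinuousMap.ext fun t => Units.ext (Matrix.ext fun i j => ?_)
  change (Matrix.fromBlocks (Matrix.fromBlocks (F t).1 0 0 (G t).1) 0 0
      (1 : Matrix (τ ⊕ ρ) (τ ⊕ ρ) ℂ)) ((Equiv.sumSumSumComm ι κ τ ρ).symm i)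
      ((Equiv.sumSumSumComm ι κ τ ρ).symm j) =
    Matrix.fromBlocks (Matrix.fromBlocks (F t).1 0 0 (1 : Matrix τ τ ℂ)) 0 0
      (Matrix.fromBlocks (G t).1 0 0 (1 : Matrix ρ ρ ℂ)) i j
  rcases i with (i | i) | (i | i) <;> rcases j with (j | j) | (j | j) <;>
    simp [Equiv.sumSumSumComm, Matrix.one_apply]

theorem ri_sumCongr {ι κ ι' κ' : Type} [Fintype ι] [DecidableEq ι] [Fintype κ] [DecidableEq κ]
    [Fintype ι'] [DecidableEq ι'] [Fintype κ'] [DecidableEq κ'] (e : ι ≃ ι') (e' : κ ≃ κ')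
    (F : C(T, (Matrix ι ι ℂ)ˣ)) (G : C(T, (Matrix κ κ ℂ)ˣ)) :
    ri (Equiv.sumCongr e e') (ds F G) = ds (ri e F) (ri e' G) := by
  refine ContinuousMap.ext fun t => Units.ext (Matrix.ext fun i j => ?_)
  change (Matrix.fromBlocks (F t).1 0 0 (G t).1) ((Equiv.sumCongr e e').symm i)
      ((Equiv.sumCongr e e').symm j) =
    Matrix.fromBlocks ((F t).1.submatrix e.symm e.symm) 0 0 ((G t).1.submatrix e'.symm e'.symm) i j
  rcases i with i | i <;> rcases j with j | j <;> simp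

theorem ri_trans {ι κ μ : Type} [Fintype ι] [DecidableEq ι] [Fintype κ] [DecidableEq κ]
    [Fintype μ] [DecidableEq μ] (e : ι ≃ κ) (f : κ ≃ μ) (F : C(T, (Matrix ι ι ℂ)ˣ)) :
    ri (e.trans f) F = ri f (ri e F) := by
  refine ContinuousMap.ext fun t => Units.ext (Matrix.ext fun i j => ?_)
  rfl

theorem ri_symm_ri {ι κ : Type} [Fintype ι] [DecidableEq ι] [Fintype κ] [DecidableEq κ]
    (e : ι ≃ κ) (F : C(T, (Matrix ι ι ℂ)ˣ)) : ri e.symm (ri e F) = F := by
  refine ContinuousMap.ext fun t => Units.ext (Matrix.ext fun i j => ?_)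
  change (F t).1 (e.symm (e i)) (e.symm (e j)) = _
  rw [Equiv.symm_apply_apply, Equiv.symm_apply_apply]

theorem rel_add {R R' S S' : Rep T} (h : Rel R R') (h' : Rel S S') :
    Rel (⟨R.ι ⊕ S.ι, ds R.F S.F⟩ : Rep T) ⟨R'.ι ⊕ S'.ι, ds R'.F S'.F⟩ := by
  obtain ⟨τ, τ', i1, i2, i3, i4, e, H⟩ := h
  obtain ⟨ρ, ρ', j1, j2, j3, j4, e', H'⟩ := h'
  refine ⟨τ ⊕ ρ, τ' ⊕ ρ', inferInstance, inferInstance, inferInstance, inferInstance,
    (Equiv.sumSumSumComm R.ι S.ι τ ρ).trans ((Equiv.sumCongr e e').trans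
      (Equiv.sumSumSumComm R'.ι S'.ι τ' ρ').symm), ?_⟩
  have h1 := ri_homotopic (Equiv.sumSumSumComm R'.ι S'.ι τ' ρ').symm (ds_homotopic H H')
  have e1 : ri ((Equiv.sumSumSumComm R.ι S.ι τ ρ).trans ((Equiv.sumCongr e e').trans
      (Equiv.sumSumSumComm R'.ι S'.ι τ' ρ').symm))
      (ds (ds R.F S.F) (1 : C(T, (Matrix (τ ⊕ ρ) (τ ⊕ ρ) ℂ)ˣ))) =
      ri (Equiv.sumSumSumComm R'.ι S'.ι τ' ρ').symm
        (ds (ri e (ds R.F 1)) (ri e' (ds S.F 1))) := by
    rw [ri_trans, ri_trans, ri_shuffle, ri_sumCongr]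
  have e2 : ri (Equiv.sumSumSumComm R'.ι S'.ι τ' ρ').symm (ds (ds R'.F 1) (ds S'.F 1)) =
      ds (ds R'.F S'.F) (1 : C(T, (Matrix (τ' ⊕ ρ') (τ' ⊕ ρ') ℂ)ˣ)) := by
    rw [← ri_shuffle, ri_symm_ri]
  rw [← e1, e2] at h1
  exact h1

theorem inv_homotopic {ι : Type} [Fintype ι] [DecidableEq ι]
    {F F' : C(T, (Matrix ι ι ℂ)ˣ)} (h : Homotopic F F') : Homotopic F⁻¹ F'⁻¹ := by
  have h1 := ContinuousMap.Homotopic.comp
    (ContinuousMap.Homotopic.refl (⟨fun x => x⁻¹, continuous_inv⟩ :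
      C((Matrix ι ι ℂ)ˣ, (Matrix ι ι ℂ)ˣ))) h
  exact h1

theorem ds_inv {ι κ : Type} [Fintype ι] [DecidableEq ι] [Fintype κ] [DecidableEq κ]
    (F : C(T, (Matrix ι ι ℂ)ˣ)) :
    (ds F (1 : C(T, (Matrix κ κ ℂ)ˣ)))⁻¹ = ds F⁻¹ (1 : C(T, (Matrix κ κ ℂ)ˣ)) := by
  apply ContinuousMap.ext
  intro t
  change (dsU (F t) 1)⁻¹ = dsU (F t)⁻¹ 1
  apply Units.ext
  change Matrix.fromBlocks (F t)⁻¹.1 0 0 (1 : (Matrix κ κ ℂ)ˣ)⁻¹.1
    = Matrix.fromBlocks (F t)⁻¹.1 0 0 (1 : (Matrix κ κ ℂ)ˣ).1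
  rw [inv_one]

theorem ri_inv {ι κ : Type} [Fintype ι] [DecidableEq ι] [Fintype κ] [DecidableEq κ] (e : ι ≃ κ)
    (F : C(T, (Matrix ι ι ℂ)ˣ)) : (ri e F)⁻¹ = ri e F⁻¹ := by
  apply ContinuousMap.ext
  intro t
  apply Units.ext
  rfl

theorem rel_neg {R R' : Rep T} (h : Rel R R') :
    Rel (⟨R.ι, R.F⁻¹⟩ : Rep T) ⟨R'.ι, R'.F⁻¹⟩ := by
  obtain ⟨τ, τ', i1, i2, i3, i4, e, he⟩ := h
  refine ⟨τ, τ', i1, i2, i3, i4, e, ?_⟩
  have h1 := inv_homotopic he
  rw [ri_inv, ds_inv, ds_inv] at h1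
  exact h1

theorem rel_comm (R S : Rep T) :
    Rel (⟨R.ι ⊕ S.ι, ds R.F S.F⟩ : Rep T) ⟨S.ι ⊕ R.ι, ds S.F R.F⟩ := by
  refine ⟨Empty, Empty, inferInstance, inferInstance, inferInstance, inferInstance,
    Equiv.sumCongr (Equiv.sumComm _ _) (Equiv.refl _), ?_⟩
  have h : ri (Equiv.sumCongr (Equiv.sumComm R.ι S.ι) (Equiv.refl Empty))
      (ds (ds R.F S.F) (1 : C(T, (Matrix Empty Empty ℂ)ˣ)))
      = ds (ds S.F R.F) (1 : C(T, (Matrix Empty Empty ℂ)ˣ)) := by
    apply ContinuousMap.ext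
    intro t
    apply Units.ext
    ext i j
    rcases i with (i | i) | i <;> rcases j with (j | j) | j <;>
      first
        | exact i.elim
        | exact j.elim
        | rfl
  have h2 := ContinuousMap.Homotopic.refl
    (ds (ds S.F R.F) (1 : C(T, (Matrix Empty Empty ℂ)ˣ)))
  rw [← h] at h2
  rw [h] at h2
  change Homotopic (ri (Equiv.sumCongr (Equiv.sumComm R.ι S.ι) (Equiv.refl Empty))
      (ds (ds R.F S.F) (1 : C(T, (Matrix Empty Empty ℂ)ˣ)))) _
  rw [h]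

theorem rel_assoc (R S U : Rep T) :
    Rel (⟨(R.ι ⊕ S.ι) ⊕ U.ι, ds (ds R.F S.F) U.F⟩ : Rep T) ⟨R.ι ⊕ (S.ι ⊕ U.ι), ds R.F (ds S.F U.F)⟩ := by
  refine ⟨Empty, Empty, inferInstance, inferInstance, inferInstance, inferInstance,
    Equiv.sumCongr (Equiv.sumAssoc _ _ _) (Equiv.refl Empty), ?_⟩
  have h : ri (Equiv.sumCongr (Equiv.sumAssoc R.ι S.ι U.ι) (Equiv.refl Empty))
      (ds (ds (ds R.F S.F) U.F) (1 : C(T, (Matrix Empty Empty ℂ)ˣ)))
      = ds (ds R.F (ds S.F U.F)) (1 : C(T, (Matrix Empty Empty ℂ)ˣ)) := by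
    apply ContinuousMap.ext
    intro t
    apply Units.ext
    ext i j
    rcases i with (i | (i | i)) | i
    · rcases j with (j | (j | j)) | j
      · rfl
      · rfl
      · rfl
      · exact j.elim
    · rcases j with (j | (j | j)) | j
      · rfl
      · rfl
      · rfl
      · exact j.elim
    · rcases j with (j | (j | j)) | j
      · rfl
      · rfl
      · rfl
      · exact j.elim
    · exact i.elim
  change Homotopic (ri (Equiv.sumCongr (Equiv.sumAssoc R.ι S.ι U.ι) (Equiv.refl Empty))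
      (ds (ds (ds R.F S.F) U.F) (1 : C(T, (Matrix Empty Empty ℂ)ˣ))))
      (ds (ds R.F (ds S.F U.F)) (1 : C(T, (Matrix Empty Empty ℂ)ˣ)))
  rw [h]

theorem rel_zero (R : Rep T) :
    Rel (⟨Empty ⊕ R.ι, ds (1 : C(T, (Matrix Empty Empty ℂ)ˣ)) R.F⟩ : Rep T) R := by
  refine ⟨Empty, Empty, inferInstance, inferInstance, inferInstance, inferInstance,
    Equiv.sumCongr (Equiv.emptySum Empty R.ι) (Equiv.refl Empty), ?_⟩
  have h : ri (Equiv.sumCongr (Equiv.emptySum Empty R.ι) (Equiv.refl Empty))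
      (ds (ds (1 : C(T, (Matrix Empty Empty ℂ)ˣ)) R.F) (1 : C(T, (Matrix Empty Empty ℂ)ˣ))) =
      ds R.F (1 : C(T, (Matrix Empty Empty ℂ)ˣ)) := by
    refine ContinuousMap.ext fun t => Units.ext (Matrix.ext fun i j => ?_)
    rcases i with i | i
    · rcases j with j | j
      · rfl
      · exact j.elim
    · exact i.elim
  show Homotopic (ri (Equiv.sumCongr (Equiv.emptySum Empty R.ι) (Equiv.refl Empty))
      (ds (ds (1 : C(T, (Matrix Empty Empty ℂ)ˣ)) R.F) (1 : C(T, (Matrix Empty Empty ℂ)ˣ))))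
      (ds R.F (1 : C(T, (Matrix Empty Empty ℂ)ˣ)))
  rw [h]

theorem ds_one_one_aux {ι κ : Type} [Fintype ι] [DecidableEq ι] [Fintype κ] [DecidableEq κ] :
    ds (1 : C(T, (Matrix ι ι ℂ)ˣ)) (1 : C(T, (Matrix κ κ ℂ)ˣ)) = 1 := by
  ext1 t
  apply Units.ext
  show Matrix.fromBlocks (1 : Matrix ι ι ℂ) 0 0 (1 : Matrix κ κ ℂ) = 1
  exact Matrix.fromBlocks_one

theorem ri_one_aux {ι κ : Type} [Fintype ι] [DecidableEq ι] [Fintype κ] [DecidableEq κ]
    (e : ι ≃ κ) : ri e (1 : C(T, (Matrix ι ι ℂ)ˣ)) = 1 := by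
  ext1 t
  apply Units.ext
  show (1 : Matrix ι ι ℂ).submatrix e.symm e.symm = 1
  exact Matrix.submatrix_one_equiv e.symm

theorem rel_inv (R : Rep T) :
    Rel (⟨R.ι ⊕ R.ι, ds R.F⁻¹ R.F⟩ : Rep T) ⟨Empty, 1⟩ := by
  refine ⟨Empty, R.ι ⊕ R.ι, inferInstance, inferInstance, inferInstance, inferInstance,
    Equiv.sumComm _ _, ?_⟩
  have h1 : Homotopic (ds (R.F⁻¹ * R.F) (1 : C(T, (Matrix R.ι R.ι ℂ)ˣ))) (ds R.F⁻¹ R.F) :=
    whitehead R.F⁻¹ R.F
  rw [inv_mul_cancel, ds_one_one_aux] at h1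
  have h2 := ri_homotopic (Equiv.sumComm (R.ι ⊕ R.ι) Empty)
    (ds_homotopic h1.symm (Homotopic.refl (1 : C(T, (Matrix Empty Empty ℂ)ˣ))))
  rw [ds_one_one_aux, ri_one_aux] at h2
  show Homotopic (ri (Equiv.sumComm (R.ι ⊕ R.ι) Empty) (ds (ds R.F⁻¹ R.F) 1))
    (ds (1 : C(T, (Matrix Empty Empty ℂ)ˣ)) (1 : C(T, (Matrix (R.ι ⊕ R.ι) (R.ι ⊕ R.ι) ℂ)ˣ)))
  rw [ds_one_one_aux]
  exact h2

theorem rel_one (ι : Type) [Fintype ι] [DecidableEq ι] :
    Rel (⟨ι, 1⟩ : Rep T) ⟨Empty, 1⟩ := by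
  refine ⟨Empty, ι, inferInstance, inferInstance, inferInstance, inferInstance,
    Equiv.sumComm ι Empty, ?_⟩
  have h : ri (Equiv.sumComm ι Empty)
      (ds (1 : C(T, (Matrix ι ι ℂ)ˣ)) (1 : C(T, (Matrix Empty Empty ℂ)ˣ))) =
      ds (1 : C(T, (Matrix Empty Empty ℂ)ˣ)) (1 : C(T, (Matrix ι ι ℂ)ˣ)) := by
    refine ContinuousMap.ext fun t => Units.ext (Matrix.ext fun i j => ?_)
    rcases i with i | i
    · exact i.elim
    · rcases j with j | j
      · exact j.elim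
      · rfl
  show Homotopic (ri (Equiv.sumComm ι Empty)
      (ds (1 : C(T, (Matrix ι ι ℂ)ˣ)) (1 : C(T, (Matrix Empty Empty ℂ)ˣ))))
      (ds (1 : C(T, (Matrix Empty Empty ℂ)ˣ)) (1 : C(T, (Matrix ι ι ℂ)ˣ)))
  rw [h]

theorem rel_mul {ι : Type} [Fintype ι] [DecidableEq ι] (F G : C(T, (Matrix ι ι ℂ)ˣ)) :
    Rel (⟨ι, F * G⟩ : Rep T) ⟨ι ⊕ ι, ds F G⟩ := by
  refine ⟨ι, Empty, inferInstance, inferInstance, inferInstance, inferInstance,
    (Equiv.sumEmpty (ι ⊕ ι) Empty).symm, ?_⟩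
  have h1 := ri_homotopic (Equiv.sumEmpty (ι ⊕ ι) Empty).symm (whitehead F G)
  have h2 : ri (Equiv.sumEmpty (ι ⊕ ι) Empty).symm (ds F G) =
      ds (ds F G) (1 : C(T, (Matrix Empty Empty ℂ)ˣ)) := by
    ext t i j
    rcases i with i | i
    · rcases j with j | j
      · rfl
      · exact j.elim
    · exact i.elim
  rw [h2] at h1
  exact h1

theorem rel_ri {ι κ : Type} [Fintype ι] [DecidableEq ι] [Fintype κ] [DecidableEq κ] (e : ι ≃ κ)
    (F : C(T, (Matrix ι ι ℂ)ˣ)) : Rel (⟨κ, ri e F⟩ : Rep T) ⟨ι, F⟩ := by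
  refine ⟨Empty, Empty, inferInstance, inferInstance, inferInstance, inferInstance,
    Equiv.sumCongr e.symm (Equiv.refl Empty), ?_⟩
  have h : ri (Equiv.sumCongr e.symm (Equiv.refl Empty))
      (ds (ri e F) (1 : C(T, (Matrix Empty Empty ℂ)ˣ))) = ds F (1 : C(T, (Matrix Empty Empty ℂ)ˣ)) := by
    refine ContinuousMap.ext fun t => Units.ext (Matrix.ext fun i j => ?_)
    rcases i with i | i
    · rcases j with j | j
      · simp [ri, ds, riU, dsU]
      · exact j.elim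
    · exact i.elim
  show Homotopic (ri (Equiv.sumCongr e.symm (Equiv.refl Empty))
      (ds (ri e F) (1 : C(T, (Matrix Empty Empty ℂ)ˣ)))) (ds F (1 : C(T, (Matrix Empty Empty ℂ)ˣ)))
  rw [h]

theorem rel_hom {ι : Type} [Fintype ι] [DecidableEq ι] {F G : C(T, (Matrix ι ι ℂ)ˣ)}
    (h : Homotopic F G) : Rel (⟨ι, F⟩ : Rep T) ⟨ι, G⟩ := by
  refine ⟨Empty, Empty, inferInstance, inferInstance, inferInstance, inferInstance, Equiv.refl _, ?_⟩
  have h1 : ri (Equiv.refl (ι ⊕ Empty)) (ds F (1 : C(T, (Matrix Empty Empty ℂ)ˣ))) =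
      ds F (1 : C(T, (Matrix Empty Empty ℂ)ˣ)) := by
    apply ContinuousMap.ext
    intro t
    apply Units.ext
    rfl
  show Homotopic (ri (Equiv.refl (ι ⊕ Empty)) (ds F (1 : C(T, (Matrix Empty Empty ℂ)ˣ)))) _
  rw [h1]
  exact ds_homotopic h (Homotopic.refl _)

theorem rex_ri_ri {ι κ μ : Type} [Fintype ι] [DecidableEq ι] [Fintype κ] [DecidableEq κ]
    [Fintype μ] [DecidableEq μ] (e : ι ≃ κ) (f : κ ≃ μ) (F : C(T, (Matrix ι ι ℂ)ˣ)) :
    ri f (ri e F) = ri (e.trans f) F := by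
  ext t
  rfl

theorem rex_ri_refl {ι : Type} [Fintype ι] [DecidableEq ι] (F : C(T, (Matrix ι ι ℂ)ˣ)) :
    ri (Equiv.refl ι) F = F := by
  ext t
  rfl

theorem rex_ds_ri {ι τ τ' : Type} [Fintype ι] [DecidableEq ι] [Fintype τ] [DecidableEq τ]
    [Fintype τ'] [DecidableEq τ'] (g : τ ≃ τ') (F : C(T, (Matrix ι ι ℂ)ˣ)) :
    ri (Equiv.sumCongr (Equiv.refl ι) g) (ds F (1 : C(T, (Matrix τ τ ℂ)ˣ))) =
      ds F (1 : C(T, (Matrix τ' τ' ℂ)ˣ)) := by
  ext t i j
  show (Matrix.fromBlocks (F t).1 0 0 (1 : Matrix τ τ ℂ)) ((Equiv.sumCongr (Equiv.refl ι) g).symm i)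
    ((Equiv.sumCongr (Equiv.refl ι) g).symm j) = (Matrix.fromBlocks (F t).1 0 0 (1 : Matrix τ' τ' ℂ)) i j
  rcases i with i | i <;> rcases j with j | j
  · rfl
  · rfl
  · rfl
  · show (1 : Matrix τ τ ℂ) (g.symm i) (g.symm j) = (1 : Matrix τ' τ' ℂ) i j
    rw [Matrix.one_apply, Matrix.one_apply]
    by_cases hij : i = j
    · rw [if_pos hij, if_pos (by rw [hij])]
    · rw [if_neg hij, if_neg (fun h => hij (g.symm.injective h))]

/-- equal classes of the same size are homotopic after adding an identity block -/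
theorem rel_exact {ι : Type} [Fintype ι] [DecidableEq ι] {F G : C(T, (Matrix ι ι ℂ)ˣ)}
    (h : Rel (⟨ι, F⟩ : Rep T) ⟨ι, G⟩) :
    ∃ (τ : Type) (_ : Fintype τ) (_ : DecidableEq τ),
      Homotopic (ds F (1 : C(T, (Matrix τ τ ℂ)ˣ))) (ds G (1 : C(T, (Matrix τ τ ℂ)ˣ))) := by
  obtain ⟨τ, τ', i1, i2, i3, i4, e, h⟩ := h
  refine ⟨τ, i1, i2, ?_⟩
  change ι ⊕ τ ≃ ι ⊕ τ' at e
  have hcard : Fintype.card τ = Fintype.card τ' := by
    have h1 := Fintype.card_congr e
    rw [Fintype.card_sum, Fintype.card_sum] at h1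
    exact Nat.add_left_cancel h1
  let g : τ ≃ τ' := Fintype.equivOfCardEq hcard
  let f : ι ⊕ τ ≃ ι ⊕ τ' := Equiv.sumCongr (Equiv.refl ι) g
  have h1 : Homotopic (ri e (ds F (1 : C(T, (Matrix τ τ ℂ)ˣ))))
      (ri f (ds G (1 : C(T, (Matrix τ τ ℂ)ˣ)))) := by
    have h2 : ri f (ds G (1 : C(T, (Matrix τ τ ℂ)ˣ))) = ds G (1 : C(T, (Matrix τ' τ' ℂ)ˣ)) :=
      rex_ds_ri g G
    rw [h2]
    exact h
  have h2 := ri_homotopic f.symm h1
  rw [rex_ri_ri, rex_ri_ri, Equiv.self_trans_symm, rex_ri_refl] at h2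
  exact (ri_self_homotopic (e.trans f.symm) _).symm.trans h2

theorem rel_comp {T' : Type} [TopologicalSpace T'] (f : C(T', T)) {R R' : Rep T} (h : Rel R R') :
    Rel (⟨R.ι, R.F.comp f⟩ : Rep T') ⟨R'.ι, R'.F.comp f⟩ := by
  obtain ⟨τ, τ', _, _, _, _, e, hh⟩ := h
  refine ⟨τ, τ', inferInstance, inferInstance, inferInstance, inferInstance, e, ?_⟩
  have h1 : Homotopic ((ri e (ds R.F (1 : C(T, (Matrix τ τ ℂ)ˣ)))).comp f)
      ((ds R'.F (1 : C(T, (Matrix τ' τ' ℂ)ˣ))).comp f) :=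
    hh.comp (Homotopic.refl f)
  exact h1

/-! from here on everything is proved (given the statements above) -/

instance : Zero (K1 T) := ⟨mk (1 : C(T, (Matrix Empty Empty ℂ)ˣ))⟩

instance : Add (K1 T) := ⟨Quotient.map₂ (fun R S => (⟨R.ι ⊕ S.ι, ds R.F S.F⟩ : Rep T))
  (fun _ _ h _ _ h' => rel_add h h')⟩

instance : Neg (K1 T) := ⟨Quotient.map (fun R => (⟨R.ι, R.F⁻¹⟩ : Rep T)) (fun _ _ h => rel_neg h)⟩

theorem add_comm' (a b : K1 T) : a + b = b + a := by
  induction a using Quotient.inductionOn with | _ R =>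
  induction b using Quotient.inductionOn with | _ S =>
  exact Quotient.sound (s := Setoid.mk Rel (Rel.equiv (T := T))) (rel_comm R S)

theorem zero_add' (a : K1 T) : 0 + a = a := by
  induction a using Quotient.inductionOn with | _ R =>
  exact Quotient.sound (s := Setoid.mk Rel (Rel.equiv (T := T))) (rel_zero R)

instance : AddCommGroup (K1 T) where
  add_assoc a b c := by
    induction a using Quotient.inductionOn with | _ R =>
    induction b using Quotient.inductionOn with | _ S =>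
    induction c using Quotient.inductionOn with | _ U =>
    exact Quotient.sound (s := Setoid.mk Rel (Rel.equiv (T := T))) (rel_assoc R S U)
  zero_add := zero_add'
  add_zero a := by rw [add_comm', zero_add']
  nsmul := nsmulRec
  zsmul := zsmulRec
  neg_add_cancel a := by
    induction a using Quotient.inductionOn with | _ R =>
    exact Quotient.sound (s := Setoid.mk Rel (Rel.equiv (T := T))) (rel_inv R)
  add_comm := add_comm'

variable {ι κ : Type} [Fintype ι] [DecidableEq ι] [Fintype κ] [DecidableEq κ]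

theorem mk_ds (F : C(T, (Matrix ι ι ℂ)ˣ)) (G : C(T, (Matrix κ κ ℂ)ˣ)) : mk (ds F G) = mk F + mk G := rfl

theorem mk_mul (F G : C(T, (Matrix ι ι ℂ)ˣ)) : mk (F * G) = mk F + mk G :=
  Quotient.sound (s := Setoid.mk Rel (Rel.equiv (T := T))) (rel_mul F G)

theorem mk_inv (F : C(T, (Matrix ι ι ℂ)ˣ)) : mk F⁻¹ = - mk F := rfl

theorem mk_one : mk (1 : C(T, (Matrix ι ι ℂ)ˣ)) = 0 :=
  Quotient.sound (s := Setoid.mk Rel (Rel.equiv (T := T))) (rel_one ι)

theorem mk_ri (e : ι ≃ κ) (F : C(T, (Matrix ι ι ℂ)ˣ)) : mk (ri e F) = mk F :=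
  Quotient.sound (s := Setoid.mk Rel (Rel.equiv (T := T))) (rel_ri e F)

theorem mk_hom {F G : C(T, (Matrix ι ι ℂ)ˣ)} (h : Homotopic F G) : mk F = mk G :=
  Quotient.sound (s := Setoid.mk Rel (Rel.equiv (T := T))) (rel_hom h)

theorem mk_exact {F G : C(T, (Matrix ι ι ℂ)ˣ)} (h : mk F = mk G) :
    ∃ (τ : Type) (_ : Fintype τ) (_ : DecidableEq τ),
      Homotopic (ds F (1 : C(T, (Matrix τ τ ℂ)ˣ))) (ds G (1 : C(T, (Matrix τ τ ℂ)ˣ))) :=
  rel_exact (Quotient.exact (s := Setoid.mk Rel (Rel.equiv (T := T))) h)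

theorem exists_rep (a : K1 T) : ∃ (ι : Type) (_ : Fintype ι) (_ : DecidableEq ι)
    (F : C(T, (Matrix ι ι ℂ)ˣ)), a = mk F := by
  induction a using Quotient.inductionOn with | _ R =>
  exact ⟨R.ι, R.fi, R.de, R.F, rfl⟩

/-- pull back -/
def map {T' : Type} [TopologicalSpace T'] (f : C(T', T)) : K1 T →+ K1 T' where
  toFun := Quotient.map (fun R => (⟨R.ι, R.F.comp f⟩ : Rep T')) (fun _ _ h => rel_comp f h)
  map_zero' := rfl
  map_add' a b := by
    induction a using Quotient.inductionOn with | _ R =>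
    induction b using Quotient.inductionOn with | _ S =>
    rfl

theorem map_mk {T' : Type} [TopologicalSpace T'] (f : C(T', T)) (F : C(T, (Matrix ι ι ℂ)ˣ)) :
    map f (mk F) = mk (F.comp f) := rfl

theorem map_comp {T' T'' : Type} [TopologicalSpace T'] [TopologicalSpace T''] (f : C(T', T))
    (g : C(T'', T')) (a : K1 T) : map g (map f a) = map (f.comp g) a := by
  obtain ⟨ι, _, _, F, rfl⟩ := exists_rep a
  rfl

theorem map_hom {T' : Type} [TopologicalSpace T'] {f g : C(T', T)} (h : Homotopic f g) (a : K1 T) :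
    map f a = map g a := by
  obtain ⟨ι, _, _, F, rfl⟩ := exists_rep a
  rw [map_mk, map_mk]
  exact mk_hom (Homotopic.comp (Homotopic.refl F) h)

theorem mk_conj (F G : C(T, (Matrix ι ι ℂ)ˣ)) : mk (G * F * G⁻¹) = mk F := by
  rw [mk_mul, mk_mul, mk_inv]; abel

end K1
end BB
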