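import Mathlib

set_option autoImplicit false
set_option linter.unusedVariables false
set_option linter.unusedSectionVars false

open scoped unitInterval Matrix Topology ComplexConjugate
open ContinuousMap Topology

noncomputable section

namespace BB

abbrev M4 : Type := Matrix (Fin 4) (Fin 4) ℂ

/-- closed unit disk -/
abbrev Dk : Type := Metric.closedBall (0 : ℂ) 1

theorem Dk_le (y : Dk) : ‖(y:ℂ)‖ ≤ 1 := mem_closedBall_zero_iff.1 y.2

/-- `√(1-|y|²)` -/
def sr (y : ℂ) : ℂ := ((Real.sqrt (1 - ‖y‖ ^ 2) : ℝ) : ℂ)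

def h1 (y : ℂ) : M4 := !![y, 0, 0, -sr y; 0, 1, 0, 0; 0, 0, 1, 0; sr y, 0, 0, conj y]
def h2 (y : ℂ) : M4 := !![1, 0, 0, 0; 0, y, 0, -sr y; 0, 0, 1, 0; 0, sr y, 0, conj y]
def h3 (y : ℂ) : M4 := !![1, 0, 0, 0; 0, 1, 0, 0; 0, 0, y, -sr y; 0, 0, sr y, conj y]

/-- the family of unitary matrices -/
def zz (y : ℂ) : M4 := h1 y * h2 y * h3 y

theorem sr_cont' : Continuous sr := by
  unfold sr
  fun_prop

theorem zz_cont : Continuous zz := by
  have hs := sr_cont'
  have hc : Continuous (fun y : ℂ => (conj y : ℂ)) := Complex.continuous_conj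
  have k1 : Continuous h1 := by
    refine continuous_matrix fun i j => ?_
    fin_cases i <;> fin_cases j <;> simp [h1] <;> fun_prop
  have k2 : Continuous h2 := by
    refine continuous_matrix fun i j => ?_
    fin_cases i <;> fin_cases j <;> simp [h2] <;> fun_prop
  have k3 : Continuous h3 := by
    refine continuous_matrix fun i j => ?_
    fin_cases i <;> fin_cases j <;> simp [h3] <;> fun_prop
  exact (k1.matrix_mul k2).matrix_mul k3

theorem zz_mem_sr (y : ℂ) (hy : ‖y‖ ≤ 1) :
    conj (sr y) = sr y ∧ y * conj y + sr y * sr y = 1 := by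
  constructor
  · unfold sr
    exact Complex.conj_ofReal _
  · unfold sr
    have h0 : 0 ≤ 1 - ‖y‖ ^ 2 := by
      have := pow_le_one₀ (n := 2) (norm_nonneg y) hy
      linarith
    rw [Complex.mul_conj, ← Complex.ofReal_mul, Real.mul_self_sqrt h0, Complex.normSq_eq_norm_sq]
    push_cast
    ring

theorem zz_mem_one (y : ℂ) (hy : ‖y‖ ≤ 1) : h1 y ∈ Matrix.specialUnitaryGroup (Fin 4) ℂ := by
  obtain ⟨hs, h⟩ := zz_mem_sr y hy
  rw [Matrix.mem_specialUnitaryGroup_iff, Matrix.mem_unitaryGroup_iff]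
  constructor
  · ext i j
    fin_cases i <;> fin_cases j <;>
      simp [h1, Matrix.mul_apply, Fin.sum_univ_succ, hs] <;> first | ring1 | linear_combination h
  · simp [h1, Matrix.det_succ_row_zero, Fin.sum_univ_succ, Fin.succAbove]
    linear_combination h

theorem zz_mem_two (y : ℂ) (hy : ‖y‖ ≤ 1) : h2 y ∈ Matrix.specialUnitaryGroup (Fin 4) ℂ := by
  obtain ⟨hs, h⟩ := zz_mem_sr y hy
  rw [Matrix.mem_specialUnitaryGroup_iff, Matrix.mem_unitaryGroup_iff]
  constructor
  · ext i j
    fin_cases i <;> fin_cases j <;>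
      simp [h2, Matrix.mul_apply, Fin.sum_univ_succ, hs] <;> first | ring1 | linear_combination h
  · simp [h2, Matrix.det_succ_row_zero, Fin.sum_univ_succ, Fin.succAbove]
    linear_combination h

theorem zz_mem_three (y : ℂ) (hy : ‖y‖ ≤ 1) : h3 y ∈ Matrix.specialUnitaryGroup (Fin 4) ℂ := by
  obtain ⟨hs, h⟩ := zz_mem_sr y hy
  rw [Matrix.mem_specialUnitaryGroup_iff, Matrix.mem_unitaryGroup_iff]
  constructor
  · ext i j
    fin_cases i <;> fin_cases j <;>
      simp [h3, Matrix.mul_apply, Fin.sum_univ_succ, hs] <;> first | ring1 | linear_combination h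
  · simp [h3, Matrix.det_succ_row_zero, Fin.sum_univ_succ, Fin.succAbove]
    linear_combination h

theorem zz_mem (y : ℂ) (hy : ‖y‖ ≤ 1) : zz y ∈ Matrix.specialUnitaryGroup (Fin 4) ℂ :=
  mul_mem (mul_mem (zz_mem_one y hy) (zz_mem_two y hy)) (zz_mem_three y hy)

/-- the first column is `(y,0,0,s)` -/
theorem zz_col (y : ℂ) : (fun i => zz y i 0) = ![y, 0, 0, sr y] := by
  ext i
  fin_cases i <;> simp [zz, h1, h2, h3, Matrix.mul_apply, Fin.sum_univ_succ]

theorem zz_bdry (y : ℂ) (hy : ‖y‖ = 1) : zz y = Matrix.diagonal ![y, y, y, (conj y) ^ 3] := by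
  have hs : sr y = 0 := by unfold sr; rw [hy]; simp
  unfold zz h1 h2 h3
  rw [hs]
  ext i j
  fin_cases i <;> fin_cases j <;> simp [Matrix.mul_apply, Fin.sum_univ_four, Matrix.diagonal, pow_succ]

theorem zz_rot (y c : ℂ) (hy : ‖y‖ = 1) (hc : c ^ 4 = 1) : zz (c * y) = c • zz y := by
  have hn : ‖c‖ = 1 := by
    have h1 : ‖c‖ ^ 4 = 1 := by rw [← norm_pow, hc, norm_one]
    exact (pow_eq_one_iff_of_nonneg (norm_nonneg c) (by norm_num)).1 h1
  have h2 : conj c * c = 1 := by
    rw [mul_comm, Complex.mul_conj, Complex.normSq_eq_norm_sq, hn]; simp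
  have h3 : conj c = c ^ 3 := by
    have hc0 : c ≠ 0 := by
      intro h; rw [h] at hn; simp at hn
    apply mul_right_cancel₀ hc0
    rw [h2, ← pow_succ, hc]
  have h4 : (conj c) ^ 3 = c := by
    rw [h3]
    linear_combination (c ^ 5 + c) * hc
  rw [zz_bdry y hy, zz_bdry (c * y) (by rw [norm_mul, hn, hy, one_mul]), ← Matrix.diagonal_smul]
  congr 1
  funext i
  fin_cases i
  · rfl
  · rfl
  · rfl
  · show (conj (c * y)) ^ 3 = c * (conj y) ^ 3
    rw [map_mul, mul_pow, h4]

theorem zz_one : zz 1 = 1 := by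
  rw [zz_bdry 1 (by simp)]
  ext i j
  fin_cases i <;> fin_cases j <;> simp [Matrix.diagonal]

/-- as an invertible matrix -/
def zzU (y : Dk) : M4ˣ where
  val := zz y
  inv := star (zz y)
  val_inv := by
    have := (zz_mem y (Dk_le y)).1
    exact (Matrix.mem_unitaryGroup_iff).1 this
  inv_val := by
    have := (zz_mem y (Dk_le y)).1
    exact (Matrix.mem_unitaryGroup_iff').1 this

theorem zzU_cont : Continuous zzU := by
  rw [Units.continuous_iff]
  constructor
  · exact zz_cont.comp continuous_subtype_val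
  · exact continuous_star.comp (zz_cont.comp continuous_subtype_val)

/-- the model of the Moore space -/
def qm (m : ℕ) (y : ℂ) : ℂ × ℂ := (y ^ m, sr y * y)

/-- Moore space: the disk with boundary points `y`, `ζ y` identified, `ζ^m = 1` -/
def Ym (m : ℕ) : Type := {p : ℂ × ℂ // ∃ y : Dk, qm m y = p}

instance (m : ℕ) : MetricSpace (Ym m) := inferInstanceAs (MetricSpace {p : ℂ × ℂ // ∃ y : Dk, qm m y = p})

theorem sr_cont : Continuous sr := by
  unfold sr
  exact Complex.continuous_ofReal.comp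
    (Real.continuous_sqrt.comp (continuous_const.sub (continuous_norm.pow 2)))

theorem qm_cont (m : ℕ) : Continuous (qm m) :=
  (continuous_id.pow m).prodMk (sr_cont.mul continuous_id)

/-- the quotient map -/
def qY (m : ℕ) : C(Dk, Ym m) where
  toFun y := ⟨qm m y, y, rfl⟩
  continuous_toFun := by
    exact Continuous.subtype_mk ((qm_cont m).comp continuous_subtype_val) _

theorem qY_surj (m : ℕ) : Function.Surjective (qY m) := by
  rintro ⟨p, y, rfl⟩; exact ⟨y, rfl⟩

theorem qY_eq_iff (m : ℕ) (hm : m ≠ 0) (y y' : Dk) : qY m y = qY m y' ↔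
    y = y' ∨ (‖(y:ℂ)‖ = 1 ∧ ∃ c : ℂ, c ^ m = 1 ∧ (y' : ℂ) = c * y) := by
  have hsr : ∀ z : ℂ, ‖z‖ = 1 → sr z = 0 := by
    intro z hz
    unfold sr
    rw [hz]
    norm_num
  have key : qY m y = qY m y' ↔ qm m y = qm m y' := Subtype.ext_iff
  rw [key]
  constructor
  · intro h
    have h1 : (y : ℂ) ^ m = (y' : ℂ) ^ m := congrArg Prod.fst h
    have h2 : sr y * y = sr y' * y' := congrArg Prod.snd h
    have h3 : ‖(y : ℂ)‖ = ‖(y' : ℂ)‖ := by
      have := congrArg norm h1
      rw [norm_pow, norm_pow] at this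
      exact (pow_left_inj₀ (norm_nonneg _) (norm_nonneg _) hm).1 this
    rcases (Dk_le y).lt_or_eq with h4 | h4
    · left
      have h5 : sr y = sr y' := by
        unfold sr
        rw [h3]
      have h6 : sr y ≠ 0 := by
        unfold sr
        rw [Complex.ofReal_ne_zero]
        apply (Real.sqrt_pos.2 _).ne'
        nlinarith [norm_nonneg (y : ℂ)]
      rw [← h5] at h2
      exact Subtype.ext (mul_left_cancel₀ h6 h2)
    · right
      have hy0 : (y : ℂ) ≠ 0 := by
        intro h0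
        rw [h0, norm_zero] at h4
        exact zero_ne_one h4
      refine ⟨h4, y' / y, ?_, ?_⟩
      · rw [div_pow, ← h1, div_self (pow_ne_zero m hy0)]
      · field_simp
  · rintro (h | ⟨h1, c, hc, hy'⟩)
    · rw [h]
    · have hcn : ‖c‖ = 1 := Complex.norm_eq_one_of_pow_eq_one hc hm
      have h2 : ‖(y' : ℂ)‖ = 1 := by rw [hy', norm_mul, hcn, h1, one_mul]
      unfold qm
      rw [hsr _ h1, hsr _ h2, zero_mul, zero_mul, hy', mul_pow, hc, one_mul]

instance (m : ℕ) : CompactSpace (Ym m) := by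
  have : IsCompact (Set.range (qY m)) := isCompact_range (qY m).continuous
  rw [(qY_surj m).range_eq] at this
  exact isCompact_univ_iff.1 this

theorem qY_quot (m : ℕ) (T : Type) [TopologicalSpace T] :
    IsQuotientMap (Prod.map (qY m) (id : T → T)) := by
  have h1 : IsProperMap (qY m) := (qY m).continuous.isProperMap
  have h2 : IsProperMap (Prod.map (qY m) (id : T → T)) := h1.prodMap isProperMap_id
  exact h2.isClosedMap.isQuotientMap h2.continuous ((qY_surj m).prodMap Function.surjective_id)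

/-- descending maps -/
def desc {m : ℕ} {T X : Type} [TopologicalSpace T] [TopologicalSpace X] (φ : C(Dk × T, X))
    (h : ∀ y y' t, qY m y = qY m y' → φ (y, t) = φ (y', t)) : C(Ym m × T, X) :=
  (show IsQuotientMap (⟨Prod.map (qY m) (id : T → T),
      (qY m).continuous.prodMap continuous_id⟩ : C(Dk × T, Ym m × T)) from qY_quot m T).lift φ (by
    rintro ⟨y, t⟩ ⟨y', t'⟩ h'
    simp only [ContinuousMap.coe_mk, Prod.map_apply, id, Prod.mk.injEq] at h'
    obtain ⟨h1, rfl⟩ := h'
    exact h y y' t h1)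

theorem desc_apply {m : ℕ} {T X : Type} [TopologicalSpace T] [TopologicalSpace X] (φ : C(Dk × T, X))
    (h : ∀ y y' t, qY m y = qY m y' → φ (y, t) = φ (y', t)) (y : Dk) (t : T) :
    desc φ h (qY m y, t) = φ (y, t) := by
  have := (show IsQuotientMap (⟨Prod.map (qY m) (id : T → T),
      (qY m).continuous.prodMap continuous_id⟩ : C(Dk × T, Ym m × T)) from qY_quot m T).lift_comp φ (by
    rintro ⟨y, t⟩ ⟨y', t'⟩ h'
    simp only [ContinuousMap.coe_mk, Prod.map_apply, id, Prod.mk.injEq] at h'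
    obtain ⟨h1, rfl⟩ := h'
    exact h y y' t h1)
  exact DFunLike.congr_fun this (y, t)

theorem zz_qY {m : ℕ} [Fact (m ∣ 4)] {y y' : Dk} (h : qY m y = qY m y') :
    ∃ c : ℂ, c ^ m = 1 ∧ c ^ 4 = 1 ∧ zz y' = c • zz y := by
  have hm : m ∣ 4 := Fact.out
  have hm0 : m ≠ 0 := by rintro rfl; simp at hm
  rcases (qY_eq_iff m hm0 y y').1 h with h | ⟨h1, c, hc, h2⟩
  · subst h; exact ⟨1, by simp, by simp, by simp⟩
  · have hc4 : c ^ 4 = 1 := by
      obtain ⟨k, hk⟩ := hm
      rw [hk, pow_mul, hc, one_pow]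
    exact ⟨c, hc, hc4, by rw [h2]; exact zz_rot _ _ h1 hc4⟩

end BB
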