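import Pool.Agent.Helper194.BB.K0
import Pool.Agent.Helper194.BB.I
import Pool.Agent.Helper194.BB.Z

set_option autoImplicit false
set_option linter.unusedVariables false
set_option linter.unusedSectionVars false

open scoped unitInterval Matrix Topology ComplexConjugate Kronecker
open ContinuousMap Topology

noncomputable section

namespace BB

section
variable {T W : Type} [TopologicalSpace T] [TopologicalSpace W] {ι κ : Type} [Fintype ι] [DecidableEq ι]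
  [Fintype κ] [DecidableEq κ]

theorem conj_zz {m : ℕ} [Fact (m ∣ 4)] {y y' : Dk} (h : qY m y = qY m y') (A : M4ˣ) :
    zzU y * A * (zzU y)⁻¹ = zzU y' * A * (zzU y')⁻¹ := by
  obtain ⟨c, -, hc4, hz⟩ := zz_qY h
  have hn : ‖c‖ = 1 := Complex.norm_eq_one_of_pow_eq_one hc4 (by norm_num)
  have hcc : c * star c = 1 := by
    have h1 : c * conj c = (‖c‖ : ℂ) ^ 2 := Complex.mul_conj' c
    rw [hn] at h1
    simpa using h1
  apply Units.ext
  show zz y * A.1 * star (zz (y : ℂ)) = zz y' * A.1 * star (zz (y' : ℂ))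
  rw [hz, star_smul, Matrix.smul_mul, Matrix.smul_mul, Matrix.mul_smul, smul_smul, hcc, one_smul]

/-- conjugation by the family `zz` -/
def cj (m : ℕ) [Fact (m ∣ 4)] (F : C(T, M4ˣ)) : C(Ym m × T, M4ˣ) :=
  desc (⟨fun p => zzU p.1 * F p.2 * (zzU p.1)⁻¹, by
    have := zzU_cont
    have := F.continuous
    fun_prop⟩ : C(Dk × T, M4ˣ)) (fun y y' t h => conj_zz h (F t))

theorem cj_apply (m : ℕ) [Fact (m ∣ 4)] (F : C(T, M4ˣ)) (y : Dk) (t : T) :
    cj m F (qY m y, t) = zzU y * F t * (zzU y)⁻¹ := desc_apply _ _ _ _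

theorem pl_inv {m : ℕ} [Fact (m ∣ 4)] {y y' : Dk} (h : qY m y = qY m y') :
    zz y * Matrix.single 0 0 1 * star (zz y) = zz y' * Matrix.single 0 0 1 * star (zz y') := by
  obtain ⟨c, _, hc4, hz⟩ := zz_qY h
  have hn : ‖c‖ = 1 := Complex.norm_eq_one_of_pow_eq_one hc4 (by norm_num)
  have hcc : star c * c = 1 := by
    have h1 := Complex.conj_mul' c
    rw [hn] at h1
    simpa using h1
  rw [hz, star_smul, Matrix.mul_smul, Matrix.smul_mul, Matrix.smul_mul, smul_smul, hcc, one_smul]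

/-- the line bundle: the projection `zz E₁₁ zz⁻¹` -/
def plC (m : ℕ) [Fact (m ∣ 4)] : C(Ym m × Unit, M4) :=
  desc (⟨fun p => zz p.1 * Matrix.single 0 0 1 * star (zz p.1), by
    have := zz_cont
    fun_prop⟩ : C(Dk × Unit, M4)) (fun y y' t h => pl_inv h)

def pl (m : ℕ) [Fact (m ∣ 4)] (x : Ym m) : M4 := plC m (x, ())

theorem pl_apply (m : ℕ) [Fact (m ∣ 4)] (y : Dk) :
    pl m (qY m y) = zz y * Matrix.single 0 0 1 * star (zz y) := desc_apply _ _ _ _

theorem pl_cont (m : ℕ) [Fact (m ∣ 4)] : Continuous (pl m) := by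
  unfold pl
  fun_prop

theorem pl_idem (m : ℕ) [Fact (m ∣ 4)] (x : Ym m) : pl m x * pl m x = pl m x := by
  obtain ⟨y, rfl⟩ := qY_surj m x
  have h : star (zz y) * zz y = 1 := (Matrix.mem_unitaryGroup_iff').1 (zz_mem y (Dk_le y)).1
  rw [pl_apply]
  calc zz y * Matrix.single 0 0 1 * star (zz y) * (zz y * Matrix.single 0 0 1 * star (zz y))
      = zz y * Matrix.single 0 0 1 * (star (zz y) * zz y) * Matrix.single 0 0 1 * star (zz y) := by
        simp only [Matrix.mul_assoc]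
    _ = _ := by rw [h]; simp [Matrix.mul_assoc]

/-- twisted idempotent -/
def ltw (m : ℕ) [Fact (m ∣ 4)] (e : C(T, Matrix ι ι ℂ)) : C(Ym m × T, Matrix (Fin 4 × ι) (Fin 4 × ι) ℂ) where
  toFun p := pl m p.1 ⊗ₖ e p.2
  continuous_toFun := by
    have := (pl_cont m).comp (continuous_fst (X := Ym m) (Y := T))
    have h2 := e.continuous.comp (continuous_snd (X := Ym m) (Y := T))
    refine continuous_matrix fun i j => ?_
    exact (this.matrix_elem i.1 j.1).mul (h2.matrix_elem i.2 j.2)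

/-- untwisted idempotent on `T` -/
def tr1 (e : C(T, Matrix ι ι ℂ)) : C(T, Matrix (Fin 4 × ι) (Fin 4 × ι) ℂ) where
  toFun t := (Matrix.single 0 0 1 : M4) ⊗ₖ e t
  continuous_toFun := by
    refine continuous_matrix fun i j => ?_
    exact continuous_const.mul (e.continuous.matrix_elem i.2 j.2)

theorem tr1_idem (e : C(T, Matrix ι ι ℂ)) (he : ∀ t, e t * e t = e t) (t : T) :
    tr1 e t * tr1 e t = tr1 e t := by
  show ((Matrix.single 0 0 1 : M4) ⊗ₖ e t) * ((Matrix.single 0 0 1 : M4) ⊗ₖ e t) =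
    (Matrix.single 0 0 1 : M4) ⊗ₖ e t
  rw [← Matrix.mul_kronecker_mul, he]; simp

/-- untwisted idempotent -/
def ltr (m : ℕ) (e : C(T, Matrix ι ι ℂ)) : C(Ym m × T, Matrix (Fin 4 × ι) (Fin 4 × ι) ℂ) :=
  (tr1 e).comp ContinuousMap.snd

theorem ltw_idem (m : ℕ) [Fact (m ∣ 4)] (e : C(T, Matrix ι ι ℂ)) (he : ∀ t, e t * e t = e t) (p : Ym m × T) :
    ltw m e p * ltw m e p = ltw m e p := by
  show (pl m p.1 ⊗ₖ e p.2) * (pl m p.1 ⊗ₖ e p.2) = pl m p.1 ⊗ₖ e p.2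
  rw [← Matrix.mul_kronecker_mul, pl_idem, he]

theorem ltr_idem (m : ℕ) (e : C(T, Matrix ι ι ℂ)) (he : ∀ t, e t * e t = e t) (p : Ym m × T) :
    ltr m e p * ltr m e p = ltr m e p := tr1_idem e he p.2

/-- direct sum of matrix valued maps -/
def dsM (e : C(T, Matrix ι ι ℂ)) (f : C(T, Matrix κ κ ℂ)) : C(T, Matrix (ι ⊕ κ) (ι ⊕ κ) ℂ) where
  toFun t := Matrix.fromBlocks (e t) 0 0 (f t)
  continuous_toFun := Continuous.matrix_fromBlocks e.continuous continuous_const continuous_const f.continuous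

theorem dsM_idem (e : C(T, Matrix ι ι ℂ)) (f : C(T, Matrix κ κ ℂ)) (he : ∀ t, e t * e t = e t)
    (hf : ∀ t, f t * f t = f t) (t : T) : dsM e f t * dsM e f t = dsM e f t := by
  show Matrix.fromBlocks (e t) 0 0 (f t) * Matrix.fromBlocks (e t) 0 0 (f t) = Matrix.fromBlocks (e t) 0 0 (f t)
  simp [Matrix.fromBlocks_multiply, he, hf]

/-- `p ⊗ F + (1-p) ⊗ 1` for an idempotent `p` -/
def lU (p : M4) (hp : p * p = p) (F : (Matrix ι ι ℂ)ˣ) : (Matrix (Fin 4 × ι) (Fin 4 × ι) ℂ)ˣ where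
  val := p ⊗ₖ F.1 + (1 - p) ⊗ₖ (1 : Matrix ι ι ℂ)
  inv := p ⊗ₖ F⁻¹.1 + (1 - p) ⊗ₖ (1 : Matrix ι ι ℂ)
  val_inv := by
    have h1 : p * (1 - p) = 0 := by rw [mul_sub, hp, mul_one, sub_self]
    have h2 : (1 - p) * p = 0 := by rw [sub_mul, hp, one_mul, sub_self]
    have h3 : (1 - p) * (1 - p) = 1 - p := by rw [mul_sub, h2, mul_one, sub_zero]
    rw [mul_add, add_mul, add_mul, ← Matrix.mul_kronecker_mul, ← Matrix.mul_kronecker_mul,
      ← Matrix.mul_kronecker_mul, ← Matrix.mul_kronecker_mul, hp, h1, h2, h3]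
    simp only [Matrix.zero_kronecker, add_zero, zero_add, Units.mul_inv, mul_one, ← Matrix.add_kronecker]
    simp
  inv_val := by
    have h1 : p * (1 - p) = 0 := by rw [mul_sub, hp, mul_one, sub_self]
    have h2 : (1 - p) * p = 0 := by rw [sub_mul, hp, one_mul, sub_self]
    have h3 : (1 - p) * (1 - p) = 1 - p := by rw [mul_sub, h2, mul_one, sub_zero]
    rw [mul_add, add_mul, add_mul, ← Matrix.mul_kronecker_mul, ← Matrix.mul_kronecker_mul,
      ← Matrix.mul_kronecker_mul, ← Matrix.mul_kronecker_mul, hp, h1, h2, h3]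
    simp only [Matrix.zero_kronecker, add_zero, zero_add, Units.inv_mul, mul_one, ← Matrix.add_kronecker]
    simp

/-- external product with the line bundle -/
def lF (m : ℕ) [Fact (m ∣ 4)] (F : C(T, (Matrix ι ι ℂ)ˣ)) :
    C(Ym m × T, (Matrix (Fin 4 × ι) (Fin 4 × ι) ℂ)ˣ) where
  toFun p := lU (pl m p.1) (pl_idem m p.1) (F p.2)
  continuous_toFun := by
    have h0 := (pl_cont m).comp (continuous_fst (X := Ym m) (Y := T))
    rw [Units.continuous_iff]
    constructor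
    · refine continuous_matrix fun i j => ?_
      have h2 := (Units.continuous_val.comp F.continuous).comp (continuous_snd (X := Ym m) (Y := T))
      exact ((h0.matrix_elem i.1 j.1).mul (h2.matrix_elem i.2 j.2)).add
        (((continuous_const.sub h0).matrix_elem i.1 j.1).mul continuous_const)
    · refine continuous_matrix fun i j => ?_
      have h2 := (Units.continuous_val.comp (continuous_inv.comp F.continuous)).comp
        (continuous_snd (X := Ym m) (Y := T))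
      exact ((h0.matrix_elem i.1 j.1).mul (h2.matrix_elem i.2 j.2)).add
        (((continuous_const.sub h0).matrix_elem i.1 j.1).mul continuous_const)

theorem lU_ds235 {τ : Type} [Fintype τ] [DecidableEq τ] (p : M4) (hp : p * p = p)
    (A : (Matrix ι ι ℂ)ˣ) :
    lU p hp (dsU A (1 : (Matrix τ τ ℂ)ˣ)) =
      riU (Equiv.prodSumDistrib (Fin 4) ι τ).symm (dsU (lU p hp A) 1) := by
  apply Units.ext
  ext ⟨a, i⟩ ⟨b, j⟩
  show p a b * (Matrix.fromBlocks A.1 0 0 (1 : Matrix τ τ ℂ)) i j +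
      (1 - p) a b * (1 : Matrix (ι ⊕ τ) (ι ⊕ τ) ℂ) i j =
    (Matrix.fromBlocks (lU p hp A).1 0 0 (1 : Matrix (Fin 4 × τ) (Fin 4 × τ) ℂ))
      ((Equiv.prodSumDistrib (Fin 4) ι τ) (a, i)) ((Equiv.prodSumDistrib (Fin 4) ι τ) (b, j))
  rcases i with i | i <;> rcases j with j | j
  · simp only [Equiv.prodSumDistrib_apply_left, Matrix.fromBlocks_apply₁₁]
    show _ = p a b * A.1 i j + (1 - p) a b * (1 : Matrix ι ι ℂ) i j
    simp only [Matrix.one_apply, Sum.inl.injEq]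
  · simp [Equiv.prodSumDistrib_apply_left, Equiv.prodSumDistrib_apply_right]
  · simp [Equiv.prodSumDistrib_apply_left, Equiv.prodSumDistrib_apply_right]
  · simp only [Equiv.prodSumDistrib_apply_right, Matrix.fromBlocks_apply₂₂]
    rw [Matrix.sub_apply]
    simp only [Matrix.one_apply, Sum.inr.injEq, Prod.mk.injEq]
    by_cases h1 : a = b <;> by_cases h2 : i = j <;> simp [h1, h2]

theorem lU_ri235 (e : ι ≃ κ) (p : M4) (hp : p * p = p) (A : (Matrix ι ι ℂ)ˣ) :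
    lU p hp (riU e A) = riU ((Equiv.refl (Fin 4)).prodCongr e) (lU p hp A) := by
  apply Units.ext
  ext ⟨a, i⟩ ⟨b, j⟩
  show p a b * A.1 (e.symm i) (e.symm j) + (1 - p) a b * (1 : Matrix κ κ ℂ) i j =
    p a b * A.1 (e.symm i) (e.symm j) + (1 - p) a b * (1 : Matrix ι ι ℂ) (e.symm i) (e.symm j)
  simp only [Matrix.one_apply, EmbeddingLike.apply_eq_iff_eq]

theorem lF_ds235 {τ : Type} [Fintype τ] [DecidableEq τ] (m : ℕ) [Fact (m ∣ 4)]
    (F : C(T, (Matrix ι ι ℂ)ˣ)) :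
    lF m (ds F (1 : C(T, (Matrix τ τ ℂ)ˣ))) =
      ri (Equiv.prodSumDistrib (Fin 4) ι τ).symm (ds (lF m F) 1) := by
  apply ContinuousMap.ext
  intro x
  exact lU_ds235 (pl m x.1) (pl_idem m x.1) (F x.2)

theorem lF_ri235 (m : ℕ) [Fact (m ∣ 4)] (e : ι ≃ κ) (F : C(T, (Matrix ι ι ℂ)ˣ)) :
    lF m (ri e F) = ri ((Equiv.refl (Fin 4)).prodCongr e) (lF m F) := by
  apply ContinuousMap.ext
  intro x
  exact lU_ri235 e (pl m x.1) (pl_idem m x.1) (F x.2)

theorem ri_ri235 {μ : Type} [Fintype μ] [DecidableEq μ] (e : ι ≃ κ) (e' : κ ≃ μ)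
    (F : C(T, (Matrix ι ι ℂ)ˣ)) : ri e' (ri e F) = ri (e.trans e') F := by
  apply ContinuousMap.ext
  intro x
  apply Units.ext
  rfl

theorem ri_refl235 (F : C(T, (Matrix ι ι ℂ)ˣ)) : ri (Equiv.refl ι) F = F := by
  apply ContinuousMap.ext
  intro x
  apply Units.ext
  rfl

theorem lF_hom235 (m : ℕ) [Fact (m ∣ 4)] {F G : C(T, (Matrix ι ι ℂ)ˣ)} (h : Homotopic F G) :
    Homotopic (lF m F) (lF m G) := by
  obtain ⟨K⟩ := h
  refine ⟨⟨(lF m K.toContinuousMap).comp ⟨fun q : I × (Ym m × T) => (q.2.1, (q.1, q.2.2)),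
    by fun_prop⟩, ?_, ?_⟩⟩
  · intro x
    have h0 : K.toContinuousMap (0, x.2) = F x.2 := K.map_zero_left x.2
    show lU (pl m x.1) (pl_idem m x.1) (K.toContinuousMap (0, x.2)) =
      lU (pl m x.1) (pl_idem m x.1) (F x.2)
    rw [h0]
  · intro x
    have h0 : K.toContinuousMap (1, x.2) = G x.2 := K.map_one_left x.2
    show lU (pl m x.1) (pl_idem m x.1) (K.toContinuousMap (1, x.2)) =
      lU (pl m x.1) (pl_idem m x.1) (G x.2)
    rw [h0]

theorem lF_rel (m : ℕ) [Fact (m ∣ 4)] {R S : Rep T} (h : Rel R S) :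
    Rel (⟨Fin 4 × R.ι, lF m R.F⟩ : Rep (Ym m × T)) ⟨Fin 4 × S.ι, lF m S.F⟩ := by
  obtain ⟨τ, τ', i1, i2, i3, i4, e, H⟩ := h
  refine ⟨Fin 4 × τ, Fin 4 × τ', inferInstance, inferInstance, inferInstance, inferInstance,
    ((Equiv.prodSumDistrib (Fin 4) R.ι τ).symm.trans ((Equiv.refl (Fin 4)).prodCongr e)).trans
      (Equiv.prodSumDistrib (Fin 4) S.ι τ'), ?_⟩
  have h1 := ri_homotopic (Equiv.prodSumDistrib (Fin 4) S.ι τ') (lF_hom235 m H)
  rw [lF_ri235, lF_ds235, lF_ds235, ri_ri235, ri_ri235, ri_ri235, Equiv.symm_trans_self,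
    ri_refl235] at h1
  exact h1

theorem lF_ds_aux (m : ℕ) [Fact (m ∣ 4)] (F : C(T, (Matrix ι ι ℂ)ˣ)) (G : C(T, (Matrix κ κ ℂ)ˣ)) :
    lF m (ds F G) = ri (Equiv.prodSumDistrib (Fin 4) ι κ).symm (ds (lF m F) (lF m G)) := by
  apply ContinuousMap.ext
  intro p
  apply Units.ext
  show (pl m p.1) ⊗ₖ (Matrix.fromBlocks (F p.2).1 0 0 (G p.2).1) + (1 - pl m p.1) ⊗ₖ (1 : Matrix (ι ⊕ κ) (ι ⊕ κ) ℂ) =
    (Matrix.fromBlocks ((pl m p.1) ⊗ₖ (F p.2).1 + (1 - pl m p.1) ⊗ₖ (1 : Matrix ι ι ℂ)) 0 0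
      ((pl m p.1) ⊗ₖ (G p.2).1 + (1 - pl m p.1) ⊗ₖ (1 : Matrix κ κ ℂ))).submatrix
      (Equiv.prodSumDistrib (Fin 4) ι κ).symm.symm (Equiv.prodSumDistrib (Fin 4) ι κ).symm.symm
  ext ⟨i, x⟩ ⟨j, y⟩
  rcases x with x | x <;> rcases y with y | y <;>
    simp [Matrix.kroneckerMap_apply, Matrix.one_apply]

theorem lF_ds (m : ℕ) [Fact (m ∣ 4)] (F : C(T, (Matrix ι ι ℂ)ˣ)) (G : C(T, (Matrix κ κ ℂ)ˣ)) :
    K1.mk (lF m (ds F G)) = K1.mk (lF m F) + K1.mk (lF m G) := by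
  rw [lF_ds_aux, K1.mk_ri, K1.mk_ds]

/-- the external product on `K¹` -/
def Lm (m : ℕ) [Fact (m ∣ 4)] : K1 T →+ K1 (Ym m × T) :=
  AddMonoidHom.mk' (Quotient.map (fun R => (⟨Fin 4 × R.ι, lF m R.F⟩ : Rep (Ym m × T))) (fun _ _ h => lF_rel m h))
    (by
      intro a b
      obtain ⟨ι, _, _, F, rfl⟩ := K1.exists_rep a
      obtain ⟨κ, _, _, G, rfl⟩ := K1.exists_rep b
      exact lF_ds m F G)

theorem Lm_mk (m : ℕ) [Fact (m ∣ 4)] (F : C(T, (Matrix ι ι ℂ)ˣ)) : Lm m (K1.mk F) = K1.mk (lF m F) := rfl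

/-- Kronecker product of units -/
def lF_cj_kU (A B : M4ˣ) : (Matrix (Fin 4 × Fin 4) (Fin 4 × Fin 4) ℂ)ˣ where
  val := A.1 ⊗ₖ B.1
  inv := A⁻¹.1 ⊗ₖ B⁻¹.1
  val_inv := by rw [← Matrix.mul_kronecker_mul]; simp
  inv_val := by rw [← Matrix.mul_kronecker_mul]; simp

theorem lF_cj_kU_cont {X : Type} [TopologicalSpace X] {A B : X → M4ˣ} (hA : Continuous A)
    (hB : Continuous B) : Continuous fun x => lF_cj_kU (A x) (B x) := by
  rw [Units.continuous_iff]
  constructor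
  · refine continuous_matrix fun i j => ?_
    exact ((Units.continuous_val.comp hA).matrix_elem i.1 j.1).mul
      ((Units.continuous_val.comp hB).matrix_elem i.2 j.2)
  · refine continuous_matrix fun i j => ?_
    exact ((Units.continuous_val.comp (continuous_inv.comp hA)).matrix_elem i.1 j.1).mul
      ((Units.continuous_val.comp (continuous_inv.comp hB)).matrix_elem i.2 j.2)

theorem lF_cj_inv {m : ℕ} [Fact (m ∣ 4)] {y y' : Dk} (h : qY m y = qY m y') :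
    lF_cj_kU (zzU y) (zzU y)⁻¹ = lF_cj_kU (zzU y') (zzU y')⁻¹ := by
  obtain ⟨c, -, hc4, hz⟩ := zz_qY h
  have hcn : ‖c‖ = 1 := by
    have h1 : ‖c‖ ^ 4 = 1 := by rw [← norm_pow, hc4, norm_one]
    exact (pow_eq_one_iff_of_nonneg (norm_nonneg c) (by norm_num)).1 h1
  have hcc : c * (starRingEnd ℂ) c = 1 := by
    rw [Complex.mul_conj, Complex.normSq_eq_norm_sq, hcn]; norm_num
  apply Units.ext
  show (zz y) ⊗ₖ star (zz y) = (zz y') ⊗ₖ star (zz y')
  rw [hz, star_smul, Matrix.smul_kronecker, Matrix.kronecker_smul, smul_smul]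
  have h2 : c * star c = 1 := hcc
  rw [h2, one_smul]

/-- the reindexing -/
def lF_cj_e : Fin 4 × Fin 4 ≃ Fin 4 ⊕ (Fin 3 × Fin 4) where
  toFun p := Fin.cases (Sum.inl p.2) (fun i => Sum.inr (i, p.2)) p.1
  invFun := Sum.elim (fun j => (0, j)) (fun q => (q.1.succ, q.2))
  left_inv := by
    rintro ⟨i, j⟩
    refine Fin.cases ?_ (fun i => ?_) i
    · rfl
    · rfl
  right_inv := by
    rintro (j | ⟨i, j⟩)
    · rfl
    · rfl

theorem lF_cj_lU_cont {X : Type} [TopologicalSpace X] (p : M4) (hp : p * p = p)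
    {A : X → M4ˣ} (hA : Continuous A) : Continuous fun x => lU p hp (A x) := by
  rw [Units.continuous_iff]
  constructor
  · refine continuous_matrix fun i j => ?_
    exact (continuous_const.mul ((Units.continuous_val.comp hA).matrix_elem i.2 j.2)).add
      continuous_const
  · refine continuous_matrix fun i j => ?_
    exact (continuous_const.mul
      ((Units.continuous_val.comp (continuous_inv.comp hA)).matrix_elem i.2 j.2)).add
      continuous_const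

/-- for `4 × 4` matrices the external product is conjugation -/
theorem lF_cj (m : ℕ) [Fact (m ∣ 4)] (F : C(T, M4ˣ)) : K1.mk (lF m F) = K1.mk (cj m F) := by
  have hE : (Matrix.single 0 0 1 : M4) * Matrix.single 0 0 1 = Matrix.single 0 0 1 := by simp
  let G0 : C(Dk × T, (Matrix (Fin 4 × Fin 4) (Fin 4 × Fin 4) ℂ)ˣ) :=
    ⟨fun p => lF_cj_kU (zzU p.1) (zzU p.1)⁻¹,
      lF_cj_kU_cont (zzU_cont.comp continuous_fst) (continuous_inv.comp
        (zzU_cont.comp continuous_fst))⟩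
  let G : C(Ym m × T, (Matrix (Fin 4 × Fin 4) (Fin 4 × Fin 4) ℂ)ˣ) :=
    desc G0 (fun y y' t h => lF_cj_inv h)
  let H : C(Ym m × T, (Matrix (Fin 4 × Fin 4) (Fin 4 × Fin 4) ℂ)ˣ) :=
    ⟨fun p => lU (Matrix.single 0 0 1) hE (cj m F p), lF_cj_lU_cont _ _ (cj m F).continuous⟩
  have h1 : lF m F = G * H * G⁻¹ := by
    apply ContinuousMap.ext
    rintro ⟨x, t⟩
    obtain ⟨y, rfl⟩ := qY_surj m x
    have hG : G (qY m y, t) = lF_cj_kU (zzU y) (zzU y)⁻¹ := desc_apply _ _ _ _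
    have hH : H (qY m y, t) = lU (Matrix.single 0 0 1) hE (zzU y * F t * (zzU y)⁻¹) := by
      show lU (Matrix.single 0 0 1) hE (cj m F (qY m y, t)) = _
      rw [cj_apply]
    show lU (pl m (qY m y)) (pl_idem m (qY m y)) (F t) =
      G (qY m y, t) * H (qY m y, t) * (G (qY m y, t))⁻¹
    rw [hG, hH]
    apply Units.ext
    show (pl m (qY m y)) ⊗ₖ (F t).1 + (1 - pl m (qY m y)) ⊗ₖ (1 : M4) =
      ((zzU y).1 ⊗ₖ ((zzU y)⁻¹).1) *
        ((Matrix.single 0 0 1 : M4) ⊗ₖ (zzU y * F t * (zzU y)⁻¹).1 +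
          (1 - (Matrix.single 0 0 1 : M4)) ⊗ₖ (1 : M4)) *
        (((zzU y)⁻¹).1 ⊗ₖ ((zzU y)⁻¹)⁻¹.1)
    rw [mul_add, add_mul, ← Matrix.mul_kronecker_mul, ← Matrix.mul_kronecker_mul,
      ← Matrix.mul_kronecker_mul, ← Matrix.mul_kronecker_mul]
    have e1 : (zzU y).1 * (Matrix.single 0 0 1 : M4) * ((zzU y)⁻¹).1 = pl m (qY m y) :=
      (pl_apply m y).symm
    have e2 : ((zzU y)⁻¹).1 * (zzU y * F t * (zzU y)⁻¹).1 * ((zzU y)⁻¹)⁻¹.1 = (F t).1 := by
      rw [← Units.val_mul, ← Units.val_mul]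
      congr 1
      group
    have e3 : (zzU y).1 * (1 - (Matrix.single 0 0 1 : M4)) * ((zzU y)⁻¹).1 =
        1 - pl m (qY m y) := by
      rw [mul_sub, sub_mul, mul_one, e1, Units.mul_inv]
    have e4 : ((zzU y)⁻¹).1 * (1 : M4) * ((zzU y)⁻¹)⁻¹.1 = 1 := by
      rw [mul_one, Units.mul_inv]
    rw [e1, e2, e3, e4]
  have h2 : ri lF_cj_e H = ds (cj m F) (1 : C(Ym m × T, (Matrix (Fin 3 × Fin 4) (Fin 3 × Fin 4) ℂ)ˣ)) := by
    apply ContinuousMap.ext
    intro p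
    apply Units.ext
    show ((Matrix.single 0 0 1 : M4) ⊗ₖ (cj m F p).1 +
        (1 - (Matrix.single 0 0 1 : M4)) ⊗ₖ (1 : M4)).submatrix lF_cj_e.symm lF_cj_e.symm =
      Matrix.fromBlocks (cj m F p).1 0 0 (1 : Matrix (Fin 3 × Fin 4) (Fin 3 × Fin 4) ℂ)
    have es1 : ∀ j, lF_cj_e.symm (Sum.inl j) = (0, j) := fun j => rfl
    have es2 : ∀ q, lF_cj_e.symm (Sum.inr q) = (q.1.succ, q.2) := fun q => rfl
    ext a b
    rcases a with j | q <;> rcases b with j' | q'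
    · rw [Matrix.submatrix_apply, es1, es1, Matrix.fromBlocks_apply₁₁]
      simp [Matrix.kroneckerMap_apply]
    · rw [Matrix.submatrix_apply, es1, es2, Matrix.fromBlocks_apply₁₂]
      have h3 : (0 : Fin 4) ≠ q'.1.succ := (Fin.succ_ne_zero _).symm
      simp [Matrix.kroneckerMap_apply, Matrix.single_apply, Matrix.one_apply, h3]
    · rw [Matrix.submatrix_apply, es1, es2, Matrix.fromBlocks_apply₂₁]
      have h3 : q.1.succ ≠ (0 : Fin 4) := Fin.succ_ne_zero _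
      simp [Matrix.kroneckerMap_apply, Matrix.single_apply, Matrix.one_apply, h3, h3.symm]
    · rw [Matrix.submatrix_apply, es2, es2, Matrix.fromBlocks_apply₂₂]
      have h3 : (0 : Fin 4) ≠ q.1.succ := (Fin.succ_ne_zero _).symm
      simp only [Matrix.add_apply, Matrix.kroneckerMap_apply, Matrix.sub_apply,
        Matrix.single_apply, Matrix.one_apply, h3, false_and, if_false, zero_mul, zero_add,
        sub_zero, Fin.succ_inj, Prod.ext_iff]
      by_cases ha : q.1 = q'.1 <;> by_cases hb : q.2 = q'.2 <;> simp [ha, hb]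
  rw [h1, K1.mk_conj, ← K1.mk_ri lF_cj_e H, h2, K1.mk_ds, K1.mk_one, add_zero]

/-- associator -/
def asc (A B C : Type) [TopologicalSpace A] [TopologicalSpace B] [TopologicalSpace C] :
    C((A × B) × C, A × (B × C)) := ⟨fun p => (p.1.1, (p.1.2, p.2)), by fun_prop⟩

/-- projection forgetting the first factor of the base -/
def prW (A B C : Type) [TopologicalSpace A] [TopologicalSpace B] [TopologicalSpace C] :
    C((A × B) × C, B × C) := ⟨fun p => (p.1.2, p.2), by fun_prop⟩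

theorem lF_gam (m : ℕ) [Fact (m ∣ 4)] (e : C(W, Matrix ι ι ℂ)) (he : ∀ t, e t * e t = e t) :
    (lF m (gam e he)).comp (asc (Ym m) W Circle) = gam (ltw m e) (ltw_idem m e he) := by
  apply ContinuousMap.ext
  rintro ⟨⟨y, w⟩, z⟩
  apply Units.ext
  show pl m y ⊗ₖ (1 - e w + (z : ℂ) • e w) + (1 - pl m y) ⊗ₖ (1 : Matrix ι ι ℂ) =
    1 - pl m y ⊗ₖ e w + (z : ℂ) • (pl m y ⊗ₖ e w)
  rw [← Matrix.one_kronecker_one]
  ext ⟨a, b⟩ ⟨c, d⟩
  simp only [Matrix.add_apply, Matrix.sub_apply, Matrix.smul_apply, Matrix.kroneckerMap_apply,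
    smul_eq_mul]
  ring

/-- the zero block first -/
def tr1eqv (ι : Type) : ι ⊕ (Fin 3 × ι) ≃ Fin 4 × ι where
  toFun := Sum.elim (fun i => (0, i)) (fun p => (p.1.succ, p.2))
  invFun p := Fin.cases (Sum.inl p.2) (fun k => Sum.inr (k, p.2)) p.1
  left_inv := by
    rintro (i | ⟨k, i⟩)
    · rfl
    · rfl
  right_inv := by
    rintro ⟨k, i⟩
    refine Fin.cases ?_ (fun k => ?_) k
    · rfl
    · rfl

theorem tr1eqv_symm_zero (ι : Type) (i : ι) : (tr1eqv ι).symm (0, i) = Sum.inl i := rfl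

theorem tr1eqv_symm_succ (ι : Type) (k : Fin 3) (i : ι) :
    (tr1eqv ι).symm (k.succ, i) = Sum.inr (k, i) := rfl

theorem tr1_gam (e : C(W, Matrix ι ι ℂ)) (he : ∀ t, e t * e t = e t) :
    K1.mk (gam (tr1 e) (tr1_idem e he)) = K1.mk (gam e he) := by
  have key : gam (tr1 e) (tr1_idem e he) =
      ri (tr1eqv ι) (ds (gam e he) (1 : C(W × Circle, (Matrix (Fin 3 × ι) (Fin 3 × ι) ℂ)ˣ))) := by
    ext ⟨t, z⟩ ⟨a, i⟩ ⟨b, j⟩
    show ((1 : Matrix (Fin 4 × ι) (Fin 4 × ι) ℂ) - (Matrix.single 0 0 1 : M4) ⊗ₖ e t +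
        (z : ℂ) • ((Matrix.single 0 0 1 : M4) ⊗ₖ e t)) (a, i) (b, j) =
      Matrix.fromBlocks (1 - e t + (z : ℂ) • e t) 0 0 (1 : Matrix (Fin 3 × ι) (Fin 3 × ι) ℂ)
        ((tr1eqv ι).symm (a, i)) ((tr1eqv ι).symm (b, j))
    refine Fin.cases ?_ (fun a => ?_) a
    · refine Fin.cases ?_ (fun b => ?_) b
      · rw [tr1eqv_symm_zero, tr1eqv_symm_zero]
        simp [Matrix.one_apply]
      · rw [tr1eqv_symm_zero, tr1eqv_symm_succ]
        simp [Matrix.one_apply, (Fin.succ_ne_zero b).symm, Matrix.single]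
    · refine Fin.cases ?_ (fun b => ?_) b
      · rw [tr1eqv_symm_zero, tr1eqv_symm_succ]
        simp [Matrix.one_apply, Matrix.single, (Fin.succ_ne_zero a), (Fin.succ_ne_zero a).symm]
      · rw [tr1eqv_symm_succ, tr1eqv_symm_succ]
        simp [Matrix.one_apply, Matrix.single, (Fin.succ_ne_zero a), (Fin.succ_ne_zero a).symm]
  rw [key, K1.mk_ri, K1.mk_ds, K1.mk_one, add_zero]

theorem ltr_gam (m : ℕ) (e : C(W, Matrix ι ι ℂ)) (he : ∀ t, e t * e t = e t) :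
    K1.mk (gam (ltr m e) (ltr_idem m e he)) = K1.map (prW (Ym m) W Circle) (K1.mk (gam e he)) := by
  rw [← tr1_gam e he, K1.map_mk]; rfl

theorem gam_ds (e : C(T, Matrix ι ι ℂ)) (f : C(T, Matrix κ κ ℂ)) (he : ∀ t, e t * e t = e t)
    (hf : ∀ t, f t * f t = f t) :
    gam (dsM e f) (dsM_idem e f he hf) = ds (gam e he) (gam f hf) := by
  apply ContinuousMap.ext
  intro p
  apply Units.ext
  show (1 : Matrix (ι ⊕ κ) (ι ⊕ κ) ℂ) - Matrix.fromBlocks (e p.1) 0 0 (f p.1) +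
      ((p.2 : Circle) : ℂ) • Matrix.fromBlocks (e p.1) 0 0 (f p.1) =
    Matrix.fromBlocks (1 - e p.1 + ((p.2 : Circle) : ℂ) • e p.1) 0 0
      (1 - f p.1 + ((p.2 : Circle) : ℂ) • f p.1)
  ext i j
  rcases i with i | i <;> rcases j with j | j <;> simp [Matrix.one_apply]

/-- the commutator family -/
def cm (m : ℕ) [Fact (m ∣ 4)] (F : C(W × Circle, M4ˣ)) : C((Ym m × W) × Circle, M4ˣ) :=
  (cj m F).comp (asc (Ym m) W Circle) * (F.comp (prW (Ym m) W Circle))⁻¹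

theorem cm_apply (m : ℕ) [Fact (m ∣ 4)] (F : C(W × Circle, M4ˣ)) (y : Dk) (w : W) (z : Circle) :
    cm m F ((qY m y, w), z) = zzU y * F (w, z) * (zzU y)⁻¹ * (F (w, z))⁻¹ := by
  show cj m F (qY m y, (w, z)) * (F (w, z))⁻¹ = _
  rw [cj_apply]

/-- first idempotent of the step -/
def stE (m : ℕ) [Fact (m ∣ 4)] (e f : C(W, Matrix ι ι ℂ)) :
    C(Ym m × W, Matrix ((Fin 4 × ι) ⊕ (Fin 4 × ι)) ((Fin 4 × ι) ⊕ (Fin 4 × ι)) ℂ) :=
  dsM (ltw m e) (ltr m f)

/-- second idempotent of the step -/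
def stF (m : ℕ) [Fact (m ∣ 4)] (e f : C(W, Matrix ι ι ℂ)) :
    C(Ym m × W, Matrix ((Fin 4 × ι) ⊕ (Fin 4 × ι)) ((Fin 4 × ι) ⊕ (Fin 4 × ι)) ℂ) :=
  dsM (ltr m e) (ltw m f)

theorem stE_idem (m : ℕ) [Fact (m ∣ 4)] (e f : C(W, Matrix ι ι ℂ)) (he : ∀ t, e t * e t = e t)
    (hf : ∀ t, f t * f t = f t) (t : Ym m × W) : stE m e f t * stE m e f t = stE m e f t :=
  dsM_idem _ _ (ltw_idem m e he) (ltr_idem m f hf) t

theorem stF_idem (m : ℕ) [Fact (m ∣ 4)] (e f : C(W, Matrix ι ι ℂ)) (he : ∀ t, e t * e t = e t)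
    (hf : ∀ t, f t * f t = f t) (t : Ym m × W) : stF m e f t * stF m e f t = stF m e f t :=
  dsM_idem _ _ (ltr_idem m e he) (ltw_idem m f hf) t

/-- the class of the commutator family -/
theorem cm_class (m : ℕ) [Fact (m ∣ 4)] (F : C(W × Circle, M4ˣ)) (e f : C(W, Matrix ι ι ℂ))
    (he : ∀ t, e t * e t = e t) (hf : ∀ t, f t * f t = f t)
    (h : K1.mk F = K1.mk (gam e he) - K1.mk (gam f hf)) :
    K1.mk (cm m F) = K1.mk (gam (stE m e f) (stE_idem m e f he hf)) -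
      K1.mk (gam (stF m e f) (stF_idem m e f he hf)) := by
  have h1 : K1.mk (cm m F) = K1.map (asc (Ym m) W Circle) (K1.mk (cj m F)) -
      K1.map (prW (Ym m) W Circle) (K1.mk F) := by
    rw [cm, K1.mk_mul, K1.mk_inv, K1.map_mk, K1.map_mk, sub_eq_add_neg]
  rw [h1, ← lF_cj, ← Lm_mk, h]
  have h2 : K1.mk (gam (stE m e f) (stE_idem m e f he hf)) =
      K1.mk (gam (ltw m e) (ltw_idem m e he)) + K1.mk (gam (ltr m f) (ltr_idem m f hf)) := by
    rw [← K1.mk_ds, ← gam_ds]; rfl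
  have h3 : K1.mk (gam (stF m e f) (stF_idem m e f he hf)) =
      K1.mk (gam (ltr m e) (ltr_idem m e he)) + K1.mk (gam (ltw m f) (ltw_idem m f hf)) := by
    rw [← K1.mk_ds, ← gam_ds]; rfl
  rw [h2, h3, ltr_gam m e he, ltr_gam m f hf, ← lF_gam m e he, ← lF_gam m f hf, ← K1.map_mk, ← K1.map_mk, ← Lm_mk, ← Lm_mk]
  simp only [map_sub]
  abel

theorem K1.map_id (a : K1 T) : K1.map (ContinuousMap.id T) a = a := by
  obtain ⟨ι, _, _, F, rfl⟩ := K1.exists_rep a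
  rfl

/-- the reindexing used for Bott injectivity -/
def BIphi (ι τ r s : Type) : (ι ⊕ τ) ⊕ (r ⊕ s) ≃ ι ⊕ (r ⊕ (τ ⊕ s)) where
  toFun
    | Sum.inl (Sum.inl i) => Sum.inl i
    | Sum.inl (Sum.inr t) => Sum.inr (Sum.inr (Sum.inl t))
    | Sum.inr (Sum.inl a) => Sum.inr (Sum.inl a)
    | Sum.inr (Sum.inr b) => Sum.inr (Sum.inr (Sum.inr b))
  invFun
    | Sum.inl i => Sum.inl (Sum.inl i)
    | Sum.inr (Sum.inl a) => Sum.inr (Sum.inl a)
    | Sum.inr (Sum.inr (Sum.inl t)) => Sum.inl (Sum.inr t)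
    | Sum.inr (Sum.inr (Sum.inr b)) => Sum.inr (Sum.inr b)
  left_inv := by
    rintro ((i | t) | (a | b)) <;> rfl
  right_inv := by
    rintro (i | (a | (t | b))) <;> rfl

theorem BIblk {τ r s : Type} [Fintype τ] [DecidableEq τ] [Fintype r] [DecidableEq r] [Fintype s]
    [DecidableEq s] (e : Matrix ι ι ℂ) :
    blk r (τ ⊕ s) e = (blk r s (Matrix.fromBlocks e 0 0 (0 : Matrix τ τ ℂ))).submatrix
      (BIphi ι τ r s).symm (BIphi ι τ r s).symm := by
  ext i j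
  rcases i with i | (i | (i | i)) <;> rcases j with j | (j | (j | j)) <;>
    simp [blk, BIphi, Matrix.fromBlocks]

theorem BIgam {W : Type} [TopologicalSpace W] {τ : Type} [Fintype τ] [DecidableEq τ]
    (h0 : ∀ t : W, (0 : C(W, Matrix τ τ ℂ)) t * (0 : C(W, Matrix τ τ ℂ)) t =
      (0 : C(W, Matrix τ τ ℂ)) t) :
    gam (0 : C(W, Matrix τ τ ℂ)) h0 = 1 := by
  ext p i j
  show (1 - (0 : Matrix τ τ ℂ) + ((p.2 : Circle) : ℂ) • (0 : Matrix τ τ ℂ)) i j =
    (1 : Matrix τ τ ℂ) i j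
  simp

/-- Bott injectivity -/
theorem bott_inj [CompactSpace T] [T2Space T] (e f : C(T, Matrix ι ι ℂ)) (he : ∀ t, e t * e t = e t)
    (hf : ∀ t, f t * f t = f t) (h : K1.mk (gam e he) = K1.mk (gam f hf)) : StSim e f := by
  obtain ⟨τ, _, _, hτ⟩ := K1.mk_exact h
  have h0 : ∀ t : T, (0 : C(T, Matrix τ τ ℂ)) t * (0 : C(T, Matrix τ τ ℂ)) t =
      (0 : C(T, Matrix τ τ ℂ)) t := by
    intro t; simp
  rw [← BIgam h0, ← gam_ds e 0 he h0, ← gam_ds f 0 hf h0] at hτ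
  obtain ⟨r, s, _, _, _, _, v, hv⟩ := bott_inj0 _ _ _ _ hτ
  refine ⟨r, τ ⊕ s, inferInstance, inferInstance, inferInstance, inferInstance,
    ri (BIphi ι τ r s) v, fun t => ?_⟩
  rw [BIblk, BIblk]
  show (v t).1.submatrix (BIphi ι τ r s).symm (BIphi ι τ r s).symm * _ =
    _ * (v t).1.submatrix (BIphi ι τ r s).symm (BIphi ι τ r s).symm
  rw [Matrix.submatrix_mul_equiv, Matrix.submatrix_mul_equiv]
  congr 1
  exact hv t

/-- squaring on the circle factor -/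
def sqC (T : Type) [TopologicalSpace T] : C(T × Circle, T × Circle) := ⟨fun p => (p.1, p.2 * p.2), by fun_prop⟩

/-- restriction to `z = 1`, pulled back -/
def atOne (T : Type) [TopologicalSpace T] : C(T × Circle, T × Circle) := ⟨fun p => (p.1, 1), by fun_prop⟩

theorem circle_arccos (z : Circle) :
    Circle.exp (Real.arccos (z : ℂ).re) = z ∨ Circle.exp (Real.arccos (z : ℂ).re) = z⁻¹ := by
  have hn : (z : ℂ).re ^ 2 + (z : ℂ).im ^ 2 = 1 := by
    have h := Circle.norm_coe z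
    have h2 := Complex.sq_norm (z : ℂ)
    rw [h, Complex.normSq_apply] at h2
    linarith
  have h1 : -1 ≤ (z : ℂ).re := by nlinarith [sq_nonneg (z : ℂ).im]
  have h2 : (z : ℂ).re ≤ 1 := by nlinarith [sq_nonneg (z : ℂ).im]
  have hc := Real.cos_arccos h1 h2
  have hs : Real.sin (Real.arccos (z : ℂ).re) = |(z : ℂ).im| := by
    rw [Real.sin_arccos, ← Real.sqrt_sq_eq_abs]
    congr 1
    linarith
  have hre : ((Circle.exp (Real.arccos (z : ℂ).re) : Circle) : ℂ).re = (z : ℂ).re := by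
    rw [Circle.coe_exp, Complex.exp_ofReal_mul_I_re, hc]
  have him : ((Circle.exp (Real.arccos (z : ℂ).re) : Circle) : ℂ).im = |(z : ℂ).im| := by
    rw [Circle.coe_exp, Complex.exp_ofReal_mul_I_im, hs]
  rcases le_total 0 (z : ℂ).im with h | h
  · left
    apply Circle.ext
    apply Complex.ext
    · exact hre
    · rw [him, abs_of_nonneg h]
  · right
    apply Circle.ext
    apply Complex.ext
    · rw [hre, Circle.coe_inv_eq_conj, Complex.conj_re]
    · rw [him, abs_of_nonpos h, Circle.coe_inv_eq_conj, Complex.conj_im]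

/-- squaring is homotopic to the product, naturally -/
theorem sq_homotopy (F : C(T × Circle, (Matrix ι ι ℂ)ˣ)) :
    ∃ G : C((T × Circle) × I, (Matrix ι ι ℂ)ˣ),
      (∀ t z, G ((t, z), 0) = F (t, z * z)) ∧
      (∀ t z, G ((t, z), 1) = F (t, z) * (F (t, 1))⁻¹ * F (t, z)) ∧
      (∀ t, (∀ z, F (t, z) = F (t, 1)) → ∀ z s, G ((t, z), s) = F (t, 1)) := by
  have hF := F.continuous
  have hw : Continuous fun p : (T × Circle) × I =>
      Circle.exp ((1 - (p.2 : ℝ)) * Real.arccos ((p.1.2 : Circle) : ℂ).re) := by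
    apply (Circle.exp.continuous).comp
    have h1 : Continuous fun p : (T × Circle) × I => ((p.1.2 : Circle) : ℂ).re := by fun_prop
    exact (by fun_prop : Continuous fun p : (T × Circle) × I => (1 - (p.2 : ℝ))).mul
      (Real.continuous_arccos.comp h1)
  have hz : Continuous fun p : (T × Circle) × I => p.1.2 := by fun_prop
  have ht : Continuous fun p : (T × Circle) × I => p.1.1 := by fun_prop
  refine ⟨⟨fun p => F (p.1.1, p.1.2 * Circle.exp ((1 - (p.2 : ℝ)) * Real.arccos ((p.1.2 : Circle) : ℂ).re)) *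
    (F (p.1.1, 1))⁻¹ *
    F (p.1.1, p.1.2 * (Circle.exp ((1 - (p.2 : ℝ)) * Real.arccos ((p.1.2 : Circle) : ℂ).re))⁻¹), ?_⟩,
    ?_, ?_, ?_⟩
  · have e1 : Continuous fun p : (T × Circle) × I =>
        F (p.1.1, p.1.2 * Circle.exp ((1 - (p.2 : ℝ)) * Real.arccos ((p.1.2 : Circle) : ℂ).re)) :=
      hF.comp (ht.prodMk (hz.mul hw))
    have e2 : Continuous fun p : (T × Circle) × I => (F (p.1.1, 1))⁻¹ :=
      (hF.comp (ht.prodMk continuous_const)).inv
    have e3 : Continuous fun p : (T × Circle) × I =>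
        F (p.1.1, p.1.2 * (Circle.exp ((1 - (p.2 : ℝ)) * Real.arccos ((p.1.2 : Circle) : ℂ).re))⁻¹) :=
      hF.comp (ht.prodMk (hz.mul hw.inv))
    exact (e1.mul e2).mul e3
  · intro t z
    show F (t, z * Circle.exp ((1 - ((0 : I) : ℝ)) * Real.arccos (z : ℂ).re)) * (F (t, 1))⁻¹ *
      F (t, z * (Circle.exp ((1 - ((0 : I) : ℝ)) * Real.arccos (z : ℂ).re))⁻¹) = F (t, z * z)
    rw [Set.Icc.coe_zero, sub_zero, one_mul]
    rcases circle_arccos z with h | h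
    · rw [h, mul_inv_cancel]
      simp
    · rw [h, mul_inv_cancel, inv_inv]
      simp
  · intro t z
    show F (t, z * Circle.exp ((1 - ((1 : I) : ℝ)) * Real.arccos (z : ℂ).re)) * (F (t, 1))⁻¹ *
      F (t, z * (Circle.exp ((1 - ((1 : I) : ℝ)) * Real.arccos (z : ℂ).re))⁻¹) = _
    rw [Set.Icc.coe_one, sub_self, zero_mul, Circle.exp_zero, inv_one, mul_one]
  · intro t h z s
    show F (t, z * Circle.exp ((1 - (s : ℝ)) * Real.arccos (z : ℂ).re)) * (F (t, 1))⁻¹ *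
      F (t, z * (Circle.exp ((1 - (s : ℝ)) * Real.arccos (z : ℂ).re))⁻¹) = _
    rw [h, h (z * (Circle.exp ((1 - (s : ℝ)) * Real.arccos (z : ℂ).re))⁻¹)]
    simp

theorem sq_class (a : K1 (T × Circle)) :
    K1.map (sqC T) a = a + a - K1.map (atOne T) a := by
  obtain ⟨ι, _, _, F, rfl⟩ := K1.exists_rep a
  obtain ⟨G, h0, h1, _⟩ := sq_homotopy F
  have hH : Homotopic (F.comp (sqC T)) (F * (F.comp (atOne T))⁻¹ * F) := by
    refine ⟨{ toFun := fun q => G (q.2, q.1)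
              continuous_toFun := G.continuous.comp (continuous_snd.prodMk continuous_fst)
              map_zero_left := ?_
              map_one_left := ?_ }⟩
    · rintro ⟨t, z⟩
      exact h0 t z
    · rintro ⟨t, z⟩
      exact h1 t z
  rw [K1.map_mk, K1.map_mk, K1.mk_hom hH, K1.mk_mul, K1.mk_mul, K1.mk_inv]
  abel

/-- power map on the circle factor -/
def powC (m : ℕ) (T : Type) [TopologicalSpace T] : C(T × Circle, T × Circle) := ⟨fun p => (p.1, p.2 ^ m), by fun_prop⟩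

theorem pow_class (m : ℕ) [Fact (m ∣ 4)] (a : K1 (T × Circle)) :
    ∃ ν : K1 T, K1.map (powC m T) a = m • a + K1.map ContinuousMap.fst ν := by
  let one1 : C(T, T × Circle) := ⟨fun t => (t, 1), by fun_prop⟩
  have hfst : K1.map (ContinuousMap.fst : C(T × Circle, T)) (K1.map one1 a) = K1.map (atOne T) a := by
    rw [K1.map_comp]; rfl
  have h2 : powC 2 T = sqC T := by
    ext p
    · rfl
    · show ((p.2 ^ 2 : Circle) : ℂ) = ((p.2 * p.2 : Circle) : ℂ)
      rw [sq]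
  have h1 : powC 1 T = ContinuousMap.id (T × Circle) := by
    ext p
    · rfl
    · show ((p.2 ^ 1 : Circle) : ℂ) = ((p.2 : Circle) : ℂ)
      rw [pow_one]
  have h4 : powC 4 T = (sqC T).comp (sqC T) := by
    ext p
    · rfl
    · show ((p.2 ^ 4 : Circle) : ℂ) = (((p.2 * p.2) * (p.2 * p.2) : Circle) : ℂ)
      congr 1
      rw [← sq, ← sq, ← pow_mul]
  have hat : (sqC T).comp (atOne T) = atOne T := by
    ext p
    · rfl
    · show ((1 * 1 : Circle) : ℂ) = ((1 : Circle) : ℂ)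
      rw [mul_one]
  have hm : m ∣ 4 := Fact.out
  have hm' : m = 1 ∨ m = 2 ∨ m = 4 := by
    have hle : m ≤ 4 := Nat.le_of_dvd (by norm_num) hm
    interval_cases m
    · exact absurd hm (by decide)
    · exact Or.inl rfl
    · exact Or.inr (Or.inl rfl)
    · exact absurd hm (by decide)
    · exact Or.inr (Or.inr rfl)
  rcases hm' with rfl | rfl | rfl
  · refine ⟨0, ?_⟩
    rw [h1, K1.map_id, map_zero, one_nsmul, add_zero]
  · refine ⟨-(K1.map one1 a), ?_⟩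
    rw [h2, sq_class, map_neg, hfst, two_nsmul]
    abel
  · refine ⟨-((3 : ℕ) • K1.map one1 a), ?_⟩
    rw [h4, ← K1.map_comp, sq_class (K1.map (sqC T) a), K1.map_comp (sqC T) (atOne T), hat,
      sq_class, map_neg, map_nsmul, hfst]
    abel

theorem pow_surj_circle (m : ℕ) (hm : m ≠ 0) : Function.Surjective (fun z : Circle => z ^ m) := by
  intro z
  refine ⟨Circle.exp (Complex.arg z / m), ?_⟩
  show Circle.exp (Complex.arg z / m) ^ m = z
  have h1 : Circle.exp (Complex.arg z / m) ^ m = Circle.exp (m • (Complex.arg z / m)) := by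
    have key : ∀ (x : ℝ) (k : ℕ), Circle.exp x ^ k = Circle.exp (k • x) := by
      intro x k
      induction k with
      | zero => simp
      | succ k ih => rw [pow_succ, ih, succ_nsmul, Circle.exp_add]
    exact key _ _
  rw [h1]
  have h2 : (m • (Complex.arg z / m) : ℝ) = Complex.arg z := by
    rw [nsmul_eq_mul]
    have : (m : ℝ) ≠ 0 := by exact_mod_cast hm
    field_simp
  rw [h2, Circle.exp_arg]

theorem powmap_quot (m : ℕ) (hm : m ≠ 0) :
    Topology.IsQuotientMap (fun p : W × Circle => (p.1, p.2 ^ m)) := by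
  have hc : Continuous (fun z : Circle => z ^ m) := by fun_prop
  have hp : IsProperMap (fun z : Circle => z ^ m) := hc.isProperMap
  have hid : IsProperMap (id : W → W) := isProperMap_id
  have hpp : IsProperMap (Prod.map (id : W → W) (fun z : Circle => z ^ m)) := hid.prodMap hp
  have hs : Function.Surjective (Prod.map (id : W → W) (fun z : Circle => z ^ m)) :=
    Function.Surjective.prodMap Function.surjective_id (pow_surj_circle m hm)
  exact hpp.isClosedMap.isQuotientMap hpp.continuous hs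

/-- maps invariant under rotation by `m`-th roots of unity are functions of `z^m` -/
theorem pow_desc {X : Type} [TopologicalSpace X] (m : ℕ) (hm : m ≠ 0) (B : C(W × Circle, X))
    (h : ∀ w (z c : Circle), c ^ m = 1 → B (w, c * z) = B (w, z)) :
    ∃ B' : C(W × Circle, X), ∀ w z, B (w, z) = B' (w, z ^ m) := by
  have hq := powmap_quot (W := W) m hm
  have hfac : ∀ a b : W × Circle, (a.1, a.2 ^ m) = (b.1, b.2 ^ m) → B a = B b := by
    rintro ⟨w, z⟩ ⟨w', z'⟩ hab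
    simp only [Prod.mk.injEq] at hab
    obtain ⟨h1, h2⟩ := hab
    subst h1
    have h3 : (z * z'⁻¹) ^ m = 1 := by
      rw [mul_pow, inv_pow, h2, mul_inv_cancel]
    have h4 := h w z' (z * z'⁻¹) h3
    rw [inv_mul_cancel_right] at h4
    exact h4
  choose g hg using hq.surjective
  have hcont : Continuous (fun q : W × Circle => B (g q)) := by
    rw [hq.continuous_iff]
    have : (fun q : W × Circle => B (g q)) ∘ (fun p : W × Circle => (p.1, p.2 ^ m)) = B := by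
      funext p
      exact hfac _ _ (hg (p.1, p.2 ^ m))
    rw [this]
    exact B.continuous
  refine ⟨⟨fun q => B (g q), hcont⟩, fun w z => ?_⟩
  exact (hfac _ _ (hg (w, z ^ m))).symm

/-- the loop of `e`, placed in the first block -/
def gE (τ : Type) [Fintype τ] [DecidableEq τ] (e : C(W, Matrix ι ι ℂ)) (he : ∀ t, e t * e t = e t) :
    C(W × Circle, (Matrix (((Fin 4 × ι) ⊕ (Fin 4 × ι)) ⊕ τ) (((Fin 4 × ι) ⊕ (Fin 4 × ι)) ⊕ τ) ℂ)ˣ) :=
  ds (ds (gam (tr1 e) (tr1_idem e he)) 1) 1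

/-- the loop of `f`, placed in the second block -/
def gF (τ : Type) [Fintype τ] [DecidableEq τ] (f : C(W, Matrix ι ι ℂ)) (hf : ∀ t, f t * f t = f t) :
    C(W × Circle, (Matrix (((Fin 4 × ι) ⊕ (Fin 4 × ι)) ⊕ τ) (((Fin 4 × ι) ⊕ (Fin 4 × ι)) ⊕ τ) ℂ)ˣ) :=
  ds (ds 1 (gam (tr1 f) (tr1_idem f hf))) 1

/-- block diagonal -/
def bd3 {α β γ : Type} (a : Matrix α α ℂ) (b : Matrix β β ℂ) (d : Matrix γ γ ℂ) :
    Matrix ((α ⊕ β) ⊕ γ) ((α ⊕ β) ⊕ γ) ℂ :=
  Matrix.fromBlocks (Matrix.fromBlocks a 0 0 b) 0 0 d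

theorem bd3_mul {α β γ : Type} [Fintype α] [Fintype β] [Fintype γ] (a a' : Matrix α α ℂ)
    (b b' : Matrix β β ℂ) (d d' : Matrix γ γ ℂ) :
    bd3 a b d * bd3 a' b' d' = bd3 (a * a') (b * b') (d * d') := by
  simp [bd3, Matrix.fromBlocks_multiply]

theorem bd3_sub {α β γ : Type} [DecidableEq α] [DecidableEq β] [DecidableEq γ]
    (a : Matrix α α ℂ) (b : Matrix β β ℂ) (d : Matrix γ γ ℂ) :
    1 - bd3 a b d = bd3 (1 - a) (1 - b) (1 - d) := by
  unfold bd3
  conv_lhs => rw [← Matrix.fromBlocks_one, ← Matrix.fromBlocks_one]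
  rw [sub_eq_add_neg, Matrix.fromBlocks_neg, Matrix.fromBlocks_neg, Matrix.fromBlocks_add,
    Matrix.fromBlocks_add]
  simp [sub_eq_add_neg]

/-- cut down of a unit by a commuting idempotent -/
def clAU {R : Type} [Ring R] (p : R) (hp : p * p = p) (V : Rˣ) (hV : V.1 * p = p * V.1) : Rˣ where
  val := p * V.1 + (1 - p)
  inv := p * V⁻¹.1 + (1 - p)
  val_inv := by
    have h1 : p * (1 - p) = 0 := by rw [mul_sub, hp, mul_one, sub_self]
    have h2 : (1 - p) * p = 0 := by rw [sub_mul, hp, one_mul, sub_self]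
    have h3 : (1 - p) * (1 - p) = 1 - p := by rw [mul_sub, h2, mul_one, sub_zero]
    calc (p * V.1 + (1 - p)) * (p * V⁻¹.1 + (1 - p))
        = p * (V.1 * p) * V⁻¹.1 + (p * V.1) * (1 - p) + (1 - p) * p * V⁻¹.1 +
          (1 - p) * (1 - p) := by
          simp only [mul_add, add_mul, mul_assoc]; abel
      _ = p * (V.1 * p) * V⁻¹.1 + (V.1 * p) * (1 - p) + (1 - p) * p * V⁻¹.1 +
          (1 - p) * (1 - p) := by rw [hV]
      _ = 1 := by
          rw [mul_assoc (V.1) p (1 - p), h1, h2, h3, hV, ← mul_assoc, hp, mul_assoc, Units.mul_inv]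
          simp
  inv_val := by
    have h1 : p * (1 - p) = 0 := by rw [mul_sub, hp, mul_one, sub_self]
    have h2 : (1 - p) * p = 0 := by rw [sub_mul, hp, one_mul, sub_self]
    have h3 : (1 - p) * (1 - p) = 1 - p := by rw [mul_sub, h2, mul_one, sub_zero]
    have hV' : V⁻¹.1 * p = p * V⁻¹.1 := by
      have : V⁻¹.1 * (V.1 * p) * V⁻¹.1 = V⁻¹.1 * (p * V.1) * V⁻¹.1 := by rw [hV]
      rw [← mul_assoc, Units.inv_mul, one_mul, mul_assoc, mul_assoc, Units.mul_inv, mul_one] at this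
      exact this.symm
    calc (p * V⁻¹.1 + (1 - p)) * (p * V.1 + (1 - p))
        = p * (V⁻¹.1 * p) * V.1 + (p * V⁻¹.1) * (1 - p) + (1 - p) * p * V.1 +
          (1 - p) * (1 - p) := by
          simp only [mul_add, add_mul, mul_assoc]; abel
      _ = p * (V⁻¹.1 * p) * V.1 + (V⁻¹.1 * p) * (1 - p) + (1 - p) * p * V.1 +
          (1 - p) * (1 - p) := by rw [hV']
      _ = 1 := by
          rw [mul_assoc (V⁻¹.1) p (1 - p), h1, h2, h3, hV', ← mul_assoc, hp, mul_assoc,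
            Units.inv_mul]
          simp

theorem cl_ring {R : Type} [Ring R] (p V D1 D2 gE gF : R) (hV : V * p = p * V)
    (h1 : p * gE = p * D1) (h2 : (1 - p) * gE = 1 - p) (h3 : gF * p = D2 * p)
    (h4 : gF * (1 - p) = 1 - p) (h5 : p * D2 = D2 * p) :
    p * (D2 * V * D1) + (1 - p) = gF * (p * V + (1 - p)) * gE := by
  have e1 : gF * (p * V + (1 - p)) * gE = gF * p * V * gE + gF * (1 - p) * gE := by
    simp only [mul_add, add_mul, mul_assoc]
  rw [e1, h3, h4, h2]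
  congr 1
  calc p * (D2 * V * D1) = (p * D2) * V * D1 := by simp only [mul_assoc]
    _ = D2 * (p * V) * D1 := by rw [h5]; simp only [mul_assoc]
    _ = D2 * (V * p) * D1 := by rw [hV]
    _ = D2 * V * (p * D1) := by simp only [mul_assoc]
    _ = D2 * V * (p * gE) := by rw [h1]
    _ = D2 * (V * p) * gE := by simp only [mul_assoc]
    _ = D2 * p * V * gE := by rw [hV]; simp only [mul_assoc]

/-- `zz ⊗ 1` -/
def clZ (ι : Type) [Fintype ι] [DecidableEq ι] (y : Dk) :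
    (Matrix (Fin 4 × ι) (Fin 4 × ι) ℂ)ˣ where
  val := (zzU y).1 ⊗ₖ (1 : Matrix ι ι ℂ)
  inv := (zzU y)⁻¹.1 ⊗ₖ (1 : Matrix ι ι ℂ)
  val_inv := by rw [← Matrix.mul_kronecker_mul, Units.mul_inv, mul_one, Matrix.one_kronecker_one]
  inv_val := by rw [← Matrix.mul_kronecker_mul, Units.inv_mul, mul_one, Matrix.one_kronecker_one]

theorem clZ_cont (ι : Type) [Fintype ι] [DecidableEq ι] : Continuous (clZ ι) := by
  rw [Units.continuous_iff]
  constructor
  · refine continuous_matrix fun i j => ?_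
    exact ((Units.continuous_val.comp zzU_cont).matrix_elem i.1 j.1).mul continuous_const
  · refine continuous_matrix fun i j => ?_
    exact ((Units.continuous_val.comp (continuous_inv.comp zzU_cont)).matrix_elem i.1 j.1).mul
      continuous_const

theorem clZ_tr1 (m : ℕ) [Fact (m ∣ 4)] (e : C(W, Matrix ι ι ℂ)) (y : Dk) (w : W) :
    (clZ ι y).1 * tr1 e w * (clZ ι y)⁻¹.1 = ltw m e (qY m y, w) := by
  show ((zzU y).1 ⊗ₖ (1 : Matrix ι ι ℂ)) * ((Matrix.single 0 0 1 : M4) ⊗ₖ e w) *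
    ((zzU y)⁻¹.1 ⊗ₖ (1 : Matrix ι ι ℂ)) = pl m (qY m y) ⊗ₖ e w
  rw [← Matrix.mul_kronecker_mul, ← Matrix.mul_kronecker_mul, one_mul, mul_one, pl_apply]
  rfl

/-- conjugators -/
def clZ1 (ι τ : Type) [Fintype ι] [DecidableEq ι] [Fintype τ] [DecidableEq τ] (y : Dk) :
    (Matrix (((Fin 4 × ι) ⊕ (Fin 4 × ι)) ⊕ τ) (((Fin 4 × ι) ⊕ (Fin 4 × ι)) ⊕ τ) ℂ)ˣ :=
  dsU (dsU (clZ ι y) 1) 1

def clZ2 (ι τ : Type) [Fintype ι] [DecidableEq ι] [Fintype τ] [DecidableEq τ] (y : Dk) :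
    (Matrix (((Fin 4 × ι) ⊕ (Fin 4 × ι)) ⊕ τ) (((Fin 4 × ι) ⊕ (Fin 4 × ι)) ⊕ τ) ℂ)ˣ :=
  dsU (dsU 1 (clZ ι y)) 1

theorem clZ1_cont (ι τ : Type) [Fintype ι] [DecidableEq ι] [Fintype τ] [DecidableEq τ] :
    Continuous (clZ1 ι τ) :=
  dsU_cont.comp ((dsU_cont.comp ((clZ_cont ι).prodMk continuous_const)).prodMk continuous_const)

theorem clZ2_cont (ι τ : Type) [Fintype ι] [DecidableEq ι] [Fintype τ] [DecidableEq τ] :
    Continuous (clZ2 ι τ) :=
  dsU_cont.comp ((dsU_cont.comp (continuous_const.prodMk (clZ_cont ι))).prodMk continuous_const)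

/-- the constant idempotent -/
def clP (r s : Type) [DecidableEq r] (e f : C(W, Matrix ι ι ℂ)) (w : W) :
    Matrix (((Fin 4 × ι) ⊕ (Fin 4 × ι)) ⊕ (r ⊕ s)) (((Fin 4 × ι) ⊕ (Fin 4 × ι)) ⊕ (r ⊕ s)) ℂ :=
  bd3 (tr1 e w) (tr1 f w) (Matrix.fromBlocks 1 0 0 0)

theorem clP_idem (r s : Type) [Fintype r] [DecidableEq r] [Fintype s] [DecidableEq s]
    (e f : C(W, Matrix ι ι ℂ)) (he : ∀ t, e t * e t = e t) (hf : ∀ t, f t * f t = f t) (w : W) :
    clP r s e f w * clP r s e f w = clP r s e f w := by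
  unfold clP
  rw [bd3_mul, tr1_idem e he, tr1_idem f hf]
  simp [Matrix.fromBlocks_multiply]

theorem clP_cont (r s : Type) [Fintype r] [DecidableEq r] [Fintype s] [DecidableEq s]
    (e f : C(W, Matrix ι ι ℂ)) : Continuous (clP r s e f) :=
  Continuous.matrix_fromBlocks (Continuous.matrix_fromBlocks (tr1 e).continuous continuous_const
    continuous_const (tr1 f).continuous) continuous_const continuous_const continuous_const

theorem cl_stE (m : ℕ) [Fact (m ∣ 4)] (r s : Type) [Fintype r] [DecidableEq r] [Fintype s]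
    [DecidableEq s] (e f : C(W, Matrix ι ι ℂ)) (y : Dk) (w : W) :
    blk r s (stE m e f (qY m y, w)) =
      (clZ1 ι (r ⊕ s) y).1 * clP r s e f w * (clZ1 ι (r ⊕ s) y)⁻¹.1 := by
  show bd3 (ltw m e (qY m y, w)) (tr1 f w) (Matrix.fromBlocks 1 0 0 0) =
    bd3 (clZ ι y).1 1 1 * bd3 (tr1 e w) (tr1 f w) (Matrix.fromBlocks 1 0 0 0) *
      bd3 (clZ ι y)⁻¹.1 1 1
  rw [bd3_mul, bd3_mul, clZ_tr1 m, one_mul, mul_one, one_mul, mul_one]

theorem cl_stF (m : ℕ) [Fact (m ∣ 4)] (r s : Type) [Fintype r] [DecidableEq r] [Fintype s]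
    [DecidableEq s] (e f : C(W, Matrix ι ι ℂ)) (y : Dk) (w : W) :
    blk r s (stF m e f (qY m y, w)) =
      (clZ2 ι (r ⊕ s) y).1 * clP r s e f w * (clZ2 ι (r ⊕ s) y)⁻¹.1 := by
  show bd3 (tr1 e w) (ltw m f (qY m y, w)) (Matrix.fromBlocks 1 0 0 0) =
    bd3 1 (clZ ι y).1 1 * bd3 (tr1 e w) (tr1 f w) (Matrix.fromBlocks 1 0 0 0) *
      bd3 1 (clZ ι y)⁻¹.1 1
  rw [bd3_mul, bd3_mul, clZ_tr1 m, one_mul, mul_one, one_mul, mul_one]

theorem clZ_rot (ι : Type) [Fintype ι] [DecidableEq ι] (y y' : Dk) (c : Circle)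
    (hy : ‖(y : ℂ)‖ = 1) (hc : (c : ℂ) ^ 4 = 1) (h : (y' : ℂ) = c * y) :
    (clZ ι y').1 = (clZ ι y).1 * ((c : ℂ) • (1 : Matrix (Fin 4 × ι) (Fin 4 × ι) ℂ)) ∧
    (clZ ι y')⁻¹.1 = ((c⁻¹ : Circle) : ℂ) • (1 : Matrix (Fin 4 × ι) (Fin 4 × ι) ℂ) *
      (clZ ι y)⁻¹.1 := by
  have hz : zz y' = (c : ℂ) • zz y := by rw [h]; exact zz_rot _ _ hy hc
  constructor
  · show zz y' ⊗ₖ (1 : Matrix ι ι ℂ) = (zz y ⊗ₖ (1 : Matrix ι ι ℂ)) * _
    rw [hz, Matrix.smul_kronecker, Matrix.mul_smul, mul_one]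
  · show star (zz y') ⊗ₖ (1 : Matrix ι ι ℂ) = _ * (star (zz y) ⊗ₖ (1 : Matrix ι ι ℂ))
    rw [hz, star_smul, Matrix.smul_kronecker, Matrix.smul_mul, one_mul]
    congr 1
    rw [Circle.coe_inv_eq_conj]
    rfl

/-- clutching, part 1: the invertible matrix over the disk -/
theorem clutch1 (m : ℕ) [Fact (m ∣ 4)] (e f : C(W, Matrix ι ι ℂ))
    (he : ∀ t, e t * e t = e t) (hf : ∀ t, f t * f t = f t) (h : StSim (stE m e f) (stF m e f)) :
    ∃ (τ : Type) (_ : Fintype τ) (_ : DecidableEq τ)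
      (A : C(Dk × W, (Matrix (((Fin 4 × ι) ⊕ (Fin 4 × ι)) ⊕ τ) (((Fin 4 × ι) ⊕ (Fin 4 × ι)) ⊕ τ) ℂ)ˣ)),
      ∀ (y y' : Dk) (c : Circle) (w : W), ‖(y : ℂ)‖ = 1 → c ^ m = 1 → (y' : ℂ) = c * y →
        A (y', w) = (gF τ f hf (w, c))⁻¹ * A (y, w) * gE τ e he (w, c) := by
  classical
  obtain ⟨r, s, fr, dr, fs, dS, v, hv⟩ := h
  let V : Dk × W → (Matrix (((Fin 4 × ι) ⊕ (Fin 4 × ι)) ⊕ (r ⊕ s))
      (((Fin 4 × ι) ⊕ (Fin 4 × ι)) ⊕ (r ⊕ s)) ℂ)ˣ := fun p =>
    (clZ2 ι (r ⊕ s) p.1)⁻¹ * v (qY m p.1, p.2) * clZ1 ι (r ⊕ s) p.1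
  have hVc : Continuous V := by
    have h1 := (clZ1_cont ι (r ⊕ s)).comp (continuous_fst (X := Dk) (Y := W))
    have h2 := (clZ2_cont ι (r ⊕ s)).comp (continuous_fst (X := Dk) (Y := W))
    have h3 : Continuous (fun p : Dk × W => v (qY m p.1, p.2)) := by fun_prop
    exact (h2.inv.mul h3).mul h1
  have hVp : ∀ p : Dk × W, (V p).1 * clP r s e f p.2 = clP r s e f p.2 * (V p).1 := by
    rintro ⟨y, w⟩
    have h1 := hv (qY m y, w)
    rw [cl_stE, cl_stF] at h1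
    show ((clZ2 ι (r ⊕ s) y)⁻¹.1 * (v (qY m y, w)).1 * (clZ1 ι (r ⊕ s) y).1) * clP r s e f w =
      clP r s e f w * ((clZ2 ι (r ⊕ s) y)⁻¹.1 * (v (qY m y, w)).1 * (clZ1 ι (r ⊕ s) y).1)
    calc ((clZ2 ι (r ⊕ s) y)⁻¹.1 * (v (qY m y, w)).1 * (clZ1 ι (r ⊕ s) y).1) * clP r s e f w
        = (clZ2 ι (r ⊕ s) y)⁻¹.1 * ((v (qY m y, w)).1 * ((clZ1 ι (r ⊕ s) y).1 *
          clP r s e f w * (clZ1 ι (r ⊕ s) y)⁻¹.1)) * (clZ1 ι (r ⊕ s) y).1 := by
          simp only [Matrix.mul_assoc, Units.inv_mul, Matrix.mul_one]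
      _ = (clZ2 ι (r ⊕ s) y)⁻¹.1 * ((clZ2 ι (r ⊕ s) y).1 * clP r s e f w *
          (clZ2 ι (r ⊕ s) y)⁻¹.1 * (v (qY m y, w)).1) * (clZ1 ι (r ⊕ s) y).1 := by rw [h1]
      _ = ((clZ2 ι (r ⊕ s) y)⁻¹.1 * (clZ2 ι (r ⊕ s) y).1) * clP r s e f w *
          ((clZ2 ι (r ⊕ s) y)⁻¹.1 * (v (qY m y, w)).1 * (clZ1 ι (r ⊕ s) y).1) := by
          simp only [Matrix.mul_assoc]
      _ = _ := by rw [Units.inv_mul, one_mul]
  refine ⟨r ⊕ s, inferInstance, inferInstance, ⟨fun p => clAU (clP r s e f p.2)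
    (clP_idem r s e f he hf p.2) (V p) (hVp p), ?_⟩, ?_⟩
  · have hpc : Continuous (fun p : Dk × W => clP r s e f p.2) :=
      (clP_cont r s e f).comp continuous_snd
    rw [Units.continuous_iff]
    constructor
    · exact (hpc.mul (Units.continuous_val.comp hVc)).add (continuous_const.sub hpc)
    · exact (hpc.mul (Units.continuous_val.comp hVc.inv)).add (continuous_const.sub hpc)
  · intro y y' c w hy hc hyc
    have hm : m ∣ 4 := Fact.out
    have hm0 : m ≠ 0 := by rintro rfl; simp at hm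
    have hcm : (c : ℂ) ^ m = 1 := by
      rw [← Circle.coe_pow, hc, Circle.coe_one]
    have hc4 : (c : ℂ) ^ 4 = 1 := by
      obtain ⟨k, hk⟩ := hm
      rw [hk, pow_mul, hcm, one_pow]
    have hq : qY m y' = qY m y := ((qY_eq_iff m hm0 y y').2 (Or.inr ⟨hy, c, hcm, hyc⟩)).symm
    obtain ⟨r1, r2⟩ := clZ_rot ι y y' c hy hc4 hyc
    apply Units.ext
    let D1 : Matrix (((Fin 4 × ι) ⊕ (Fin 4 × ι)) ⊕ (r ⊕ s))
      (((Fin 4 × ι) ⊕ (Fin 4 × ι)) ⊕ (r ⊕ s)) ℂ := bd3 ((c : ℂ) • 1) 1 1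
    let D2 : Matrix (((Fin 4 × ι) ⊕ (Fin 4 × ι)) ⊕ (r ⊕ s))
      (((Fin 4 × ι) ⊕ (Fin 4 × ι)) ⊕ (r ⊕ s)) ℂ := bd3 1 (((c⁻¹ : Circle) : ℂ) • 1) 1
    have hV' : (V (y', w)).1 = D2 * (V (y, w)).1 * D1 := by
      show (clZ2 ι (r ⊕ s) y')⁻¹.1 * (v (qY m y', w)).1 * (clZ1 ι (r ⊕ s) y').1 =
        D2 * ((clZ2 ι (r ⊕ s) y)⁻¹.1 * (v (qY m y, w)).1 * (clZ1 ι (r ⊕ s) y).1) * D1
      have e1 : (clZ1 ι (r ⊕ s) y').1 = (clZ1 ι (r ⊕ s) y).1 * D1 := by
        show bd3 (clZ ι y').1 1 1 = bd3 (clZ ι y).1 1 1 * bd3 _ 1 1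
        rw [bd3_mul, r1, one_mul, one_mul]
      have e2 : (clZ2 ι (r ⊕ s) y')⁻¹.1 = D2 * (clZ2 ι (r ⊕ s) y)⁻¹.1 := by
        show bd3 1 (clZ ι y')⁻¹.1 1 = bd3 1 _ 1 * bd3 1 (clZ ι y)⁻¹.1 1
        rw [bd3_mul, r2, one_mul, one_mul]
      rw [e1, e2, hq]
      simp only [Matrix.mul_assoc]
    show clP r s e f w * (V (y', w)).1 + (1 - clP r s e f w) =
      (gF (r ⊕ s) f hf (w, c))⁻¹.1 * (clP r s e f w * (V (y, w)).1 + (1 - clP r s e f w)) *
        (gE (r ⊕ s) e he (w, c)).1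
    rw [hV']
    have gEv : (gE (r ⊕ s) e he (w, c)).1 =
        bd3 (1 - tr1 e w + (c : ℂ) • tr1 e w) 1 1 := rfl
    have gFv : (gF (r ⊕ s) f hf (w, c))⁻¹.1 =
        bd3 1 (1 - tr1 f w + ((c⁻¹ : Circle) : ℂ) • tr1 f w) 1 := rfl
    have te := tr1_idem e he w
    have tf := tr1_idem f hf w
    apply cl_ring _ _ _ _ _ _ (hVp (y, w))
    · rw [gEv]
      show bd3 _ _ _ * bd3 _ _ _ = bd3 _ _ _ * bd3 _ _ _
      rw [bd3_mul, bd3_mul]
      congr 1
      rw [mul_add, mul_sub, mul_one, te, sub_self, zero_add, Matrix.mul_smul, te,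
        Matrix.mul_smul, mul_one]
    · rw [gEv]
      show (1 - bd3 _ _ _) * bd3 _ _ _ = (1 - bd3 _ _ _)
      rw [bd3_sub, bd3_mul, mul_one, mul_one]
      congr 1
      rw [mul_add, mul_sub, mul_one, Matrix.mul_smul, sub_mul, te, one_mul, sub_self, smul_zero,
        sub_zero, add_zero]
    · rw [gFv]
      show bd3 _ _ _ * bd3 _ _ _ = bd3 _ _ _ * bd3 _ _ _
      rw [bd3_mul, bd3_mul]
      congr 1
      rw [add_mul, sub_mul, one_mul, tf, sub_self, zero_add, Matrix.smul_mul, tf,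
        Matrix.smul_mul, one_mul]
    · rw [gFv]
      show bd3 _ _ _ * (1 - bd3 _ _ _) = (1 - bd3 _ _ _)
      rw [bd3_sub, bd3_mul, one_mul, one_mul]
      congr 1
      rw [add_mul, sub_mul, one_mul, Matrix.smul_mul, mul_sub, tf, mul_one, sub_self, smul_zero,
        sub_zero, add_zero]
    · show bd3 _ _ _ * bd3 _ _ _ = bd3 _ _ _ * bd3 _ _ _
      rw [bd3_mul, bd3_mul, Matrix.mul_smul, Matrix.smul_mul]
      simp only [mul_one, one_mul]

theorem gamU_mul' (e : Matrix ι ι ℂ) (he : e * e = e) (c z : Circle) :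
    gamU e he (c * z) = gamU e he c * gamU e he z := by
  apply Units.ext
  show 1 - e + ((c * z : Circle) : ℂ) • e = (1 - e + (c : ℂ) • e) * (1 - e + (z : ℂ) • e)
  simp only [mul_add, add_mul, sub_mul, mul_sub, one_mul, mul_one, Matrix.smul_mul,
      Matrix.mul_smul, he, smul_smul, Circle.coe_mul]
  simp [mul_comm]

theorem dsU_mul' (A A' : (Matrix ι ι ℂ)ˣ) (B B' : (Matrix κ κ ℂ)ˣ) :
    dsU (A * A') (B * B') = dsU A B * dsU A' B' := by
  apply Units.ext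
  show Matrix.fromBlocks (A.1 * A'.1) 0 0 (B.1 * B'.1) =
    Matrix.fromBlocks A.1 0 0 B.1 * Matrix.fromBlocks A'.1 0 0 B'.1
  simp [Matrix.fromBlocks_multiply]

theorem gE_mul' (τ : Type) [Fintype τ] [DecidableEq τ] (e : C(W, Matrix ι ι ℂ))
    (he : ∀ t, e t * e t = e t) (w : W) (c z : Circle) :
    gE τ e he (w, c * z) = gE τ e he (w, c) * gE τ e he (w, z) := by
  show dsU (dsU (gamU (tr1 e w) (tr1_idem e he w) (c * z)) 1) 1 =
    dsU (dsU (gamU (tr1 e w) (tr1_idem e he w) c) 1) 1 *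
      dsU (dsU (gamU (tr1 e w) (tr1_idem e he w) z) 1) 1
  rw [← dsU_mul', ← dsU_mul', gamU_mul', one_mul, one_mul]

theorem gF_mul' (τ : Type) [Fintype τ] [DecidableEq τ] (f : C(W, Matrix ι ι ℂ))
    (hf : ∀ t, f t * f t = f t) (w : W) (c z : Circle) :
    gF τ f hf (w, c * z) = gF τ f hf (w, c) * gF τ f hf (w, z) := by
  show dsU (dsU 1 (gamU (tr1 f w) (tr1_idem f hf w) (c * z))) 1 =
    dsU (dsU 1 (gamU (tr1 f w) (tr1_idem f hf w) c)) 1 *
      dsU (dsU 1 (gamU (tr1 f w) (tr1_idem f hf w) z)) 1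
  rw [← dsU_mul', ← dsU_mul', gamU_mul', one_mul, one_mul]

/-- the inclusion of the circle in the disk, scaled -/
def cirD (s : I) (z : Circle) : Dk := ⟨((s : ℝ) : ℂ) * (z : ℂ), by
  rw [mem_closedBall_zero_iff, norm_mul, Circle.norm_coe, mul_one, Complex.norm_real,
    Real.norm_eq_abs, abs_of_nonneg s.2.1]
  exact s.2.2⟩

theorem cirD_cont : Continuous (fun p : I × Circle => cirD p.1 p.2) := by
  unfold cirD
  apply Continuous.subtype_mk
  have h1 : Continuous (fun p : I × Circle => ((p.1 : ℝ) : ℂ)) :=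
    Complex.continuous_ofReal.comp (continuous_subtype_val.comp continuous_fst)
  have h2 : Continuous (fun p : I × Circle => ((p.2 : Circle) : ℂ)) :=
    (by fun_prop : Continuous (fun z : Circle => (z : ℂ))).comp continuous_snd
  exact h1.mul h2

/-- clutching, part 2 -/
theorem clutch2 (m : ℕ) [Fact (m ∣ 4)] (e f : C(W, Matrix ι ι ℂ))
    (he : ∀ t, e t * e t = e t) (hf : ∀ t, f t * f t = f t) (τ : Type) [Fintype τ] [DecidableEq τ]
    (A : C(Dk × W, (Matrix (((Fin 4 × ι) ⊕ (Fin 4 × ι)) ⊕ τ) (((Fin 4 × ι) ⊕ (Fin 4 × ι)) ⊕ τ) ℂ)ˣ))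
    (hA : ∀ (y y' : Dk) (c : Circle) (w : W), ‖(y : ℂ)‖ = 1 → c ^ m = 1 → (y' : ℂ) = c * y →
        A (y', w) = (gF τ f hf (w, c))⁻¹ * A (y, w) * gE τ e he (w, c)) :
    ∃ (μ : K1 (W × Circle)) (ν : K1 W),
      K1.mk (gam e he) - K1.mk (gam f hf) = m • μ + K1.map (ContinuousMap.fst) ν := by
  have hm : m ∣ 4 := Fact.out
  have hm0 : m ≠ 0 := by rintro rfl; simp at hm
  -- the restriction of `A` to the circles
  let R : C((W × Circle) × I, (Matrix (((Fin 4 × ι) ⊕ (Fin 4 × ι)) ⊕ τ)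
      (((Fin 4 × ι) ⊕ (Fin 4 × ι)) ⊕ τ) ℂ)ˣ) :=
    A.comp ⟨fun p => (cirD p.2 p.1.2, p.1.1), by
      exact (cirD_cont.comp (continuous_snd.prodMk (continuous_snd.comp continuous_fst))).prodMk
        (continuous_fst.comp continuous_fst)⟩
  let A1 : C(W × Circle, (Matrix (((Fin 4 × ι) ⊕ (Fin 4 × ι)) ⊕ τ)
      (((Fin 4 × ι) ⊕ (Fin 4 × ι)) ⊕ τ) ℂ)ˣ) :=
    R.comp ⟨fun p => (p, 1), by fun_prop⟩
  let A0 : C(W, (Matrix (((Fin 4 × ι) ⊕ (Fin 4 × ι)) ⊕ τ)
      (((Fin 4 × ι) ⊕ (Fin 4 × ι)) ⊕ τ) ℂ)ˣ) :=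
    A.comp ⟨fun w => (cirD 0 1, w), by fun_prop⟩
  have hA10 : K1.mk A1 = K1.map ContinuousMap.fst (K1.mk A0) := by
    rw [K1.map_mk]
    symm
    refine K1.mk_hom ⟨⟨R.comp ⟨fun p => (p.2, p.1), by fun_prop⟩, ?_, ?_⟩⟩
    · rintro ⟨w, z⟩
      show A (cirD 0 z, w) = A (cirD 0 1, w)
      have : cirD 0 z = cirD 0 1 := by
        apply Subtype.ext
        show (((0 : I) : ℝ) : ℂ) * (z : ℂ) = (((0 : I) : ℝ) : ℂ) * ((1 : Circle) : ℂ)
        simp
      rw [this]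
    · rintro ⟨w, z⟩
      rfl
  have hA1 : ∀ w z, A1 (w, z) = A (cirD 1 z, w) := fun w z => rfl
  let B : C(W × Circle, (Matrix (((Fin 4 × ι) ⊕ (Fin 4 × ι)) ⊕ τ)
      (((Fin 4 × ι) ⊕ (Fin 4 × ι)) ⊕ τ) ℂ)ˣ) := gF τ f hf * A1 * (gE τ e he)⁻¹
  have hB : ∀ w z, B (w, z) = gF τ f hf (w, z) * A (cirD 1 z, w) * (gE τ e he (w, z))⁻¹ :=
    fun w z => rfl
  have hinv : ∀ w (z c : Circle), c ^ m = 1 → B (w, c * z) = B (w, z) := by
    intro w z c hc
    rw [hB, hB]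
    have h1 : A (cirD 1 (c * z), w) =
        (gF τ f hf (w, c))⁻¹ * A (cirD 1 z, w) * gE τ e he (w, c) := by
      apply hA
      · show ‖(((1 : I) : ℝ) : ℂ) * (z : ℂ)‖ = 1
        rw [norm_mul, Circle.norm_coe]
        simp
      · exact hc
      · show (((1 : I) : ℝ) : ℂ) * ((c * z : Circle) : ℂ) = (c : ℂ) * ((((1 : I) : ℝ) : ℂ) * (z : ℂ))
        simp
    rw [h1, mul_comm c z, gF_mul', gE_mul', mul_inv_rev]
    simp only [mul_assoc, mul_inv_cancel_left]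
  obtain ⟨B', hB'⟩ := pow_desc m hm0 B hinv
  have hBB : K1.mk B = K1.map (powC m W) (K1.mk B') := by
    rw [K1.map_mk]
    congr 1
    ext1 p
    exact hB' p.1 p.2
  obtain ⟨ν, hν⟩ := pow_class m (K1.mk B')
  have hmB : K1.mk B = K1.mk (gF τ f hf) + K1.mk A1 - K1.mk (gE τ e he) := by
    show K1.mk (gF τ f hf * A1 * (gE τ e he)⁻¹) = _
    rw [K1.mk_mul, K1.mk_mul, K1.mk_inv, sub_eq_add_neg]
  have hE : K1.mk (gE τ e he) = K1.mk (gam e he) := by
    rw [gE, K1.mk_ds, K1.mk_ds, K1.mk_one, K1.mk_one, add_zero, add_zero, tr1_gam]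
  have hF : K1.mk (gF τ f hf) = K1.mk (gam f hf) := by
    rw [gF, K1.mk_ds, K1.mk_ds, K1.mk_one, K1.mk_one, add_zero, zero_add, tr1_gam]
  refine ⟨-K1.mk B', K1.mk A0 - ν, ?_⟩
  rw [map_sub, ← hA10, ← hE, ← hF]
  have h2 : K1.map ContinuousMap.fst ν = K1.mk B - m • K1.mk B' := by
    rw [hBB, hν]; abel
  rw [h2, hmB, smul_neg]
  abel

/-- clutching -/
theorem clutch (m : ℕ) [Fact (m ∣ 4)] (e f : C(W, Matrix ι ι ℂ))
    (he : ∀ t, e t * e t = e t) (hf : ∀ t, f t * f t = f t) (h : StSim (stE m e f) (stF m e f)) :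
    ∃ (μ : K1 (W × Circle)) (ν : K1 W),
      K1.mk (gam e he) - K1.mk (gam f hf) = m • μ + K1.map (ContinuousMap.fst) ν := by
  obtain ⟨τ, _, _, A, hA⟩ := clutch1 m e f he hf h
  exact clutch2 m e f he hf τ A hA

/-- consequence of a trivial commutator family -/
theorem step_down (m : ℕ) [Fact (m ∣ 4)] [CompactSpace W] [T2Space W] (F : C(W × Circle, M4ˣ))
    (e f : C(W, Matrix ι ι ℂ)) (he : ∀ t, e t * e t = e t) (hf : ∀ t, f t * f t = f t)
    (h : K1.mk F = K1.mk (gam e he) - K1.mk (gam f hf)) (h0 : K1.mk (cm m F) = 0) :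
    ∃ (μ : K1 (W × Circle)) (ν : K1 W), K1.mk F = m • μ + K1.map (ContinuousMap.fst) ν := by
  rw [cm_class m F e f he hf h, sub_eq_zero] at h0
  rw [h]
  exact clutch m e f he hf (bott_inj _ _ _ _ h0)

theorem sr_one (y : ℂ) (hy : ‖y‖ = 1) : sr y = 0 := by
  unfold sr
  rw [hy]
  simp

theorem bd_ex (m : ℕ) (hm : m ≠ 0) (z : Circle) : ∃ y : Dk, qm m y = ((z : ℂ), 0) := by
  obtain ⟨y, hy⟩ := IsAlgClosed.exists_pow_nat_eq (z : ℂ) (Nat.pos_of_ne_zero hm)
  have hn : ‖y‖ ^ m = 1 := by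
    rw [← norm_pow, hy]
    exact Circle.norm_coe z
  have hn1 : ‖y‖ = 1 := (pow_eq_one_iff_of_nonneg (norm_nonneg _) hm).1 hn
  refine ⟨⟨y, ?_⟩, ?_⟩
  · rw [mem_closedBall_zero_iff]
    exact hn1.le
  · unfold qm
    simp only
    rw [hy, sr_one y hn1, zero_mul]

/-- boundary circle of the Moore space -/
def bd (m : ℕ) (hm : m ≠ 0) : C(Circle, Ym m) where
  toFun z := ⟨((z : ℂ), 0), bd_ex m hm z⟩
  continuous_toFun := by
    refine Continuous.subtype_mk ?_ _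
    fun_prop

theorem sr_one_b (y : ℂ) (hy : ‖y‖ = 1) : sr y = 0 := by
  unfold sr
  rw [hy]
  simp

theorem qY_bd (m : ℕ) (hm : m ≠ 0) (y : Dk) (z : Circle) (h : (y : ℂ) = z) : qY m y = bd m hm (z ^ m) := by
  have hn1 : ‖(y : ℂ)‖ = 1 := by
    rw [h]
    exact Circle.norm_coe z
  apply Subtype.ext
  change qm m (y : ℂ) = (((z ^ m : Circle) : ℂ), 0)
  unfold qm
  rw [sr_one_b _ hn1, zero_mul, h]
  simp

/-- boundary inclusion times identity -/
def bdC (m : ℕ) (hm : m ≠ 0) (T : Type) [TopologicalSpace T] : C(Circle × T, Ym m × T) :=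
  (bd m hm).prodMap (ContinuousMap.id T)

/-- retraction of the plane to the unit disk -/
def rtD (y : ℂ) : Dk := ⟨(((max 1 ‖y‖)⁻¹ : ℝ) : ℂ) * y, by
  have h0 : (0:ℝ) < max 1 ‖y‖ := lt_of_lt_of_le one_pos (le_max_left _ _)
  rw [mem_closedBall_zero_iff, norm_mul, Complex.norm_real, Real.norm_eq_abs,
    abs_of_pos (inv_pos.2 h0), inv_mul_le_iff₀ h0, mul_one]
  exact le_max_right _ _⟩

theorem rtD_cont : Continuous rtD := by
  refine Continuous.subtype_mk ?_ _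
  refine (Complex.continuous_ofReal.comp ?_).mul continuous_id
  refine (continuous_const.max continuous_norm).inv₀ ?_
  intro y; exact (lt_of_lt_of_le one_pos (le_max_left _ _)).ne'

theorem rtD_of_le (y : ℂ) (h : ‖y‖ ≤ 1) : (rtD y : ℂ) = y := by
  simp [rtD, max_eq_left h]

/-- direction of a nonzero complex number -/
def dirC1 (y : ℂ) (h : y ≠ 0) : Circle := ⟨y / ‖y‖, by
  show y / ‖y‖ ∈ Metric.sphere (0:ℂ) 1
  rw [mem_sphere_zero_iff_norm, norm_div, Complex.norm_real, norm_norm]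
  exact div_self (norm_ne_zero_iff.2 h)⟩

open Classical in
/-- direction of a complex number -/
def dirC (y : ℂ) : Circle := if h : y = 0 then 1 else dirC1 y h

theorem dirC_coe (y : ℂ) (h : y ≠ 0) : (dirC y : ℂ) = y / ‖y‖ := by
  rw [dirC, dif_neg h]
  rfl

theorem dirC_cont : ContinuousOn dirC {y | y ≠ 0} := by
  rw [continuousOn_iff_continuous_domRestrict]
  refine continuous_induced_rng.2 ?_
  refine Continuous.congr (f := fun y : {y : ℂ | y ≠ 0} => (y : ℂ) / ‖(y:ℂ)‖) ?_ (fun y => (dirC_coe y.1 y.2).symm)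
  refine continuous_subtype_val.div (Complex.continuous_ofReal.comp (continuous_norm.comp continuous_subtype_val)) ?_
  intro y h0
  exact y.2 (norm_eq_zero.1 (by exact_mod_cast h0))

/-- the pushed homotopy on the disk -/
def pushPhi (m : ℕ) (hm : m ≠ 0) (F : C(Ym m × T, (Matrix ι ι ℂ)ˣ))
    (k : Homotopy (F.comp (bdC m hm T)) 1) : C(Dk × (T × I), (Matrix ι ι ℂ)ˣ) where
  toFun p := if (1 + (p.2.2 : ℝ)) * ‖(p.1 : ℂ)‖ ≤ 1 then F (qY m (rtD ((1 + ((p.2.2 : ℝ) : ℂ)) * (p.1 : ℂ))), p.2.1)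
    else k (Set.projIcc (0:ℝ) 1 zero_le_one ((1 + (p.2.2 : ℝ)) * ‖(p.1 : ℂ)‖ - 1), ((dirC (p.1 : ℂ)) ^ m, p.2.1))
  continuous_toFun := by
    refine continuous_if_le (by fun_prop) continuous_const ?_ ?_ ?_
    · refine Continuous.continuousOn ?_
      refine F.continuous.comp (Continuous.prodMk ((qY m).continuous.comp (rtD_cont.comp ?_)) (by fun_prop))
      fun_prop
    · refine k.continuous.comp_continuousOn ?_
      refine ContinuousOn.prodMk ?_ (ContinuousOn.prodMk ?_ (by fun_prop))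
      · refine Continuous.continuousOn ?_
        exact continuous_projIcc.comp (by fun_prop)
      · refine ContinuousOn.pow ?_ m
        refine dirC_cont.comp (by fun_prop) ?_
        intro p hp h0
        simp only [Set.mem_ofPred_eq] at hp
        rw [show ((p.1 : ℂ)) = 0 from h0] at hp
        simp at hp
        linarith
    · rintro ⟨y, t, s⟩ h
      simp only at h ⊢
      have hs : (0:ℝ) < 1 + s := by have := s.2.1; linarith
      have hy0 : (y : ℂ) ≠ 0 := by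
        intro h0; rw [h0] at h; simp at h
      have hyn : ‖(y:ℂ)‖ ≠ 0 := norm_ne_zero_iff.2 hy0
      have hn : ‖(1 + ((s : ℝ) : ℂ)) * (y:ℂ)‖ = 1 := by
        have h3 : ‖(1 + ((s : ℝ) : ℂ))‖ = 1 + (s:ℝ) := by
          rw [show (1 + ((s : ℝ) : ℂ)) = (((1 + (s:ℝ)) : ℝ) : ℂ) by push_cast; rfl, Complex.norm_real,
            Real.norm_eq_abs, abs_of_pos hs]
        rw [norm_mul, h3]; exact h
      have h1 : ((rtD ((1 + ((s : ℝ) : ℂ)) * (y:ℂ)) : Dk) : ℂ) = (dirC (y:ℂ) : ℂ) := by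
        rw [rtD_of_le _ hn.le, dirC_coe _ hy0, eq_div_iff (by exact_mod_cast hyn)]
        have : ((1 + (s:ℝ)) * ‖(y:ℂ)‖ : ℂ) = 1 := by exact_mod_cast h
        calc (1 + ((s : ℝ) : ℂ)) * (y:ℂ) * ‖(y:ℂ)‖ = ((1 + (s:ℝ)) * ‖(y:ℂ)‖ : ℂ) * y := by ring
          _ = y := by rw [this, one_mul]
      rw [qY_bd m hm _ _ h1]
      have h2 : Set.projIcc (0:ℝ) 1 zero_le_one ((1 + (s : ℝ)) * ‖(y : ℂ)‖ - 1) = 0 := by
        rw [h, sub_self]; exact Set.projIcc_left (zero_le_one (α := ℝ))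
      rw [h2, k.apply_zero]
      rfl

theorem pushPhi_fib (m : ℕ) (hm : m ≠ 0) (F : C(Ym m × T, (Matrix ι ι ℂ)ˣ))
    (k : Homotopy (F.comp (bdC m hm T)) 1) (y y' : Dk) (q : T × I) (h : qY m y = qY m y') :
    pushPhi m hm F k (y, q) = pushPhi m hm F k (y', q) := by
  obtain ⟨t, s⟩ := q
  rcases (qY_eq_iff m hm y y').1 h with rfl | ⟨hy, c, hc, hy'⟩
  · rfl
  have hcn : ‖c‖ = 1 := Complex.norm_eq_one_of_pow_eq_one hc hm
  have hy'n : ‖(y' : ℂ)‖ = 1 := by rw [hy', norm_mul, hcn, hy, one_mul]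
  have hy0 : (y : ℂ) ≠ 0 := by intro h0; rw [h0] at hy; simp at hy
  have hy'0 : (y' : ℂ) ≠ 0 := by intro h0; rw [h0] at hy'n; simp at hy'n
  have hd : dirC (y : ℂ) ^ m = dirC (y' : ℂ) ^ m := by
    apply Circle.ext
    rw [Circle.coe_pow, Circle.coe_pow, dirC_coe _ hy0, dirC_coe _ hy'0, hy, hy'n, hy']
    simp [mul_pow, hc]
  simp only [pushPhi, ContinuousMap.coe_mk, hy, hy'n, mul_one, hd]
  by_cases hs : 1 + (s:ℝ) ≤ 1
  · have hs0 : (s:ℝ) = 0 := le_antisymm (by linarith) s.2.1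
    rw [if_pos hs, if_pos hs]
    have e1 : rtD ((1 + ((s : ℝ) : ℂ)) * (y:ℂ)) = y := by
      apply Subtype.ext
      rw [rtD_of_le _ (by simp [hs0, hy])]; simp [hs0]
    have e2 : rtD ((1 + ((s : ℝ) : ℂ)) * (y':ℂ)) = y' := by
      apply Subtype.ext
      rw [rtD_of_le _ (by simp [hs0, hy'n])]; simp [hs0]
    rw [e1, e2, h]
  · rw [if_neg hs, if_neg hs]

/-- extension of null homotopies from the boundary circle -/
theorem push (m : ℕ) (hm : m ≠ 0) (F : C(Ym m × T, (Matrix ι ι ℂ)ˣ))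
    (h : Homotopic (F.comp (bdC m hm T)) 1) :
    ∃ F' : C(Ym m × T, (Matrix ι ι ℂ)ˣ), Homotopic F F' ∧ ∀ z t, F' (bd m hm z, t) = 1 := by
  obtain ⟨k⟩ := h
  set Φ : C(Ym m × (T × I), (Matrix ι ι ℂ)ˣ) :=
    desc (pushPhi m hm F k) (pushPhi_fib m hm F k) with hΦ
  refine ⟨Φ.comp ⟨fun p => (p.1, (p.2, 1)), by fun_prop⟩, ⟨⟨⟨fun p => Φ (p.2.1, (p.2.2, p.1)), by fun_prop⟩, ?_, ?_⟩⟩, ?_⟩
  · rintro ⟨x, t⟩
    obtain ⟨y, rfl⟩ := qY_surj m x
    show Φ (qY m y, (t, 0)) = F (qY m y, t)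
    rw [hΦ, desc_apply]
    have hy : ‖(y:ℂ)‖ ≤ 1 := Dk_le y
    have e1 : rtD ((1 + (((0 : I) : ℝ) : ℂ)) * (y:ℂ)) = y := by
      apply Subtype.ext
      rw [rtD_of_le _ (by simpa using hy)]; simp
    simp only [pushPhi, ContinuousMap.coe_mk]
    rw [if_pos (by simpa using hy), e1]
  · rintro ⟨x, t⟩
    rfl
  · intro z t
    obtain ⟨y, hy⟩ := bd_ex m hm z
    have e : bd m hm z = qY m y := Subtype.ext hy.symm
    show Φ (bd m hm z, (t, 1)) = 1
    rw [e, hΦ, desc_apply]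
    have hyz : (y : ℂ) ^ m = z := congrArg Prod.fst hy
    have hyn : ‖(y:ℂ)‖ = 1 := by
      have h1 : ‖(y:ℂ)‖ ^ m = 1 := by rw [← norm_pow, hyz, Circle.norm_coe]
      exact (pow_eq_one_iff_of_nonneg (norm_nonneg _) hm).1 h1
    simp only [pushPhi, ContinuousMap.coe_mk, hyn]
    rw [if_neg (by norm_num)]
    have h2 : Set.projIcc (0:ℝ) 1 zero_le_one ((1 + ((1 : I) : ℝ)) * 1 - 1) = 1 := by
      have : (1 + ((1 : I) : ℝ)) * 1 - 1 = 1 := by norm_num
      rw [this]; exact Set.projIcc_right (zero_le_one (α := ℝ))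
    rw [h2, k.apply_one]
    rfl

/-- polar coordinates -/
def polD (p : I × Circle) : Dk := ⟨(((p.1 : ℝ)) : ℂ) * (p.2 : ℂ), by
  rw [mem_closedBall_zero_iff, norm_mul, Circle.norm_coe, mul_one, Complex.norm_real,
    Real.norm_of_nonneg p.1.2.1]
  exact p.1.2.2⟩

theorem polD_val (p : I × Circle) : (polD p : ℂ) = (((p.1 : ℝ)) : ℂ) * (p.2 : ℂ) := rfl

theorem polD_norm (p : I × Circle) : ‖(polD p : ℂ)‖ = (p.1 : ℝ) := by
  rw [polD_val, norm_mul, Circle.norm_coe, mul_one, Complex.norm_real,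
    Real.norm_of_nonneg p.1.2.1]

theorem polD_cont : Continuous polD := by
  refine Continuous.subtype_mk ?_ _
  fun_prop

theorem polD_surj : Function.Surjective polD := by
  intro y
  by_cases hy : (y : ℂ) = 0
  · refine ⟨(0, 1), Subtype.ext ?_⟩
    rw [polD_val, hy]; simp
  · have hn : ‖(y : ℂ)‖ ≠ 0 := norm_ne_zero_iff.2 hy
    refine ⟨(⟨‖(y : ℂ)‖, norm_nonneg _, Dk_le y⟩,
      ⟨(y : ℂ) / ‖(y : ℂ)‖, mem_sphere_zero_iff_norm.2 (by
        rw [norm_div, Complex.norm_real, norm_norm, div_self hn])⟩), Subtype.ext ?_⟩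
    rw [polD_val]
    show ((‖(y : ℂ)‖ : ℝ) : ℂ) * ((y : ℂ) / ((‖(y : ℂ)‖ : ℝ) : ℂ)) = (y : ℂ)
    have : ((‖(y : ℂ)‖ : ℝ) : ℂ) ≠ 0 := by exact_mod_cast hn
    field_simp

theorem polD_quot (S : Type) [TopologicalSpace S] : IsQuotientMap (Prod.map polD (id : S → S)) := by
  have h1 : IsProperMap polD := polD_cont.isProperMap
  have h2 : IsProperMap (Prod.map polD (id : S → S)) := h1.prodMap (isProperMap_id)
  exact h2.isClosedMap.isQuotientMap h2.continuous (polD_surj.prodMap Function.surjective_id)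

theorem polD_eq {p q : I × Circle} (h : polD p = polD q) :
    p.1 = q.1 ∧ ((p.1 : ℝ) = 0 ∨ p.2 = q.2) := by
  have h1 : (p.1 : ℝ) = (q.1 : ℝ) := by rw [← polD_norm p, ← polD_norm q, h]
  refine ⟨Subtype.ext h1, ?_⟩
  by_cases h0 : (p.1 : ℝ) = 0
  · exact Or.inl h0
  · right
    have h2 : (((p.1 : ℝ)) : ℂ) * (p.2 : ℂ) = (((q.1 : ℝ)) : ℂ) * (q.2 : ℂ) := by
      rw [← polD_val, ← polD_val, h]
    rw [← h1] at h2
    have h3 : (((p.1 : ℝ)) : ℂ) ≠ 0 := by exact_mod_cast h0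
    exact Subtype.ext (mul_left_cancel₀ h3 h2)

theorem polar_desc {S X : Type} [TopologicalSpace S] [TopologicalSpace X]
    (Φ : C((I × Circle) × S, X))
    (h : ∀ (z z' : Circle) (x : S), Φ ((0, z), x) = Φ ((0, z'), x)) :
    ∃ Φ' : C(Dk × S, X), ∀ p x, Φ' (polD p, x) = Φ (p, x) := by
  have hq : IsQuotientMap (⟨Prod.map polD (id : S → S), polD_cont.prodMap continuous_id⟩ :
      C((I × Circle) × S, Dk × S)) := polD_quot S
  have hc : Function.FactorsThrough Φ (⟨Prod.map polD (id : S → S), polD_cont.prodMap continuous_id⟩ :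
      C((I × Circle) × S, Dk × S)) := by
    rintro ⟨p, x⟩ ⟨q, x'⟩ h'
    simp only [ContinuousMap.coe_mk, Prod.map_apply, id, Prod.mk.injEq] at h'
    obtain ⟨h1, rfl⟩ := h'
    obtain ⟨h2, h3⟩ := polD_eq h1
    obtain ⟨r, z⟩ := p
    obtain ⟨r', z'⟩ := q
    simp only at h2 h3
    subst h2
    rcases h3 with h3 | h3
    · have : r = 0 := Subtype.ext h3
      subst this
      exact h z z' x
    · rw [h3]
  refine ⟨hq.lift Φ hc, fun p x => ?_⟩
  exact DFunLike.congr_fun (hq.lift_comp Φ hc) (p, x)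

theorem norm_one_polD {y : Dk} (hy : ‖(y : ℂ)‖ = 1) : ∃ z : Circle, y = polD (1, z) ∧ (y : ℂ) = z := by
  refine ⟨⟨(y : ℂ), mem_sphere_zero_iff_norm.2 hy⟩, Subtype.ext ?_, rfl⟩
  rw [polD_val]; simp

/-- maps on `Y₂` trivial on the boundary have order 2 -/
theorem two_null (F : C(Ym 2 × T, (Matrix ι ι ℂ)ˣ))
    (h : ∀ z t, F (bd 2 (by norm_num) z, t) = 1) : K1.mk F + K1.mk F = 0 := by
  have h20 : (2 : ℕ) ≠ 0 := by norm_num
  -- the pulled back map
  set H : C(Dk × T, (Matrix ι ι ℂ)ˣ) := F.comp ((qY 2).prodMap (ContinuousMap.id T)) with hH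
  have Hap : ∀ y t, H (y, t) = F (qY 2 y, t) := fun y t => rfl
  have H1 : ∀ (y : Dk) t, ‖(y : ℂ)‖ = 1 → H (y, t) = 1 := by
    intro y t hy
    obtain ⟨z, _, hz⟩ := norm_one_polD hy
    rw [Hap, qY_bd 2 h20 y z hz]
    exact h _ _
  -- polar form
  let P : C((I × T) × Circle, (Matrix ι ι ℂ)ˣ) :=
    ⟨fun q => H (polD (q.1.1, q.2), q.1.2), by
      have := polD_cont
      have := H.continuous
      fun_prop⟩
  obtain ⟨G, G0, G1, G2⟩ := sq_homotopy P
  have Pap : ∀ r t z, P ((r, t), z) = H (polD (r, z), t) := fun _ _ _ => rfl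
  have pol0 : ∀ z z' : Circle, polD (0, z) = polD (0, z') := by
    intro z z'; apply Subtype.ext; rw [polD_val, polD_val]; simp
  have pol1 : ∀ z : Circle, ‖(polD (1, z) : ℂ)‖ = 1 := by
    intro z; rw [polD_norm]; rfl
  let Φ : C((I × Circle) × (T × I), (Matrix ι ι ℂ)ˣ) :=
    ⟨fun q => G (((q.1.1, q.2.1), q.1.2), q.2.2), by
      have := G.continuous
      fun_prop⟩
  have Φap : ∀ r z t s, Φ ((r, z), (t, s)) = G (((r, t), z), s) := fun _ _ _ _ => rfl
  obtain ⟨Φ', hΦ'⟩ := polar_desc Φ (by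
    rintro z z' ⟨t, s⟩
    rw [Φap, Φap]
    have hc : ∀ z, P ((0, t), z) = P ((0, t), 1) := by
      intro z; rw [Pap, Pap, pol0 z 1]
    rw [G2 (0, t) hc, G2 (0, t) hc])
  have hΦ1 : ∀ (y : Dk) x, ‖(y : ℂ)‖ = 1 → Φ' (y, x) = 1 := by
    rintro y ⟨t, s⟩ hy
    obtain ⟨z, hz, _⟩ := norm_one_polD hy
    rw [hz, hΦ', Φap]
    have hc : ∀ z, P ((1, t), z) = P ((1, t), 1) := by
      intro z; rw [Pap, Pap, H1 _ _ (pol1 z), H1 _ _ (pol1 1)]
    rw [G2 (1, t) hc, Pap, H1 _ _ (pol1 1)]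
  have hd : ∀ (Ψ : C(Dk × (T × I), (Matrix ι ι ℂ)ˣ)),
      (∀ (y y' : Dk) x, ‖(y : ℂ)‖ = 1 → (y' : ℂ) = (-1) * y → Ψ (y, x) = Ψ (y', x)) →
      ∀ y y' x, qY 2 y = qY 2 y' → Ψ (y, x) = Ψ (y', x) := by
    intro Ψ hΨ y y' x hyy
    rcases (qY_eq_iff 2 h20 y y').1 hyy with h' | ⟨h1, c, hc, h2⟩
    · rw [h']
    · have h3 : (c - 1) * (c + 1) = 0 := by linear_combination hc
      rcases mul_eq_zero.1 h3 with h4 | h4
      · have h5 : c = 1 := by linear_combination h4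
        rw [h5, one_mul] at h2
        rw [show y' = y from Subtype.ext h2]
      · have h5 : c = -1 := by linear_combination h4
        rw [h5] at h2
        exact hΨ y y' x h1 h2
  -- evaluation at a time
  let at' : C(Ym 2 × (T × I), (Matrix ι ι ℂ)ˣ) → I → C(Ym 2 × T, (Matrix ι ι ℂ)ˣ) := fun K s =>
    ⟨fun p => K (p.1, (p.2, s)), by
      have := K.continuous
      fun_prop⟩
  have hat : ∀ K, K1.mk (at' K 0) = K1.mk (at' K 1) := by
    intro K
    refine K1.mk_hom ⟨{ toFun := fun q => K (q.2.1, (q.2.2, q.1)), continuous_toFun := ?_,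
                        map_zero_left := ?_, map_one_left := ?_ }⟩
    · have := K.continuous
      fun_prop
    · intro x; rfl
    · intro x; rfl
  have hΦd := hd Φ' (fun y y' x h1 h2 => by
    rw [hΦ1 y x h1, hΦ1 y' x (by rw [h2]; simpa using h1)])
  have e1 := hat (desc Φ' hΦd)
  -- the radial map
  let mx : Dk × I → Dk := fun q => ⟨((max ‖(q.1 : ℂ)‖ (q.2 : ℝ) : ℝ) : ℂ), by
    rw [mem_closedBall_zero_iff, Complex.norm_real, Real.norm_of_nonneg
      (le_max_of_le_left (norm_nonneg _))]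
    exact max_le (Dk_le _) q.2.2.2⟩
  have mx_cont : Continuous mx := by
    refine Continuous.subtype_mk ?_ _
    fun_prop
  let Ψ2 : C(Dk × (T × I), (Matrix ι ι ℂ)ˣ) :=
    ⟨fun q => H (mx (q.1, q.2.2), q.2.1), by
      have := H.continuous
      fun_prop⟩
  have hΨ2d := hd Ψ2 (fun y y' x h1 h2 => by
    show H (mx (y, x.2), x.1) = H (mx (y', x.2), x.1)
    have : mx (y, x.2) = mx (y', x.2) := by
      apply Subtype.ext
      show ((max ‖(y : ℂ)‖ (x.2 : ℝ) : ℝ) : ℂ) = ((max ‖(y' : ℂ)‖ (x.2 : ℝ) : ℝ) : ℂ)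
      rw [h2]; simp
    rw [this])
  have e2 := hat (desc Ψ2 hΨ2d)
  have e2' : at' (desc Ψ2 hΨ2d) 1 = 1 := by
    ext1 ⟨x, t⟩
    obtain ⟨y, rfl⟩ := qY_surj 2 x
    show desc Ψ2 hΨ2d (qY 2 y, (t, 1)) = 1
    rw [desc_apply]
    show H (mx (y, 1), t) = 1
    apply H1
    show ‖((max ‖(y : ℂ)‖ ((1 : I) : ℝ) : ℝ) : ℂ)‖ = 1
    have : max ‖(y : ℂ)‖ ((1 : I) : ℝ) = 1 := by
      rw [max_eq_right (by simpa using Dk_le y)]; rfl
    rw [this]; simp
  rw [e2', K1.mk_one] at e2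
  -- the contraction
  let cv : Dk × I → Dk := fun q => ⟨((1 - (q.2 : ℝ) : ℝ) : ℂ) * (q.1 : ℂ) + ((q.2 : ℝ) : ℂ), by
    rw [mem_closedBall_zero_iff]
    refine (norm_add_le _ _).trans ?_
    rw [norm_mul, Complex.norm_real, Complex.norm_real, Real.norm_of_nonneg (sub_nonneg.2 q.2.2.2),
      Real.norm_of_nonneg q.2.2.1]
    have := mul_le_mul_of_nonneg_left (Dk_le q.1) (sub_nonneg.2 q.2.2.2)
    linarith⟩
  have cv_cont : Continuous cv := by
    refine Continuous.subtype_mk ?_ _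
    fun_prop
  let Φ0 : C((I × Circle) × (T × I), (Matrix ι ι ℂ)ˣ) :=
    ⟨fun q => H (cv (polD (q.1.1, q.1.2 * q.1.2), q.2.2), q.2.1), by
      have := H.continuous
      have := polD_cont
      fun_prop⟩
  have Φ0ap : ∀ r z t s, Φ0 ((r, z), (t, s)) = H (cv (polD (r, z * z), s), t) := fun _ _ _ _ => rfl
  obtain ⟨Φ0', hΦ0'⟩ := polar_desc Φ0 (by
    rintro z z' ⟨t, s⟩
    rw [Φ0ap, Φ0ap, pol0 (z * z) (z' * z')])
  have hΦ0d := hd Φ0' (fun y y' x h1 h2 => by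
    obtain ⟨t, s⟩ := x
    obtain ⟨z, hz, _⟩ := norm_one_polD h1
    have hy' : ‖(y' : ℂ)‖ = 1 := by rw [h2]; simpa using h1
    obtain ⟨z', hz', _⟩ := norm_one_polD hy'
    rw [hz, hz', hΦ0', hΦ0', Φ0ap, Φ0ap]
    have h3 : z * z = z' * z' := by
      apply Subtype.ext
      rw [hz, hz', polD_val, polD_val] at h2
      have h4 : (z' : ℂ) = - (z : ℂ) := by simpa using h2
      show (z : ℂ) * (z : ℂ) = (z' : ℂ) * (z' : ℂ)
      rw [h4]; ring
    rw [h3])
  have e3 := hat (desc Φ0' hΦ0d)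
  have e3' : at' (desc Φ0' hΦ0d) 1 = 1 := by
    ext1 ⟨x, t⟩
    obtain ⟨y, rfl⟩ := qY_surj 2 x
    obtain ⟨⟨r, z⟩, rfl⟩ := polD_surj y
    show desc Φ0' hΦ0d (qY 2 _, (t, 1)) = 1
    rw [desc_apply, hΦ0', Φ0ap]
    apply H1
    show ‖((1 - ((1 : I) : ℝ) : ℝ) : ℂ) * _ + (((1 : I) : ℝ) : ℂ)‖ = 1
    simp
  rw [e3', K1.mk_one] at e3
  have e4 : at' (desc Φ' hΦd) 0 = at' (desc Φ0' hΦ0d) 0 := by
    ext1 ⟨x, t⟩
    obtain ⟨y, rfl⟩ := qY_surj 2 x
    obtain ⟨⟨r, z⟩, rfl⟩ := polD_surj y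
    show desc Φ' hΦd (qY 2 _, (t, 0)) = desc Φ0' hΦ0d (qY 2 _, (t, 0))
    rw [desc_apply, desc_apply, hΦ0', Φ0ap, hΦ', Φap, G0, Pap]
    have : cv (polD (r, z * z), 0) = polD (r, z * z) := by
      apply Subtype.ext
      show ((1 - ((0 : I) : ℝ) : ℝ) : ℂ) * _ + (((0 : I) : ℝ) : ℂ) = _
      simp
    rw [this]
  have e5 : at' (desc Φ' hΦd) 1 = F * (at' (desc Ψ2 hΨ2d) 0)⁻¹ * F := by
    ext1 ⟨x, t⟩
    obtain ⟨y, rfl⟩ := qY_surj 2 x
    obtain ⟨⟨r, z⟩, rfl⟩ := polD_surj y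
    show desc Φ' hΦd (qY 2 _, (t, 1)) = F (qY 2 _, t) * (desc Ψ2 hΨ2d (qY 2 _, (t, 0)))⁻¹ * F (qY 2 _, t)
    rw [desc_apply, desc_apply, hΦ', Φap, G1, Pap, Pap]
    have : mx (polD (r, z), 0) = polD (r, 1) := by
      apply Subtype.ext
      show ((max ‖(polD (r, z) : ℂ)‖ ((0 : I) : ℝ) : ℝ) : ℂ) = _
      rw [polD_norm, polD_val]
      have h6 : max (r : ℝ) ((0 : I) : ℝ) = r := max_eq_left r.2.1
      show ((max (r : ℝ) ((0 : I) : ℝ) : ℝ) : ℂ) = ((r : ℝ) : ℂ) * ((1 : Circle) : ℂ)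
      rw [h6]; simp
    show _ = H (polD (r, z), t) * (H (mx (polD (r, z), 0), t))⁻¹ * H (polD (r, z), t)
    rw [this]
  rw [e4, e3, e5, K1.mk_mul, K1.mk_mul, K1.mk_inv, e2] at e1
  rw [e1]; abel

/-- base point slice -/
def bpt (m : ℕ) (hm : m ≠ 0) (T : Type) [TopologicalSpace T] : C(T, Ym m × T) :=
  ⟨fun t => (bd m hm 1, t), by fun_prop⟩

theorem o4_ds_one : ds (1 : C(T, (Matrix ι ι ℂ)ˣ)) (1 : C(T, (Matrix κ κ ℂ)ˣ)) = 1 := by
  apply ContinuousMap.ext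
  intro t
  apply Units.ext
  change Matrix.fromBlocks (1 : Matrix ι ι ℂ) 0 0 (1 : Matrix κ κ ℂ) = 1
  exact Matrix.fromBlocks_one

/-- the contraction of the circle to `1` inside the disk -/
def o4_mid (T : Type) [TopologicalSpace T] : C(I × (T × Circle), Dk) where
  toFun p := ⟨(1 - ((p.1 : ℝ) : ℂ)) * (p.2.2 : ℂ) + ((p.1 : ℝ) : ℂ), by
    rw [mem_closedBall_zero_iff]
    refine (norm_add_le _ _).trans ?_
    have h1 : ‖(1 - ((p.1 : ℝ) : ℂ))‖ = 1 - (p.1 : ℝ) := by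
      have h2 : (1 - ((p.1 : ℝ) : ℂ)) = (((1 - (p.1 : ℝ)) : ℝ) : ℂ) := by push_cast; ring
      rw [h2, Complex.norm_real, Real.norm_of_nonneg (by linarith [p.1.2.2])]
    rw [norm_mul, h1, Circle.norm_coe, Complex.norm_real, Real.norm_of_nonneg p.1.2.1]
    linarith⟩
  continuous_toFun := by
    refine Continuous.subtype_mk ?_ _
    fun_prop

theorem o4_mid_zero (t : T) (z : Circle) : ((o4_mid T (0, (t, z)) : Dk) : ℂ) = z := by
  change (1 - (((0 : I) : ℝ) : ℂ)) * (z : ℂ) + (((0 : I) : ℝ) : ℂ) = z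
  simp

theorem o4_mid_one (t : T) (z : Circle) : ((o4_mid T (1, (t, z)) : Dk) : ℂ) = (1 : Circle) := by
  change (1 - (((1 : I) : ℝ) : ℂ)) * (z : ℂ) + (((1 : I) : ℝ) : ℂ) = (1 : Circle)
  simp

/-- exchange of the factors -/
def o4_sw (T : Type) [TopologicalSpace T] : C(T × Circle, Circle × T) := ⟨Prod.swap, continuous_swap⟩

/-- exchange of the factors -/
def o4_ws (T : Type) [TopologicalSpace T] : C(Circle × T, T × Circle) := ⟨Prod.swap, continuous_swap⟩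

theorem o4_hom (T : Type) [TopologicalSpace T] :
    Homotopic (((bdC 2 (by norm_num) T).comp (o4_sw T)).comp (sqC T))
      ((bpt 2 (by norm_num) T).comp ContinuousMap.fst) := by
  refine ⟨⟨⟨fun p => (qY 2 (o4_mid T p), p.2.1), ?_⟩, ?_, ?_⟩⟩
  · exact ((qY 2).continuous.comp (o4_mid T).continuous).prodMk
      (continuous_fst.comp continuous_snd)
  · rintro ⟨t, z⟩
    apply Prod.ext
    · change qY 2 (o4_mid T (0, (t, z))) = bd 2 (by norm_num) (z * z)
      rw [qY_bd 2 (by norm_num) _ z (o4_mid_zero t z), pow_two]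
    · rfl
  · rintro ⟨t, z⟩
    apply Prod.ext
    · change qY 2 (o4_mid T (1, (t, z))) = bd 2 (by norm_num) 1
      rw [qY_bd 2 (by norm_num) _ 1 (o4_mid_one t z), one_pow]
    · rfl

/-- reduced classes on `Y₂ × T` have order 4 -/
theorem order_four (a : K1 (Ym 2 × T)) (h : K1.map (bpt 2 (by norm_num) T) a = 0) : 4 • a = 0 := by
  obtain ⟨ι, _, _, G, rfl⟩ := K1.exists_rep a
  set a : K1 (Ym 2 × T) := K1.mk G with ha
  set γ : K1 (T × Circle) := K1.map ((bdC 2 (by norm_num) T).comp (o4_sw T)) a with hγ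
  have h1 : K1.map (atOne T) γ = 0 := by
    have h2 : K1.map (atOne T) γ = K1.map ContinuousMap.fst (K1.map (bpt 2 (by norm_num) T) a) := by
      rw [hγ, K1.map_comp, K1.map_comp]
      rfl
    rw [h2, h, map_zero]
  have h2 : K1.map (sqC T) γ = 0 := by
    rw [hγ, K1.map_comp, K1.map_hom (o4_hom T), ← K1.map_comp, h, map_zero]
  have h3 : γ + γ = 0 := by
    have h4 := sq_class γ
    rw [h1, h2, sub_zero] at h4
    exact h4.symm
  have h4 : K1.mk ((ds G G).comp (bdC 2 (by norm_num) T)) =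
      K1.mk (1 : C(Circle × T, (Matrix (ι ⊕ ι) (ι ⊕ ι) ℂ)ˣ)) := by
    have h5 : K1.mk ((ds G G).comp (bdC 2 (by norm_num) T)) = K1.map (o4_ws T) (γ + γ) := by
      rw [map_add, hγ, K1.map_comp]
      rfl
    rw [h5, h3, map_zero, K1.mk_one]
  obtain ⟨τ, _, _, h5⟩ := K1.mk_exact h4
  have h6 : ds ((ds G G).comp (bdC 2 (by norm_num) T)) (1 : C(Circle × T, (Matrix τ τ ℂ)ˣ)) =
      (ds (ds G G) (1 : C(Ym 2 × T, (Matrix τ τ ℂ)ˣ))).comp (bdC 2 (by norm_num) T) := rfl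
  rw [h6, o4_ds_one] at h5
  obtain ⟨F', hF', hb⟩ := push 2 (by norm_num) _ h5
  have h7 := two_null F' hb
  rw [← K1.mk_hom hF', K1.mk_ds, K1.mk_ds, K1.mk_one, add_zero, ← ha] at h7
  have h8 : (4 : ℕ) • a = (a + a) + (a + a) := by
    rw [show (4 : ℕ) = 2 + 2 from rfl, add_smul, two_smul]
  rw [h8]
  exact h7

end

theorem div_four {T : Type} [TopologicalSpace T] (a b : K1 (Ym 2 × T)) (hba : b = 4 • a)
    (hb0 : K1.map (bpt 2 (by norm_num) T) b = 0) : b = 0 := by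
  have h5 := order_four (a - K1.map ContinuousMap.snd (K1.map (bpt 2 (by norm_num) T) a)) (by
    have : (ContinuousMap.snd : C(Ym 2 × T, T)).comp (bpt 2 (by norm_num) T) = ContinuousMap.id _ := rfl
    have h2 : ∀ c : K1 T, K1.map (bpt 2 (by norm_num) T) (K1.map ContinuousMap.snd c) = c := by
      intro c
      rw [K1.map_comp, this, K1.map_id]
    rw [map_sub, h2, sub_self])
  rw [smul_sub, sub_eq_zero, ← map_nsmul, ← map_nsmul, ← hba, hb0, map_zero] at h5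
  exact h5

/-! the spaces `W n` and the classes `F n` -/

def oo : ℕ → ℕ
  | 0 => 2
  | _ + 1 => 4

instance (n : ℕ) : Fact (oo n ∣ 4) := ⟨by cases n <;> simp [oo]⟩

def Wt : ℕ → Type
  | 0 => Unit
  | n + 1 => Ym (oo n) × Wt n

instance instMetricWt : ∀ n, MetricSpace (Wt n)
  | 0 => inferInstanceAs (MetricSpace Unit)
  | n + 1 =>
    have := instMetricWt n
    inferInstanceAs (MetricSpace (Ym (oo n) × Wt n))

instance instCompactWt : ∀ n, CompactSpace (Wt n)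
  | 0 => inferInstanceAs (CompactSpace Unit)
  | n + 1 =>
    have := instCompactWt n
    inferInstanceAs (CompactSpace (Ym (oo n) × Wt n))

/-- constant map `E₁₁` -/
def e11 : C(Wt 0, M4) := ContinuousMap.const _ (Matrix.single 0 0 1)

theorem e11_idem (t : Wt 0) : e11 t * e11 t = e11 t := by simp [e11]

/-- the iterated commutator families -/
def Fn : ∀ n, C(Wt n × Circle, M4ˣ)
  | 0 => gam e11 e11_idem
  | n + 1 => cm (oo n) (Fn n)

theorem Fn_class (n : ℕ) : ∃ (ι : Type) (_ : Fintype ι) (_ : DecidableEq ι) (e f : C(Wt n, Matrix ι ι ℂ))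
    (he : ∀ t, e t * e t = e t) (hf : ∀ t, f t * f t = f t),
    K1.mk (Fn n) = K1.mk (gam e he) - K1.mk (gam f hf) := by
  induction n with
  | zero =>
    refine ⟨Fin 4, inferInstance, inferInstance, e11, 0, e11_idem, fun t => by simp, ?_⟩
    have : gam (0 : C(Wt 0, M4)) (fun t => by simp) = 1 := by
      ext p i j
      simp [gam, gamU]
    rw [this, K1.mk_one, sub_zero]
    rfl
  | succ n ih =>
    obtain ⟨ι, _, _, e, f, he, hf, h⟩ := ih
    exact ⟨_, inferInstance, inferInstance, stE (oo n) e f, stF (oo n) e f, stE_idem _ e f he hf,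
      stF_idem _ e f he hf, cm_class (oo n) (Fn n) e f he hf h⟩

theorem Fn_one (n : ℕ) (w : Wt n) : Fn n (w, 1) = 1 := by
  induction n with
  | zero =>
    show gamU (e11 w) (e11_idem w) 1 = 1
    apply Units.ext
    rw [gamU_val]
    simp
  | succ n ih =>
    obtain ⟨x, w'⟩ := w
    obtain ⟨y, rfl⟩ := qY_surj (oo n) x
    show cm (oo n) (Fn n) ((qY (oo n) y, w'), 1) = 1
    rw [cm_apply, ih w']
    group

theorem det_dsU' {ι κ : Type} [Fintype ι] [DecidableEq ι] [Fintype κ] [DecidableEq κ]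
    (A : (Matrix ι ι ℂ)ˣ) (B : (Matrix κ κ ℂ)ˣ) : (dsU A B).1.det = A.1.det * B.1.det := by
  show (Matrix.fromBlocks A.1 0 0 B.1).det = _
  rw [Matrix.det_fromBlocks_zero₂₁]

theorem det_riU' {ι κ : Type} [Fintype ι] [DecidableEq ι] [Fintype κ] [DecidableEq κ] (e : ι ≃ κ)
    (A : (Matrix ι ι ℂ)ˣ) : (riU e A).1.det = A.1.det := by
  show (A.1.submatrix e.symm e.symm).det = _
  rw [Matrix.det_submatrix_equiv_self]

theorem det_ne' {ι : Type} [Fintype ι] [DecidableEq ι] (A : (Matrix ι ι ℂ)ˣ) : A.1.det ≠ 0 :=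
  ((Matrix.isUnit_iff_isUnit_det _).1 A.isUnit).ne_zero

theorem det_Fn0' (w : Wt 0) (z : Circle) : (Fn 0 (w, z)).1.det = (z : ℂ) := by
  have h1 : (Fn 0 (w, z)).1 = Matrix.diagonal ![(z : ℂ), 1, 1, 1] := by
    show (1 : M4) - Matrix.single 0 0 1 + (z : ℂ) • Matrix.single 0 0 1 = _
    ext i j
    fin_cases i <;> fin_cases j <;>
      simp [Matrix.single, Matrix.diagonal, Matrix.one_apply]
  rw [h1, Matrix.det_diagonal, Fin.prod_univ_four]
  simp

theorem no_sqrt' (h : Circle → ℂ) (hc : Continuous h) (hsq : ∀ z : Circle, h z ^ 2 = z) : False := by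
  have hf : Continuous (fun θ : ℝ => h (Circle.exp θ)) := hc.comp Circle.exp.continuous
  have hg : Continuous (fun θ : ℝ => Complex.exp ((θ : ℂ) * Complex.I / 2)) := by fun_prop
  have h1 := (isPreconnected_univ (α := ℝ)).eq_or_eq_neg_of_sq_eq hf.continuousOn hg.continuousOn
    (by
      intro θ _
      show h (Circle.exp θ) ^ 2 = Complex.exp ((θ : ℂ) * Complex.I / 2) ^ 2
      rw [hsq, Circle.coe_exp, ← Complex.exp_nat_mul]
      congr 1
      push_cast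
      ring) (fun {θ} _ => Complex.exp_ne_zero _)
  have h2 : Circle.exp (2 * Real.pi) = Circle.exp 0 := by simp
  have h3 : Complex.exp (((2 * Real.pi : ℝ) : ℂ) * Complex.I / 2) = -1 := by
    have : ((2 * Real.pi : ℝ) : ℂ) * Complex.I / 2 = Real.pi * Complex.I := by
      push_cast
      ring
    rw [this, Complex.exp_pi_mul_I]
  have h4 : Complex.exp (((0 : ℝ) : ℂ) * Complex.I / 2) = 1 := by simp
  rcases h1 with h1 | h1
  · have a1 : h (Circle.exp (2 * Real.pi)) = Complex.exp (((2 * Real.pi : ℝ) : ℂ) * Complex.I / 2) :=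
      h1 (Set.mem_univ (2 * Real.pi))
    have a2 : h (Circle.exp 0) = Complex.exp (((0 : ℝ) : ℂ) * Complex.I / 2) :=
      h1 (Set.mem_univ (0 : ℝ))
    rw [h2, a2, h3, h4] at a1
    norm_num at a1
  · have a1 : h (Circle.exp (2 * Real.pi)) = -Complex.exp (((2 * Real.pi : ℝ) : ℂ) * Complex.I / 2) :=
      h1 (Set.mem_univ (2 * Real.pi))
    have a2 : h (Circle.exp 0) = -Complex.exp (((0 : ℝ) : ℂ) * Complex.I / 2) :=
      h1 (Set.mem_univ (0 : ℝ))
    rw [h2, a2, h3, h4] at a1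
    norm_num at a1

theorem sqrt_step' {f g : Circle → ℂ} (hf : Continuous f) (hg : Continuous g)
    (hf0 : ∀ z, f z ≠ 0) (hfg : ∀ z, ‖g z / f z - 1‖ < 1)
    (h : ∃ k : Circle → ℂ, Continuous k ∧ ∀ z, k z ^ 2 = f z) :
    ∃ k : Circle → ℂ, Continuous k ∧ ∀ z, k z ^ 2 = g z := by
  obtain ⟨k, hk, hk2⟩ := h
  have hr : Continuous (fun z => g z / f z) := hg.div hf hf0
  have hslit : ∀ z, g z / f z ∈ Complex.slitPlane := by
    intro z
    have h1 := hfg z
    rw [Complex.mem_slitPlane_iff]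
    left
    have h2 := Complex.abs_re_le_norm (g z / f z - 1)
    have h3 : (g z / f z - 1).re = (g z / f z).re - 1 := by simp
    rw [h3] at h2
    have h4 := (abs_le.1 (h2.trans h1.le)).1
    have h5 := (abs_lt.1 (h2.trans_lt h1)).1
    linarith
  refine ⟨fun z => k z * Complex.exp (Complex.log (g z / f z) / 2), ?_, ?_⟩
  · exact hk.mul (Complex.continuous_exp.comp ((hr.clog hslit).div_const 2))
  · intro z
    show (k z * Complex.exp (Complex.log (g z / f z) / 2)) ^ 2 = g z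
    have hne : g z / f z ≠ 0 := Complex.slitPlane_ne_zero (hslit z)
    rw [mul_pow, hk2, ← Complex.exp_nat_mul]
    have h6 : ((2 : ℕ) : ℂ) * (Complex.log (g z / f z) / 2) = Complex.log (g z / f z) := by
      push_cast
      ring
    rw [h6, Complex.exp_log hne, mul_div_cancel₀ _ (hf0 z)]


/-- the generator of `K¹(S¹)` is not divisible by 2 -/
theorem base_ne (μ : K1 (Wt 0 × Circle)) (ν : K1 (Wt 0)) :
    K1.mk (Fn 0) ≠ 2 • μ + K1.map ContinuousMap.fst ν := by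
  intro heq
  obtain ⟨ι, _, _, M, rfl⟩ := K1.exists_rep μ
  obtain ⟨κ, _, _, N, rfl⟩ := K1.exists_rep ν
  have h1 : 2 • K1.mk M + K1.map ContinuousMap.fst (K1.mk N) =
      K1.mk (ds (ds M M) (N.comp ContinuousMap.fst)) := by
    rw [two_nsmul]
    rfl
  rw [h1] at heq
  have h2 := Quotient.exact (s := Setoid.mk Rel (Rel.equiv (T := Wt 0 × Circle))) heq
  obtain ⟨τ, τ', i1, i2, i3, i4, e, ⟨H⟩⟩ := h2
  let w0 : Wt 0 := ()
  obtain ⟨D, hD⟩ : ∃ D : I × Circle → ℂ, D = fun p => (H (p.1, (w0, p.2))).1.det := ⟨_, rfl⟩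
  have hDc : Continuous D := by
    rw [hD]
    refine Continuous.matrix_det ?_
    exact Units.continuous_val.comp (H.continuous.comp
      (continuous_fst.prodMk (continuous_const.prodMk continuous_snd)))
  have hD0 : ∀ p, D p ≠ 0 := by
    intro p
    rw [hD]
    exact det_ne' _
  have hDz : ∀ z : Circle, D (0, z) = z := by
    intro z
    rw [hD]
    show (H (0, (w0, z))).1.det = _
    rw [H.apply_zero]
    show (riU e (dsU (Fn 0 (w0, z)) 1)).1.det = _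
    rw [det_riU', det_dsU', det_Fn0']
    show _ * (1 : Matrix τ τ ℂ).det = _
    rw [Matrix.det_one, mul_one]
  have hD1 : ∀ z : Circle, D (1, z) = (M (w0, z)).1.det * (M (w0, z)).1.det * (N w0).1.det := by
    intro z
    rw [hD]
    show (H (1, (w0, z))).1.det = _
    rw [H.apply_one]
    show (dsU (dsU (dsU (M (w0, z)) (M (w0, z))) (N w0)) 1).1.det = _
    rw [det_dsU', det_dsU', det_dsU']
    show _ * (1 : Matrix τ' τ' ℂ).det = _
    rw [Matrix.det_one, mul_one]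
  obtain ⟨P, hP⟩ : ∃ P : I → Prop, P = fun s => ∃ k : Circle → ℂ, Continuous k ∧
      ∀ z, k z ^ 2 = D (s, z) := ⟨_, rfl⟩
  have hP1 : P 1 := by
    rw [hP]
    obtain ⟨d, hd⟩ := IsAlgClosed.exists_pow_nat_eq (N w0).1.det (n := 2) (by norm_num)
    refine ⟨fun z => (M (w0, z)).1.det * d, ?_, ?_⟩
    · refine Continuous.mul ?_ continuous_const
      refine Continuous.matrix_det ?_
      exact Units.continuous_val.comp (M.continuous.comp (continuous_const.prodMk continuous_id))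
    · intro z
      rw [hD1, mul_pow, hd]
      ring
  have hDs : ∀ s : I, Continuous (fun z : Circle => D (s, z)) := fun s =>
    hDc.comp (continuous_const.prodMk continuous_id)
  have hloc : IsLocallyConstant P := by
    rw [IsLocallyConstant.iff_eventually_eq]
    intro s
    have h3 : ∀ᶠ s' in 𝓝 s, ∀ z ∈ (Set.univ : Set Circle),
        ‖D (s', z) / D (s, z) - 1‖ < 1 ∧ ‖D (s, z) / D (s', z) - 1‖ < 1 := by
      refine isCompact_univ.eventually_forall_of_forall_eventually ?_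
      intro z _
      have c1 : Continuous (fun p : I × Circle => ‖D (p.1, p.2) / D (s, p.2) - 1‖) := by
        refine Continuous.norm (Continuous.sub (Continuous.div ?_ ?_ ?_) continuous_const)
        · exact hDc
        · exact (hDs s).comp continuous_snd
        · intro p; exact hD0 _
      have c2 : Continuous (fun p : I × Circle => ‖D (s, p.2) / D (p.1, p.2) - 1‖) := by
        refine Continuous.norm (Continuous.sub (Continuous.div ?_ ?_ ?_) continuous_const)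
        · exact (hDs s).comp continuous_snd
        · exact hDc
        · intro p; exact hD0 _
      have e1 : ‖D ((s, z) : I × Circle) / D (s, z) - 1‖ < 1 := by
        rw [div_self (hD0 _), sub_self, norm_zero]
        exact one_pos
      exact (c1.continuousAt.eventually_lt continuousAt_const e1).and
        (c2.continuousAt.eventually_lt continuousAt_const e1)
    filter_upwards [h3] with s' hs'
    rw [hP]
    apply propext
    constructor
    · exact sqrt_step' (hDs s') (hDs s) (fun z => hD0 _) (fun z => (hs' z (Set.mem_univ z)).2)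
    · exact sqrt_step' (hDs s) (hDs s') (fun z => hD0 _) (fun z => (hs' z (Set.mem_univ z)).1)
  have hP0 : P 0 := by
    rw [hloc.apply_eq_of_preconnectedSpace 0 1]
    exact hP1
  rw [hP] at hP0
  obtain ⟨k, hk, hk2⟩ := hP0
  exact no_sqrt' k hk (fun z => by rw [hk2, hDz])

/-- the outer factors -/
def Vt : ℕ → Type
  | 0 => Unit
  | n + 1 => Ym 4 × Vt n

instance instMetricVt : ∀ n, MetricSpace (Vt n)
  | 0 => inferInstanceAs (MetricSpace Unit)
  | n + 1 =>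
    have := instMetricVt n
    inferInstanceAs (MetricSpace (Ym 4 × Vt n))

theorem cm_one352 {W : Type} [TopologicalSpace W] (m : ℕ) [Fact (m ∣ 4)] (F : C(W × Circle, M4ˣ))
    (y : Ym m) (w : W) (z : Circle) (h : F (w, z) = 1) : cm m F ((y, w), z) = 1 := by
  obtain ⟨x, rfl⟩ := qY_surj m y
  rw [cm_apply, h]
  simp

theorem zzU_one352 (x : Dk) (hx : (x : ℂ) = 1) : zzU x = 1 := by
  apply Units.ext
  show zz (x : ℂ) = 1
  rw [hx, zz_one]

theorem cm_bd352 {W : Type} [TopologicalSpace W] (m : ℕ) [Fact (m ∣ 4)] (hm : m ≠ 0)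
    (F : C(W × Circle, M4ˣ)) (w : W) (z : Circle) : cm m F ((bd m hm 1, w), z) = 1 := by
  set x : Dk := ⟨1, by simp⟩ with hx
  have h1 : qY m x = bd m hm (1 ^ m) := qY_bd m hm x 1 (by simp [hx])
  rw [one_pow] at h1
  rw [← h1, cm_apply, zzU_one352 x rfl]
  simp

/-- the inductive step of `split` -/
def hstep352 (n : ℕ) (φ : (Ym 2 × Vt n) ≃ₜ Wt (n + 1)) : (Ym 2 × Vt (n + 1)) ≃ₜ Wt (n + 2) where
  toFun p := ((p.2.1, φ (p.1, p.2.2)) : Ym 4 × Wt (n + 1))
  invFun q := ((φ.symm (q.2 : Wt (n + 1))).1, ((q.1 : Ym 4), (φ.symm (q.2 : Wt (n + 1))).2))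
  left_inv := by
    rintro ⟨y, x, v⟩
    show (((φ.symm (φ (y, v))).1, (x, (φ.symm (φ (y, v))).2)) : Ym 2 × (Ym 4 × Vt n)) = (y, (x, v))
    rw [φ.symm_apply_apply]
  right_inv := by
    rintro ⟨x, w⟩
    show ((x, φ ((φ.symm w).1, (φ.symm w).2)) : Ym 4 × Wt (n + 1)) = (x, w)
    rw [Prod.mk.eta, φ.apply_symm_apply]
    rfl
  continuous_toFun := by
    have h1 : Continuous fun p : Ym 2 × (Ym 4 × Vt n) => (p.2.1, φ (p.1, p.2.2)) := by
      fun_prop
    exact h1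
  continuous_invFun := by
    have h1 : Continuous fun q : Ym 4 × Wt (n + 1) =>
        ((φ.symm q.2).1, (q.1, (φ.symm q.2).2)) := by
      fun_prop
    exact h1

/-- bring the innermost factor to the front -/
theorem split (n : ℕ) : ∃ φ : (Ym 2 × Vt n) ≃ₜ Wt (n + 1), ∀ v z, Fn (n + 1) (φ (bd 2 (by norm_num) 1, v), z) = 1 := by
  induction n with
  | zero =>
    refine ⟨(Homeomorph.refl (Ym 2 × Unit) : (Ym 2 × Unit) ≃ₜ (Ym 2 × Unit)), fun v z => ?_⟩
    exact cm_bd352 (oo 0) (by norm_num [oo]) (Fn 0) v z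
  | succ n ih =>
    obtain ⟨φ, hφ⟩ := ih
    refine ⟨hstep352 n φ, fun v z => ?_⟩
    exact cm_one352 (oo (n + 1)) (Fn (n + 1)) v.1 (φ (bd 2 (by norm_num) 1, v.2)) z (hφ v.2 z)

/-- the classes never vanish -/
theorem Fn_ne (n : ℕ) : K1.mk (Fn n) ≠ 0 := by
  induction n with
  | zero => simpa using base_ne 0 0
  | succ n ih =>
    intro h
    obtain ⟨ι, _, _, e, f, he, hf, hc⟩ := Fn_class n
    obtain ⟨μ, ν, hμ⟩ := step_down (oo n) (Fn n) e f he hf hc h
    cases n with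
    | zero => exact base_ne μ ν hμ
    | succ k =>
      let one : C(Wt (k + 1), Wt (k + 1) × Circle) := ⟨fun w => (w, 1), by fun_prop⟩
      have hone : K1.map one (K1.mk (Fn (k + 1))) = 0 := by
        have : (Fn (k + 1)).comp one = 1 := by
          ext1 w
          exact Fn_one (k + 1) w
        rw [K1.map_mk, this, K1.mk_one]
      let Φ : C(Ym 2 × (Vt k × Circle), Wt (k + 1) × Circle) := by
        let φ := (split k).choose
        exact ⟨fun p => (φ (p.1, p.2.1), p.2.2), by fun_prop⟩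
      let Ψ : C(Wt (k + 1) × Circle, Ym 2 × (Vt k × Circle)) := by
        let φ := (split k).choose
        exact ⟨fun p => ((φ.symm p.1).1, ((φ.symm p.1).2, p.2)), by fun_prop⟩
      have hΨ : Φ.comp Ψ = ContinuousMap.id _ := by
        ext1 p
        simp [Φ, Ψ]
      set b := K1.map Φ (K1.mk (Fn (k + 1))) with hb
      have hb0 : K1.map (bpt 2 (by norm_num) (Vt k × Circle)) b = 0 := by
        rw [hb, K1.map_comp, K1.map_mk]
        have : (Fn (k + 1)).comp (Φ.comp (bpt 2 (by norm_num) (Vt k × Circle))) = 1 := by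
          ext1 p
          exact (split k).choose_spec p.1 p.2
        rw [this, K1.mk_one]
      have h4 : K1.mk (Fn (k + 1)) = 4 • (μ - K1.map (atOne _) μ) := by
        have hν : ν = - (4 • K1.map one μ) := by
          have := congrArg (K1.map one) hμ
          rw [hone, map_add, map_nsmul, K1.map_comp] at this
          have h2 : (ContinuousMap.fst : C(Wt (k + 1) × Circle, Wt (k + 1))).comp one = ContinuousMap.id _ := rfl
          rw [h2, K1.map_id] at this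
          exact eq_neg_of_add_eq_zero_right this.symm
        rw [hμ, hν, map_neg, map_nsmul, K1.map_comp]
        have h3 : one.comp (ContinuousMap.fst : C(Wt (k + 1) × Circle, Wt (k + 1))) = atOne _ := rfl
        rw [h3, smul_sub]
        show 4 • μ + _ = _
        abel
      set a := K1.map Φ (μ - K1.map (atOne _) μ) with ha
      have hba : b = 4 • a := by rw [hb, h4, map_nsmul]
      have hz : b = 0 := div_four a b hba hb0
      apply ih
      have := congrArg (K1.map Ψ) hz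
      rwa [hb, K1.map_comp, hΨ, K1.map_id, map_zero] at this

end BB
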