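import Pool.Agent.Helper194.BB.K2

set_option autoImplicit false
set_option linter.unusedVariables false
set_option linter.unusedSectionVars false

open scoped unitInterval Matrix Topology ComplexConjugate Kronecker
open ContinuousMap Topology

noncomputable section

namespace BB

abbrev M8 : Type := Matrix (Fin 4 ⊕ Fin 4) (Fin 4 ⊕ Fin 4) ℂ

/-- the base idempotent -/
def e0 : M8 := Matrix.fromBlocks 1 0 0 0

/-- rotation -/
def Rt (t : ℝ) : M8 := Matrix.fromBlocks ((Real.cos (Real.pi / 2 * t) : ℂ) • (1 : M4))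
  (-(Real.sin (Real.pi / 2 * t) : ℂ) • (1 : M4)) ((Real.sin (Real.pi / 2 * t) : ℂ) • (1 : M4))
  ((Real.cos (Real.pi / 2 * t) : ℂ) • (1 : M4))

/-- Whitehead rotation `(x ⊕ 1) R (x⁻¹ ⊕ 1) R⁻¹` -/
def Um (x : M4) (t : ℝ) : M8 :=
  Matrix.fromBlocks x 0 0 1 * Rt t * Matrix.fromBlocks x⁻¹ 0 0 1 * Rt (-t)

/-- its inverse (for invertible `x`) -/
def Ui (x : M4) (t : ℝ) : M8 :=
  Rt t * Matrix.fromBlocks x 0 0 1 * Rt (-t) * Matrix.fromBlocks x⁻¹ 0 0 1

/-- the family of idempotents -/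
def em (x : M4) (t : ℝ) : M8 := Um x t * e0 * Ui x t

theorem Rt_neg_eq (t : ℝ) : Rt (-t) = Matrix.fromBlocks
    ((Real.cos (Real.pi / 2 * t) : ℂ) • (1 : M4))
    ((Real.sin (Real.pi / 2 * t) : ℂ) • (1 : M4)) (-(Real.sin (Real.pi / 2 * t) : ℂ) • (1 : M4))
    ((Real.cos (Real.pi / 2 * t) : ℂ) • (1 : M4)) := by
  unfold Rt
  rw [mul_neg, Real.cos_neg, Real.sin_neg, Complex.ofReal_neg, neg_neg]

theorem Rt_mul (t : ℝ) : Rt t * Rt (-t) = 1 ∧ Rt (-t) * Rt t = 1 := by
  have h : (Real.cos (Real.pi / 2 * t) : ℂ) * (Real.cos (Real.pi / 2 * t) : ℂ)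
      + (Real.sin (Real.pi / 2 * t) : ℂ) * (Real.sin (Real.pi / 2 * t) : ℂ) = 1 := by
    have h1 := Real.cos_sq_add_sin_sq (Real.pi / 2 * t)
    rw [← Complex.ofReal_mul, ← Complex.ofReal_mul, ← Complex.ofReal_add, ← pow_two, ← pow_two,
      h1, Complex.ofReal_one]
  rw [Rt_neg_eq]
  unfold Rt
  generalize (Real.cos (Real.pi / 2 * t) : ℂ) = c at h ⊢
  generalize (Real.sin (Real.pi / 2 * t) : ℂ) = s at h ⊢
  constructor
  · rw [Matrix.fromBlocks_multiply, ← Matrix.fromBlocks_one]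
    congr 1
    · rw [smul_mul_smul_comm, smul_mul_smul_comm, mul_one, ← add_smul]
      have : c * c + -s * -s = 1 := by linear_combination h
      rw [this, one_smul]
    · rw [smul_mul_smul_comm, smul_mul_smul_comm, mul_one, ← add_smul]
      have : c * s + -s * c = 0 := by ring
      rw [this, zero_smul]
    · rw [smul_mul_smul_comm, smul_mul_smul_comm, mul_one, ← add_smul]
      have : s * c + c * -s = 0 := by ring
      rw [this, zero_smul]
    · rw [smul_mul_smul_comm, smul_mul_smul_comm, mul_one, ← add_smul]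
      have : s * s + c * c = 1 := by linear_combination h
      rw [this, one_smul]
  · rw [Matrix.fromBlocks_multiply, ← Matrix.fromBlocks_one]
    congr 1
    · rw [smul_mul_smul_comm, smul_mul_smul_comm, mul_one, ← add_smul]
      have : c * c + s * s = 1 := by linear_combination h
      rw [this, one_smul]
    · rw [smul_mul_smul_comm, smul_mul_smul_comm, mul_one, ← add_smul]
      have : c * -s + s * c = 0 := by ring
      rw [this, zero_smul]
    · rw [smul_mul_smul_comm, smul_mul_smul_comm, mul_one, ← add_smul]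
      have : -s * c + c * s = 0 := by ring
      rw [this, zero_smul]
    · rw [smul_mul_smul_comm, smul_mul_smul_comm, mul_one, ← add_smul]
      have : -s * -s + c * c = 1 := by linear_combination h
      rw [this, one_smul]

theorem Um_Ui (x : M4) (hx : IsUnit x) (t : ℝ) : Um x t * Ui x t = 1 ∧ Ui x t * Um x t = 1 := by
  have hdet : IsUnit x.det := (Matrix.isUnit_iff_isUnit_det x).1 hx
  have h1 : (Matrix.fromBlocks x 0 0 1 : M8) * Matrix.fromBlocks x⁻¹ 0 0 1 = 1 := by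
    rw [Matrix.fromBlocks_multiply]
    simp only [Matrix.mul_zero, Matrix.zero_mul, add_zero, zero_add, Matrix.mul_one,
      Matrix.mul_nonsing_inv x hdet, Matrix.fromBlocks_one]
  have h2 : (Matrix.fromBlocks x⁻¹ 0 0 1 : M8) * Matrix.fromBlocks x 0 0 1 = 1 := by
    rw [Matrix.fromBlocks_multiply]
    simp only [Matrix.mul_zero, Matrix.zero_mul, add_zero, zero_add, Matrix.mul_one,
      Matrix.nonsing_inv_mul x hdet, Matrix.fromBlocks_one]
  obtain ⟨h3, h4⟩ := Rt_mul t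
  have key : ∀ X Y R R' : M8, X * Y = 1 → Y * X = 1 → R * R' = 1 → R' * R = 1 →
      (X * R * Y * R') * (R * X * R' * Y) = 1 := by
    intro X Y R R' a b c d
    calc (X * R * Y * R') * (R * X * R' * Y) = X * R * Y * (R' * R) * X * R' * Y := by
          simp only [Matrix.mul_assoc]
      _ = X * R * (Y * X) * R' * Y := by
          rw [d, Matrix.mul_one]
          simp only [Matrix.mul_assoc]
      _ = X * (R * R') * Y := by
          rw [b, Matrix.mul_one]
          simp only [Matrix.mul_assoc]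
      _ = 1 := by rw [c, Matrix.mul_one, a]
  refine ⟨key _ _ _ _ h1 h2 h3 h4, ?_⟩
  exact key _ _ _ _ h3 h4 h1 h2

theorem Um_zero (x : M4) (hx : IsUnit x) : Um x 0 = 1 ∧ Ui x 0 = 1 := by
  have hR : Rt 0 = 1 := by
    unfold Rt
    rw [mul_zero, Real.cos_zero, Real.sin_zero]
    simp
  have h1 : x * x⁻¹ = 1 := Matrix.mul_nonsing_inv x ((Matrix.isUnit_iff_isUnit_det x).1 hx)
  have h2 : (Matrix.fromBlocks x 0 0 1 : M8) * Matrix.fromBlocks x⁻¹ 0 0 1 = 1 := by
    rw [Matrix.fromBlocks_multiply]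
    simp [h1]
  constructor
  · unfold Um
    rw [neg_zero, hR, mul_one, mul_one, h2]
  · unfold Ui
    rw [neg_zero, hR, one_mul, mul_one, h2]

theorem umo_R1 : Rt 1 = Matrix.fromBlocks 0 (-1) 1 0 := by
  unfold Rt
  rw [mul_one, Real.cos_pi_div_two, Real.sin_pi_div_two]
  simp

theorem umo_R2 : Rt (-1) = Matrix.fromBlocks 0 1 (-1) 0 := by
  unfold Rt
  rw [mul_neg, mul_one, Real.cos_neg, Real.sin_neg, Real.cos_pi_div_two, Real.sin_pi_div_two]
  simp

theorem Um_one (x : M4) (hx : IsUnit x) : Um x 1 = Matrix.fromBlocks x 0 0 x⁻¹ ∧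
    Ui x 1 = Matrix.fromBlocks x⁻¹ 0 0 x := by
  unfold Um Ui
  rw [umo_R1, umo_R2]
  constructor
  · rw [Matrix.fromBlocks_multiply, Matrix.fromBlocks_multiply, Matrix.fromBlocks_multiply]
    congr 1 <;> simp
  · rw [Matrix.fromBlocks_multiply, Matrix.fromBlocks_multiply, Matrix.fromBlocks_multiply]
    congr 1 <;> simp

theorem em_zero (x : M4) (hx : IsUnit x) : em x 0 = e0 := by
  rw [em, (Um_zero x hx).1, (Um_zero x hx).2, one_mul, mul_one]

theorem em_one (x : M4) (hx : IsUnit x) : em x 1 = e0 := by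
  have h1 : x * x⁻¹ = 1 := Matrix.mul_nonsing_inv x ((Matrix.isUnit_iff_isUnit_det x).mp hx)
  rw [em, (Um_one x hx).1, (Um_one x hx).2, e0, Matrix.fromBlocks_multiply, Matrix.fromBlocks_multiply]
  simp [h1]

theorem em_idem (x : M4) (hx : IsUnit x) (t : ℝ) : em x t * em x t = em x t := by
  have he : e0 * e0 = e0 := by
    simp [e0, Matrix.fromBlocks_multiply]
  have h := (Um_Ui x hx t).2
  unfold em
  calc Um x t * e0 * Ui x t * (Um x t * e0 * Ui x t)
      = Um x t * e0 * (Ui x t * Um x t) * e0 * Ui x t := by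
        simp only [mul_assoc]
    _ = Um x t * (e0 * e0) * Ui x t := by
        rw [h, mul_one]
        simp only [mul_assoc]
    _ = _ := by rw [he]

theorem Um_contAt_inv (x : M4) (hx : IsUnit x) : ContinuousAt (fun y : M4 => y⁻¹) x := by
  have e : (fun y : M4 => y⁻¹) = fun y : M4 => (y.det)⁻¹ • y.adjugate := by
    funext y
    rw [Matrix.inv_def, Ring.inverse_eq_inv']
  have hd : x.det ≠ 0 := ((Matrix.isUnit_iff_isUnit_det x).1 hx).ne_zero
  rw [e]
  have h1 : Continuous (fun y : M4 => y.det) := continuous_id.matrix_det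
  have h2 : Continuous (fun y : M4 => y.adjugate) := continuous_id.matrix_adjugate
  exact (h1.continuousAt.inv₀ hd).smul h2.continuousAt

theorem Um_contAt_Rt : Continuous Rt := by
  unfold Rt
  have hc : Continuous fun t : ℝ => ((Real.cos (Real.pi / 2 * t) : ℝ) : ℂ) := by fun_prop
  have hs : Continuous fun t : ℝ => ((Real.sin (Real.pi / 2 * t) : ℝ) : ℂ) := by fun_prop
  exact Continuous.matrix_fromBlocks (hc.smul continuous_const) (hs.neg.smul continuous_const)
    (hs.smul continuous_const) (hc.smul continuous_const)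

theorem Um_contAt (x : M4) (hx : IsUnit x) (t : ℝ) :
    ContinuousAt (fun q : M4 × ℝ => Um q.1 q.2) (x, t) ∧ ContinuousAt (fun q : M4 × ℝ => Ui q.1 q.2) (x, t) := by
  have hf : ContinuousAt (fun q : M4 × ℝ => ((q.1, q.1⁻¹), q.2)) (x, t) := by
    refine ContinuousAt.prodMk (ContinuousAt.prodMk continuousAt_fst ?_) continuousAt_snd
    exact ContinuousAt.comp (f := fun q : M4 × ℝ => q.1) (g := fun y : M4 => y⁻¹) (x := (x, t))
      (Um_contAt_inv x hx) continuousAt_fst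
  have hR1 : Continuous fun p : (M4 × M4) × ℝ => Rt p.2 := Um_contAt_Rt.comp continuous_snd
  have hR2 : Continuous fun p : (M4 × M4) × ℝ => Rt (-p.2) := Um_contAt_Rt.comp continuous_snd.neg
  have hB1 : Continuous fun p : (M4 × M4) × ℝ => (Matrix.fromBlocks p.1.1 0 0 1 : M8) :=
    Continuous.matrix_fromBlocks (continuous_fst.comp continuous_fst) continuous_const
      continuous_const continuous_const
  have hB2 : Continuous fun p : (M4 × M4) × ℝ => (Matrix.fromBlocks p.1.2 0 0 1 : M8) :=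
    Continuous.matrix_fromBlocks (continuous_snd.comp continuous_fst) continuous_const
      continuous_const continuous_const
  have g1 : Continuous fun p : (M4 × M4) × ℝ =>
      (Matrix.fromBlocks p.1.1 0 0 1 : M8) * Rt p.2 * Matrix.fromBlocks p.1.2 0 0 1 * Rt (-p.2) :=
    ((hB1.matrix_mul hR1).matrix_mul hB2).matrix_mul hR2
  have g2 : Continuous fun p : (M4 × M4) × ℝ =>
      Rt p.2 * (Matrix.fromBlocks p.1.1 0 0 1 : M8) * Rt (-p.2) * Matrix.fromBlocks p.1.2 0 0 1 :=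
    ((hR1.matrix_mul hB1).matrix_mul hR2).matrix_mul hB2
  exact ⟨ContinuousAt.comp (f := fun q : M4 × ℝ => ((q.1, q.1⁻¹), q.2)) g1.continuousAt hf,
    ContinuousAt.comp (f := fun q : M4 × ℝ => ((q.1, q.1⁻¹), q.2)) g2.continuousAt hf⟩

/-- the open set of near idempotents -/
def OO : Set M8 := {a | ∀ z : ℂ, ‖z‖ = 1 → IsUnit ((-2 : ℂ) • a + z • (1 : M8))}

theorem OO_open : IsOpen OO := by
  have hcl : IsClosed {p : M8 × Metric.sphere (0 : ℂ) 1 |
      ((-2 : ℂ) • p.1 + (p.2 : ℂ) • (1 : M8)).det = 0} := by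
    have hc : Continuous (fun p : M8 × Metric.sphere (0 : ℂ) 1 =>
        ((-2 : ℂ) • p.1 + (p.2 : ℂ) • (1 : M8)).det) := by
      apply Continuous.matrix_det
      fun_prop
    exact isClosed_eq hc continuous_const
  have himg := isClosedMap_fst_of_compactSpace (X := M8) (Y := Metric.sphere (0 : ℂ) 1) _ hcl
  rw [← isOpen_compl_iff] at himg
  convert himg using 1
  ext a
  simp only [OO, Set.mem_setOf_eq, Set.mem_compl_iff, Set.mem_image, Prod.exists,
    exists_and_right, exists_eq_right, not_exists]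
  constructor
  · rintro h ⟨z, hz⟩ h0
    have hz' : ‖z‖ = 1 := by simpa using hz
    have := h z hz'
    rw [Matrix.isUnit_iff_isUnit_det] at this
    exact this.ne_zero h0
  · intro h z hz
    rw [Matrix.isUnit_iff_isUnit_det, isUnit_iff_ne_zero]
    intro h0
    exact h ⟨z, by simpa using hz⟩ h0

theorem idem_mem_OO (a : M8) (ha : a * a = a) : a ∈ OO := by
  intro z hz
  have hz0 : z ≠ 0 := by
    rintro rfl
    norm_num at hz
  have hz2 : z - 2 ≠ 0 := by
    intro h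
    have h2 : z = 2 := by linear_combination h
    rw [h2] at hz
    norm_num at hz
  refine ⟨⟨(-2 : ℂ) • a + z • (1 : M8), z⁻¹ • ((1 : M8) - a) + (z - 2)⁻¹ • a, ?_, ?_⟩, rfl⟩
  · simp only [mul_add, add_mul, mul_sub, sub_mul, smul_mul_assoc, mul_smul_comm, mul_one, one_mul,
      ha]
    match_scalars <;> field_simp <;> ring
  · simp only [mul_add, add_mul, mul_sub, sub_mul, smul_mul_assoc, mul_smul_comm, mul_one, one_mul,
      ha]
    match_scalars <;> field_simp <;> ring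

/-- the retraction to idempotents -/
def rO (a : M8) : M8 := 1 - spc ((-2 : ℂ) • a) (1 : M8)

theorem rO_idem (a : M8) (ha : a ∈ OO) : rO a * rO a = rO a := by
  have h := spc_idem ((-2 : ℂ) • a) (1 : M8) ha
  unfold rO
  rw [mul_sub, mul_one, sub_mul, one_mul, h, sub_self, sub_zero]

theorem rO_cont : Continuous (fun a : OO => rO a.1) := by
  have h := spc_cont (X := OO) (κ := _) ⟨fun a : OO => (-2 : ℂ) • (a.1 : M8), by fun_prop⟩
    ⟨fun _ : OO => (1 : M8), continuous_const⟩ (fun x z hz => x.2 z hz)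
  exact continuous_const.sub h

theorem rO_of_idem_int : ∫ θ in (0 : ℝ)..(2 * Real.pi),
    Complex.exp (θ * Complex.I) / (Complex.exp (θ * Complex.I) - 2) = 0 := by
  have hd : DiffContOnCl ℂ (fun z : ℂ => z / (z - 2)) (Metric.ball (0:ℂ) |(1:ℝ)|) := by
    apply DifferentiableOn.diffContOnCl
    intro z hz
    rw [abs_one, closure_ball (0:ℂ) one_ne_zero, mem_closedBall_zero_iff] at hz
    have hz2 : z - 2 ≠ 0 := by
      intro h
      have : z = 2 := by linear_combination h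
      rw [this] at hz
      norm_num at hz
    have h1 : DifferentiableAt ℂ (fun z : ℂ => z) z := differentiableAt_id
    have h2 : DifferentiableAt ℂ (fun z : ℂ => z - 2) z := h1.sub_const 2
    exact (h1.fun_div h2 hz2).differentiableWithinAt
  have h := hd.circleAverage
  rw [Real.circleAverage, zero_div] at h
  have hpi : ((2 * Real.pi)⁻¹ : ℝ) ≠ 0 := by positivity
  have h2 := (smul_eq_zero.1 h).resolve_left hpi
  rw [← h2]
  apply intervalIntegral.integral_congr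
  intro θ _
  simp [circleMap]

theorem rO_of_idem_inv (a : M8) (ha : a * a = a) (z : ℂ) (hz : ‖z‖ = 1) :
    ((-2 : ℂ) • a + z • (1 : M8))⁻¹ = z⁻¹ • (1 - a) + (z - 2)⁻¹ • a := by
  have hz0 : z ≠ 0 := by
    rintro rfl
    simp at hz
  have hz2 : z - 2 ≠ 0 := by
    intro h
    have : z = 2 := by linear_combination h
    rw [this] at hz
    norm_num at hz
  apply Matrix.inv_eq_right_inv
  have e1 : a * (1 - a) = 0 := by rw [mul_sub, mul_one, ha, sub_self]
  rw [add_mul, mul_add, mul_add, smul_mul_smul_comm, smul_mul_smul_comm, smul_mul_smul_comm,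
    smul_mul_smul_comm, e1, ha, one_mul, one_mul, smul_zero, zero_add, mul_inv_cancel₀ hz0,
    one_smul]
  have e2 : (-2 * (z - 2)⁻¹) • a + ((1 - a) + (z * (z - 2)⁻¹) • a) =
      ((z - 2) * (z - 2)⁻¹) • a + (1 - a) := by module
  rw [e2, mul_inv_cancel₀ hz2, one_smul]
  abel

theorem rO_of_idem (a : M8) (ha : a * a = a) : rO a = a := by
  have key : spc ((-2 : ℂ) • a) (1 : M8) = 1 - a := by
    funext i j
    rw [spc]
    have h1 : ∀ θ : ℝ, Complex.exp (θ * Complex.I) *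
        (((-2 : ℂ) • a + Complex.exp (θ * Complex.I) • (1 : M8))⁻¹ * 1) i j =
        (1 - a) i j + a i j * (Complex.exp (θ * Complex.I) / (Complex.exp (θ * Complex.I) - 2)) := by
      intro θ
      rw [rO_of_idem_inv a ha _ (Complex.norm_exp_ofReal_mul_I θ), mul_one, Matrix.add_apply,
        Matrix.smul_apply, Matrix.smul_apply, smul_eq_mul, smul_eq_mul]
      have h0 : Complex.exp (θ * Complex.I) ≠ 0 := Complex.exp_ne_zero _
      rw [mul_add, ← mul_assoc, mul_inv_cancel₀ h0, one_mul, div_eq_mul_inv]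
      ring
    have h2 : ∫ θ in (0 : ℝ)..(2 * Real.pi), Complex.exp (θ * Complex.I) *
        (((-2 : ℂ) • a + Complex.exp (θ * Complex.I) • (1 : M8))⁻¹ * 1) i j =
        (2 * Real.pi) * (1 - a) i j := by
      rw [intervalIntegral.integral_congr (fun θ _ => h1 θ)]
      rw [intervalIntegral.integral_add, intervalIntegral.integral_const_mul, rO_of_idem_int,
        intervalIntegral.integral_const]
      · simp
      · exact intervalIntegrable_const
      · apply Continuous.intervalIntegrable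
        apply continuous_const.mul
        apply Continuous.div (by fun_prop) (by fun_prop)
        intro θ h
        have h3 : Complex.exp (θ * Complex.I) = 2 := by linear_combination h
        have h4 := Complex.norm_exp_ofReal_mul_I θ
        rw [h3] at h4
        norm_num at h4
    rw [h2]
    have hpi : (Real.pi : ℂ) ≠ 0 := by exact_mod_cast Real.pi_ne_zero
    field_simp
  rw [rO, key]
  abel

/-- maps homotopic to a constant in `OO` are conjugate to it -/
theorem conj_of_homotopic {E : Type} [TopologicalSpace E] [CompactSpace E] (u : C(E, OO))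
    (hu : ∀ e, (u e).1 * (u e).1 = (u e).1) (h0 : e0 ∈ OO)
    (h : Homotopic (ContinuousMap.const E (⟨e0, h0⟩ : OO)) u) :
    ∃ g : C(E, M8ˣ), ∀ e, (g e).1 * e0 = (u e).1 * (g e).1 := by
  obtain ⟨H⟩ := h
  have he0 : e0 * e0 = e0 := by
    unfold e0
    rw [Matrix.fromBlocks_multiply]
    simp
  have hc : Continuous (fun p : E × I => rO (H (p.2, p.1)).1) := by
    have h1 : Continuous (fun p : E × I => H (p.2, p.1)) :=
      H.continuous.comp (continuous_snd.prodMk continuous_fst)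
    exact rO_cont.comp h1
  obtain ⟨v, hv0, hv⟩ := idem_path (⟨fun p : E × I => rO (H (p.2, p.1)).1, hc⟩ : C(E × I, M8))
    (fun x => rO_idem _ (H (x.2, x.1)).2)
  refine ⟨⟨fun e => v (e, 1), v.continuous.comp (continuous_id.prodMk continuous_const)⟩,
    fun e => ?_⟩
  have h1 := hv e 1
  have h2 : (⟨fun p : E × I => rO (H (p.2, p.1)).1, hc⟩ : C(E × I, M8)) (e, 0) = e0 := by
    show rO (H (0, e)).1 = e0
    rw [H.apply_zero]
    exact rO_of_idem e0 he0
  have h3 : (⟨fun p : E × I => rO (H (p.2, p.1)).1, hc⟩ : C(E × I, M8)) (e, 1) = (u e).1 := by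
    show rO (H (1, e)).1 = (u e).1
    rw [H.apply_one]
    exact rO_of_idem _ (hu e)
  rw [h2, h3] at h1
  exact h1

theorem b11_aux (m : M8ˣ) (h : m.1 * e0 = e0 * m.1) :
    m.1.toBlocks₁₁ * m⁻¹.1.toBlocks₁₁ = 1 ∧ m⁻¹.1.toBlocks₁₁ * m.1.toBlocks₁₁ = 1 := by
  have hA := (Matrix.fromBlocks_toBlocks m.1).symm
  have hB := (Matrix.fromBlocks_toBlocks m⁻¹.1).symm
  obtain ⟨A, hAd⟩ : ∃ A, A = m.1.toBlocks₁₁ := ⟨_, rfl⟩
  obtain ⟨A2, hA2⟩ : ∃ A, A = m.1.toBlocks₁₂ := ⟨_, rfl⟩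
  obtain ⟨A3, hA3⟩ : ∃ A, A = m.1.toBlocks₂₁ := ⟨_, rfl⟩
  obtain ⟨A4, hA4⟩ : ∃ A, A = m.1.toBlocks₂₂ := ⟨_, rfl⟩
  obtain ⟨B, hBd⟩ : ∃ A, A = m⁻¹.1.toBlocks₁₁ := ⟨_, rfl⟩
  obtain ⟨B2, hB2⟩ : ∃ A, A = m⁻¹.1.toBlocks₁₂ := ⟨_, rfl⟩
  obtain ⟨B3, hB3⟩ : ∃ A, A = m⁻¹.1.toBlocks₂₁ := ⟨_, rfl⟩
  obtain ⟨B4, hB4⟩ : ∃ A, A = m⁻¹.1.toBlocks₂₂ := ⟨_, rfl⟩
  rw [← hAd, ← hA2, ← hA3, ← hA4] at hA
  rw [← hBd, ← hB2, ← hB3, ← hB4] at hB
  have h1 := m.val_inv
  have h2 := m.inv_val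
  have h1' : m.1 * m⁻¹.1 = 1 := h1
  have h2' : m⁻¹.1 * m.1 = 1 := h2
  rw [← hAd, ← hBd]
  rw [hA, hB, Matrix.fromBlocks_multiply, ← Matrix.fromBlocks_one, Matrix.fromBlocks_inj] at h1' h2'
  rw [hA] at h
  unfold e0 at h
  rw [Matrix.fromBlocks_multiply, Matrix.fromBlocks_multiply, Matrix.fromBlocks_inj] at h
  obtain ⟨_, e1, e2, _⟩ := h
  simp only [mul_one, one_mul, mul_zero, zero_mul, add_zero, zero_add] at e1 e2
  refine ⟨?_, ?_⟩
  · have h3 := h1'.1
    rw [← e1, zero_mul, add_zero] at h3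
    exact h3
  · have h3 := h2'.1
    rw [e2, mul_zero, add_zero] at h3
    exact h3

/-- the upper left block of a family of matrices commuting with `e0` -/
def b11 {S : Type} [TopologicalSpace S] (N : C(S, M8ˣ)) (h : ∀ s, (N s).1 * e0 = e0 * (N s).1) :
    C(S, M4ˣ) where
  toFun s :=
    { val := (N s).1.toBlocks₁₁
      inv := (N s)⁻¹.1.toBlocks₁₁
      val_inv := (b11_aux (N s) (h s)).1
      inv_val := (b11_aux (N s) (h s)).2 }
  continuous_toFun := by
    rw [Units.continuous_iff]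
    constructor
    · exact ((Units.continuous_val.comp N.continuous).matrix_submatrix Sum.inl Sum.inl)
    · exact ((Units.continuous_val.comp (continuous_inv.comp N.continuous)).matrix_submatrix Sum.inl Sum.inl)

theorem b11_mul_off (m : M8) (h : m * e0 = e0 * m) : m.toBlocks₁₂ = 0 := by
  have h1 := congrArg Matrix.toBlocks₁₂ h
  rw [← Matrix.fromBlocks_toBlocks m, e0, Matrix.fromBlocks_multiply, Matrix.fromBlocks_multiply] at h1
  simpa using h1.symm

theorem b11_mul_blk (m m' : M8) (h : m * e0 = e0 * m) :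
    (m * m').toBlocks₁₁ = m.toBlocks₁₁ * m'.toBlocks₁₁ := by
  have h1 := b11_mul_off m h
  conv_lhs => rw [← Matrix.fromBlocks_toBlocks m, ← Matrix.fromBlocks_toBlocks m', Matrix.fromBlocks_multiply]
  rw [Matrix.toBlocks_fromBlocks₁₁, h1, Matrix.zero_mul, add_zero]

theorem b11_mul {S : Type} [TopologicalSpace S] (N N' : C(S, M8ˣ)) (h : ∀ s, (N s).1 * e0 = e0 * (N s).1)
    (h' : ∀ s, (N' s).1 * e0 = e0 * (N' s).1) (h'' : ∀ s, ((N * N') s).1 * e0 = e0 * ((N * N') s).1) :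
    b11 (N * N') h'' = b11 N h * b11 N' h' := by
  apply ContinuousMap.ext
  intro s
  apply Units.ext
  exact b11_mul_blk (N s).1 (N' s).1 (h s)

theorem Fn_unitary_base (z : Circle) :
    (gamU (Matrix.single 0 0 1 : M4) (by simp) z).1 ∈ Matrix.unitaryGroup (Fin 4) ℂ := by
  rw [Matrix.mem_unitaryGroup_iff, gamU_val]
  have hs : star (Matrix.single 0 0 1 : M4) = Matrix.single 0 0 1 := by
    rw [Matrix.star_eq_conjTranspose, Matrix.conjTranspose_single]
    simp
  have he : (Matrix.single 0 0 1 : M4) * Matrix.single 0 0 1 = Matrix.single 0 0 1 := by simp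
  have hz : (z : ℂ) * star (z : ℂ) = 1 := by
    rw [Complex.star_def, Complex.mul_conj, Complex.normSq_eq_norm_sq, Circle.norm_coe]
    simp
  rw [star_add, star_sub, star_one, star_smul, hs]
  simp only [mul_add, add_mul, sub_mul, mul_sub, one_mul, mul_one, Matrix.smul_mul,
      Matrix.mul_smul, he, smul_smul]
  rw [mul_comm] at hz
  rw [hz]
  simp

theorem Fn_unitary_step (A : M4ˣ) (F : M4ˣ) (hA : A.1 ∈ Matrix.unitaryGroup (Fin 4) ℂ)
    (hF : F.1 ∈ Matrix.unitaryGroup (Fin 4) ℂ) :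
    (A * F * A⁻¹ * F⁻¹).1 ∈ Matrix.unitaryGroup (Fin 4) ℂ := by
  have h1 : ∀ B : M4ˣ, B.1 ∈ Matrix.unitaryGroup (Fin 4) ℂ →
      (B⁻¹).1 ∈ Matrix.unitaryGroup (Fin 4) ℂ := by
    intro B hB
    have h2 : B.1 * star B.1 = 1 := (Matrix.mem_unitaryGroup_iff).1 hB
    have h3 : (B⁻¹).1 = star B.1 := Units.inv_eq_of_mul_eq_one_right h2
    rw [h3]
    exact Unitary.star_mem hB
  show A.1 * F.1 * (A⁻¹).1 * (F⁻¹).1 ∈ _
  exact mul_mem (mul_mem (mul_mem hA hF) (h1 A hA)) (h1 F hF)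

theorem Fn_unitary (n : ℕ) (w : Wt n × Circle) : (Fn n w).1 ∈ Matrix.unitaryGroup (Fin 4) ℂ := by
  induction n with
  | zero => exact Fn_unitary_base w.2
  | succ n ih =>
    obtain ⟨⟨x, w'⟩, z⟩ := w
    obtain ⟨y, rfl⟩ := qY_surj (oo n) x
    have h1 : Fn (n + 1) ((qY (oo n) y, w'), z) =
        zzU y * Fn n (w', z) * (zzU y)⁻¹ * (Fn n (w', z))⁻¹ := cm_apply (oo n) (Fn n) y w' z
    rw [h1]
    exact Fn_unitary_step _ _ (zz_mem y (Dk_le y)).1 (ih _)

/-- invertible matrices close to a family with bounded inverse define the same class -/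
theorem close_homotopic {T : Type} [TopologicalSpace T] (F G : C(T, M4ˣ))
    (h : ∀ t, ∀ s : ℝ, 0 ≤ s → s ≤ 1 → IsUnit ((1 - s : ℂ) • (F t).1 + (s : ℂ) • (G t).1)) :
    Homotopic F G := by
  have hu : ∀ p : I × T, IsUnit ((1 - ((p.1 : ℝ) : ℂ)) • (F p.2).1 + ((p.1 : ℝ) : ℂ) • (G p.2).1) :=
    fun p => h p.2 p.1 p.1.2.1 p.1.2.2
  have hc : Continuous fun p : I × T =>
      (1 - ((p.1 : ℝ) : ℂ)) • (F p.2).1 + ((p.1 : ℝ) : ℂ) • (G p.2).1 := by
    have h1 : Continuous fun p : I × T => ((p.1 : ℝ) : ℂ) :=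
      Complex.continuous_ofReal.comp (continuous_subtype_val.comp continuous_fst)
    have h2 : Continuous fun p : I × T => (F p.2).1 :=
      Units.continuous_val.comp (F.continuous.comp continuous_snd)
    have h3 : Continuous fun p : I × T => (G p.2).1 :=
      Units.continuous_val.comp (G.continuous.comp continuous_snd)
    exact ((continuous_const.sub h1).smul h2).add (h1.smul h3)
  have hH : Continuous fun p : I × T => (hu p).unit := by
    rw [Units.continuous_iff]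
    refine ⟨hc, ?_⟩
    have h4 : (fun p : I × T => (((hu p).unit⁻¹ : M4ˣ) : M4)) = fun p : I × T =>
        (((1 - ((p.1 : ℝ) : ℂ)) • (F p.2).1 + ((p.1 : ℝ) : ℂ) • (G p.2).1).det)⁻¹ •
          ((1 - ((p.1 : ℝ) : ℂ)) • (F p.2).1 + ((p.1 : ℝ) : ℂ) • (G p.2).1).adjugate := by
      funext p
      rw [Matrix.coe_units_inv, IsUnit.unit_spec, Matrix.inv_def, Ring.inverse_eq_inv']
    rw [h4]
    refine Continuous.smul (Continuous.inv₀ hc.matrix_det fun p => ?_) hc.matrix_adjugate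
    exact ((Matrix.isUnit_iff_isUnit_det _).mp (hu p)).ne_zero
  refine ⟨{ toFun := fun p => (hu p).unit, continuous_toFun := hH, map_zero_left := ?_,
            map_one_left := ?_ }⟩
  · intro t
    apply Units.ext
    show (1 - (((0 : I) : ℝ) : ℂ)) • (F t).1 + (((0 : I) : ℝ) : ℂ) • (G t).1 = (F t).1
    simp
  · intro t
    apply Units.ext
    show (1 - (((1 : I) : ℝ) : ℂ)) • (F t).1 + (((1 : I) : ℝ) : ℂ) • (G t).1 = (G t).1
    simp

theorem jn_unit_compact : IsCompact {x : M4 | x ∈ Matrix.unitaryGroup (Fin 4) ℂ} := by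
  have h1 : IsCompact (Set.pi Set.univ (fun _ : Fin 4 => Set.pi Set.univ
      (fun _ : Fin 4 => Metric.closedBall (0 : ℂ) 1)) : Set (Fin 4 → Fin 4 → ℂ)) :=
    isCompact_univ_pi fun _ => isCompact_univ_pi fun _ => isCompact_closedBall _ _
  refine IsCompact.of_isClosed_subset (X := M4) h1 ?_ ?_
  · have : {x : M4 | x ∈ Matrix.unitaryGroup (Fin 4) ℂ} = {x : M4 | x * star x = 1} := by
      ext x
      exact Matrix.mem_unitaryGroup_iff
    rw [this]
    exact isClosed_eq (continuous_id.mul continuous_star) continuous_const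
  · intro x hx i _ j _
    rw [mem_closedBall_zero_iff]
    exact entry_norm_bound_of_unitary hx i j

theorem jn_nhds_diag (P : M4) (hP : IsUnit P) : ∀ᶠ q : M4 × M4 in 𝓝 (P, P),
    ∀ s ∈ Set.Icc (0 : ℝ) 1, IsUnit ((1 - s : ℂ) • q.1 + (s : ℂ) • q.2) := by
  refine IsCompact.eventually_forall_of_forall_eventually isCompact_Icc ?_
  intro s hs
  have hc : Continuous fun z : (M4 × M4) × ℝ =>
      Matrix.det ((1 - z.2 : ℂ) • z.1.1 + (z.2 : ℂ) • z.1.2) := by
    apply Continuous.matrix_det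
    fun_prop
  have h0 : Matrix.det ((1 - s : ℂ) • P + (s : ℂ) • P) ≠ 0 := by
    rw [← add_smul, sub_add_cancel, one_smul]
    exact ((Matrix.isUnit_iff_isUnit_det P).1 hP).ne_zero
  have := hc.continuousAt.eventually_ne (x := (((P, P), s) : (M4 × M4) × ℝ)) h0
  filter_upwards [this] with z hz
  exact (Matrix.isUnit_iff_isUnit_det _).2 (isUnit_iff_ne_zero.2 hz)

section
variable {E : Type} [MetricSpace E] [CompactSpace E]

theorem jn_inv (u : C(E, M8)) (g : C(E, M8ˣ)) (hg : ∀ e, (g e).1 * e0 = u e * (g e).1) (e : E) :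
    (g e)⁻¹.1 * u e = e0 * (g e)⁻¹.1 := by
  have h1 : (g e)⁻¹.1 * (g e).1 = 1 := (g e).inv_mul
  have h2 : (g e).1 * (g e)⁻¹.1 = 1 := (g e).mul_inv
  calc (g e)⁻¹.1 * u e = (g e)⁻¹.1 * u e * ((g e).1 * (g e)⁻¹.1) := by rw [h2, mul_one]
    _ = (g e)⁻¹.1 * (u e * (g e).1) * (g e)⁻¹.1 := by simp only [mul_assoc]
    _ = (g e)⁻¹.1 * ((g e).1 * e0) * (g e)⁻¹.1 := by rw [hg]
    _ = ((g e)⁻¹.1 * (g e).1) * e0 * (g e)⁻¹.1 := by simp only [mul_assoc]
    _ = e0 * (g e)⁻¹.1 := by rw [h1, one_mul]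

theorem jn_thick {X : Type} [TopologicalSpace X] (c : X → M8) (x0 : X) (h : ContinuousAt c x0) :
    ContinuousAt (fun x => (c x).toBlocks₁₁) x0 := by
  have : Continuous fun A : M8 => A.toBlocks₁₁ := by
    show Continuous fun A : M8 => A.submatrix Sum.inl Sum.inl
    exact continuous_id.matrix_submatrix _ _
  exact this.continuousAt.comp h

theorem jn_unif (u : C(E, M8)) (g : C(E, M8ˣ)) (hg : ∀ e, (g e).1 * e0 = u e * (g e).1) :
    ∃ η > (0 : ℝ), ∀ (e' e : E) (x : M4) (t : ℝ), u e = e0 → x ∈ Matrix.unitaryGroup (Fin 4) ℂ →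
      dist e' e ≤ η → |t| ≤ η → ∀ s ∈ Set.Icc (0 : ℝ) 1,
      IsUnit ((1 - s : ℂ) • ((g e')⁻¹.1 * Um x t).toBlocks₁₁ + (s : ℂ) • ((g e)⁻¹.1).toBlocks₁₁) := by
  let _ : NormedAddCommGroup M4 := Matrix.normedAddCommGroup
  let U : Set (E × (E × (M4 × ℝ))) := {p | ∀ s ∈ Set.Icc (0 : ℝ) 1,
    IsUnit ((1 - s : ℂ) • ((g p.1)⁻¹.1 * Um p.2.2.1 p.2.2.2).toBlocks₁₁ +
      (s : ℂ) • ((g p.2.1)⁻¹.1).toBlocks₁₁)}
  let KK : Set (E × (E × (M4 × ℝ))) := (fun q : E × M4 => (q.1, (q.1, (q.2, (0 : ℝ))))) ''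
    ({e | u e = e0} ×ˢ {x : M4 | x ∈ Matrix.unitaryGroup (Fin 4) ℂ})
  have hK : IsCompact KK := by
    refine IsCompact.image ?_ (by fun_prop)
    refine IsCompact.prod ?_ jn_unit_compact
    exact (isClosed_eq u.continuous continuous_const).isCompact
  have hKU : KK ⊆ interior U := by
    rintro _ ⟨⟨e, x⟩, ⟨he, hx⟩, rfl⟩
    have he' : u e = e0 := he
    have hx' : x ∈ Matrix.unitaryGroup (Fin 4) ℂ := hx
    rw [mem_interior_iff_mem_nhds]
    have hxu : IsUnit x := by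
      refine ⟨⟨x, star x, Matrix.mem_unitaryGroup_iff.1 hx', Matrix.mem_unitaryGroup_iff'.1 hx'⟩, rfl⟩
    have hP : IsUnit ((g e)⁻¹.1).toBlocks₁₁ := by
      have := b11_aux (g e) (by rw [hg, he'])
      exact ⟨⟨_, _, this.2, this.1⟩, rfl⟩
    have hu0 : ((g e)⁻¹.1 * Um x 0).toBlocks₁₁ = ((g e)⁻¹.1).toBlocks₁₁ := by
      rw [(Um_zero x hxu).1, mul_one]
    have hc : ContinuousAt (fun p : E × (E × (M4 × ℝ)) =>
        (((g p.1)⁻¹.1 * Um p.2.2.1 p.2.2.2).toBlocks₁₁, ((g p.2.1)⁻¹.1).toBlocks₁₁))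
        (e, (e, (x, (0 : ℝ)))) := by
      have hgi : Continuous fun e : E => (g e)⁻¹.1 :=
        Units.continuous_val.comp (continuous_inv.comp g.continuous)
      refine ContinuousAt.prodMk ?_ ?_
      · apply jn_thick
        refine ContinuousAt.mul (hgi.comp continuous_fst).continuousAt ?_
        have h1 := (Um_contAt x hxu 0).1
        have h2 : ContinuousAt (fun p : E × (E × (M4 × ℝ)) => p.2.2) (e, (e, (x, (0 : ℝ)))) := by
          fun_prop
        exact ContinuousAt.comp (f := fun p : E × (E × (M4 × ℝ)) => p.2.2)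
          (g := fun q : M4 × ℝ => Um q.1 q.2) (x := (e, (e, (x, (0 : ℝ))))) h1 h2
      · apply jn_thick
        exact (hgi.comp (by fun_prop)).continuousAt
    have hd := jn_nhds_diag _ hP
    have hc2 : Filter.Tendsto (fun p : E × (E × (M4 × ℝ)) =>
        (((g p.1)⁻¹.1 * Um p.2.2.1 p.2.2.2).toBlocks₁₁, ((g p.2.1)⁻¹.1).toBlocks₁₁))
        (𝓝 (e, (e, (x, (0 : ℝ))))) (𝓝 (((g e)⁻¹.1).toBlocks₁₁, ((g e)⁻¹.1).toBlocks₁₁)) := by
      have := hc.tendsto
      simp only [hu0] at this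
      exact this
    exact hc2.eventually hd
  obtain ⟨δ, hδ, hsub⟩ := hK.exists_thickening_subset_open isOpen_interior hKU
  refine ⟨δ / 2, by positivity, fun e' e x t he hx hd ht s hs => ?_⟩
  have hmem : (e', (e, (x, t))) ∈ Metric.thickening δ KK := by
    rw [Metric.mem_thickening_iff]
    refine ⟨(e, (e, (x, (0 : ℝ)))), ⟨(e, x), ⟨he, hx⟩, rfl⟩, ?_⟩
    rw [Prod.dist_eq, Prod.dist_eq, Prod.dist_eq]
    simp only [dist_self, max_lt_iff, hδ, true_and]
    refine ⟨by linarith, ?_⟩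
    rw [Real.dist_eq, sub_zero]
    linarith
  exact interior_subset (hsub hmem) s hs

end

/-- the rotation as a unit -/
def jnU (x : M4ˣ) (t : ℝ) : M8ˣ := ⟨Um x.1 t, Ui x.1 t, (Um_Ui x.1 x.isUnit t).1, (Um_Ui x.1 x.isUnit t).2⟩

theorem jnU_cont {X : Type} [TopologicalSpace X] (x : X → M4ˣ) (t : X → ℝ) (hx : Continuous x)
    (ht : Continuous t) : Continuous fun q => jnU (x q) (t q) := by
  have h2 : Continuous fun q => ((x q).1, t q) := (Units.continuous_val.comp hx).prodMk ht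
  rw [Units.continuous_iff]
  constructor
  · rw [continuous_iff_continuousAt]
    intro q
    exact ContinuousAt.comp (f := fun q => ((x q).1, t q)) (g := fun q : M4 × ℝ => Um q.1 q.2) (x := q)
      (Um_contAt (x q).1 (x q).isUnit (t q)).1 h2.continuousAt
  · rw [continuous_iff_continuousAt]
    intro q
    exact ContinuousAt.comp (f := fun q => ((x q).1, t q)) (g := fun q : M4 × ℝ => Ui q.1 q.2) (x := q)
      (Um_contAt (x q).1 (x q).isUnit (t q)).2 h2.continuousAt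

/-- end inclusion -/
def jnI (X : Type) [TopologicalSpace X] (s : I) : C(X, X × I) := ⟨fun w => (w, s), by fun_prop⟩

theorem jn_cyl {X Y : Type} [TopologicalSpace X] [TopologicalSpace Y] (β : C(X × I, Y)) :
    Homotopic (β.comp (jnI X 0)) (β.comp (jnI X 1)) :=
  ⟨{ toFun := fun p => β (p.2, p.1)
     continuous_toFun := by fun_prop
     map_zero_left := fun x => rfl
     map_one_left := fun x => rfl }⟩

/-- the final contradiction -/
theorem no_conj {B E : Type} [TopologicalSpace B] [CompactSpace B] [MetricSpace E] [CompactSpace E]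
    (u : C(E, M8)) (g : C(E, M8ˣ)) (hg : ∀ e, (g e).1 * e0 = u e * (g e).1)
    (sg κ : C(B, E)) (hsg : ∀ b, u (sg b) = e0) (hκ : ∀ b, u (κ b) = e0)
    (H : ∀ η > (0 : ℝ), ∃ (n : ℕ) (bb : C(Wt (n + 1), B)) (α γ : C((Wt (n + 1) × Circle) × I, E))
      (τ : C((Wt (n + 1) × Circle) × I, I)),
      (∀ w s, u (α (w, s)) = em (Fn (n + 1) w).1 (τ (w, s))) ∧ (∀ w, τ (w, 1) = 1) ∧
      (∀ w, (τ (w, 0) : ℝ) ≤ η) ∧ (∀ w, dist (α (w, 0)) (sg (bb w.1)) ≤ η) ∧
      (∀ w, γ (w, 0) = α (w, 1)) ∧ (∀ w, γ (w, 1) = κ (bb w.1)) ∧ (∀ q, u (γ q) = e0)) : False := by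
  obtain ⟨η, hη, hunif⟩ := jn_unif u g hg
  obtain ⟨n, bb, α, γ, τ, hα, hτ1, hτ0, hdist, hγ0, hγ1, hγu⟩ := H η hη
  -- the blocks over `B`
  have hcs : ∀ b, ((g.comp sg) b).1 * e0 = e0 * ((g.comp sg) b).1 := by
    intro b
    show (g (sg b)).1 * e0 = e0 * (g (sg b)).1
    rw [hg, hsg]
  have hck : ∀ b, ((g.comp κ) b).1 * e0 = e0 * ((g.comp κ) b).1 := by
    intro b
    show (g (κ b)).1 * e0 = e0 * (g (κ b)).1
    rw [hg, hκ]
  have hcg : ∀ q, ((g.comp γ) q).1 * e0 = e0 * ((g.comp γ) q).1 := by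
    intro q
    show (g (γ q)).1 * e0 = e0 * (g (γ q)).1
    rw [hg, hγu]
  let A0 : C(B, M4ˣ) := b11 (g.comp sg) hcs
  let A1 : C(B, M4ˣ) := b11 (g.comp κ) hck
  let GG : C((Wt (n + 1) × Circle) × I, M4ˣ) := b11 (g.comp γ) hcg
  let N : C((Wt (n + 1) × Circle) × I, M8ˣ) :=
    ⟨fun q => (g (α q))⁻¹ * jnU (Fn (n + 1) q.1) (τ q : ℝ), by
      have h1 : Continuous fun q : (Wt (n + 1) × Circle) × I => (g (α q))⁻¹ :=
        continuous_inv.comp (g.continuous.comp α.continuous)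
      have h2 : Continuous fun q : (Wt (n + 1) × Circle) × I => jnU (Fn (n + 1) q.1) (τ q : ℝ) :=
        jnU_cont _ _ ((Fn (n + 1)).continuous.comp continuous_fst)
          (continuous_subtype_val.comp τ.continuous)
      exact h1.mul h2⟩
  have hNval : ∀ q, (N q).1 = (g (α q))⁻¹.1 * Um (Fn (n + 1) q.1).1 (τ q : ℝ) := fun q => rfl
  have hN : ∀ q, (N q).1 * e0 = e0 * (N q).1 := by
    rintro ⟨w, s⟩
    have hx : IsUnit (Fn (n + 1) w).1 := (Fn (n + 1) w).isUnit
    have h1 : em (Fn (n + 1) w).1 (τ (w, s)) * Um (Fn (n + 1) w).1 (τ (w, s)) =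
        Um (Fn (n + 1) w).1 (τ (w, s)) * e0 := by
      rw [em, mul_assoc, (Um_Ui _ hx _).2, mul_one]
    rw [hNval, mul_assoc]
    show (g (α (w, s)))⁻¹.1 * (Um (Fn (n + 1) w).1 (τ (w, s)) * e0) = _
    rw [← h1, ← hα, ← mul_assoc, jn_inv u g hg, mul_assoc]
  let β : C((Wt (n + 1) × Circle) × I, M4ˣ) := b11 N hN
  -- the classes
  have e1 : K1.mk (β.comp (jnI _ 0)) = K1.mk (β.comp (jnI _ 1)) := K1.mk_hom (jn_cyl β)
  have e2 : K1.mk (GG.comp (jnI _ 0)) = K1.mk (GG.comp (jnI _ 1)) := K1.mk_hom (jn_cyl GG)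
  have e3 : GG.comp (jnI _ 1) = A1.comp (bb.comp ContinuousMap.fst) := by
    ext1 w
    apply Units.ext
    show (g (γ (w, 1))).1.toBlocks₁₁ = (g (κ (bb w.1))).1.toBlocks₁₁
    rw [hγ1]
  have e4 : β.comp (jnI _ 1) = (GG.comp (jnI _ 0))⁻¹ * Fn (n + 1) := by
    ext1 w
    apply Units.ext
    show ((g (α (w, 1)))⁻¹.1 * Um (Fn (n + 1) w).1 (τ (w, 1) : ℝ)).toBlocks₁₁ =
      ((g (γ (w, 0)))⁻¹.1).toBlocks₁₁ * (Fn (n + 1) w).1
    rw [hτ1, hγ0]
    show ((g (α (w, 1)))⁻¹.1 * Um (Fn (n + 1) w).1 1).toBlocks₁₁ = _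
    rw [(Um_one _ (Fn (n + 1) w).isUnit).1]
    conv_lhs => rw [← Matrix.fromBlocks_toBlocks ((g (α (w, 1)))⁻¹.1)]
    rw [Matrix.fromBlocks_multiply, Matrix.toBlocks_fromBlocks₁₁, mul_zero, add_zero]
  have e5 : K1.mk (β.comp (jnI _ 0)) = K1.mk ((A0.comp (bb.comp ContinuousMap.fst))⁻¹ :
      C(Wt (n + 1) × Circle, M4ˣ)) := by
    apply K1.mk_hom
    apply close_homotopic
    intro w s hs0 hs1
    have := hunif (α (w, 0)) (sg (bb w.1)) (Fn (n + 1) w).1 (τ (w, 0)) (hsg _) (Fn_unitary _ _)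
      (hdist w) (by rw [abs_of_nonneg (τ (w, 0)).2.1]; exact hτ0 w) s ⟨hs0, hs1⟩
    exact this
  have e6 : K1.mk (Fn (n + 1)) =
      K1.map (bb.comp ContinuousMap.fst) (K1.mk A1 - K1.mk A0) := by
    rw [e5, e4, K1.mk_mul, K1.mk_inv, K1.mk_inv, e2, e3] at e1
    rw [map_sub, K1.map_mk, K1.map_mk]
    have : K1.mk (Fn (n + 1)) = K1.mk (A1.comp (bb.comp ContinuousMap.fst)) +
      (-K1.mk (A1.comp (bb.comp ContinuousMap.fst)) + K1.mk (Fn (n + 1))) := by abel
    rw [this, ← e1]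
    abel
  have e7 : K1.map (atOne _) (K1.mk (Fn (n + 1))) = K1.mk (Fn (n + 1)) := by
    rw [e6, K1.map_comp]
    rfl
  have e8 : (Fn (n + 1)).comp (atOne _) = 1 := by
    ext1 w
    exact Fn_one (n + 1) w.1
  rw [K1.map_mk, e8, K1.mk_one] at e7
  exact Fn_ne (n + 1) e7.symm

end BB
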