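import Pool.Agent.Helper194.BB.N
import Pool.Agent.Helper194.BB.G1

set_option autoImplicit false
set_option linter.unusedVariables false
set_option linter.unusedSectionVars false

open scoped unitInterval Matrix Topology ComplexConjugate Kronecker
open ContinuousMap Topology

noncomputable section

namespace BB

section
variable {P B C : Type} [TopologicalSpace P] [CompactSpace P] [MetricSpace B] [CompactSpace B]
  [MetricSpace C] [CompactSpace C]

theorem exists_ds_aux {X : Type} [TopologicalSpace X] [CompactSpace X] (f : X → ℝ) (hf : Continuous f)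
    (S : Set X) (hS : IsClosed S) (hpos : ∀ x ∈ S, 0 < f x) : ∃ m : ℝ, 0 < m ∧ ∀ x ∈ S, m ≤ f x := by
  rcases S.eq_empty_or_nonempty with h | h
  · exact ⟨1, one_pos, fun x hx => absurd hx (by rw [h]; exact Set.notMem_empty x)⟩
  · obtain ⟨x, hx, hm⟩ := hS.isCompact.exists_isMinOn h hf.continuousOn
    exact ⟨f x, hpos x hx, fun y hy => hm hy⟩

/-- the threshold -/
theorem exists_ds (D : FD P B C) (x0 : C(C, M4)) (hx0 : ∀ u c, x0 (D.a u c) = x0 c)
    (hx0K : ∀ c ∈ D.K, IsUnit (x0 c)) (s0 : C(C, ℝ)) (hs0 : ∀ u c, s0 (D.a u c) = s0 c)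
    (hs0K : ∀ c ∈ D.K, s0 c = 0) :
    ∃ ds : ℝ, 0 < ds ∧ (∀ b c, D.dl b c ≤ 2 * ds → IsUnit (x0 c)) ∧ ∀ b c, s0 c = 1 → ds ≤ D.dl b c := by
  have hpos : ∀ (b : B) (c : C), D.dl b c ≠ 0 → 0 < D.dl b c := fun b c h =>
    lt_of_le_of_ne (D.dl_nonneg b c) (Ne.symm h)
  obtain ⟨m1, hm1, H1⟩ := exists_ds_aux (fun q : B × C => D.dl q.1 q.2) D.dl_cont
    {q : B × C | (x0 q.2).det = 0} (by
      refine isClosed_eq ?_ continuous_const
      exact (x0.continuous.comp continuous_snd).matrix_det) (by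
      rintro ⟨b, c⟩ hq
      obtain ⟨u, rfl⟩ := D.hπ b
      refine hpos _ _ fun h0 => ?_
      have h1 := hx0K _ ((D.dl_zero u c).1 h0)
      rw [hx0, Matrix.isUnit_iff_isUnit_det] at h1
      exact h1.ne_zero hq)
  obtain ⟨m2, hm2, H2⟩ := exists_ds_aux (fun q : B × C => D.dl q.1 q.2) D.dl_cont
    {q : B × C | s0 q.2 = 1} (by
      refine isClosed_eq ?_ continuous_const
      exact s0.continuous.comp continuous_snd) (by
      rintro ⟨b, c⟩ hq
      obtain ⟨u, rfl⟩ := D.hπ b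
      refine hpos _ _ fun h0 => ?_
      have h1 := hs0K _ ((D.dl_zero u c).1 h0)
      rw [hs0] at h1
      have h2 : s0 c = 1 := hq
      rw [h1] at h2
      exact zero_ne_one h2)
  refine ⟨min (m1 / 3) m2, lt_min (by positivity) hm2, fun b c h => ?_, fun b c h => ?_⟩
  · by_contra hu
    have h1 : (x0 c).det = 0 := by
      by_contra h2
      exact hu ((Matrix.isUnit_iff_isUnit_det _).2 (isUnit_iff_ne_zero.2 h2))
    have h3 := H1 (b, c) h1
    have h4 : min (m1 / 3) m2 ≤ m1 / 3 := min_le_left _ _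
    simp only at h3
    linarith
  · exact (min_le_right _ _).trans (H2 (b, c) h)

theorem em_contAt_aux (x : M4) (hx : IsUnit x) (t : ℝ) :
    ContinuousAt (fun q : M4 × ℝ => em q.1 q.2) (x, t) := by
  have h := Um_contAt x hx t
  have h2 : ContinuousAt (fun q : M4 × ℝ => Um q.1 q.2 * e0) (x, t) :=
    ContinuousAt.mul h.1 continuousAt_const
  have h3 : ContinuousAt (fun q : M4 × ℝ => Um q.1 q.2 * e0 * Ui q.1 q.2) (x, t) :=
    ContinuousAt.mul h2 h.2
  exact h3

/-- the map to idempotents -/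
theorem exists_ue (D : FD P B C) (x0 : C(C, M4)) (ds : ℝ) (hds : 0 < ds)
    (h1 : ∀ b c, D.dl b c ≤ 2 * ds → IsUnit (x0 c)) :
    ∃ u : C(D.E, M8), (∀ b c, D.dl b c ≤ 2 * ds → u (D.Q (b, c)) = em (x0 c) (min 1 (D.dl b c / ds))) ∧
      (∀ b c, ds ≤ D.dl b c → u (D.Q (b, c)) = e0) ∧ ∀ e, u e * u e = u e := by
  classical
  have hone : ∀ b c, ds ≤ D.dl b c → min 1 (D.dl b c / ds) = 1 := by
    intro b c hh
    apply min_eq_left
    rw [le_div_iff₀ hds]; linarith
  let v : B × C → M8 := fun q =>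
    if D.dl q.1 q.2 < 2 * ds then em (x0 q.2) (min 1 (D.dl q.1 q.2 / ds)) else e0
  have hv1 : ∀ q : B × C, D.dl q.1 q.2 < 2 * ds →
      v q = em (x0 q.2) (min 1 (D.dl q.1 q.2 / ds)) := fun q hq => if_pos hq
  have hv2 : ∀ q : B × C, ds ≤ D.dl q.1 q.2 → v q = e0 := by
    intro q hq
    by_cases hlt : D.dl q.1 q.2 < 2 * ds
    · rw [hv1 q hlt, hone _ _ hq]
      exact em_one _ (h1 q.1 q.2 hlt.le)
    · exact if_neg hlt
  have hvc : Continuous v := by
    rw [continuous_iff_continuousAt]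
    intro q
    by_cases hlt : D.dl q.1 q.2 < 2 * ds
    · have hev : v =ᶠ[𝓝 q] fun q => em (x0 q.2) (min 1 (D.dl q.1 q.2 / ds)) := by
        filter_upwards [(isOpen_lt D.dl_cont continuous_const).mem_nhds hlt] with q' hq'
        exact hv1 q' hq'
      refine ContinuousAt.congr ?_ hev.symm
      have hU := em_contAt_aux (x0 q.2) (h1 q.1 q.2 hlt.le) (min 1 (D.dl q.1 q.2 / ds))
      have hg : ContinuousAt (fun q : B × C => ((x0 q.2, min 1 (D.dl q.1 q.2 / ds)) : M4 × ℝ)) q := by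
        have h1' : Continuous (fun q : B × C => x0 q.2) := x0.continuous.comp continuous_snd
        have h2' : Continuous (fun q : B × C => min (1:ℝ) (D.dl q.1 q.2 / ds)) :=
          continuous_const.min (D.dl_cont.div_const _)
        exact (h1'.prodMk h2').continuousAt
      exact ContinuousAt.comp (g := fun q : M4 × ℝ => em q.1 q.2)
        (f := fun q : B × C => ((x0 q.2, min 1 (D.dl q.1 q.2 / ds)) : M4 × ℝ)) hU hg
    · have hgt : ds < D.dl q.1 q.2 := by linarith
      have hev : v =ᶠ[𝓝 q] fun _ => e0 := by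
        filter_upwards [(isOpen_lt continuous_const D.dl_cont).mem_nhds hgt] with q' hq'
        exact hv2 q' (le_of_lt hq')
      exact ContinuousAt.congr continuousAt_const hev.symm
  have hfib : ∀ x y : B × C, D.Q x = D.Q y → v x = v y := by
    intro x y hxy
    obtain ⟨hb, hc | ⟨hx, hy⟩⟩ := (D.Q_eq_iff x y).1 hxy
    · have : x = y := Prod.ext hb hc
      rw [this]
    · have e1 : v x = e0 := by
        rw [hv1 x (by rw [hx]; linarith), hx, zero_div, min_eq_right zero_le_one]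
        exact em_zero _ (h1 x.1 x.2 (by rw [hx]; linarith))
      have e2 : v y = e0 := by
        rw [hv1 y (by rw [hy]; linarith), hy, zero_div, min_eq_right zero_le_one]
        exact em_zero _ (h1 y.1 y.2 (by rw [hy]; linarith))
      rw [e1, e2]
  have hquot : IsQuotientMap D.Q :=
    D.Q.continuous.isClosedMap.isQuotientMap D.Q.continuous D.Q_surj
  let w : D.E → M8 := fun e => v (Function.surjInv D.Q_surj e)
  have hwQ : ∀ x, w (D.Q x) = v x := fun x => hfib _ _ (Function.surjInv_eq D.Q_surj (D.Q x))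
  have hwc : Continuous w := by
    rw [hquot.continuous_iff]
    have : w ∘ D.Q = v := funext hwQ
    rw [this]
    exact hvc
  refine ⟨⟨w, hwc⟩, ?_, ?_, ?_⟩
  · intro b c hle
    show w (D.Q (b, c)) = _
    rw [hwQ]
    by_cases hlt : D.dl b c < 2 * ds
    · exact hv1 (b, c) hlt
    · have h' : ds ≤ D.dl b c := by linarith
      rw [hv2 (b, c) h', hone _ _ h']
      exact (em_one _ (h1 b c hle)).symm
  · intro b c hle
    show w (D.Q (b, c)) = _
    rw [hwQ]
    exact hv2 (b, c) hle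
  · intro e
    obtain ⟨x, rfl⟩ := D.Q_surj e
    show w (D.Q x) * w (D.Q x) = w (D.Q x)
    rw [hwQ]
    by_cases hlt : D.dl x.1 x.2 < 2 * ds
    · rw [hv1 x hlt]
      exact em_idem _ (h1 x.1 x.2 hlt.le) _
    · rw [hv2 x (by linarith)]
      simp [e0, Matrix.fromBlocks_multiply]

theorem e0_idem' : e0 * e0 = e0 := by
  simp [e0, Matrix.fromBlocks_multiply]

/-- slice -/
def qs (D : FD P B C) (c : C) : C(B, D.E) := D.Q.comp ⟨fun b => (b, c), by fun_prop⟩

theorem qs_apply (D : FD P B C) (c : C) (b : B) : qs D c b = D.Q (b, c) := rfl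

/-- push forward of a homotopy -/
def qa {S : Type} [TopologicalSpace S] (D : FD P B C) (bb : C(S, B))
    (α : C((S × Circle) × I, C)) : C((S × Circle) × I, D.E) :=
  D.Q.comp ⟨fun q => (bb q.1.1, α q), by fun_prop⟩

theorem qa_apply {S : Type} [TopologicalSpace S] (D : FD P B C) (bb : C(S, B))
    (α : C((S × Circle) × I, C)) (w : S × Circle) (s : I) :
    qa D bb α (w, s) = D.Q (bb w.1, α (w, s)) := rfl

theorem qt_mem (x ds : ℝ) (hx : 0 ≤ x) (hds : 0 < ds) : min 1 (x / ds) ∈ Set.Icc (0:ℝ) 1 :=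
  ⟨le_min zero_le_one (div_nonneg hx hds.le), min_le_left _ _⟩

/-- the time function -/
def qt {S : Type} [TopologicalSpace S] (D : FD P B C) (ds : ℝ) (hds : 0 < ds) (bb : C(S, B))
    (α : C((S × Circle) × I, C)) : C((S × Circle) × I, I) where
  toFun q := ⟨min 1 (D.dl (bb q.1.1) (α q) / ds), qt_mem _ _ (D.dl_nonneg _ _) hds⟩
  continuous_toFun := by
    have h0 : Continuous fun q : (S × Circle) × I => (bb q.1.1, α q) := by fun_prop
    have h1 := D.dl_cont.comp h0
    have h2 : Continuous fun x : ℝ => min 1 (x / ds) := by fun_prop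
    exact Continuous.subtype_mk (h2.comp h1) _

theorem qt_apply {S : Type} [TopologicalSpace S] (D : FD P B C) (ds : ℝ) (hds : 0 < ds)
    (bb : C(S, B)) (α : C((S × Circle) × I, C)) (w : S × Circle) (s : I) :
    ((qt D ds hds bb α (w, s) : I) : ℝ) = min 1 (D.dl (bb w.1) (α (w, s)) / ds) := rfl

/-- the total spaces are not shape equivalent to the base -/
theorem no_map (D : FD P B C) (x0 : C(C, M4)) (hx0 : ∀ u c, x0 (D.a u c) = x0 c)
    (hx0K : ∀ c ∈ D.K, IsUnit (x0 c)) (s0 : C(C, ℝ)) (hs0 : ∀ u c, s0 (D.a u c) = s0 c)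
    (hs0K : ∀ c ∈ D.K, s0 c = 0) (cst : C) (hcst : ∀ u, D.a u cst = cst) (hcK : cst ∈ D.K)
    (cend : C) (hend : s0 cend = 1)
    (H : ∀ η > (0 : ℝ), ∃ (n : ℕ) (bb : C(Wt (n + 1), B)) (α γ : C((Wt (n + 1) × Circle) × I, C)),
      (∀ w, D.dl (bb w.1) (α (w, 0)) ≤ η) ∧ (∀ w s, x0 (α (w, s)) = (Fn (n + 1) w).1) ∧
      (∀ w, s0 (α (w, 1)) = 1) ∧ (∀ w, γ (w, 0) = α (w, 1)) ∧ (∀ w, γ (w, 1) = cend) ∧
      ∀ q, s0 (γ q) = 1) :
    ∃ u0 : C(D.E, OO), ∀ w : C(B, OO), ¬ Homotopic (w.comp D.p) u0 := by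
  obtain ⟨ds, hds, hU, hS⟩ := exists_ds D x0 hx0 hx0K s0 hs0 hs0K
  obtain ⟨u, hu1, hu2, hu3⟩ := exists_ue D x0 ds hds hU
  have hdc : ∀ b, D.dl b cst = 0 := by
    intro b
    obtain ⟨v, rfl⟩ := D.hπ b
    rw [D.dl_zero, hcst]
    exact hcK
  have hsg : ∀ b, u (qs D cst b) = e0 := by
    intro b
    rw [qs_apply, hu1 b cst (by rw [hdc]; positivity), hdc, zero_div, min_eq_right zero_le_one]
    exact em_zero _ (hx0K _ hcK)
  have hκ : ∀ b, u (qs D cend b) = e0 := by
    intro b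
    rw [qs_apply]
    exact hu2 b cend (hS b cend hend)
  let u0 : C(D.E, OO) := ⟨fun e => ⟨u e, idem_mem_OO _ (hu3 e)⟩,
    Continuous.subtype_mk u.continuous _⟩
  refine ⟨u0, ?_⟩
  intro w hw
  have h0 : e0 ∈ OO := idem_mem_OO e0 e0_idem'
  have hA : Homotopic w (ContinuousMap.const B (⟨e0, h0⟩ : OO)) := by
    have h1 : Homotopic ((w.comp D.p).comp (qs D cst)) (u0.comp (qs D cst)) :=
      Homotopic.comp hw (Homotopic.refl _)
    have e1 : (w.comp D.p).comp (qs D cst) = w := by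
      ext1 b
      rfl
    have e2 : u0.comp (qs D cst) = ContinuousMap.const B (⟨e0, h0⟩ : OO) := by
      ext1 b
      exact Subtype.ext (hsg b)
    rwa [e1, e2] at h1
  have hB : Homotopic (ContinuousMap.const D.E (⟨e0, h0⟩ : OO)) u0 := by
    have h1 : Homotopic (w.comp D.p) ((ContinuousMap.const B (⟨e0, h0⟩ : OO)).comp D.p) :=
      Homotopic.comp hA (Homotopic.refl _)
    exact h1.symm.trans hw
  obtain ⟨g, hg⟩ := conj_of_homotopic u0 (fun e => hu3 e) h0 hB
  refine no_conj u g hg (qs D cst) (qs D cend) hsg hκ ?_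
  intro η hη
  obtain ⟨n, bb, α, γ, a1, a2, a3, a4, a5, a6⟩ := H (min η (ds * η)) (lt_min hη (by positivity))
  refine ⟨n, bb, qa D bb α, qa D bb γ, qt D ds hds bb α, ?_, ?_, ?_, ?_, ?_, ?_, ?_⟩
  · intro w s
    rw [qa_apply, qt_apply]
    by_cases h : D.dl (bb w.1) (α (w, s)) ≤ 2 * ds
    · rw [hu1 _ _ h, a2 w s]
    · push Not at h
      have h2 : ds ≤ D.dl (bb w.1) (α (w, s)) := by linarith
      rw [hu2 _ _ h2, min_eq_left ((one_le_div hds).2 h2)]
      exact (em_one _ (Units.isUnit _)).symm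
  · intro w
    apply Subtype.ext
    rw [qt_apply]
    exact min_eq_left ((one_le_div hds).2 (hS _ _ (a3 w)))
  · intro w
    rw [qt_apply]
    refine (min_le_right _ _).trans ?_
    rw [div_le_iff₀ hds]
    have := (a1 w).trans (min_le_right _ _)
    linarith
  · intro w
    rw [qa_apply, qs_apply, D.dist_Q]
    unfold FD.dT
    have h1 := (a1 w).trans (min_le_left _ _)
    refine (add_le_add (le_of_eq (dist_self _)) (min_le_right _ _)).trans ?_
    show 0 + (D.dl (bb w.1) (α (w, 0)) + D.dl (bb w.1) cst) ≤ η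
    rw [hdc]
    linarith
  · intro w
    rw [qa_apply, qa_apply, a4]
  · intro w
    rw [qa_apply, a5, qs_apply]
  · rintro ⟨w, s⟩
    rw [qa_apply]
    exact hu2 _ _ (hS _ _ (a6 (w, s)))

end
end BB
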